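import Pool.Agent.helper2.NIG.L28

/-!
# NIG-L29: locks on long intervals have bounded drift (M1), visible twins have local witnesses (M6)

PROOFS.
* `lock_drift`: `consts`, `m1` from `Dir_unique` for `C0`, `Q, N', B` from `exists_DR` (`w1 = w`, `q0 = m1`), `k = K (Q + w + 1)`, `n00`
  from `crun_follow` (`Q`, `w1 = w`, `c = Q`), `n0 = max N' n00`, `c0` from `lock_E` for `n0`,
  `l0 = c0 + ρ k + w + 2 Q`. Let `h` be the run of `x`, `I = {m : ℤ | -a - Q ≤ m Q ≤ a' + Q}` (order connected, contains `0`).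
  For `m ∈ I` `h m` is reached in `Icc (-a - Q - w - ρ k) (a' + Q + w + ρ k)` (induction from `0` upwards and downwards, `W_reach`),
  so `lock_move`, `lock_E`: `E n0 (h m x) (h m y)`. `exists_DR` in both directions: signs equal (`Dir_unique`), so
  `|disp (h m) y - σ m Q| ≤ B` for `m ∈ I`. `crun_follow` with `J = Icc (-a) a'` (`v ∈ W (K (Q + w + 1))`): for `g` reached in
  `J` let `m = disp g x / Q ∈ I`; `CONN`: `g x = v (h m x)`, `v ∈ W k`; so `g y = v (h m y)` and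
  `|disp g y - σ disp g x| ≤ 2 ρ k + B + w =: C`.
* `visible_loop`: let `c1 = R + ρ + 1 + w`. For each `|n'| ≤ c1`, `φ'`, `h'` with both twins in `D` and not `Rel` there is (by `rel_of_le`)
  `g' ∈ G` fixing `tw b h' n' φ'` and not `tw b (!h') n' φ'`; all of them in `W l` for one `l` (finitely many triples,
  `exists_W`, `W_mono`). `w0 = R + 2 ρ + ρ l + c1`. Let `x = tw b h n φ`, `x1 = tw b (!h) n φ`, `u`, `v` be given.
  If `|n| ≤ c1`: the `g'` for `(n, φ, h)` is reached from `u` in the interval (`W_reach`), fixes `u` and not `v` (`fix_iff_of_agree`,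
  windows of radius `ρ l`).
  If `n < -c1` (the case `n > c1` is symmetric): `SYN` at `x` gives `g1 ∈ G` with `d = disp g1 x`,
  `-(R + ρ + 1) - w < n + d ≤ -(R + ρ + 1)`; `BCon` makes `g1` reached from `x` in `Icc (-R) (d + R)` (`d ≥ 0`). The windows of radius
  `ρ` of these points are on the left of the hole, where `x.1`, `x1.1`, `u.1`, `v.1` agree: `reach_congr_Icc` gives the
  same path for `x1`, `u`, `v`: `g1 x = tw b h (n+d) φ1`, `g1 x1 = tw b (!h) (n+d) φ1`, and `g1 u`, `g1 v` are at position `d` with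
  floor `φ1`. `g1 x`, `g1 x1` are not `Rel` (`Rel.map`), take `g' ∈ W l` for `(n + d, φ1, h)`. `g = g1⁻¹ * g' * g1` is
  reached from `u` in the interval, `g u = u` because `g' (g1 u) = g1 u` (`fix_iff_of_agree`, the windows of radius `ρ l` of `g1 u`
  and `g1 x` agree), and `g v ≠ v` because `g' (g1 v) ≠ g1 v` (windows of `g1 v` and `g1 x1` agree).
-/

namespace Pool.Agent.helper98.NIG

variable {b : Base} {F : Type}

namespace Sys

private theorem perm_inv_self29 {α : Type*} (g : Equiv.Perm α) (x : α) : g⁻¹ (g x) = x :=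
  g.symm_apply_apply x

/-- M1 for locks over long intervals -/
theorem lock_drift [Finite F] {A : Sys b F} (hA : A.Reduced) {R w : ℕ} (hR : A.BCon R)
    (hw : A.SYN w) : ∃ l0 C : ℕ, ∀ x ∈ A.D, ∀ y ∈ A.D, ∀ a a' : ℕ,
      A.Lock (Set.Icc (-(a : ℤ) - l0) ((a' : ℤ) + l0)) x y →
      ∃ σ : ℤ, (σ = 1 ∨ σ = -1) ∧ ∀ g, A.Reach x (Set.Icc (-(a : ℤ)) a') g →
        |disp g y - σ * disp g x| ≤ C := by
  obtain ⟨Cs, K, C0, κ, hCs, hK, hLC⟩ := consts hR hw
  obtain ⟨m1, hm1⟩ := Dir_unique hR hw C0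
  obtain ⟨Q, N', B0, hQ1, hQ0, hrun⟩ := exists_DR hA hR hw hCs hK hLC w m1
  obtain ⟨n00, hfol⟩ := crun_follow hK Q w Q hQ0
  obtain ⟨c0, hc0⟩ := lock_E hA hR hw (max N' n00)
  have hQ0' : (0 : ℤ) < Q := by exact_mod_cast hQ0
  refine ⟨c0 + A.ρ * (K * (Q + w + 1)) + w + 2 * Q, A.ρ * (K * (Q + w + 1)) + B0 + Q,
    fun x hx y hy a a' hl => ?_⟩
  obtain ⟨h, hr⟩ := exists_run hw hK Q hx
  -- the index set
  set I : Set ℤ := {m : ℤ | -(a : ℤ) - Q ≤ m * Q ∧ m * Q ≤ a' + Q} with hI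
  set J : Set ℤ := Set.Icc (-(a : ℤ) - ((c0 + A.ρ * (K * (Q + w + 1)) + w + 2 * Q : ℕ) : ℤ))
    ((a' : ℤ) + ((c0 + A.ρ * (K * (Q + w + 1)) + w + 2 * Q : ℕ) : ℤ)) with hJ
  obtain ⟨r, hr0⟩ : ∃ r : ℕ, r = A.ρ * (K * (Q + w + 1)) := ⟨_, rfl⟩
  rw [← hr0] at hJ
  have h0J : (0 : ℤ) ∈ J := by
    rw [hJ]
    constructor <;> push_cast <;> omega
  have h0I : (0 : ℤ) ∈ I := by
    rw [hI]
    constructor <;> omega
  have hdisp : ∀ m ∈ I, -(a : ℤ) - Q ≤ disp (h m) x ∧ disp (h m) x ≤ a' + Q + w := by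
    intro m hm
    have h1 := hr.low m
    have h2 := hr.up m
    exact ⟨hm.1.trans h1, by linarith [hm.2]⟩
  have hIconn : I.OrdConnected := by
    refine ⟨fun m hm m' hm' t ht => ⟨hm.1.trans ?_, le_trans ?_ hm'.2⟩⟩
    · exact mul_le_mul_of_nonneg_right ht.1 hQ0'.le
    · exact mul_le_mul_of_nonneg_right ht.2 hQ0'.le
  -- one step
  have hstep : ∀ m ∈ I, A.Reach x J (h m) → ∀ u ∈ A.W (K * (Q + w + 1)),
      A.Reach x J (u * h m) := by
    intro m hm hm' u hu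
    refine hm'.trans ((W_reach hu (h m x)).mono fun k hk => ?_)
    obtain ⟨h1, h2⟩ := hdisp m hm
    rw [← hr0] at hk
    obtain ⟨h3, h4⟩ := hk
    show k + disp (h m) x ∈ J
    rw [hJ]
    constructor <;> push_cast <;> linarith
  have hreach : ∀ m : ℤ, m ∈ I → A.Reach x J (h m) := by
    intro m
    induction m using Int.induction_on with
    | zero => intro _; rw [hr.zero]; exact Reach.one
    | succ m ih =>
      intro hm
      have hm' : (m : ℤ) ∈ I := hIconn.out h0I hm ⟨by omega, by omega⟩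
      obtain ⟨u, hu, hu'⟩ := hr.step m
      rw [hu']
      exact hstep _ hm' (ih hm') u hu
    | pred m ih =>
      intro hm
      have hm' : -(m : ℤ) ∈ I := hIconn.out hm h0I ⟨by omega, by omega⟩
      obtain ⟨u, hu, hu'⟩ := hr.step (-(m : ℤ) - 1)
      rw [sub_add_cancel] at hu'
      have e : h (-(m : ℤ) - 1) = u⁻¹ * h (-(m : ℤ)) := by
        rw [hu', inv_mul_cancel_left]
      rw [e]
      exact hstep _ hm' (ih hm') _ (A.W_inv hu)
  have hE : ∀ m ∈ I, A.E (max N' n00) (h m x) (h m y) := by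
    intro m hm
    refine hc0 _ (A.map_mem (hr.mem m) hx) _ (A.map_mem (hr.mem m) hy) ?_
    refine Lock.mono ?_ (lock_move h0J hl (hreach m hm))
    intro k hk
    obtain ⟨h1, h2⟩ := hdisp m hm
    obtain ⟨h3, h4⟩ := hk
    show k + disp (h m) x ∈ J
    rw [hJ]
    constructor <;> push_cast <;> linarith
  have hEN : ∀ m ∈ I, A.E N' (h m x) (h m y) := fun m hm => E_mono (le_max_left _ _) (hE m hm)
  have hE0 : ∀ m ∈ I, A.E n00 (h m x) (h m y) := fun m hm => E_mono (le_max_right _ _) (hE m hm)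
  -- positive direction
  have hpos : ∀ M : ℕ, (M : ℤ) ∈ I → ∃ σ : ℤ, (σ = 1 ∨ σ = -1) ∧ A.Dir C0 Q σ x y ∧
      |disp (h (M : ℤ)) y - σ * M * Q| ≤ B0 := by
    intro M hM
    have hMI : ∀ m ≤ M, (m : ℤ) ∈ I := fun m hm =>
      hIconn.out h0I hM ⟨by omega, by exact_mod_cast hm⟩
    obtain ⟨σ, hσ, h1, h2⟩ := hrun 1 (Or.inl rfl) x hx y hy M (fun m => h (m : ℤ))
      (fun m _ => hr.mem _)
      (fun m _ => by
        have h1 := hr.low m
        have h2 := hr.up m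
        rw [one_mul, abs_le]
        constructor <;> linarith)
      (fun m _ => by
        obtain ⟨u, hu, hu'⟩ := hr.step m
        exact ⟨u, hu, by push_cast; exact hu'⟩)
      (fun m hm => hEN _ (hMI m hm))
    refine ⟨σ, hσ, by simpa [hr.zero] using h1, ?_⟩
    have h3 := h2 M le_rfl
    simp only [Nat.cast_zero, hr.zero, disp_one, sub_zero, mul_one] at h3
    exact h3
  have hneg : ∀ M : ℕ, -(M : ℤ) ∈ I → ∃ σ : ℤ, (σ = 1 ∨ σ = -1) ∧ A.Dir C0 Q σ x y ∧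
      |disp (h (-(M : ℤ))) y + σ * M * Q| ≤ B0 := by
    intro M hM
    have hMI : ∀ m ≤ M, -(m : ℤ) ∈ I := fun m hm =>
      hIconn.out hM h0I ⟨by omega, by omega⟩
    obtain ⟨σ, hσ, h1, h2⟩ := hrun (-1) (Or.inr rfl) x hx y hy M (fun m => h (-(m : ℤ)))
      (fun m _ => hr.mem _)
      (fun m _ => by
        have h1 := hr.low (-(m : ℤ))
        have h2 := hr.up (-(m : ℤ))
        rw [abs_le]
        constructor <;> linarith)
      (fun m _ => by
        obtain ⟨u, hu, hu'⟩ := hr.step (-((m : ℤ) + 1))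
        refine ⟨u⁻¹, A.W_inv hu, ?_⟩
        have e : -((m : ℤ) + 1) + 1 = -(m : ℤ) := by ring
        rw [e] at hu'
        push_cast
        rw [hu', inv_mul_cancel_left])
      (fun m hm => hEN _ (hMI m hm))
    refine ⟨σ, hσ, by simpa [hr.zero] using h1, ?_⟩
    have h3 := h2 M le_rfl
    simp only [Nat.cast_zero, neg_zero, hr.zero, disp_one, sub_zero] at h3
    have e : disp (h (-(M : ℤ))) y + σ * M * Q = disp (h (-(M : ℤ))) y - σ * -1 * M * Q := by ring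
    rw [e]
    exact h3
  obtain ⟨σ, hσ, hdir, -⟩ := hpos 0 (by simpa using h0I)
  refine ⟨σ, hσ, ?_⟩
  have hall : ∀ m ∈ I, |disp (h m) y - σ * m * Q| ≤ B0 := by
    intro m hmI
    rcases le_total 0 m with hm | hm
    · obtain ⟨n, rfl⟩ := Int.eq_ofNat_of_zero_le hm
      obtain ⟨σ', hσ', hdir', h1⟩ := hpos n hmI
      have e := hm1 x hx y Q hQ1 σ σ' hσ hσ' hdir hdir'
      rw [e]
      exact h1
    · obtain ⟨n, hn⟩ := Int.eq_ofNat_of_zero_le (neg_nonneg.2 hm)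
      have e2 : m = -(n : ℤ) := by rw [← hn]; ring
      obtain ⟨σ', hσ', hdir', h1⟩ := hneg n (by rw [← e2]; exact hmI)
      have e := hm1 x hx y Q hQ1 σ σ' hσ hσ' hdir hdir'
      rw [e, e2]
      have e3 : disp (h (-(n : ℤ))) y - σ' * -(n : ℤ) * Q =
          disp (h (-(n : ℤ))) y + σ' * n * Q := by ring
      rw [e3]
      exact h1
  have hcrun : A.CRun K Q w 1 I x h :=
    { zero := hr.zero
      zero_mem := h0I
      conn := hIconn
      mem := fun m _ => hr.mem m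
      near := fun m _ => hr.crun.near m trivial
      step := fun m _ _ => hr.step m }
  have hindex : ∀ p ∈ Set.Icc (-(a : ℤ)) a', p / Q ∈ I ∧ p / Q * Q ≤ p ∧ p < p / Q * Q + Q := by
    intro p hp
    have hlo : p / Q * Q ≤ p := Int.ediv_mul_le _ hQ0'.ne'
    have hup : p < p / Q * Q + Q := by
      have := Int.lt_ediv_add_one_mul_self p hQ0'
      linarith
    exact ⟨⟨by linarith [hp.1], by linarith [hp.2]⟩, hlo, hup⟩
  have h0J' : (0 : ℤ) ∈ Set.Icc (-(a : ℤ)) a' := ⟨by omega, by omega⟩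
  intro g hg
  have hgG : g ∈ A.G := hg.mem_G
  obtain ⟨hmI, hl', hup⟩ := hindex _ (hg.disp_mem h0J')
  set m : ℤ := disp g x / Q with hm
  have hgm : g * (h m)⁻¹ ∈ A.G := mul_mem hgG (A.G.inv_mem (hr.mem m))
  obtain ⟨v, hv1, hv2⟩ := hK (h m x) (A.map_mem (hr.mem m) hx) _ hgm
  have e1 : (g * (h m)⁻¹) (h m x) = g x := by
    rw [Equiv.Perm.mul_apply, perm_inv_self29]
  have e2 : disp (g * (h m)⁻¹ * h m) x = disp (g * (h m)⁻¹) (h m x) + disp (h m) x :=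
    disp_mul (A.G_le_PW hgm) (A.G_le_PW (hr.mem m)) x
  rw [inv_mul_cancel_right] at e2
  have hv3 : v ∈ A.W (K * (Q + w + 1)) := by
    refine A.W_mono (Nat.mul_le_mul_left K (Nat.succ_le_succ ?_)) hv1
    have h1 := hr.low m
    have h2 := hr.up m
    omega
  have hvG : v ∈ A.G := A.W_le_G hv3
  have hvy : g y = v (h m y) := by
    refine hfol 1 (Or.inl rfl) I (Set.Icc (-(a : ℤ)) a') h0J' (fun p hp => ?_) x hx y hy h hcrun
      hE0 g hg m hmI v hv3 (by rw [hv2, e1])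
    obtain ⟨h1, h2, h3⟩ := hindex p hp
    refine ⟨p / Q, h1, ?_⟩
    rw [one_mul, abs_le]
    constructor <;> linarith
  have e3 : disp (v * h m) y = disp v (h m y) + disp (h m) y :=
    disp_mul (A.G_le_PW hvG) (A.G_le_PW (hr.mem m)) y
  have e4 : disp (v * h m) y = disp g y := by
    unfold disp
    rw [Equiv.Perm.mul_apply, hvy]
  have h1 := A.abs_disp_W hv3 (h m y)
  have h2 := hall m hmI
  push_cast
  push_cast at h1
  rw [← e4, e3]
  have h3 : |σ * (m * Q) - σ * disp g x| ≤ Q := by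
    rw [← mul_sub, abs_mul]
    have h4 : |σ| = 1 := by rcases hσ with rfl | rfl <;> simp
    rw [h4, one_mul, abs_le]
    constructor <;> linarith
  have h5 : disp v (h m y) + disp (h m) y - σ * disp g x =
      disp v (h m y) + (disp (h m) y - σ * m * Q) + (σ * (m * Q) - σ * disp g x) := by ring
  rw [h5]
  refine (abs_add_le _ _).trans ?_
  have h6 := abs_add_le (disp v (h m y)) (disp (h m) y - σ * m * Q)
  linarith

private theorem vl_const [Finite F] {A : Sys b F} (hA : A.Reduced) {R w : ℕ} (hR : A.BCon R)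
    (hw : A.SYN w) (c1 : ℕ) : ∃ l : ℕ, ∀ (h : Bool) (n : ℤ) (φ : F), |n| ≤ c1 →
      tw b h n φ ∈ A.D → tw b (!h) n φ ∈ A.D → ¬ A.Rel (tw b h n φ) (tw b (!h) n φ) →
      ∃ g ∈ A.W l, g (tw b h n φ) = tw b h n φ ∧ g (tw b (!h) n φ) ≠ tw b (!h) n φ := by
  have key : ∀ t : Bool × Set.Icc (-(c1 : ℤ)) (c1 : ℤ) × F, ∃ l : ℕ,
      tw b t.1 t.2.1 t.2.2 ∈ A.D → tw b (!t.1) t.2.1 t.2.2 ∈ A.D →
      ¬ A.Rel (tw b t.1 t.2.1 t.2.2) (tw b (!t.1) t.2.1 t.2.2) →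
      ∃ g ∈ A.W l, g (tw b t.1 t.2.1 t.2.2) = tw b t.1 t.2.1 t.2.2 ∧
        g (tw b (!t.1) t.2.1 t.2.2) ≠ tw b (!t.1) t.2.1 t.2.2 := by
    rintro ⟨h, ⟨n, hn⟩, φ⟩
    dsimp only
    by_cases hc : tw b h n φ ∈ A.D ∧ tw b (!h) n φ ∈ A.D ∧
        ¬ A.Rel (tw b h n φ) (tw b (!h) n φ)
    · obtain ⟨h1, h2, h3⟩ := hc
      have h4 : ∃ g ∈ A.G, g (tw b h n φ) = tw b h n φ ∧
          g (tw b (!h) n φ) ≠ tw b (!h) n φ := by
        by_contra hcon
        push Not at hcon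
        exact h3 (rel_of_le hA hR hw h1 h2 hcon)
      obtain ⟨g, hg, h5, h6⟩ := h4
      obtain ⟨l, hl⟩ := A.exists_W hg
      exact ⟨l, fun _ _ _ => ⟨g, hl, h5, h6⟩⟩
    · exact ⟨0, fun h1 h2 h3 => absurd ⟨h1, h2, h3⟩ hc⟩
  choose f hf using key
  obtain ⟨l, hl⟩ := (Set.finite_range f).bddAbove
  refine ⟨l, fun h n φ hn h1 h2 h3 => ?_⟩
  obtain ⟨g, hg, h4, h5⟩ := hf (h, ⟨n, abs_le.1 hn⟩, φ) h1 h2 h3
  exact ⟨g, A.W_mono (hl ⟨_, rfl⟩) hg, h4, h5⟩

/-- windows of the images -/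
private theorem vl_agree {A : Sys b F} {g : Equiv.Perm (Pt b F)} (hg : g ∈ A.G) {x u : Pt b F}
    {N : ℕ} (hd : disp g u = disp g x) (h2 : (g u).2 = (g x).2)
    (h : ∀ j : ℤ, |j| ≤ N → u.1.1 (j + disp g x) = x.1.1 (j + disp g x)) :
    Agree N (g u) (g x) := by
  have e1 : g u = (sh (disp g u) u.1, (g u).2) :=
    eq_of_pos (sameLine_of_mem_PW (A.G_le_PW hg) u)
  have e2 : g x = (sh (disp g x) x.1, (g x).2) :=
    eq_of_pos (sameLine_of_mem_PW (A.G_le_PW hg) x)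
  refine ⟨h2, fun j hj => ?_⟩
  rw [e1, e2, hd]
  exact h j hj

private theorem vl_key {A : Sys b F} {l c1 : ℕ}
    (hl : ∀ (h : Bool) (n : ℤ) (φ : F), |n| ≤ c1 →
      tw b h n φ ∈ A.D → tw b (!h) n φ ∈ A.D → ¬ A.Rel (tw b h n φ) (tw b (!h) n φ) →
      ∃ g ∈ A.W l, g (tw b h n φ) = tw b h n φ ∧ g (tw b (!h) n φ) ≠ tw b (!h) n φ)
    {a a' : ℤ} (h0 : (0 : ℤ) ∈ Set.Icc a a') {h : Bool} {n : ℤ} {φ : F}
    (hx : tw b h n φ ∈ A.D) (hx1 : tw b (!h) n φ ∈ A.D)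
    (hr : ¬ A.Rel (tw b h n φ) (tw b (!h) n φ)) {u v : Pt b F}
    (hw : ∀ k : ℤ, a ≤ k → k ≤ a' →
      u.1.1 k = (sg b h).1 (k + n) ∧ v.1.1 k = (sg b (!h)).1 (k + n))
    {g1 : Equiv.Perm (Pt b F)} (hreach : A.Reach u (Set.Icc a a') g1)
    (dx1 : disp g1 (tw b (!h) n φ) = disp g1 (tw b h n φ))
    (du : disp g1 u = disp g1 (tw b h n φ)) (dv : disp g1 v = disp g1 (tw b h n φ))
    (sx1 : (g1 (tw b (!h) n φ)).2 = (g1 (tw b h n φ)).2)
    (su : (g1 u).2 = (g1 (tw b h n φ)).2) (sv : (g1 v).2 = (g1 (tw b h n φ)).2)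
    (hd : |n + disp g1 (tw b h n φ)| ≤ c1)
    (ha : a ≤ disp g1 (tw b h n φ) - (A.ρ * l : ℕ))
    (ha' : disp g1 (tw b h n φ) + (A.ρ * l : ℕ) ≤ a') :
    ¬ A.Lock (Set.Icc a a') u v := by
  intro hlock
  have hg1 : g1 ∈ A.G := hreach.mem_G
  have hlock1 := lock_move h0 hlock hreach
  have e1 := map_tw (A.G_le_PW hg1) h n φ
  have e2 := map_tw (A.G_le_PW hg1) (!h) n φ
  rw [dx1, sx1] at e2
  set d : ℤ := disp g1 (tw b h n φ) with hdd
  set φ1 : F := (g1 (tw b h n φ)).2 with hφ1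
  have hxD : tw b h (n + d) φ1 ∈ A.D := by rw [← e1]; exact A.map_mem hg1 hx
  have hx1D : tw b (!h) (n + d) φ1 ∈ A.D := by rw [← e2]; exact A.map_mem hg1 hx1
  have hnr : ¬ A.Rel (tw b h (n + d) φ1) (tw b (!h) (n + d) φ1) := by
    rw [← e1, ← e2]
    intro hcon
    apply hr
    have h1 := Rel.map hcon (A.G.inv_mem hg1)
    rwa [perm_inv_self29, perm_inv_self29] at h1
  obtain ⟨g', hg', h3, h4⟩ := hl h (n + d) φ1 hd hxD hx1D hnr
  rw [← e1] at h3
  rw [← e2] at h4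
  have hab : ∀ j : ℤ, |j| ≤ (A.ρ * l : ℕ) → a ≤ j + d ∧ j + d ≤ a' := by
    intro j hj
    obtain ⟨h5, h6⟩ := abs_le.1 hj
    exact ⟨by linarith, by linarith⟩
  have hag : Agree (A.ρ * l) (g1 u) (g1 (tw b h n φ)) := by
    refine vl_agree hg1 du su fun j hj => ?_
    rw [← hdd]
    exact (hw _ (hab j hj).1 (hab j hj).2).1
  have hag1 : Agree (A.ρ * l) (g1 v) (g1 (tw b (!h) n φ)) := by
    refine vl_agree hg1 (by rw [dv, dx1]) (by rw [sv, sx1]) fun j hj => ?_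
    rw [dx1]
    exact (hw _ (hab j hj).1 (hab j hj).2).2
  have h5 : g' (g1 u) = g1 u := (fix_iff_of_agree (A.W_isPW hg') hag).2 h3
  have h6 : A.Reach (g1 u) {k | k + disp g1 u ∈ Set.Icc a a'} g' := by
    refine (W_reach hg' (g1 u)).mono fun k hk => ?_
    show k + disp g1 u ∈ Set.Icc a a'
    rw [du]
    exact ⟨by linarith [hk.1], by linarith [hk.2]⟩
  exact h4 ((fix_iff_of_agree (A.W_isPW hg') hag1).1 (hlock1 g' h6 h5))

/-- the two singular points agree outside of the hole -/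
private theorem vl_sg (h : Bool) {m : ℤ} (hm : m ≠ 0) : (sg b h).1 m = (sg b (!h)).1 m := by
  show skel b h m = skel b (!h) m
  unfold skel
  rw [if_neg hm, if_neg hm]

/-- M6: a pair which looks like a visible twin pair on a window is not locked over this window -/
theorem visible_loop [Finite F] {A : Sys b F} (hA : A.Reduced) {R w : ℕ} (hR : A.BCon R)
    (hw : A.SYN w) : ∃ w0 : ℕ, ∀ (h : Bool) (n : ℤ) (φ : F), tw b h n φ ∈ A.D →
      tw b (!h) n φ ∈ A.D → ¬ A.Rel (tw b h n φ) (tw b (!h) n φ) → ∀ u v : Pt b F,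
      u.2 = φ → v.2 = φ → (∀ k : ℤ, min 0 (-n) - w0 ≤ k → k ≤ max 0 (-n) + w0 →
        u.1.1 k = (sg b h).1 (k + n) ∧ v.1.1 k = (sg b (!h)).1 (k + n)) →
      ¬ A.Lock (Set.Icc (min 0 (-n) - w0) (max 0 (-n) + w0)) u v := by
  obtain ⟨l, hl⟩ := vl_const hA hR hw (R + A.ρ + 1 + w)
  refine ⟨R + 2 * A.ρ + A.ρ * l + (R + A.ρ + 1 + w), fun h n φ hx hx1 hnr u v hu hv huv => ?_⟩
  obtain ⟨r, hr⟩ : ∃ r : ℕ, r = A.ρ * l := ⟨_, rfl⟩
  have h0 : (0 : ℤ) ∈ Set.Icc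
      (min 0 (-n) - ((R + 2 * A.ρ + A.ρ * l + (R + A.ρ + 1 + w) : ℕ) : ℤ))
      (max 0 (-n) + ((R + 2 * A.ρ + A.ρ * l + (R + A.ρ + 1 + w) : ℕ) : ℤ)) := by
    rw [← hr]
    constructor <;> push_cast <;> omega
  -- a path which stays away from the hole
  have main : ∀ g1 : Equiv.Perm (Pt b F), ∀ d : ℤ, disp g1 (tw b h n φ) = d →
      A.Reach (tw b h n φ) (Set.Icc (min 0 d - R) (max 0 d + R)) g1 →
      (∀ k : ℤ, min 0 d - R - A.ρ ≤ k → k ≤ max 0 d + R + A.ρ → k + n ≠ 0) →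
      min 0 (-n) ≤ d → d ≤ max 0 (-n) → |n + d| ≤ ((R + A.ρ + 1 + w : ℕ) : ℤ) →
      ¬ A.Lock (Set.Icc (min 0 (-n) - ((R + 2 * A.ρ + A.ρ * l + (R + A.ρ + 1 + w) : ℕ) : ℤ))
        (max 0 (-n) + ((R + 2 * A.ρ + A.ρ * l + (R + A.ρ + 1 + w) : ℕ) : ℤ))) u v := by
    intro g1 d hd hg1 hhole hd1 hd2 hd3
    have h0' : (0 : ℤ) ∈ Set.Icc (min 0 d - (R : ℤ)) (max 0 d + R) := by
      constructor <;> omega
    have hin : ∀ k ∈ Set.Icc (min 0 d - (R : ℤ)) (max 0 d + R), ∀ j : ℤ, |j| ≤ A.ρ →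
        (min 0 d - R - A.ρ ≤ k + j ∧ k + j ≤ max 0 d + R + A.ρ) ∧
        (min 0 (-n) - ((R + 2 * A.ρ + A.ρ * l + (R + A.ρ + 1 + w) : ℕ) : ℤ) ≤ k + j ∧
          k + j ≤ max 0 (-n) + ((R + 2 * A.ρ + A.ρ * l + (R + A.ρ + 1 + w) : ℕ) : ℤ)) := by
      intro k hk j hj
      obtain ⟨h1, h2⟩ := abs_le.1 hj
      obtain ⟨h3, h4⟩ := hk
      rw [← hr]
      refine ⟨⟨by omega, by omega⟩, ?_, ?_⟩ <;> push_cast <;> omega
    obtain ⟨-, dx1, sx1⟩ := reach_congr_Icc (x := tw b h n φ) (x' := tw b (!h) n φ) h0' rfl (fun k hk j hj => by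
      obtain ⟨⟨h1, h2⟩, -⟩ := hin k hk j hj
      exact vl_sg h (hhole _ h1 h2)) hg1
    obtain ⟨ru, du, su⟩ := reach_congr_Icc (x' := u) h0' hu.symm (fun k hk j hj => by
      obtain ⟨-, h1, h2⟩ := hin k hk j hj
      exact (huv _ h1 h2).1.symm) hg1
    obtain ⟨-, dv, sv⟩ := reach_congr_Icc (x' := v) h0' hv.symm (fun k hk j hj => by
      obtain ⟨⟨h1, h2⟩, h3, h4⟩ := hin k hk j hj
      exact (vl_sg h (hhole _ h1 h2)).trans (huv _ h3 h4).2.symm) hg1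
    refine vl_key hl h0 hx hx1 hnr huv (ru.mono ?_) dx1 du dv sx1 su sv ?_ ?_ ?_
    · intro k hk
      obtain ⟨-, h1, h2⟩ := hin k hk 0 (by rw [abs_zero]; positivity)
      rw [add_zero] at h1 h2
      exact ⟨h1, h2⟩
    · rw [hd]; exact hd3
    · rw [hd, ← hr]; push_cast; omega
    · rw [hd, ← hr]; push_cast; omega
  rcases le_or_gt (|n|) ((R + A.ρ + 1 + w : ℕ) : ℤ) with hn | hn
  · -- the hole is near
    refine vl_key (g1 := 1) hl h0 hx hx1 hnr huv Reach.one ?_ ?_ ?_ rfl hu hv ?_ ?_ ?_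
    · rw [disp_one, disp_one]
    · rw [disp_one, disp_one]
    · rw [disp_one, disp_one]
    · rw [disp_one, add_zero]; exact hn
    · rw [disp_one, ← hr]; push_cast; omega
    · rw [disp_one, ← hr]; push_cast; omega
  · have hpath : ∀ m0 : ℤ, ∃ g1 : Equiv.Perm (Pt b F), m0 ≤ disp g1 (tw b h n φ) ∧
        disp g1 (tw b h n φ) < m0 + w ∧
        A.Reach (tw b h n φ) (Set.Icc (min 0 (disp g1 (tw b h n φ)) - (R : ℤ))
          (max 0 (disp g1 (tw b h n φ)) + R)) g1 := by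
      intro m0
      obtain ⟨g, hg, h1, h2⟩ := hw (tw b h n φ) hx m0
      obtain ⟨g1, h3, h4⟩ := hR (tw b h n φ) hx g hg
      have e : disp g1 (tw b h n φ) = disp g (tw b h n φ) := by
        unfold disp
        rw [h4]
      refine ⟨g1, ?_, ?_, ?_⟩ <;> rw [e]
      · exact h1
      · exact h2
      · exact h3
    push_cast at hn
    rcases le_total 0 n with hn0 | hn0
    · rw [abs_of_nonneg hn0] at hn
      obtain ⟨g1, h1, h2, h3⟩ := hpath (-n + (R + A.ρ + 1))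
      refine main g1 _ rfl h3 (fun k hk1 hk2 => ?_) ?_ ?_ ?_
      · omega
      · omega
      · omega
      · rw [abs_le]; push_cast; constructor <;> omega
    · rw [abs_of_nonpos hn0] at hn
      obtain ⟨g1, h1, h2, h3⟩ := hpath (-n - (R + A.ρ + 1) - w + 1)
      refine main g1 _ rfl h3 (fun k hk1 hk2 => ?_) ?_ ?_ ?_
      · omega
      · omega
      · omega
      · rw [abs_le]; push_cast; constructor <;> omega

end Sys

end Pool.Agent.helper98.NIG
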