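import Pool.Agent.helper2.NIG.LDefs

/-!
# NIG-L01: words and locks of finite word length

PROOFS. All by induction on `n`. `W_mono`: `1 ∈ S`, so `g ∈ W n` gives `g = 1 * g ∈ W (n+1)`.
`W_mul`: induction on `n` (the first factor), `mul_assoc`. `W_inv`: `(s * h)⁻¹ = h⁻¹ * s⁻¹`,
`W_mul` with `s⁻¹ ∈ W 1`. `W_finite`: `W (n+1)` is the image of `S ×ˢ W n` under multiplication.
`exists_W`: `Subgroup.closure_induction`. `W_isPW`: `IsPW.comp`, `IsPW.one`. `disp_W`: `abs_disp_le`.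
`E_of_agree`: `fix_iff_of_agree` (B05) with radius `ρ n`. `E_map`: `h ∈ W n`, `h (g x) = g x` iff
`(g⁻¹ * h * g) x = x`, and `g⁻¹ * h * g ∈ W (m + n + m)`. `E_eq`: `g x = h x` iff `(h⁻¹ * g) x = x`.
`rel_iff`: `exists_W`. `rel_of_ulim_E`: `rel_of_ulim` (B05).
-/

namespace Pool.Agent.helper98.NIG

variable {b : Base} {F : Type}

namespace Sys

variable (A : Sys b F)

theorem one_mem_W (n : ℕ) : (1 : Equiv.Perm (Pt b F)) ∈ A.W n := by
  induction n with
  | zero => exact rfl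
  | succ n ih => exact ⟨1, A.one_mem, 1, ih, (one_mul 1).symm⟩

theorem W_mono {n m : ℕ} (h : n ≤ m) : A.W n ⊆ A.W m := by
  induction m, h using Nat.le_induction with
  | base => exact subset_rfl
  | succ m _ ih => exact fun g hg => ⟨1, A.one_mem, g, ih hg, (one_mul g).symm⟩

theorem mem_W_one {s : Equiv.Perm (Pt b F)} (hs : s ∈ A.S) : s ∈ A.W 1 := by
  exact ⟨s, hs, 1, rfl, (mul_one s).symm⟩

theorem W_mul {n m : ℕ} {g h : Equiv.Perm (Pt b F)} (hg : g ∈ A.W n) (hh : h ∈ A.W m) :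
    g * h ∈ A.W (n + m) := by
  induction n generalizing g with
  | zero =>
    have h1 : g = 1 := hg
    rw [h1, one_mul, Nat.zero_add]
    exact hh
  | succ n ih =>
    obtain ⟨s, hs, k, hk, rfl⟩ := hg
    rw [Nat.add_right_comm, mul_assoc]
    exact ⟨s, hs, k * h, ih hk, rfl⟩

theorem W_inv {n : ℕ} {g : Equiv.Perm (Pt b F)} (hg : g ∈ A.W n) : g⁻¹ ∈ A.W n := by
  induction n generalizing g with
  | zero =>
    have h1 : g = 1 := hg
    rw [h1, inv_one]
    exact rfl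
  | succ n ih =>
    obtain ⟨s, hs, k, hk, rfl⟩ := hg
    rw [mul_inv_rev]
    exact A.W_mul (ih hk) (A.mem_W_one (A.inv_mem s hs))

theorem W_finite (n : ℕ) : (A.W n).Finite := by
  induction n with
  | zero => exact Set.finite_singleton 1
  | succ n ih =>
    refine ((A.S.finite_toSet.prod ih).image fun q => q.1 * q.2).subset ?_
    rintro g ⟨s, hs, h, hh, rfl⟩
    exact ⟨(s, h), ⟨hs, hh⟩, rfl⟩

theorem W_le_G {n : ℕ} {g : Equiv.Perm (Pt b F)} (hg : g ∈ A.W n) : g ∈ A.G := by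
  induction n generalizing g with
  | zero =>
    have h1 : g = 1 := hg
    rw [h1]
    exact A.G.one_mem
  | succ n ih =>
    obtain ⟨s, hs, k, hk, rfl⟩ := hg
    exact A.G.mul_mem (A.mem_G_of_mem_S hs) (ih hk)

theorem exists_W {g : Equiv.Perm (Pt b F)} (hg : g ∈ A.G) : ∃ n : ℕ, g ∈ A.W n := by
  induction hg using Subgroup.closure_induction with
  | mem s hs => exact ⟨1, A.mem_W_one hs⟩
  | one => exact ⟨0, rfl⟩
  | mul g h _ _ ihg ihh =>
    obtain ⟨n, hn⟩ := ihg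
    obtain ⟨m, hm⟩ := ihh
    exact ⟨n + m, A.W_mul hn hm⟩
  | inv g _ ih =>
    obtain ⟨n, hn⟩ := ih
    exact ⟨n, A.W_inv hn⟩

theorem W_isPW {n : ℕ} {g : Equiv.Perm (Pt b F)} (hg : g ∈ A.W n) : IsPW (A.ρ * n) g := by
  induction n generalizing g with
  | zero =>
    have h1 : g = 1 := hg
    rw [h1]
    exact IsPW.one
  | succ n ih =>
    obtain ⟨s, hs, k, hk, rfl⟩ := hg
    refine ((A.pw s hs).1.comp (ih hk)).mono ?_
    rw [Nat.mul_succ, Nat.add_comm]

theorem abs_disp_W {n : ℕ} {g : Equiv.Perm (Pt b F)} (hg : g ∈ A.W n) (x : Pt b F) :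
    |disp g x| ≤ A.ρ * n := by
  have h := abs_disp_le (A.W_isPW hg) x
  push_cast at h
  exact h

theorem E_refl (n : ℕ) (x : Pt b F) : A.E n x x := fun _ _ => Iff.rfl

variable {A}

theorem E_symm {n : ℕ} {x y : Pt b F} (h : A.E n x y) : A.E n y x := fun g hg => (h g hg).symm

theorem E_trans {n : ℕ} {x y z : Pt b F} (h : A.E n x y) (h' : A.E n y z) : A.E n x z :=
  fun g hg => (h g hg).trans (h' g hg)

theorem E_mono {n m : ℕ} (hnm : n ≤ m) {x y : Pt b F} (h : A.E m x y) : A.E n x y :=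
  fun g hg => h g (A.W_mono hnm hg)

theorem E_of_agree {n N : ℕ} (hN : A.ρ * n ≤ N) {x x' : Pt b F} (h : Agree N x x') :
    A.E n x x' := by
  intro g hg
  refine fix_iff_of_agree (A.W_isPW hg) (h.mono hN)

theorem E_map {n m : ℕ} {x y : Pt b F} (h : A.E (n + 2 * m) x y) {g : Equiv.Perm (Pt b F)}
    (hg : g ∈ A.W m) : A.E n (g x) (g y) := by
  have key : ∀ (k : Equiv.Perm (Pt b F)) (z : Pt b F), k (g z) = g z ↔ (g⁻¹ * k * g) z = z := by
    intro k z
    rw [Equiv.Perm.mul_apply, Equiv.Perm.mul_apply, Equiv.Perm.inv_eq_iff_eq]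
  intro k hk
  rw [key, key]
  refine h _ (A.W_mono ?_ (A.W_mul (A.W_mul (A.W_inv hg) hk) hg))
  omega

theorem E_eq {n m : ℕ} {x y : Pt b F} (h : A.E (n + m) x y) {g h' : Equiv.Perm (Pt b F)}
    (hg : g ∈ A.W n) (hh : h' ∈ A.W m) : g x = h' x ↔ g y = h' y := by
  have key : ∀ z : Pt b F, g z = h' z ↔ (h'⁻¹ * g) z = z := by
    intro z
    rw [Equiv.Perm.mul_apply, Equiv.Perm.inv_eq_iff_eq]
  rw [key, key]
  refine h _ (A.W_mono ?_ (A.W_mul (A.W_inv hh) hg))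
  omega

theorem rel_iff {x y : Pt b F} : A.Rel x y ↔ ∀ n : ℕ, A.E n x y := by
  constructor
  · exact fun h n g hg => h g (A.W_le_G hg)
  · intro h g hg
    obtain ⟨n, hn⟩ := A.exists_W hg
    exact h n g hn

theorem rel_of_ulim_E {ι : Type*} {U : Ultrafilter ι} {u v : ι → Pt b F} {x y : Pt b F}
    (hu : ∀ N : ℕ, ∀ᶠ i in (U : Filter ι), Agree N (u i) x)
    (hv : ∀ N : ℕ, ∀ᶠ i in (U : Filter ι), Agree N (v i) y)
    (h : ∀ n : ℕ, ∀ᶠ i in (U : Filter ι), A.E n (u i) (v i)) : A.Rel x y := by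
  refine A.rel_of_ulim hu hv fun g hg => ?_
  obtain ⟨n, hn⟩ := A.exists_W hg
  exact (h n).mono fun i hi => hi g hn

/-- agreement is transported by words, radius version -/
theorem agree_W {n N : ℕ} {x x' : Pt b F} (h : Agree (A.ρ * n + N) x x')
    {g : Equiv.Perm (Pt b F)} (hg : g ∈ A.W n) :
    Agree N (g x) (g x') ∧ disp g x = disp g x' := by
  exact ⟨agree_map (A.W_isPW hg) h, disp_eq_of_agree (A.W_isPW hg) (h.mono (by omega))⟩

end Sys

end Pool.Agent.helper98.NIG
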