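import Pool.Agent.helper2.NIG.L01

/-!
# NIG-L02: paths of bounded length

PROOFS.
* `RW.mem_W`, `RW.mono`, `RW.reach`, `RW.disp_mem`: induction on `RW` (for `mono` in `n` use `one` with
  the larger number; step: `n + 1 ≤ m` gives `m = m' + 1`).
* `exists_RW_of_reach`: let `I = Set.Icc u v` with `0 ∈ I`. The set
  `Z = {(k, φ) | k ∈ I}` is finite with `M = (v - u + 1) * card F` elements. For `j : ℕ` let
  `B j = {q ∈ Z | ∃ g, RW x I j g ∧ disp g x = q.1 ∧ (g x).2 = q.2}`. `B` is increasing, and if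
  `B j = B (j+1)` then `B (j+1) = B (j+2)` (a point of `B (j+2)` is `s` applied to a point of
  `B (j+1) = B j`; NOTE that `s (g x)` depends only on the point `g x`, which is determined by
  `disp g x` and `(g x).2`, see `eq_of_pos`). Hence `B j = B M` for all `j ≥ M` (`ncard (B j) ≥ j + 1` as
  long as it grows strictly; `B 0` contains `(0, x.2)`). A path `Reach x I g` gives a point of some `B j`
  (induction on `Reach`), so of `B M`.
* `exists_RW`: BCon and `exists_RW_of_reach` with `u = min 0 d - R`, `v = max 0 d + R`,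
  `v - u + 1 = |d| + 2R + 1 ≤ (2R + 1) (|d| + 1)`; `K = (2R+1) card F`.
* `conn_W`: consequence. `syn_W`: SYN with `conn_W`: `|disp g x| ≤ |n| + w`.
* `reach_congr_Icc`: as `Reach.congr` (B04), by induction, but with the hypothesis that the
  sequences agree on the `ρ`-neighbourhood of `I`: at the step `s (g x)`, the point `g x` has position
  `k ∈ I`, and `g x`, `g x'` agree on the window of radius `ρ` (`Agree A.ρ`).
-/

namespace Pool.Agent.helper98.NIG

variable {b : Base} {F : Type}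

namespace Sys

theorem RW.mem_W {A : Sys b F} {x : Pt b F} {I : Set ℤ} {n : ℕ} {g : Equiv.Perm (Pt b F)}
    (h : A.RW x I n g) : g ∈ A.W n := by
  induction h with
  | one n => exact A.one_mem_W n
  | step _ hs _ ih => exact ⟨_, hs, _, ih, rfl⟩

theorem RW.mono {A : Sys b F} {x : Pt b F} {I J : Set ℤ} (hIJ : I ⊆ J) {n m : ℕ} (hnm : n ≤ m)
    {g : Equiv.Perm (Pt b F)} (h : A.RW x I n g) : A.RW x J m g := by
  induction h generalizing m with
  | one n => exact RW.one m
  | @step n g s _ hs hp ih =>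
    obtain ⟨m', rfl⟩ : ∃ m', m = m' + 1 := ⟨m - 1, by omega⟩
    exact RW.step (ih (by omega)) hs (hIJ hp)

theorem RW.reach {A : Sys b F} {x : Pt b F} {I : Set ℤ} {n : ℕ} {g : Equiv.Perm (Pt b F)}
    (h : A.RW x I n g) : A.Reach x I g := by
  induction h with
  | one n => exact Reach.one
  | step _ hs hp ih => exact Reach.step ih hs hp

/-- increasing chains of subsets of a finite set which stop growing after the first repetition -/
theorem L02_chain {α : Type*} (B : ℕ → Set α) {Z : Set α} (hZ : Z.Finite) (hsub : ∀ j, B j ⊆ Z)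
    (hmono : ∀ j, B j ⊆ B (j + 1)) (hstab : ∀ j, B (j + 1) ⊆ B j → B (j + 2) ⊆ B (j + 1))
    (h0 : (B 0).Nonempty) (j : ℕ) : B j ⊆ B Z.ncard := by
  have hm : Monotone B := monotone_nat_of_le_succ hmono
  have h1 : ∀ i, B (i + 1) ⊆ B i → ∀ j, B j ⊆ B i := by
    intro i hi j
    have h2 : ∀ k, B (i + k + 1) ⊆ B (i + k) := by
      intro k
      induction k with
      | zero => exact hi
      | succ k ih => exact hstab _ ih
    have h3 : ∀ k, B (i + k) ⊆ B i := by
      intro k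
      induction k with
      | zero => exact subset_rfl
      | succ k ih => exact (h2 k).trans ih
    exact (hm (Nat.le_add_left j i)).trans (h3 j)
  by_contra hcon
  have h2 : ∀ i, i ≤ Z.ncard → ¬ B (i + 1) ⊆ B i := fun i hi h =>
    hcon ((h1 i h j).trans (hm hi))
  have h3 : ∀ i, i ≤ Z.ncard → i + 1 ≤ (B i).ncard := by
    intro i
    induction i with
    | zero =>
      intro _
      exact (Set.ncard_pos (hZ.subset (hsub 0))).2 h0
    | succ i ih =>
      intro hi
      have h4 := ih (by omega)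
      have h5 : B i ⊂ B (i + 1) := ⟨hmono i, h2 i (by omega)⟩
      have h6 := Set.ncard_lt_ncard h5 (hZ.subset (hsub (i + 1)))
      omega
  have h4 := h3 _ le_rfl
  have h5 := Set.ncard_le_ncard (hsub Z.ncard) hZ
  omega

theorem exists_RW_of_reach [Finite F] {A : Sys b F} {x : Pt b F} {u v : ℤ} (hu : u ≤ 0)
    (hv : 0 ≤ v) {g : Equiv.Perm (Pt b F)} (h : A.Reach x (Set.Icc u v) g) :
    ∃ g', A.RW x (Set.Icc u v) ((v - u + 1).toNat * Nat.card F) g' ∧ g' x = g x := by
  classical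
  have hI0 : (0 : ℤ) ∈ Set.Icc u v := ⟨hu, hv⟩
  let B : ℕ → Set (Pt b F) := fun j => {z | ∃ g, A.RW x (Set.Icc u v) j g ∧ g x = z}
  let Z : Set (Pt b F) := (fun q : ℤ × F => ((sh q.1 x.1, q.2) : Pt b F)) ''
    (Set.Icc u v ×ˢ (Set.univ : Set F))
  have hfin : (Set.Icc u v ×ˢ (Set.univ : Set F)).Finite :=
    (Set.finite_Icc _ _).prod Set.finite_univ
  have hZ : Z.Finite := hfin.image _
  have hcard : Z.ncard ≤ (v - u + 1).toNat * Nat.card F := by
    refine (Set.ncard_image_le hfin).trans ?_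
    rw [Set.ncard_prod, Set.ncard_univ]
    refine Nat.mul_le_mul_right _ ?_
    rw [Set.ncard_eq_toFinset_card' (Set.Icc u v), Set.toFinset_Icc, Int.card_Icc]
    have h1 : v + 1 - u = v - u + 1 := by ring
    rw [h1]
  have hsub : ∀ j, B j ⊆ Z := by
    rintro j z ⟨g, hg, rfl⟩
    exact ⟨(disp g x, (g x).2), ⟨hg.reach.disp_mem hI0, trivial⟩,
      (eq_of_pos (sameLine_of_mem_PW (A.G_le_PW hg.reach.mem_G) x)).symm⟩
  have hmono : ∀ j, B j ⊆ B (j + 1) := by
    rintro j z ⟨g, hg, rfl⟩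
    exact ⟨g, hg.mono subset_rfl (Nat.le_succ j), rfl⟩
  have hstab : ∀ j, B (j + 1) ⊆ B j → B (j + 2) ⊆ B (j + 1) := by
    rintro j hj z ⟨g, hg, rfl⟩
    cases hg with
    | one => exact ⟨1, RW.one _, rfl⟩
    | @step _ g s hg hs hp =>
      obtain ⟨g', hg', e⟩ := hj ⟨g, hg, rfl⟩
      refine ⟨s * g', RW.step hg' hs ?_, ?_⟩
      · rw [e]
        exact hp
      · rw [Equiv.Perm.mul_apply, e, Equiv.Perm.mul_apply]
  have h0 : (B 0).Nonempty := ⟨x, 1, RW.one 0, rfl⟩
  have hex : ∃ j, A.RW x (Set.Icc u v) j g := by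
    induction h with
    | one => exact ⟨0, RW.one 0⟩
    | step _ hs hp ih =>
      obtain ⟨j, hj⟩ := ih
      exact ⟨j + 1, RW.step hj hs hp⟩
  obtain ⟨j, hj⟩ := hex
  obtain ⟨g', hg', e⟩ := L02_chain B hZ hsub hmono hstab h0 j ⟨g, hj, rfl⟩
  exact ⟨g', hg'.mono subset_rfl hcard, e⟩

theorem L02_disp_congr {g g' : Equiv.Perm (Pt b F)} {x : Pt b F} (h : g' x = g x) :
    disp g' x = disp g x := by
  unfold disp
  rw [h]

theorem exists_RW [Finite F] {A : Sys b F} {R : ℕ} (hR : A.BCon R) : ∃ K : ℕ, 0 < K ∧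
    ∀ x ∈ A.D, ∀ g ∈ A.G, ∃ g',
      A.RW x (Set.Icc (min 0 (disp g x) - R) (max 0 (disp g x) + R))
        (K * ((disp g x).natAbs + 1)) g' ∧ g' x = g x := by
  refine ⟨(2 * R + 1) * Nat.card F + 1, Nat.succ_pos _, fun x hx g hg => ?_⟩
  obtain ⟨g1, hg1, e1⟩ := hR x hx g hg
  have hu : min 0 (disp g x) - (R : ℤ) ≤ 0 := by
    have := min_le_left 0 (disp g x)
    omega
  have hv : 0 ≤ max 0 (disp g x) + (R : ℤ) := by
    have := le_max_left 0 (disp g x)
    omega
  obtain ⟨g2, hg2, e2⟩ := exists_RW_of_reach hu hv hg1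
  refine ⟨g2, hg2.mono subset_rfl ?_, e2.trans e1⟩
  have h1 : (max 0 (disp g x) + (R : ℤ) - (min 0 (disp g x) - R) + 1).toNat =
      (disp g x).natAbs + (2 * R + 1) := by omega
  rw [h1]
  nlinarith [Nat.zero_le ((disp g x).natAbs * (2 * R * Nat.card F)), Nat.zero_le (Nat.card F),
    Nat.zero_le (disp g x).natAbs]

theorem conn_W [Finite F] {A : Sys b F} {R : ℕ} (hR : A.BCon R) :
    ∃ K : ℕ, 0 < K ∧ A.CONN K := by
  obtain ⟨K, hK, H⟩ := exists_RW hR
  refine ⟨K, hK, fun x hx g hg => ?_⟩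
  obtain ⟨g', hg', e⟩ := H x hx g hg
  exact ⟨g', hg'.mem_W, e⟩

/-- words which reach a given window -/
theorem syn_W [Finite F] {A : Sys b F} {R w : ℕ} (hR : A.BCon R) (hw : A.SYN w) : ∃ K : ℕ, 0 < K ∧
    ∀ x ∈ A.D, ∀ n : ℤ, ∃ g ∈ A.W (K * (n.natAbs + 1)), n ≤ disp g x ∧ disp g x < n + w := by
  obtain ⟨K, hK, H⟩ := conn_W hR
  refine ⟨K * (w + 1), by positivity, fun x hx n => ?_⟩
  obtain ⟨g, hg, h1, h2⟩ := hw x hx n
  obtain ⟨g', hg', e⟩ := H x hx g hg
  have h3 := L02_disp_congr e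
  refine ⟨g', A.W_mono ?_ hg', ?_, ?_⟩
  · have h4 : (disp g x).natAbs ≤ n.natAbs + w := by omega
    calc K * ((disp g x).natAbs + 1) ≤ K * (n.natAbs + w + 1) :=
          Nat.mul_le_mul_left _ (by omega)
      _ ≤ K * (w + 1) * (n.natAbs + 1) := by
          rw [mul_assoc]
          refine Nat.mul_le_mul_left _ ?_
          nlinarith [Nat.zero_le (w * n.natAbs)]
  · rw [h3]
    exact h1
  · rw [h3]
    exact h2

theorem reach_congr_Icc {A : Sys b F} {x x' : Pt b F} {I : Set ℤ} (h0 : (0 : ℤ) ∈ I)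
    (hx2 : x.2 = x'.2) (hx : ∀ k ∈ I, ∀ j : ℤ, |j| ≤ A.ρ → x.1.1 (k + j) = x'.1.1 (k + j))
    {g : Equiv.Perm (Pt b F)} (h : A.Reach x I g) :
    A.Reach x' I g ∧ disp g x' = disp g x ∧ (g x').2 = (g x).2 := by
  induction h with
  | one => exact ⟨Reach.one, by rw [disp_one, disp_one], hx2.symm⟩
  | @step g s hg hs hp ih =>
    obtain ⟨ih1, ih2, ih3⟩ := ih
    have hgP := A.G_le_PW hg.mem_G
    have hsP := A.G_le_PW (A.mem_G_of_mem_S hs)
    have h1 : Agree A.ρ (g x) (g x') := by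
      have h2 : g x = (sh (disp g x) x.1, (g x).2) := eq_of_pos (sameLine_of_mem_PW hgP x)
      have h3 : g x' = (sh (disp g x) x'.1, (g x).2) := by
        rw [← ih2, ← ih3]
        exact eq_of_pos (sameLine_of_mem_PW hgP x')
      rw [h2, h3]
      refine ⟨rfl, fun j hj => ?_⟩
      change x.1.1 (j + disp g x) = x'.1.1 (j + disp g x)
      rw [add_comm]
      exact hx _ (hg.disp_mem h0) j hj
    have h4 : disp s (g x') = disp s (g x) := (disp_eq_of_agree (A.pw s hs).1 h1).symm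
    have h5 : disp (s * g) x' = disp (s * g) x := by
      rw [disp_mul hsP hgP, disp_mul hsP hgP, h4, ih2]
    refine ⟨Reach.step ih1 hs ?_, h5, ?_⟩
    · change disp (s * g) x' ∈ I
      rw [h5]
      exact hp
    · obtain ⟨n, -, H⟩ := (A.pw s hs).1 (g x)
      exact (H _ h1).2

end Sys

end Pool.Agent.helper98.NIG
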