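import Pool.Agent.helper2.NIG.L02

/-!
# NIG-L03: the cut lemma: a long lock has a sign

Notation: `K` from `exists_RW`/`conn_W`/`syn_W` (take the maximum), `ρ = A.ρ`, `k0 = K (ρ + 1)`,
`T0 = ρ k0 + R + 1`, `T1 = ρ K T0 + 1`, `m1 = K (T1 + w + 1)`.

`SG T m x y σ`: the sign of the positions of far points is multiplied by `σ`.

PROOFS.
(1) FAR POINTS STAY AWAY. If `E n x y`, `g ∈ W m`, `T0 ≤ |disp g x|`, `m + k0 ≤ n` then `ρ < |disp g y|`:
    otherwise `conn_W` at `y` gives `u ∈ W k0` with `u y = g y`, so `u x = g x` (`E_eq`),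
    `|disp g x| = |disp u x| ≤ ρ k0 < T0`.
(2) SAME SIDE. Let `g, g' ∈ W m`, `T0 ≤ disp g x`, `T0 ≤ disp g' x`. `exists_RW` at `g x` gives a path `h` from
    `g x` to `g' x` inside `[min 0 d - R, max 0 d + R]` (relative to `g x`), `d = disp g' x - disp g x`, of
    length at most `K (|d| + 1) ≤ K (2 ρ m + 1)`. By induction on the path (`RW`): for every prefix `h'`,
    `T0 - R ≤ disp (h' g) x`, so `ρ k0 < disp (h' g) x` and by the argument of (1) `ρ < |disp (h' g) y|`;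
    since one step changes `disp (·) y` by at most `ρ`, the sign of `disp (h' g) y` does not change.
    At the end `h g x = g' x`, so `h g y = g' y`. Hence `disp g y` and `disp g' y` have the same sign.
    The same for two points with `disp ≤ -T0`.
(3) DIFFERENT SIDES. Suppose the points on the right AND the points on the left of `x` both go to the
    right of `y`. By `syn_W` at `y` there is `h ∈ W m1` with `disp h y ≤ -T1`. If `|disp h x| ≥ T0` this
    contradicts the assumption. Otherwise `h x = u x` with `u ∈ W (K T0)`, so `h y = u y`,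
    `|disp h y| ≤ ρ K T0 < T1`: contradiction. (Similarly for the left of `y`, with `disp h y ≥ T1`.)
    There are points on both sides of `x` within `W m1` by `syn_W`.
So `exists_SG` holds for `m ≥ m1`, and for smaller `m` one uses `m1`: take `κ` so large that
`κ (m + 1) ≥ K (2 ρ (m + m1) + 1) + 2 (m + m1) + k0 + m1`.
* `SG_unique`: `syn_W` gives a point with `T ≤ disp g x`, if `m` is large.
* `SG_step`, in the form `SG_map`: let `σ` be the sign of `(x, y)` and `σ'` the sign of `(g x, g y)`,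
  `g ∈ W k`. It is enough to treat `k = 1`, `g = s` (induction; note `E_map`). Take `v ∈ W m1` with
  `T0 + ρ ≤ disp v (s x)`. Then `ρ < σ' disp v (s y)`, and `T0 ≤ disp (v s) x`, so
  `ρ < σ disp (v s) y = σ disp v (s y) + σ disp s y ≤ σ disp v (s y) + ρ`. So `0 < σ disp v (s y)` and
  `σ = σ'`.
-/

namespace Pool.Agent.helper98.NIG

variable {b : Base} {F : Type}

namespace Sys

/-- far points on the right (left) of `x` correspond to points on the side given by `σ` of `y` -/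
def SG (A : Sys b F) (T m : ℕ) (x y : Pt b F) (σ : ℤ) : Prop :=
  ∀ g ∈ A.W m, ((T : ℤ) ≤ disp g x → (A.ρ : ℤ) < σ * disp g y) ∧
    (disp g x ≤ -(T : ℤ) → (A.ρ : ℤ) < -(σ * disp g y))

theorem SG.mono {A : Sys b F} {T T' m m' : ℕ} (hT : T ≤ T') (hm : m' ≤ m) {x y : Pt b F} {σ : ℤ}
    (h : A.SG T m x y σ) : A.SG T' m' x y σ := by
  intro g hg
  obtain ⟨h1, h2⟩ := h g (A.W_mono hm hg)
  have : (T : ℤ) ≤ T' := by exact_mod_cast hT
  exact ⟨fun h => h1 (by linarith), fun h => h2 (by linarith)⟩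

private theorem perm_apply_inv' {α : Type*} (g : Equiv.Perm α) (x : α) : g⁻¹ (g x) = x :=
  Equiv.symm_apply_apply g x

/-- (1): if `x` and `y` are locked and `g x` is far from `x` then `g y` is far from `y` -/
private theorem L03_far {A : Sys b F} {K : ℕ} (hK : A.CONN K) {N m : ℕ} {x y : Pt b F}
    (hy : y ∈ A.D) (hE : A.E N x y) {g : Equiv.Perm (Pt b F)} (hg : g ∈ A.W m)
    (hN : m + K * (A.ρ + 1) ≤ N) (hfar : (A.ρ : ℤ) * (K * (A.ρ + 1) : ℕ) < |disp g x|) :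
    (A.ρ : ℤ) < |disp g y| := by
  by_contra hcon
  push Not at hcon
  obtain ⟨u, hu, hu'⟩ := hK y hy g (A.W_le_G hg)
  have h1 : (disp g y).natAbs ≤ A.ρ := by
    have h2 := hcon
    rw [Int.abs_eq_natAbs] at h2
    exact_mod_cast h2
  have hu2 : u ∈ A.W (K * (A.ρ + 1)) :=
    A.W_mono (Nat.mul_le_mul_left K (Nat.add_le_add_right h1 1)) hu
  have h3 : u x = g x := by
    have hE' : A.E (K * (A.ρ + 1) + m) x y := E_mono (by omega) hE
    exact (E_eq hE' hu2 hg).2 hu'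
  have h4 : disp g x = disp u x := by
    show pos x (g x) = pos x (u x)
    rw [h3]
  rw [h4] at hfar
  have h5 := A.abs_disp_W hu2 x
  linarith

/-- the sign does not change along a path of far points -/
private theorem L03_path {A : Sys b F} {K : ℕ} (hK : A.CONN K) {N m : ℕ} {x y : Pt b F}
    (hy : y ∈ A.D) (hE : A.E N x y) {g : Equiv.Perm (Pt b F)} (hg : g ∈ A.W m)
    {I : Set ℤ} (hI : ∀ i ∈ I, (A.ρ : ℤ) * (K * (A.ρ + 1) : ℕ) < |i + disp g x|)
    {ε : ℤ} (hε : ε = 1 ∨ ε = -1) (h0 : (A.ρ : ℤ) < ε * disp g y)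
    {n : ℕ} {h : Equiv.Perm (Pt b F)} (hh : A.RW (g x) I n h) :
    n + m + K * (A.ρ + 1) ≤ N → (A.ρ : ℤ) < ε * disp (h * g) y := by
  have hgP := A.G_le_PW (A.W_le_G hg)
  induction hh with
  | one n => intro _; rw [one_mul]; exact h0
  | @step n h s hh hs hpos ih =>
    intro hN
    have ih' := ih (by omega)
    have hhW : h ∈ A.W n := hh.mem_W
    have hhP := A.G_le_PW (A.W_le_G hhW)
    have hsP : s ∈ PW b F := A.G_le_PW (A.mem_G_of_mem_S hs)
    have hshW : s * h ∈ A.W (n + 1) := by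
      have := A.W_mul (A.mem_W_one hs) hhW
      rwa [add_comm] at this
    have hshg : s * h * g ∈ A.W (n + 1 + m) := A.W_mul hshW hg
    have hshP := PW b F |>.mul_mem hsP hhP
    have h1 : disp (s * h * g) x = disp (s * h) (g x) + disp g x := disp_mul hshP hgP x
    have h2 : disp (s * h) (g x) ∈ I := hpos
    have h3 := hI _ h2
    rw [← h1] at h3
    have h4 := L03_far hK hy hE hshg (by omega) h3
    have h5 : disp (s * h * g) y = disp s ((h * g) y) + disp (h * g) y := by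
      rw [mul_assoc]
      exact disp_mul hsP (mul_mem hhP hgP) y
    have h6 : |disp s ((h * g) y)| ≤ A.ρ := abs_disp_le (A.pw s hs).1 _
    rw [abs_le] at h6
    rcases hε with rfl | rfl
    · rcases abs_cases (disp (s * h * g) y) with ⟨h7, h8⟩ | ⟨h7, h8⟩ <;> linarith [h6.1, h6.2]
    · rcases abs_cases (disp (s * h * g) y) with ⟨h7, h8⟩ | ⟨h7, h8⟩ <;> linarith [h6.1, h6.2]

/-- (2): far points on the same side of `x` go to the same side of `y` -/
private theorem L03_same {A : Sys b F} {K R : ℕ} (hK : A.CONN K)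
    (hRW : ∀ x ∈ A.D, ∀ g ∈ A.G, ∃ g',
      A.RW x (Set.Icc (min 0 (disp g x) - R) (max 0 (disp g x) + R))
        (K * ((disp g x).natAbs + 1)) g' ∧ g' x = g x)
    {N m : ℕ} {x y : Pt b F} (hx : x ∈ A.D)
    (hy : y ∈ A.D) (hE : A.E N x y) {g g' : Equiv.Perm (Pt b F)} (hg : g ∈ A.W m)
    (hg' : g' ∈ A.W m) {δ ε : ℤ} (hδ : δ = 1 ∨ δ = -1) (hε : ε = 1 ∨ ε = -1)
    (hgx : (A.ρ : ℤ) * (K * (A.ρ + 1) : ℕ) + R + 1 ≤ δ * disp g x)
    (hgx' : (A.ρ : ℤ) * (K * (A.ρ + 1) : ℕ) + R + 1 ≤ δ * disp g' x)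
    (h0 : (A.ρ : ℤ) < ε * disp g y)
    (hN : K * (2 * A.ρ * m + 1) + 2 * m + K * (A.ρ + 1) ≤ N) :
    (A.ρ : ℤ) < ε * disp g' y := by
  have hgG := A.W_le_G hg
  have hgG' := A.W_le_G hg'
  have hgP := A.G_le_PW hgG
  have hgP' := A.G_le_PW hgG'
  obtain ⟨h, hh, hh'⟩ := hRW (g x) (A.map_mem hgG hx) (g' * g⁻¹)
    (A.G.mul_mem hgG' (A.G.inv_mem hgG))
  have hd : disp (g' * g⁻¹) (g x) = disp g' x - disp g x := by
    rw [disp_mul hgP' ((PW b F).inv_mem hgP), disp_inv hgP, perm_apply_inv']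
    ring
  have hhx : h (g x) = g' x := by
    rw [hh', Equiv.Perm.mul_apply, perm_apply_inv']
  rw [hd] at hh
  have hb : (disp g' x - disp g x).natAbs ≤ 2 * A.ρ * m := by
    have h1 := A.abs_disp_W hg x
    have h2 := A.abs_disp_W hg' x
    have h3 : |disp g' x - disp g x| ≤ 2 * A.ρ * m := by
      refine (abs_sub _ _).trans ?_
      linarith
    rw [Int.abs_eq_natAbs] at h3
    exact_mod_cast h3
  have hlen : K * ((disp g' x - disp g x).natAbs + 1) ≤ K * (2 * A.ρ * m + 1) :=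
    Nat.mul_le_mul_left K (Nat.add_le_add_right hb 1)
  have hkey := L03_path hK hy hE hg (I := Set.Icc (min 0 (disp g' x - disp g x) - R)
    (max 0 (disp g' x - disp g x) + R)) (by
      intro i hi
      rw [Set.mem_Icc] at hi
      obtain ⟨hi1, hi2⟩ := hi
      rcases hδ with rfl | rfl
      · refine lt_of_lt_of_le ?_ (le_abs_self _)
        rcases min_cases 0 (disp g' x - disp g x) with ⟨h1, h2⟩ | ⟨h1, h2⟩ <;> linarith
      · refine lt_of_lt_of_le ?_ (neg_le_abs _)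
        rcases max_cases 0 (disp g' x - disp g x) with ⟨h1, h2⟩ | ⟨h1, h2⟩ <;> linarith)
    hε h0 hh (by omega)
  have hhg : h * g ∈ A.W (K * (2 * A.ρ * m + 1) + m) := A.W_mul (A.W_mono hlen hh.mem_W) hg
  have hEq : (h * g) y = g' y := by
    have hE' : A.E (K * (2 * A.ρ * m + 1) + m + m) x y := E_mono (by omega) hE
    exact (E_eq hE' hhg hg').1 hhx
  have : disp (h * g) y = disp g' y := by
    show pos y ((h * g) y) = pos y (g' y)
    rw [hEq]
  rwa [this] at hkey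

/-- the common constants -/
private theorem L03_const [Finite F] {A : Sys b F} {R w : ℕ} (hR : A.BCon R) (hw : A.SYN w) :
    ∃ K : ℕ, 0 < K ∧ A.CONN K ∧
    (∀ x ∈ A.D, ∀ g ∈ A.G, ∃ g',
      A.RW x (Set.Icc (min 0 (disp g x) - R) (max 0 (disp g x) + R))
        (K * ((disp g x).natAbs + 1)) g' ∧ g' x = g x) ∧
    (∀ x ∈ A.D, ∀ n : ℤ, ∃ g ∈ A.W (K * (n.natAbs + 1)), n ≤ disp g x ∧ disp g x < n + w) := by
  obtain ⟨K1, hK1, h1⟩ := exists_RW hR
  obtain ⟨K2, hK2, h2⟩ := conn_W hR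
  obtain ⟨K3, hK3, h3⟩ := syn_W hR hw
  refine ⟨K1 + K2 + K3, by omega, ?_, ?_, ?_⟩
  · intro x hx g hg
    obtain ⟨g', hg', h⟩ := h2 x hx g hg
    exact ⟨g', A.W_mono (Nat.mul_le_mul_right _ (by omega)) hg', h⟩
  · intro x hx g hg
    obtain ⟨g', hg', h⟩ := h1 x hx g hg
    exact ⟨g', hg'.mono (le_refl _) (Nat.mul_le_mul_right _ (by omega)), h⟩
  · intro x hx n
    obtain ⟨g, hg, h⟩ := h3 x hx n
    exact ⟨g, A.W_mono (Nat.mul_le_mul_right _ (by omega)) hg, h⟩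

/-- the cut lemma -/
theorem exists_SG [Finite F] {A : Sys b F} {R w : ℕ} (hR : A.BCon R) (hw : A.SYN w) :
    ∃ T κ : ℕ, ∀ m : ℕ, ∀ x ∈ A.D, ∀ y ∈ A.D, A.E (κ * (m + 1)) x y →
      ∃ σ : ℤ, (σ = 1 ∨ σ = -1) ∧ A.SG T m x y σ := by
  obtain ⟨K, hK0, hC, hRW, hS⟩ := L03_const hR hw
  obtain ⟨k0, hk0⟩ : ∃ k0, k0 = K * (A.ρ + 1) := ⟨_, rfl⟩
  obtain ⟨T0, hT0⟩ : ∃ T0, T0 = A.ρ * k0 + R + 1 := ⟨_, rfl⟩
  obtain ⟨T1, hT1⟩ : ∃ T1, T1 = (A.ρ * K + 1) * T0 + 1 := ⟨_, rfl⟩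
  obtain ⟨m1, hm1⟩ : ∃ m1, m1 = K * (T1 + w + 1) := ⟨_, rfl⟩
  have hT0' : (A.ρ : ℤ) * (K * (A.ρ + 1) : ℕ) + R + 1 = (T0 : ℤ) := by
    rw [hT0, hk0]; push_cast; ring
  have hT1' : (T1 : ℤ) = A.ρ * K * T0 + T0 + 1 := by rw [hT1]; push_cast; ring
  have hρK : (0 : ℤ) ≤ A.ρ * K * T0 := by positivity
  refine ⟨T0, K * (2 * A.ρ * (m1 + 1) + 1) + 2 * (m1 + 1) + k0 + m1 + K * T0, ?_⟩
  intro m x hx y hy hE
  -- pass to `M = m + m1`
  obtain ⟨M, hM⟩ : ∃ M, M = m + m1 := ⟨_, rfl⟩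
  have hE1 : A.E (K * (2 * A.ρ * M + 1) + 2 * M + k0 + m1 + K * T0) x y := by
    refine E_mono ?_ hE
    have h1 : M ≤ (m1 + 1) * (m + 1) := by rw [hM]; nlinarith [Nat.zero_le (m1 * m)]
    calc K * (2 * A.ρ * M + 1) + 2 * M + k0 + m1 + K * T0
        ≤ K * (2 * A.ρ * ((m1 + 1) * (m + 1)) + 1) + 2 * ((m1 + 1) * (m + 1)) + k0 + m1
          + K * T0 := by gcongr
      _ ≤ K * (2 * A.ρ * ((m1 + 1) * (m + 1)) + (m + 1)) + 2 * ((m1 + 1) * (m + 1))
          + k0 * (m + 1) + m1 * (m + 1) + K * T0 * (m + 1) := by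
          have e1 : ∀ z : ℕ, z ≤ z * (m + 1) := fun z =>
            Nat.le_mul_of_pos_right _ (Nat.succ_pos m)
          have e2 : K * (2 * A.ρ * ((m1 + 1) * (m + 1)) + 1) ≤
            K * (2 * A.ρ * ((m1 + 1) * (m + 1)) + (m + 1)) := Nat.mul_le_mul_left K (by omega)
          have e3 := e1 k0
          have e4 := e1 m1
          have e5 := e1 (K * T0)
          omega
      _ = _ := by ring
  have hE2 : A.E (K * (2 * A.ρ * M + 1) + 2 * M + K * (A.ρ + 1)) x y :=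
    E_mono (by rw [← hk0]; omega) hE1
  -- words reaching far points
  have hreach : ∀ z ∈ A.D, (∃ g ∈ A.W m1, (T1 : ℤ) ≤ disp g z) ∧
      (∃ g ∈ A.W m1, disp g z ≤ -(T1 : ℤ)) := by
    intro z hz
    constructor
    · obtain ⟨g, hg, hg1, hg2⟩ := hS z hz (T1 : ℤ)
      refine ⟨g, A.W_mono ?_ hg, hg1⟩
      rw [hm1]
      apply Nat.mul_le_mul_left
      simp only [Int.natAbs_natCast]
      omega
    · obtain ⟨g, hg, hg1, hg2⟩ := hS z hz (-((T1 + w : ℕ) : ℤ))
      refine ⟨g, A.W_mono ?_ hg, ?_⟩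
      · rw [hm1]
        apply Nat.mul_le_mul_left
        simp only [Int.natAbs_neg, Int.natAbs_natCast]
        omega
      · push_cast at hg2
        linarith
  obtain ⟨⟨gp, hgp, hgp'⟩, ⟨gm, hgm, hgm'⟩⟩ := hreach x hx
  have hgpM : gp ∈ A.W M := A.W_mono (by omega) hgp
  have hgmM : gm ∈ A.W M := A.W_mono (by omega) hgm
  have hfar : ∀ g ∈ A.W M, (T0 : ℤ) ≤ |disp g x| → (A.ρ : ℤ) < |disp g y| := by
    intro g hg hgx
    refine L03_far hC hy hE2 hg ?_ ?_
    · have := Nat.zero_le (K * (2 * A.ρ * M + 1)); omega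
    · have : (0 : ℤ) ≤ R := by positivity
      linarith
  have hsign : ∀ n : ℤ, (A.ρ : ℤ) < |n| → ∃ σ : ℤ, (σ = 1 ∨ σ = -1) ∧ (A.ρ : ℤ) < σ * n := by
    intro n hn
    rcases abs_cases n with ⟨h1, h2⟩ | ⟨h1, h2⟩
    · exact ⟨1, Or.inl rfl, by linarith⟩
    · exact ⟨-1, Or.inr rfl, by linarith⟩
  obtain ⟨σ, hσ, hσ'⟩ := hsign _ (hfar gp hgpM ((by linarith : (T0 : ℤ) ≤ disp gp x).trans
    (le_abs_self _)))
  obtain ⟨τ, hτ, hτ'⟩ := hsign _ (hfar gm hgmM ((by linarith : (T0 : ℤ) ≤ -disp gm x).trans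
    (neg_le_abs _)))
  -- all far points on the right go to the side `σ`, all far points on the left to the side `τ`
  have hright : ∀ g ∈ A.W M, (T0 : ℤ) ≤ disp g x → (A.ρ : ℤ) < σ * disp g y := by
    intro g hg hgx
    exact L03_same hC hRW hx hy hE2 hgpM hg (Or.inl rfl) hσ (by rw [hT0']; linarith)
      (by rw [hT0']; linarith) hσ' (le_refl _)
  have hleft : ∀ g ∈ A.W M, disp g x ≤ -(T0 : ℤ) → (A.ρ : ℤ) < τ * disp g y := by
    intro g hg hgx
    exact L03_same hC hRW hx hy hE2 hgmM hg (Or.inr rfl) hτ (by rw [hT0']; linarith)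
      (by rw [hT0']; linarith) hτ' (le_refl _)
  -- the two sides are different
  have hne : τ = -σ := by
    by_contra hne
    have hστ : τ = σ := by
      rcases hσ with rfl | rfl <;> rcases hτ with rfl | rfl <;> simp_all
    subst hστ
    obtain ⟨h, hh, hh'⟩ : ∃ h ∈ A.W m1, τ * disp h y ≤ -(T1 : ℤ) := by
      obtain ⟨⟨g1, hg1, hg1'⟩, ⟨g2, hg2, hg2'⟩⟩ := hreach y hy
      rcases hτ with rfl | rfl
      · exact ⟨g2, hg2, by linarith⟩
      · exact ⟨g1, hg1, by linarith⟩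
    have hhM : h ∈ A.W M := A.W_mono (by omega) hh
    have hρ0 : (0 : ℤ) ≤ A.ρ := by positivity
    have hT10 : (0 : ℤ) ≤ T1 := by positivity
    by_cases hc : (T0 : ℤ) ≤ |disp h x|
    · rcases abs_cases (disp h x) with ⟨h1, h2⟩ | ⟨h1, h2⟩
      · have := hright h hhM (by linarith)
        linarith
      · have := hleft h hhM (by linarith)
        linarith
    · push Not at hc
      obtain ⟨u, hu, hu'⟩ := hC x hx h (A.W_le_G hh)
      have hu2 : u ∈ A.W (K * T0) := by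
        refine A.W_mono (Nat.mul_le_mul_left K ?_) hu
        rw [Int.abs_eq_natAbs] at hc
        have : (disp h x).natAbs < T0 := by exact_mod_cast hc
        omega
      have hEq : h y = u y := by
        have hE' : A.E (m1 + K * T0) x y := E_mono (by omega) hE1
        exact (E_eq hE' hh hu2).1 hu'.symm
      have h1 : disp h y = disp u y := by
        show pos y (h y) = pos y (u y)
        rw [hEq]
      have h2 := A.abs_disp_W hu2 y
      rw [← h1] at h2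
      push_cast at h2
      have hT00 : (0 : ℤ) ≤ T0 := by positivity
      rw [abs_le] at h2
      have h3 : (A.ρ : ℤ) * (K * T0) = A.ρ * K * T0 := by ring
      rcases hτ with rfl | rfl
      · linarith [h2.1, h2.2]
      · linarith [h2.1, h2.2]
  refine ⟨σ, hσ, fun g hg => ⟨fun h1 => hright g (A.W_mono (by omega) hg) h1, fun h1 => ?_⟩⟩
  have h2 := hleft g (A.W_mono (by omega) hg) h1
  rw [hne] at h2
  linarith

/-- the sign is unique and does not change along the orbit -/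
theorem SG_map [Finite F] {A : Sys b F} {R w : ℕ} (hR : A.BCon R) (hw : A.SYN w) (T κ : ℕ)
    (hT : ∀ m : ℕ, ∀ x ∈ A.D, ∀ y ∈ A.D, A.E (κ * (m + 1)) x y →
      ∃ σ : ℤ, (σ = 1 ∨ σ = -1) ∧ A.SG T m x y σ) :
    ∃ m2 : ℕ, ∀ k : ℕ, ∀ x ∈ A.D, ∀ y ∈ A.D, A.E (κ * (m2 + k + 1) + 2 * k) x y →
      ∀ σ : ℤ, (σ = 1 ∨ σ = -1) → A.SG T m2 x y σ → ∀ g ∈ A.W k,
        ∀ m : ℕ, ∀ σ' : ℤ, (σ' = 1 ∨ σ' = -1) → m2 ≤ m → A.SG T m (g x) (g y) σ' → σ' = σ := by
  obtain ⟨K, hK0, hC, hRW, hS⟩ := L03_const hR hw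
  have hρ0 : (0 : ℤ) ≤ A.ρ := by positivity
  have hsgn : ∀ {σ τ n : ℤ}, (σ = 1 ∨ σ = -1) → (τ = 1 ∨ τ = -1) → 0 < σ * n → 0 < τ * n →
      σ = τ := by
    intro σ τ n h1 h2 h3 h4
    rcases h1 with rfl | rfl <;> rcases h2 with rfl | rfl <;> first | rfl | (exfalso; linarith)
  refine ⟨K * (T + A.ρ + 1), ?_⟩
  intro k
  induction k with
  | zero =>
    intro x hx y hy _ σ hσ hSG g hg m σ' hσ' hm hSG'
    have hg1 : g = 1 := hg
    subst hg1
    obtain ⟨v, hv, hv1, -⟩ := hS x hx ((T + A.ρ : ℕ) : ℤ)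
    rw [Int.natAbs_natCast] at hv
    push_cast at hv1
    have h1 := (hSG v hv).1 (by linarith)
    have h2 := (hSG' v (A.W_mono hm hv)).1 (by
      show (T : ℤ) ≤ disp v x
      linarith)
    change (A.ρ : ℤ) < σ' * disp v y at h2
    exact hsgn (n := disp v y) hσ' hσ (by linarith) (by linarith)
  | succ k ih =>
    intro x hx y hy hE σ hσ hSG g hg m σ' hσ' hm hSG'
    obtain ⟨s, hs, h, hh, rfl⟩ := hg
    have hhG := A.W_le_G hh
    have hhx := A.map_mem hhG hx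
    have hhy := A.map_mem hhG hy
    have hsG := A.mem_G_of_mem_S hs
    -- the sign at `(h x, h y)`
    have hE1 : A.E (κ * (K * (T + A.ρ + 1) + k + 1 + 1)) (h x) (h y) := by
      refine E_map (E_mono ?_ hE) hh
      have : κ * (K * (T + A.ρ + 1) + (k + 1) + 1) = κ * (K * (T + A.ρ + 1) + k + 1 + 1) := by
        ring
      omega
    obtain ⟨τ, hτ, hSGτ⟩ := hT _ _ hhx _ hhy hE1
    have hE2 : A.E (κ * (K * (T + A.ρ + 1) + k + 1) + 2 * k) x y := by
      refine E_mono ?_ hE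
      have : κ * (K * (T + A.ρ + 1) + k + 1) ≤ κ * (K * (T + A.ρ + 1) + (k + 1) + 1) :=
        Nat.mul_le_mul_left κ (by omega)
      omega
    have hτσ : τ = σ := ih x hx y hy hE2 σ hσ hSG h hh _ τ hτ (by omega) hSGτ
    subst hτσ
    -- the step `s`
    obtain ⟨v, hv, hv1, -⟩ := hS (s (h x)) (A.map_mem hsG hhx) ((T + A.ρ : ℕ) : ℤ)
    rw [Int.natAbs_natCast] at hv
    push_cast at hv1
    have h1 := (hSG' v (A.W_mono hm hv)).1 (by
      show (T : ℤ) ≤ disp v (s (h x))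
      linarith)
    change (A.ρ : ℤ) < σ' * disp v (s (h y)) at h1
    have hvP := A.G_le_PW (A.W_le_G hv)
    have hsP := A.G_le_PW hsG
    have hvs : v * s ∈ A.W (K * (T + A.ρ + 1) + k + 1) :=
      A.W_mono (by omega) (A.W_mul hv (A.mem_W_one hs))
    have h2 : disp (v * s) (h x) = disp v (s (h x)) + disp s (h x) := disp_mul hvP hsP _
    have h3 : disp (v * s) (h y) = disp v (s (h y)) + disp s (h y) := disp_mul hvP hsP _
    have h4 : |disp s (h x)| ≤ A.ρ := abs_disp_le (A.pw s hs).1 _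
    have h5 : |disp s (h y)| ≤ A.ρ := abs_disp_le (A.pw s hs).1 _
    rw [abs_le] at h4 h5
    have h6 := (hSGτ (v * s) hvs).1 (by rw [h2]; linarith [h4.1, h4.2])
    rw [h3] at h6
    refine hsgn (n := disp v (s (h y))) hσ' hσ (by linarith) ?_
    rcases hσ with rfl | rfl
    · linarith [h5.1, h5.2]
    · linarith [h5.1, h5.2]

end Sys

end Pool.Agent.helper98.NIG
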