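import Pool.Agent.helper2.NIG.L06

/-!
# NIG-L04: the counting function

PROOFS.
* `cn_zero`: both sets are empty. Finiteness of the sets: `Set.Ico _ _ ×ˢ Set.univ` is finite.
* `cn_add`: `orb (g x) = orb x` for `g ∈ G`, and `sh q (g x).1 = sh (q + disp g x) x.1`: the sets for `g x` are
  translates of sets for `x`; four cases for the signs of `disp g x`, `disp g x + n` (count on adjacent
  intervals). It may be convenient to prove first: for `u ≤ v`, `cn x v - cn x u` is the `ncard` of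
  `{q | u ≤ q.1 ∧ q.1 < v ∧ (sh q.1 x.1, q.2) ∈ orb x}` (`cn_sub`), by cases `0 ≤ u`, `u < 0 ≤ v`, `v < 0`.
* `cn_mono`, `cn_lip`: from `cn_sub`; the set for `[u, v)` has at most `(v - u) card F` elements.
* `cn_syn`: if `SYN w` then the set for `[u, v)` has at least one point in every window
  `[u + j w, u + (j+1) w)` contained in it: `v - u < w (cn x v - cn x u + 1)` (induction on the number
  of windows, or `cn_sub` and an injection). For `w = 0` `SYN 0` is impossible (`D` is not empty).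
* `cn_congr`: by `orb_transport` (L06) with `c = c' = 0`, `q = (0, x.2)`: the sets coincide if `x`, `x'`
  agree on the window of radius `N ≥ |n| + R + 2 ρ + 2`.
* `cn_orb`: if `y = g x` then `cn y n = cn x (disp g x + n) - cn x (disp g x)`: `cn_add` again.
-/

namespace Pool.Agent.helper98.NIG

variable {b : Base} {F : Type}

namespace Sys

variable [Finite F]

/-- the points of the orbit of `x` at positions in `[u, v)` -/
def L04P (A : Sys b F) (x : Pt b F) (u v : ℤ) : Set (ℤ × F) :=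
  {q : ℤ × F | u ≤ q.1 ∧ q.1 < v ∧ (sh q.1 x.1, q.2) ∈ A.orb x}

theorem L04_subset (A : Sys b F) (x : Pt b F) (u v : ℤ) :
    A.L04P x u v ⊆ ((Finset.Ico u v : Finset ℤ) : Set ℤ) ×ˢ (Set.univ : Set F) := by
  rintro q ⟨h1, h2, -⟩
  exact ⟨by rw [Finset.coe_Ico]; exact ⟨h1, h2⟩, Set.mem_univ _⟩

theorem L04_finite (A : Sys b F) (x : Pt b F) (u v : ℤ) : (A.L04P x u v).Finite :=
  ((Finset.finite_toSet _).prod Set.finite_univ).subset (A.L04_subset x u v)

theorem L04_empty (A : Sys b F) (x : Pt b F) {u v : ℤ} (h : v ≤ u) : (A.L04P x u v).ncard = 0 := by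
  have h1 : A.L04P x u v = ∅ := by
    rw [Set.eq_empty_iff_forall_notMem]
    rintro q ⟨h1, h2, -⟩
    omega
  rw [h1, Set.ncard_empty]

theorem L04_add (A : Sys b F) (x : Pt b F) {u v w : ℤ} (h1 : u ≤ v) (h2 : v ≤ w) :
    (A.L04P x u w).ncard = (A.L04P x u v).ncard + (A.L04P x v w).ncard := by
  have h3 : A.L04P x u w = A.L04P x u v ∪ A.L04P x v w := by
    ext q
    constructor
    · rintro ⟨ha, hb, hc⟩
      rcases lt_or_ge q.1 v with h | h
      · exact Or.inl ⟨ha, h, hc⟩
      · exact Or.inr ⟨h, hb, hc⟩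
    · rintro (⟨ha, hb, hc⟩ | ⟨ha, hb, hc⟩)
      · exact ⟨ha, by omega, hc⟩
      · exact ⟨by omega, hb, hc⟩
  rw [h3]
  refine Set.ncard_union_eq ?_ (A.L04_finite x u v) (A.L04_finite x v w)
  rw [Set.disjoint_left]
  rintro q ⟨-, hb, -⟩ ⟨ha, -, -⟩
  omega

theorem L04_cn (A : Sys b F) (x : Pt b F) (n : ℤ) :
    A.cn x n = ((A.L04P x 0 n).ncard : ℤ) - ((A.L04P x n 0).ncard : ℤ) := rfl

theorem cn_zero (A : Sys b F) (x : Pt b F) : A.cn x 0 = 0 := by
  rw [L04_cn, sub_self]

theorem cn_sub (A : Sys b F) (x : Pt b F) {u v : ℤ} (huv : u ≤ v) : A.cn x v - A.cn x u =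
    ({q : ℤ × F | u ≤ q.1 ∧ q.1 < v ∧ (sh q.1 x.1, q.2) ∈ A.orb x}.ncard : ℤ) := by
  show A.cn x v - A.cn x u = ((A.L04P x u v).ncard : ℤ)
  rw [L04_cn, L04_cn]
  rcases le_or_gt 0 u with h | h
  · have h1 := A.L04_add x h huv
    rw [A.L04_empty x h, A.L04_empty x (h.trans huv), h1]
    push_cast
    ring
  · rcases le_or_gt 0 v with h' | h'
    · have h1 := A.L04_add x h.le h'
      rw [A.L04_empty x h', A.L04_empty x h.le, h1]
      push_cast
      ring
    · have h1 := A.L04_add x huv h'.le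
      rw [A.L04_empty x h'.le, A.L04_empty x h.le, h1]
      push_cast
      ring

theorem L04_map (A : Sys b F) {g : Equiv.Perm (Pt b F)} (hg : g ∈ A.G) (x : Pt b F) (u v : ℤ) :
    (A.L04P (g x) u v).ncard = (A.L04P x (u + disp g x) (v + disp g x)).ncard := by
  have h1 : (g x).1 = sh (disp g x) x.1 := pos_spec (sameLine_of_mem_PW (A.G_le_PW hg) x)
  have hinj : Function.Injective fun q : ℤ × F => (q.1 + disp g x, q.2) := by
    rintro ⟨a, φ⟩ ⟨a', φ'⟩ h
    simp only [Prod.mk.injEq, add_left_inj] at h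
    exact Prod.ext h.1 h.2
  have h2 : A.L04P x (u + disp g x) (v + disp g x) =
      (fun q : ℤ × F => (q.1 + disp g x, q.2)) '' A.L04P (g x) u v := by
    ext ⟨a, φ⟩
    constructor
    · rintro ⟨ha, hb, hc⟩
      refine ⟨(a - disp g x, φ), ⟨?_, ?_, ?_⟩, ?_⟩
      · show u ≤ a - disp g x
        have : u + disp g x ≤ a := ha
        omega
      · show a - disp g x < v
        have : a < v + disp g x := hb
        omega
      · rw [mem_orb_map hg, h1, sh_sh]
        show (sh (a - disp g x + disp g x) x.1, φ) ∈ A.orb x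
        rw [sub_add_cancel]
        exact hc
      · show (a - disp g x + disp g x, φ) = (a, φ)
        rw [sub_add_cancel]
    · rintro ⟨⟨a', φ'⟩, ⟨ha, hb, hc⟩, he⟩
      simp only [Prod.mk.injEq] at he
      obtain ⟨rfl, rfl⟩ := he
      have ha' : u ≤ a' := ha
      have hb' : a' < v := hb
      refine ⟨?_, ?_, ?_⟩
      · show u + disp g x ≤ a' + disp g x
        omega
      · show a' + disp g x < v + disp g x
        omega
      · rw [mem_orb_map hg, h1, sh_sh] at hc
        exact hc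
  rw [h2, Set.ncard_image_of_injective _ hinj]

theorem cn_add (A : Sys b F) {g : Equiv.Perm (Pt b F)} (hg : g ∈ A.G) (x : Pt b F) (n : ℤ) :
    A.cn (g x) n = A.cn x (disp g x + n) - A.cn x (disp g x) := by
  rw [L04_cn, A.L04_map hg, A.L04_map hg, zero_add]
  rcases le_or_gt 0 n with h | h
  · have h1 := A.cn_sub x (u := disp g x) (v := disp g x + n) (by omega)
    rw [h1, A.L04_empty x (u := n + disp g x) (v := disp g x) (by omega), add_comm n]
    show _ = ((A.L04P x (disp g x) (disp g x + n)).ncard : ℤ)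
    push_cast
    ring
  · have h1 := A.cn_sub x (u := disp g x + n) (v := disp g x) (by omega)
    have h2 : ((A.L04P x (disp g x + n) (disp g x)).ncard : ℤ) =
      A.cn x (disp g x) - A.cn x (disp g x + n) := h1.symm
    rw [A.L04_empty x (u := disp g x) (v := n + disp g x) (by omega), add_comm n, h2]
    push_cast
    ring

theorem cn_mono (A : Sys b F) (x : Pt b F) {u v : ℤ} (huv : u ≤ v) : A.cn x u ≤ A.cn x v := by
  have h := A.cn_sub x huv
  have h1 : (0 : ℤ) ≤ A.cn x v - A.cn x u := by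
    rw [h]
    exact Int.natCast_nonneg _
  omega

theorem L04_lip (A : Sys b F) (x : Pt b F) {u v : ℤ} (huv : u ≤ v) :
    A.cn x v - A.cn x u ≤ Nat.card F * (v - u) := by
  rw [A.cn_sub x huv]
  show ((A.L04P x u v).ncard : ℤ) ≤ _
  have h1 : (A.L04P x u v).ncard ≤
      (((Finset.Ico u v : Finset ℤ) : Set ℤ) ×ˢ (Set.univ : Set F)).ncard :=
    Set.ncard_le_ncard (A.L04_subset x u v) ((Finset.finite_toSet _).prod Set.finite_univ)
  rw [Set.ncard_prod, Set.ncard_coe_finset, Int.card_Ico, Set.ncard_univ] at h1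
  have h2 : ((A.L04P x u v).ncard : ℤ) ≤ (((v - u).toNat * Nat.card F : ℕ) : ℤ) := by
    exact_mod_cast h1
  refine h2.trans ?_
  rw [Nat.cast_mul, Int.toNat_of_nonneg (by omega)]
  exact le_of_eq (mul_comm _ _)

theorem cn_lip (A : Sys b F) (x : Pt b F) (u v : ℤ) :
    |A.cn x u - A.cn x v| ≤ Nat.card F * |u - v| := by
  rcases le_total u v with h | h
  · have h1 := A.L04_lip x h
    have h2 := A.cn_mono x h
    rw [abs_sub_comm, abs_of_nonneg (by omega), abs_sub_comm, abs_of_nonneg (by omega)]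
    exact h1
  · have h1 := A.L04_lip x h
    have h2 := A.cn_mono x h
    rw [abs_of_nonneg (by omega), abs_of_nonneg (by omega)]
    exact h1

/-- every window of length `w` contains a point of the orbit -/
theorem L04_step {A : Sys b F} {w : ℕ} (hw : A.SYN w) {x : Pt b F} (hx : x ∈ A.D) (a : ℤ) :
    A.cn x a + 1 ≤ A.cn x (a + w) := by
  obtain ⟨g, hg, h1, h2⟩ := hw x hx a
  have h3 := A.cn_sub x (u := a) (v := a + w) (by omega)
  have h4 : ((disp g x, (g x).2) : ℤ × F) ∈ A.L04P x a (a + w) := by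
    refine ⟨h1, h2, ?_⟩
    refine ⟨g, hg, ?_⟩
    exact (eq_of_pos (sameLine_of_mem_PW (A.G_le_PW hg) x)).symm
  have h5 : 0 < (A.L04P x a (a + w)).ncard :=
    (Set.ncard_pos (A.L04_finite x _ _)).2 ⟨_, h4⟩
  have h6 : ((A.L04P x a (a + w)).ncard : ℤ) = A.cn x (a + w) - A.cn x a := h3.symm
  have h7 : (0 : ℤ) < ((A.L04P x a (a + w)).ncard : ℤ) := by exact_mod_cast h5
  omega

theorem cn_syn {A : Sys b F} {w : ℕ} (hw : A.SYN w) {x : Pt b F} (hx : x ∈ A.D) {u v : ℤ}
    (huv : u ≤ v) : v - u ≤ w * (A.cn x v - A.cn x u + 1) := by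
  have hw0 : (0 : ℤ) < w := by
    obtain ⟨g, -, h1, h2⟩ := hw x hx 0
    omega
  have key : ∀ k : ℕ, (k : ℤ) ≤ A.cn x (u + k * w) - A.cn x u := by
    intro k
    induction k with
    | zero => simp
    | succ k ih =>
      have h1 := L04_step hw hx (u + k * w)
      have h2 : u + ((k + 1 : ℕ) : ℤ) * w = u + k * w + w := by push_cast; ring
      rw [h2]
      push_cast
      linarith
  have h1 : 0 ≤ (v - u) / w := Int.ediv_nonneg (by omega) hw0.le
  have h2 := key ((v - u) / w).toNat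
  rw [Int.toNat_of_nonneg h1] at h2
  have h3 : (v - u) / w * w ≤ v - u := Int.ediv_mul_le _ hw0.ne'
  have h4 : v - u < ((v - u) / w + 1) * w := Int.lt_ediv_add_one_mul_self _ hw0
  have h5 : A.cn x (u + (v - u) / w * w) ≤ A.cn x v := A.cn_mono x (by linarith)
  have h6 : (v - u) / w + 1 ≤ A.cn x v - A.cn x u + 1 := by linarith
  calc v - u ≤ ((v - u) / w + 1) * w := h4.le
    _ ≤ (A.cn x v - A.cn x u + 1) * w := mul_le_mul_of_nonneg_right h6 hw0.le
    _ = w * (A.cn x v - A.cn x u + 1) := mul_comm _ _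

/-- a bound of the positions by the counts, absolute values -/
theorem cn_syn_abs {A : Sys b F} {w : ℕ} (hw : A.SYN w) {x : Pt b F} (hx : x ∈ A.D) (u v : ℤ) :
    |u - v| ≤ w * (|A.cn x u - A.cn x v| + 1) := by
  rcases le_total u v with h | h
  · have h1 := cn_syn hw hx h
    have h2 := A.cn_mono x h
    rw [abs_sub_comm, abs_of_nonneg (by omega), abs_sub_comm, abs_of_nonneg (by omega)]
    exact h1
  · have h1 := cn_syn hw hx h
    have h2 := A.cn_mono x h
    rw [abs_of_nonneg (by omega), abs_of_nonneg (by omega)]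
    exact h1

theorem cn_congr {A : Sys b F} {R : ℕ} (hR : A.BCon R) {x x' : Pt b F} (hx : x ∈ A.D)
    (hx' : x' ∈ A.D) {N : ℕ} (h : Agree N x x') {n : ℤ} (hn : |n| + R + 2 * A.ρ + 2 ≤ N) :
    A.cn x n = A.cn x' n := by
  have key : ∀ q : ℤ × F, min 0 n ≤ q.1 → q.1 ≤ max 0 n →
      ((sh q.1 x.1, q.2) ∈ A.orb x ↔ (sh q.1 x'.1, q.2) ∈ A.orb x') := by
    intro q h1 h2
    have h3 := orb_transport hR hx hx' (c := 0) (c' := 0) (u := min 0 n) (v := max 0 n)
      (q := (0, x.2)) (q' := q) (fun k hk1 hk2 => ?_) (min_le_left _ _) (le_max_left _ _) h1 h2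
      ?_ ?_
    · rw [zero_add] at h3
      exact h3
    · rw [zero_add]
      refine h.2 k ?_
      have h5 : -|n| ≤ min 0 n := le_min (by simp) (neg_abs_le n)
      have h6 : max 0 n ≤ |n| := max_le (abs_nonneg n) (le_abs_self n)
      rw [abs_le]
      constructor
      · linarith
      · linarith
    · show (sh (0 + 0) x.1, x.2) ∈ A.orb x
      rw [add_zero, sh_zero]
      exact ⟨1, A.G.one_mem, rfl⟩
    · show (sh (0 + 0) x'.1, x.2) ∈ A.orb x'
      rw [add_zero, sh_zero, h.1]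
      exact ⟨1, A.G.one_mem, rfl⟩
  have h1 : A.L04P x 0 n = A.L04P x' 0 n := by
    ext q
    constructor
    · rintro ⟨ha, hb, hc⟩
      exact ⟨ha, hb, (key q ((min_le_left _ _).trans ha) (hb.le.trans (le_max_right _ _))).1 hc⟩
    · rintro ⟨ha, hb, hc⟩
      exact ⟨ha, hb, (key q ((min_le_left _ _).trans ha) (hb.le.trans (le_max_right _ _))).2 hc⟩
  have h2 : A.L04P x n 0 = A.L04P x' n 0 := by
    ext q
    constructor
    · rintro ⟨ha, hb, hc⟩
      exact ⟨ha, hb, (key q ((min_le_right _ _).trans ha) (hb.le.trans (le_max_left _ _))).1 hc⟩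
    · rintro ⟨ha, hb, hc⟩
      exact ⟨ha, hb, (key q ((min_le_right _ _).trans ha) (hb.le.trans (le_max_left _ _))).2 hc⟩
  rw [L04_cn, L04_cn, h1, h2]

end Sys

end Pool.Agent.helper98.NIG
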