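import Pool.Agent.helper2.NIG.L03
import Pool.Agent.helper2.NIG.L04

/-!
# NIG-L05: the locking lemma: counts agree along a lock up to a constant

PROOF of `exists_LC`. `T`, `κ0` from `exists_SG`, `m2` from `SG_map`, `K` from `conn_W` (all for `A`);
let `f = card F`. Let `E (κ (m+1)) x y` with `κ` large, `g ∈ W m`, let `σ` be the sign of `(x, y)`
(`SG T m'' x y σ` for a large `m''`, e.g. `m'' = m + K (ρ m + 1) + m2`), and by `SG_map` the same sign holds
for `(g x, g y)`, also with range `m''`.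
(a) `|disp g x| < T`: then `g x = u x` with `u ∈ W (K T)`, so `g y = u y`, `|disp g y| ≤ ρ K T`, and
    both counts are at most `f ρ K T + f T` in absolute value.
(b) `T ≤ disp g x`, `σ = 1`. Then `ρ < disp g y`. Let `I = {q | 0 ≤ q.1 < disp g x, (sh q.1 x.1, q.2) ∈ orb x}`,
    `J` the same for `y`. For `q ∈ I` with `T ≤ q.1 ≤ disp g x - T` write `(sh q.1 x.1, q.2) = u x`,
    `u ∈ W (K (ρ m + 1))` (`conn_W`). `SG` at `(x, y)` gives `0 < disp u y`; `SG` at `(g x, g y)` for the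
    element `u g⁻¹` (position `q.1 - disp g x ≤ -T`) gives `disp u y - disp g y < 0`. So
    `(disp u y, (u y).2) ∈ J`. This map is well defined and injective by `E_eq` (`u x = u' x ↔ u y = u' y`).
    So `card J ≥ card I - 2 T f`. By symmetry (`E_symm`; the sign of `(y, x)` is also `1`: use a
    point `v ∈ W m2'` with `disp v x` and `disp v y` both large) `card I ≥ card J - 2 T f - ...`.
    TIP: prove one inequality `cn y (disp g y) ≥ cn x (disp g x) - C` as a lemma for all locked pairs with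
    sign `1` and `T ≤ disp g x`, and apply it to `(x, y)` and to `(y, x)` (where `disp g y ≥ T` or case (a) for
    `(y, x)`).
(c) `T ≤ disp g x`, `σ = -1`: then `disp g y < -ρ`, the points of `I` correspond to points of
    `{q | disp g y ≤ q.1 < 0}` up to a bounded number, and `cn y (disp g y) = - (number of points at positions in
    [disp g y, 0))`.
(d) `disp g x ≤ -T`: apply (b), (c) to the pair `(g x, g y)` and the element `g⁻¹`
    (`disp g⁻¹ (g x) = - disp g x ≥ T`), and use `cn_add`: `cn (g x) (- disp g x) = - cn x (disp g x)`.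
* `Dir_map`: `cn (h x) (disp g (h x)) = cn x (disp (g h) x) - cn x (disp h x)` (`cn_add`, `disp_mul`), the same
  for `y`, and the triangle inequality.
* `Dir_unique`: by `syn_W` there is `g ∈ W m1` with `disp g x` so large that `cn x (disp g x) > C` (`cn_syn`);
  if `σ ≠ σ'` then `2 cn x (disp g x) ≤ 2 C`.
* `Dir_symm`: `|cn x (..) - σ cn y (..)| = |σ cn x (..) - cn y (..)|` as `σ = ±1`.
* `Dir_of_agree`: `cn_congr`, `agree_W`, radius `N ≥ 2 ρ m + R + 2 ρ + 2` gives equality of the counts.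
* `Dir_trans`: `|cn z - σ σ' cn x| ≤ |cn z - σ' cn y| + |cn y - σ cn x|`.
-/

namespace Pool.Agent.helper98.NIG

variable {b : Base} {F : Type}

namespace Sys

variable [Finite F]

/-- the points of the orbit of `x` at positions in `[u, v)` are mapped injectively into those of
`y` at positions in `[c, d)` -/
theorem L05_inj {A : Sys b F} {K : ℕ} (hK : A.CONN K) {x y : Pt b F} (hx : x ∈ A.D) {L N : ℕ}
    (hN : K * (L + 1) ≤ N) (hE : A.E (N + N) x y) {u v c d : ℤ} (hu : -(L : ℤ) ≤ u)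
    (hv : v ≤ L + 1)
    (h : ∀ g ∈ A.W N, u ≤ disp g x → disp g x < v → c ≤ disp g y ∧ disp g y < d) :
    {q : ℤ × F | u ≤ q.1 ∧ q.1 < v ∧ (sh q.1 x.1, q.2) ∈ A.orb x}.ncard ≤
      {q : ℤ × F | c ≤ q.1 ∧ q.1 < d ∧ (sh q.1 y.1, q.2) ∈ A.orb y}.ncard := by
  classical
  have hex : ∀ q : ℤ × F, q ∈ {q : ℤ × F | u ≤ q.1 ∧ q.1 < v ∧ (sh q.1 x.1, q.2) ∈ A.orb x} →
      ∃ g : Equiv.Perm (Pt b F), g ∈ A.W N ∧ g x = (sh q.1 x.1, q.2) := by
    rintro q ⟨h1, h2, g, hg, e⟩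
    have hd : disp g x = q.1 := by
      unfold disp
      rw [← e]
      exact pos_sh _ _ _
    obtain ⟨g', hg', e'⟩ := hK x hx g hg
    refine ⟨g', A.W_mono ?_ hg', e'.trans e.symm⟩
    refine le_trans (Nat.mul_le_mul_left _ ?_) hN
    omega
  choose! φ hφ hφe using hex
  refine Set.ncard_le_ncard_of_injOn (fun q => (disp (φ q) y, (φ q y).2)) ?_ ?_ ?_
  · intro q hq
    have hd : disp (φ q) x = q.1 := by
      unfold disp
      rw [hφe q hq]
      exact pos_sh _ _ _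
    obtain ⟨h3, h4⟩ := h _ (hφ q hq) (by rw [hd]; exact hq.1) (by rw [hd]; exact hq.2.1)
    exact ⟨h3, h4, φ q, A.W_le_G (hφ q hq),
      (eq_of_pos (sameLine_of_mem_PW (A.G_le_PW (A.W_le_G (hφ q hq))) y)).symm⟩
  · intro q hq q' hq' he
    have e1 : disp (φ q) y = disp (φ q') y := (Prod.ext_iff.1 he).1
    have e2 : (φ q y).2 = (φ q' y).2 := (Prod.ext_iff.1 he).2
    have h5 : φ q y = φ q' y := by
      have a1 : φ q y = (sh (disp (φ q) y) y.1, (φ q y).2) :=
        eq_of_pos (sameLine_of_mem_PW (A.G_le_PW (A.W_le_G (hφ q hq))) y)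
      have a2 : φ q' y = (sh (disp (φ q') y) y.1, (φ q' y).2) :=
        eq_of_pos (sameLine_of_mem_PW (A.G_le_PW (A.W_le_G (hφ q' hq'))) y)
      rw [a1, a2, e1, e2]
    have h6 := (E_eq hE (hφ q hq) (hφ q' hq')).2 h5
    rw [hφe q hq, hφe q' hq'] at h6
    have h7 : sh q.1 x.1 = sh q'.1 x.1 := (Prod.ext_iff.1 h6).1
    exact Prod.ext (sh_inj h7) (Prod.ext_iff.1 h6).2
  · refine (((Set.finite_Ico c d).prod (Set.finite_univ (α := F)))).subset ?_
    rintro q ⟨h1, h2, -⟩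
    exact ⟨⟨h1, h2⟩, trivial⟩

/-- one inequality between the counts, on the right side -/
theorem L05_pos {A : Sys b F} {K : ℕ} (hK : A.CONN K) {x y : Pt b F} (hx : x ∈ A.D) {T m N : ℕ}
    (hN : K * (A.ρ * m + 1) ≤ N) (hE : A.E (N + N) x y) {σ : ℤ} (hσ : σ = 1 ∨ σ = -1)
    {g : Equiv.Perm (Pt b F)} (hg : g ∈ A.W m) (h1 : A.SG T (N + m) x y σ)
    (h2 : A.SG T (N + m) (g x) (g y) σ) (hd : 0 ≤ disp g x) :
    A.cn x (disp g x) ≤ |A.cn y (disp g y)| + Nat.card F * (2 * T) := by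
  have hf : (0 : ℤ) ≤ Nat.card F := by positivity
  have h0 := A.cn_zero x
  have habs : 0 ≤ |A.cn y (disp g y)| := abs_nonneg _
  by_cases hdT : disp g x < 2 * T
  · have h3 := A.cn_lip x (disp g x) 0
    rw [h0, sub_zero, sub_zero, abs_of_nonneg hd] at h3
    have h4 : (Nat.card F : ℤ) * disp g x ≤ Nat.card F * (2 * T) :=
      mul_le_mul_of_nonneg_left hdT.le hf
    have h5 := le_abs_self (A.cn x (disp g x))
    linarith
  have hTd : (T : ℤ) ≤ disp g x - T := by linarith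
  have hgG := A.W_le_G hg
  have hρ : (0 : ℤ) ≤ A.ρ := by positivity
  have key : ∀ u ∈ A.W N, (T : ℤ) ≤ disp u x → disp u x < disp g x - T →
      (A.ρ : ℤ) < σ * disp u y ∧ (A.ρ : ℤ) < -(σ * (disp u y - disp g y)) := by
    intro u hu h3 h4
    have huG := A.W_le_G hu
    refine ⟨(h1 u (A.W_mono (by omega) hu)).1 h3, ?_⟩
    have h5 : u * g⁻¹ ∈ A.W (N + m) := A.W_mul hu (A.W_inv hg)
    have h6 : ∀ z : Pt b F, disp (u * g⁻¹) (g z) = disp u z - disp g z := by
      intro z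
      rw [disp_mul (A.G_le_PW huG) (A.G_le_PW (A.G.inv_mem hgG)),
        disp_inv (A.G_le_PW hgG)]
      have h7 : g⁻¹ (g z) = z := g.symm_apply_apply z
      rw [h7]
      ring
    have h8 := (h2 _ h5).2
    rw [h6, h6] at h8
    exact h8 (by linarith)
  have hgy := (h1 g (A.W_mono (by omega) hg)).1 (by linarith)
  have hdle : disp g x ≤ A.ρ * m := (le_abs_self _).trans (A.abs_disp_W hg x)
  have hinj : (({q : ℤ × F | (T : ℤ) ≤ q.1 ∧ q.1 < disp g x - T ∧
      (sh q.1 x.1, q.2) ∈ A.orb x}.ncard : ℕ) : ℤ) ≤ |A.cn y (disp g y)| := by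
    have h0y := A.cn_zero y
    rcases hσ with rfl | rfl
    · have hle : (0 : ℤ) ≤ disp g y := by linarith
      have h3 := A.cn_sub y hle
      rw [h0y, sub_zero] at h3
      rw [h3, abs_of_nonneg (by positivity)]
      refine Nat.cast_le.2 (L05_inj hK hx hN hE ?_ ?_ ?_)
      · have : (0 : ℤ) ≤ ((A.ρ * m : ℕ) : ℤ) := by positivity
        have h9 : (0 : ℤ) ≤ T := by positivity
        linarith
      · push_cast
        have h9 : (0 : ℤ) ≤ T := by positivity
        linarith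
      · intro u hu h4 h5
        obtain ⟨h6, h7⟩ := key u hu h4 h5
        constructor <;> linarith
    · have hle : disp g y ≤ 0 := by linarith
      have h3 := A.cn_sub y hle
      rw [h0y, zero_sub] at h3
      rw [← abs_neg, h3, abs_of_nonneg (by positivity)]
      refine Nat.cast_le.2 (L05_inj hK hx hN hE ?_ ?_ ?_)
      · have : (0 : ℤ) ≤ ((A.ρ * m : ℕ) : ℤ) := by positivity
        have h9 : (0 : ℤ) ≤ T := by positivity
        linarith
      · push_cast
        have h9 : (0 : ℤ) ≤ T := by positivity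
        linarith
      · intro u hu h4 h5
        obtain ⟨h6, h7⟩ := key u hu h4 h5
        constructor <;> linarith
  have h3 := A.cn_sub x hTd
  rw [← h3] at hinj
  have h4 := A.cn_lip x (disp g x) (disp g x - T)
  have h5 := A.cn_lip x T 0
  have hT0 : (0 : ℤ) ≤ T := by positivity
  have e4 : |disp g x - (disp g x - (T : ℤ))| = T := by
    rw [sub_sub_cancel, abs_of_nonneg hT0]
  rw [e4] at h4
  rw [h0, sub_zero, sub_zero, abs_of_nonneg hT0] at h5
  have h6 := le_abs_self (A.cn x (disp g x) - A.cn x (disp g x - T))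
  have h7 := le_abs_self (A.cn x T)
  linarith

/-- the values of the counting function for an inverse -/
theorem L05_cn_inv (A : Sys b F) {g : Equiv.Perm (Pt b F)} (hg : g ∈ A.G) (x : Pt b F) :
    A.cn (g x) (disp g⁻¹ (g x)) = - A.cn x (disp g x) := by
  rw [disp_inv (A.G_le_PW hg), A.cn_add hg, add_neg_cancel, A.cn_zero, zero_sub]

/-- one inequality between the counts, on both sides -/
theorem L05_abs {A : Sys b F} {K : ℕ} (hK : A.CONN K) {x y : Pt b F} (hx : x ∈ A.D) {T m N : ℕ}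
    (hN : K * (A.ρ * m + 1) ≤ N) (hE : A.E (N + N + 2 * m) x y) {σ : ℤ} (hσ : σ = 1 ∨ σ = -1)
    {g : Equiv.Perm (Pt b F)} (hg : g ∈ A.W m) (h1 : A.SG T (N + m) x y σ)
    (h2 : A.SG T (N + m) (g x) (g y) σ) :
    |A.cn x (disp g x)| ≤ |A.cn y (disp g y)| + Nat.card F * (2 * T) := by
  have hgG := A.W_le_G hg
  rcases le_total 0 (disp g x) with hd | hd
  · have h3 : 0 ≤ A.cn x (disp g x) := by
      have := A.cn_mono x hd
      rwa [A.cn_zero] at this
    rw [abs_of_nonneg h3]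
    exact L05_pos hK hx hN (E_mono (by omega) hE) hσ hg h1 h2 hd
  · have h3 : A.cn x (disp g x) ≤ 0 := by
      have := A.cn_mono x hd
      rwa [A.cn_zero] at this
    rw [abs_of_nonpos h3]
    have e1 : g⁻¹ (g x) = x := g.symm_apply_apply x
    have e2 : g⁻¹ (g y) = y := g.symm_apply_apply y
    have h4 := L05_pos hK (A.map_mem hgG hx) hN (E_map hE hg) hσ (A.W_inv hg) h2
      (by rw [e1, e2]; exact h1) (by rw [disp_inv (A.G_le_PW hgG)]; linarith)
    rw [A.L05_cn_inv hgG, A.L05_cn_inv hgG, abs_neg] at h4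
    exact h4

omit [Finite F] in
/-- the sign of the reversed pair -/
theorem L05_rev {A : Sys b F} {K : ℕ} (hK : A.CONN K) {x y : Pt b F} (hx : x ∈ A.D) {T m : ℕ}
    (hT : A.ρ + 1 ≤ T) (hE : A.E (m + K * (T + 1)) x y) {σ : ℤ} (hσ : σ = 1 ∨ σ = -1)
    (h : A.SG T m x y σ) : A.SG (A.ρ * (K * (T + 1)) + 1) m y x σ := by
  intro g hg
  have hgG := A.W_le_G hg
  obtain ⟨h1, h2⟩ := h g hg
  have hT' : (A.ρ : ℤ) + 1 ≤ T := by exact_mod_cast hT
  have hρ : (0 : ℤ) ≤ A.ρ := by positivity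
  have hmid : -(T : ℤ) < disp g x → disp g x < T → |disp g y| ≤ A.ρ * (K * (T + 1)) := by
    intro h3 h4
    obtain ⟨u, hu, e⟩ := hK x hx g hgG
    have hu' : u ∈ A.W (K * (T + 1)) := by
      refine A.W_mono (Nat.mul_le_mul_left _ ?_) hu
      omega
    have h5 : u y = g y := (E_eq (E_mono (by omega) hE) hu' hg).1 e
    rw [← L02_disp_congr h5]
    have h6 := A.abs_disp_W hu' y
    push_cast at h6
    exact h6
  push_cast
  constructor
  · intro h3
    rcases le_or_gt (T : ℤ) (disp g x) with h4 | h4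
    · have h5 := h1 h4
      rcases hσ with rfl | rfl
      · linarith
      · nlinarith [mul_nonneg hρ (by positivity : (0 : ℤ) ≤ (K : ℤ) * (T + 1))]
    rcases le_or_gt (disp g x) (-(T : ℤ)) with h6 | h6
    · have h5 := h2 h6
      rcases hσ with rfl | rfl
      · nlinarith [mul_nonneg hρ (by positivity : (0 : ℤ) ≤ (K : ℤ) * (T + 1))]
      · linarith
    · have h7 := (abs_le.1 (hmid h6 h4)).2
      linarith
  · intro h3
    rcases le_or_gt (T : ℤ) (disp g x) with h4 | h4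
    · have h5 := h1 h4
      rcases hσ with rfl | rfl
      · nlinarith [mul_nonneg hρ (by positivity : (0 : ℤ) ≤ (K : ℤ) * (T + 1))]
      · linarith
    rcases le_or_gt (disp g x) (-(T : ℤ)) with h6 | h6
    · have h5 := h2 h6
      rcases hσ with rfl | rfl
      · linarith
      · nlinarith [mul_nonneg hρ (by positivity : (0 : ℤ) ≤ (K : ℤ) * (T + 1))]
    · have h7 := (abs_le.1 (hmid h6 h4)).1
      linarith

theorem exists_LC {A : Sys b F} {R w : ℕ} (hR : A.BCon R) (hw : A.SYN w) :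
    ∃ C κ : ℕ, 0 < κ ∧ A.LC C κ := by
  obtain ⟨K, hK0, hK⟩ := conn_W hR
  obtain ⟨T0, κ0, hT0⟩ := exists_SG hR hw
  obtain ⟨T, hTρ, hT⟩ : ∃ T : ℕ, A.ρ + 1 ≤ T ∧ ∀ m : ℕ, ∀ x ∈ A.D, ∀ y ∈ A.D,
      A.E (κ0 * (m + 1)) x y → ∃ σ : ℤ, (σ = 1 ∨ σ = -1) ∧ A.SG T m x y σ := by
    refine ⟨max T0 (A.ρ + 1), le_max_right _ _, fun m x hx y hy hE => ?_⟩
    obtain ⟨σ, hσ, h⟩ := hT0 m x hx y hy hE
    exact ⟨σ, hσ, h.mono (le_max_left _ _) le_rfl⟩
  obtain ⟨m2, hm2⟩ := SG_map hR hw T κ0 hT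
  have hE1 : ∀ m : ℕ, κ0 * (K * (A.ρ * m + 1) + m + m2 + 1) + 2 * m +
      (K * (A.ρ * m + 1) + K * (A.ρ * m + 1) + 2 * m) +
      (K * (A.ρ * m + 1) + m + m2 + K * (T + 1) + 2 * m) ≤
      ((κ0 * (K * (A.ρ + 1) + m2 + 2) + 2) + (2 * (K * (A.ρ + 1)) + 2) +
        (K * (A.ρ + 1) + m2 + K * (T + 1) + 3) + 1) * (m + 1) := by
    intro m
    have a1 : K * (A.ρ * m + 1) ≤ K * (A.ρ + 1) * (m + 1) := by
      rw [mul_assoc]
      refine Nat.mul_le_mul_left _ ?_
      nlinarith [Nat.zero_le A.ρ, Nat.zero_le m]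
    have a2 : K * (A.ρ * m + 1) + m + m2 + 1 ≤ (K * (A.ρ + 1) + m2 + 2) * (m + 1) := by
      nlinarith [Nat.zero_le (m2 * m)]
    have a3 : κ0 * (K * (A.ρ * m + 1) + m + m2 + 1) ≤
        κ0 * (K * (A.ρ + 1) + m2 + 2) * (m + 1) := by
      rw [mul_assoc]
      exact Nat.mul_le_mul_left _ a2
    have a4 : m2 ≤ m2 * (m + 1) := Nat.le_mul_of_pos_right _ (Nat.succ_pos m)
    have a5 : K * (T + 1) ≤ K * (T + 1) * (m + 1) := Nat.le_mul_of_pos_right _ (Nat.succ_pos m)
    calc _ ≤ κ0 * (K * (A.ρ + 1) + m2 + 2) * (m + 1) + 2 * (m + 1) +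
          (K * (A.ρ + 1) * (m + 1) + K * (A.ρ + 1) * (m + 1) + 2 * (m + 1)) +
          (K * (A.ρ + 1) * (m + 1) + (m + 1) + m2 * (m + 1) + K * (T + 1) * (m + 1) +
            2 * (m + 1)) := by omega
      _ ≤ _ := by
          rw [add_mul, add_mul, add_mul, add_mul, add_mul, add_mul, add_mul, add_mul,
            mul_assoc 2]
          omega
  refine ⟨Nat.card F * (2 * T) + Nat.card F * (2 * (A.ρ * (K * (T + 1)) + 1)),
    (κ0 * (K * (A.ρ + 1) + m2 + 2) + 2) + (2 * (K * (A.ρ + 1)) + 2) +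
        (K * (A.ρ + 1) + m2 + K * (T + 1) + 3) + 1, Nat.succ_pos _, fun m x hx y hy hE => ?_⟩
  set N := K * (A.ρ * m + 1) with hN
  have hE0 := E_mono (hE1 m) hE
  rw [← hN] at hE0
  have hEa : A.E (κ0 * (N + m + m2 + 1) + 2 * m) x y := E_mono (by omega) hE0
  have hEb : A.E (N + N + 2 * m) x y := E_mono (by omega) hE0
  have hEc : A.E (N + m + m2 + K * (T + 1) + 2 * m) x y := E_mono (by omega) hE0
  obtain ⟨σ, hσ, hS⟩ := hT (N + m + m2) x hx y hy (E_mono (by omega) hEa)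
  refine ⟨σ, hσ, fun g hg => ?_⟩
  have hgG := A.W_le_G hg
  have hgx := A.map_mem hgG hx
  have hgy := A.map_mem hgG hy
  obtain ⟨σ', hσ', hS'⟩ := hT (N + m + m2) (g x) hgx (g y) hgy (E_map hEa hg)
  have hσσ : σ' = σ := by
    refine hm2 m x hx y hy (E_mono ?_ hEa) σ hσ (hS.mono le_rfl (by omega)) g hg
      (N + m + m2) σ' hσ' (by omega) hS'
    have : κ0 * (m2 + m + 1) ≤ κ0 * (N + m + m2 + 1) := Nat.mul_le_mul_left _ (by omega)
    omega
  subst hσσ
  have hR1 := L05_rev hK hx hTρ (E_mono (by omega) hEc) hσ hS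
  have hR2 := L05_rev hK hgx hTρ (E_map hEc hg) hσ hS'
  have h1 := L05_abs hK hx le_rfl hEb hσ hg (hS.mono le_rfl (by omega))
    (hS'.mono le_rfl (by omega))
  have h2 := L05_abs hK hy le_rfl (E_symm hEb) hσ hg (hR1.mono le_rfl (by omega))
    (hR2.mono le_rfl (by omega))
  obtain ⟨h3, h4⟩ := hS g (A.W_mono (by omega) hg)
  have hρ : (0 : ℤ) ≤ A.ρ := by positivity
  have hf : (0 : ℤ) ≤ Nat.card F := by positivity
  have c1 : (0 : ℤ) ≤ (Nat.card F : ℤ) * (2 * T) := by positivity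
  have c2 : (0 : ℤ) ≤ (Nat.card F : ℤ) * (2 * (A.ρ * (K * (T + 1)) + 1)) := by positivity
  have sx : ∀ z : Pt b F, (0 ≤ disp g z → 0 ≤ A.cn z (disp g z)) ∧
      (disp g z ≤ 0 → A.cn z (disp g z) ≤ 0) := by
    intro z
    constructor
    · intro h
      have := A.cn_mono z h
      rwa [A.cn_zero] at this
    · intro h
      have := A.cn_mono z h
      rwa [A.cn_zero] at this
  push_cast at h2 ⊢
  have hT1 : (A.ρ : ℤ) + 1 ≤ T := by exact_mod_cast hTρ
  rcases le_or_gt (T : ℤ) (disp g x) with h5 | h5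
  · have h6 := h3 h5
    have h7 := (sx x).1 (by linarith)
    rw [abs_of_nonneg h7] at h1 h2
    rcases hσ with rfl | rfl
    · have h8 := (sx y).1 (by linarith)
      rw [abs_of_nonneg h8] at h1 h2
      rw [abs_le]
      constructor <;> linarith
    · have h8 := (sx y).2 (by linarith)
      rw [abs_of_nonpos h8] at h1 h2
      rw [abs_le]
      constructor <;> linarith
  rcases le_or_gt (disp g x) (-(T : ℤ)) with h6 | h6
  · have h6' := h4 h6
    have h7 := (sx x).2 (by linarith)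
    rw [abs_of_nonpos h7] at h1 h2
    rcases hσ with rfl | rfl
    · have h8 := (sx y).2 (by linarith)
      rw [abs_of_nonpos h8] at h1 h2
      rw [abs_le]
      constructor <;> linarith
    · have h8 := (sx y).1 (by linarith)
      rw [abs_of_nonneg h8] at h1 h2
      rw [abs_le]
      constructor <;> linarith
  · have h7 := A.cn_lip x (disp g x) 0
    rw [A.cn_zero, sub_zero, sub_zero] at h7
    have h8 : |disp g x| ≤ T := abs_le.2 ⟨h6.le, h5.le⟩
    have h9 : (Nat.card F : ℤ) * |disp g x| ≤ Nat.card F * T := mul_le_mul_of_nonneg_left h8 hf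
    obtain ⟨b1, b2⟩ := abs_le.1 (h7.trans h9)
    have h10 : |A.cn y (disp g y)| ≤ Nat.card F * T +
        Nat.card F * (2 * (A.ρ * (K * (T + 1)) + 1)) := by linarith
    obtain ⟨b3, b4⟩ := abs_le.1 h10
    rcases hσ with rfl | rfl
    · rw [abs_le]
      constructor <;> linarith
    · rw [abs_le]
      constructor <;> linarith

omit [Finite F] in
theorem Dir.mono {A : Sys b F} {C C' m m' : ℕ} (hC : C ≤ C') (hm : m' ≤ m) {σ : ℤ}
    {x y : Pt b F} (h : A.Dir C m σ x y) : A.Dir C' m' σ x y :=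
  fun g hg => (h g (A.W_mono hm hg)).trans (by exact_mod_cast hC)

theorem Dir_map {A : Sys b F} {C m k : ℕ} {σ : ℤ} {x y : Pt b F} (h : A.Dir C (m + k) σ x y)
    {g : Equiv.Perm (Pt b F)} (hg : g ∈ A.W k) : A.Dir (2 * C) m σ (g x) (g y) := by
  intro u hu
  have hgG := A.W_le_G hg
  have huG := A.W_le_G hu
  have h1 := h (u * g) (A.W_mul hu hg)
  have h2 := h g (A.W_mono (Nat.le_add_left _ _) hg)
  have h3 : ∀ z : Pt b F, A.cn (g z) (disp u (g z)) =
      A.cn z (disp (u * g) z) - A.cn z (disp g z) := by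
    intro z
    rw [A.cn_add hgG, disp_mul (A.G_le_PW huG) (A.G_le_PW hgG), add_comm (disp u (g z))]
  rw [h3, h3]
  obtain ⟨a1, a2⟩ := abs_le.1 h1
  obtain ⟨a3, a4⟩ := abs_le.1 h2
  push_cast
  rw [abs_le, mul_sub]
  constructor <;> linarith

omit [Finite F] in
theorem Dir_symm {A : Sys b F} {C m : ℕ} {σ : ℤ} (hσ : σ = 1 ∨ σ = -1) {x y : Pt b F}
    (h : A.Dir C m σ x y) : A.Dir C m σ y x := by
  intro u hu
  have h1 := abs_le.1 (h u hu)
  obtain ⟨a1, a2⟩ := h1
  rw [abs_le]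
  rcases hσ with rfl | rfl
  · constructor <;> linarith
  · constructor <;> linarith

omit [Finite F] in
theorem Dir_trans {A : Sys b F} {C C' m : ℕ} {σ σ' : ℤ} (hσ' : σ' = 1 ∨ σ' = -1)
    {x y z : Pt b F} (h : A.Dir C m σ x y) (h' : A.Dir C' m σ' y z) :
    A.Dir (C + C') m (σ * σ') x z := by
  intro u hu
  obtain ⟨a1, a2⟩ := abs_le.1 (h u hu)
  obtain ⟨a3, a4⟩ := abs_le.1 (h' u hu)
  push_cast
  rw [abs_le]
  rcases hσ' with rfl | rfl
  · rw [mul_one]
    constructor <;> linarith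
  · have e : σ * -1 * A.cn x (disp u x) = - (σ * A.cn x (disp u x)) := by ring
    rw [e]
    constructor <;> linarith

theorem Dir_unique {A : Sys b F} {R w : ℕ} (hR : A.BCon R) (hw : A.SYN w) (C : ℕ) :
    ∃ m1 : ℕ, ∀ x ∈ A.D, ∀ y : Pt b F, ∀ m : ℕ, m1 ≤ m → ∀ σ σ' : ℤ, (σ = 1 ∨ σ = -1) →
      (σ' = 1 ∨ σ' = -1) → A.Dir C m σ x y → A.Dir C m σ' x y → σ = σ' := by
  obtain ⟨K, hK0, hK⟩ := syn_W hR hw
  refine ⟨K * (((w : ℤ) * (C + 1) + 1).natAbs + 1), fun x hx y m hm σ σ' hσ hσ' h h' => ?_⟩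
  obtain ⟨g, hg, h1, h2⟩ := hK x hx ((w : ℤ) * (C + 1) + 1)
  have hd : (0 : ℤ) ≤ disp g x := by
    have : (0 : ℤ) ≤ (w : ℤ) * (C + 1) := by positivity
    linarith
  have h3 := cn_syn hw hx hd
  rw [A.cn_zero, sub_zero, sub_zero] at h3
  have h4 : (C : ℤ) < A.cn x (disp g x) := by
    by_contra hcon
    have h5 : A.cn x (disp g x) + 1 ≤ (C : ℤ) + 1 := by linarith
    have h6 : (w : ℤ) * (A.cn x (disp g x) + 1) ≤ w * (C + 1) :=
      mul_le_mul_of_nonneg_left h5 (by positivity)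
    linarith
  obtain ⟨a1, a2⟩ := abs_le.1 (h g (A.W_mono hm hg))
  obtain ⟨a3, a4⟩ := abs_le.1 (h' g (A.W_mono hm hg))
  rcases hσ with rfl | rfl <;> rcases hσ' with rfl | rfl
  · rfl
  · exfalso
    linarith
  · exfalso
    linarith
  · rfl

theorem Dir_of_agree {A : Sys b F} {R : ℕ} (hR : A.BCon R) {x x' : Pt b F} (hx : x ∈ A.D)
    (hx' : x' ∈ A.D) {N m : ℕ} (hN : 2 * A.ρ * m + R + 2 * A.ρ + 2 ≤ N) (h : Agree N x x') :
    A.Dir 0 m 1 x x' := by
  intro u hu
  have hm : A.ρ * m ≤ 2 * A.ρ * m := by nlinarith [Nat.zero_le (A.ρ * m)]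
  have h1 : disp u x = disp u x' := (A.agree_W (N := 0) (h.mono (by omega)) hu).2
  have h2 := A.abs_disp_W hu x
  have h3 : A.cn x (disp u x) = A.cn x' (disp u x) := by
    refine cn_congr hR hx hx' h ?_
    have h4 : ((2 * A.ρ * m + R + 2 * A.ρ + 2 : ℕ) : ℤ) ≤ N := by exact_mod_cast hN
    have h5 : ((A.ρ * m : ℕ) : ℤ) ≤ ((2 * A.ρ * m : ℕ) : ℤ) := by exact_mod_cast hm
    push_cast at h4 h5
    linarith
  rw [← h1, h3, one_mul, sub_self, abs_zero]
  exact le_rfl

end Sys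

end Pool.Agent.helper98.NIG
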