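import Pool.Agent.helper2.NIG.L02

/-!
# NIG-L06: transport of orbits between aligned windows

If the sequences of `x` around `c` and of `x'` around `c'` agree on a window and the two orbits share
one aligned point of the window, then they share all aligned points of the window.

PROOF. Let `a = (sh (c + q.1) x.1, q.2) = g x`, `a' = (sh (c' + q.1) x'.1, q.2) = g' x'` (`g, g' ∈ G`, so
`a, a' ∈ D`, and `orb a = orb x`, `orb a' = orb x'`). Suppose `e = (sh (c + q'.1) x.1, q'.2) ∈ orb x`; then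
`e = h a` with `h ∈ G`, `disp h a = q'.1 - q.1`. By `BCon` there is `h'` with `Reach a I h'`, `h' a = h a`,
`I = [min 0 (q'.1 - q.1) - R, max 0 (q'.1 - q.1) + R]`. For `k ∈ I` and `|j| ≤ ρ` the number
`q.1 + k + j` is in the window where `x` and `x'` agree, so `reach_congr_Icc` (L02) gives `Reach a' I h'` and
`h' a'` has position `q'.1 - q.1` relative to `a'` and floor `q'.2`, so `h' a'` is
`(sh (c' + q'.1) x'.1, q'.2)`. The converse by symmetry.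
-/

namespace Pool.Agent.helper98.NIG

variable {b : Base} {F : Type}

namespace Sys

theorem mem_orb_map {A : Sys b F} {g : Equiv.Perm (Pt b F)} (hg : g ∈ A.G) (x a : Pt b F) :
    a ∈ A.orb (g x) ↔ a ∈ A.orb x := by
  constructor
  · rintro ⟨h, hh, rfl⟩
    exact ⟨h * g, A.G.mul_mem hh hg, rfl⟩
  · rintro ⟨h, hh, rfl⟩
    refine ⟨h * g⁻¹, A.G.mul_mem hh (A.G.inv_mem hg), ?_⟩
    rw [Equiv.Perm.mul_apply]
    congr 1
    exact (g.symm_apply_apply x).symm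

theorem mem_orb_iff {A : Sys b F} {x a : Pt b F} (n : ℤ) (φ : F) (h : a = (sh n x.1, φ)) :
    a ∈ A.orb x ↔ ∃ g ∈ A.G, disp g x = n ∧ (g x).2 = φ := by
  subst h
  constructor
  · rintro ⟨g, hg, e⟩
    refine ⟨g, hg, ?_, ?_⟩
    · unfold disp
      rw [← e]
      exact pos_sh x n φ
    · rw [← e]
  · rintro ⟨g, hg, rfl, rfl⟩
    exact ⟨g, hg, (eq_of_pos (sameLine_of_mem_PW (A.G_le_PW hg) x)).symm⟩

theorem L06_aux {A : Sys b F} {R : ℕ} (hR : A.BCon R) {x x' : Pt b F} (hx : x ∈ A.D)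
    {c c' u v : ℤ}
    (hpat : ∀ k : ℤ, u - R - A.ρ ≤ k → k ≤ v + R + A.ρ → x.1.1 (c + k) = x'.1.1 (c' + k))
    {q q' : ℤ × F} (hqu : u ≤ q.1) (hqv : q.1 ≤ v) (hqu' : u ≤ q'.1) (hqv' : q'.1 ≤ v)
    (h1 : (sh (c + q.1) x.1, q.2) ∈ A.orb x) (h2 : (sh (c' + q.1) x'.1, q.2) ∈ A.orb x')
    (h3 : (sh (c + q'.1) x.1, q'.2) ∈ A.orb x) : (sh (c' + q'.1) x'.1, q'.2) ∈ A.orb x' := by
  obtain ⟨g, hg, e⟩ := h1
  obtain ⟨g', hg', e'⟩ := h2
  have ha : ((sh (c + q.1) x.1, q.2) : Pt b F) ∈ A.D := by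
    rw [e]
    exact A.map_mem hg hx
  rw [← mem_orb_map hg, ← e] at h3
  rw [← mem_orb_map hg', ← e']
  have key : ∀ (z : Pt b F) (t : ℤ), ((sh (t + q'.1) z.1, q'.2) : Pt b F) =
      (sh (q'.1 - q.1) ((sh (t + q.1) z.1, q.2) : Pt b F).1, q'.2) := by
    intro z t
    refine Prod.ext ?_ rfl
    change sh (t + q'.1) z.1 = sh (q'.1 - q.1) (sh (t + q.1) z.1)
    rw [sh_sh]
    congr 1
    ring
  obtain ⟨h, hh, hd, hf⟩ := (mem_orb_iff (q'.1 - q.1) q'.2 (key x c)).1 h3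
  obtain ⟨k, hk, ek⟩ := hR _ ha h hh
  have hdk := L02_disp_congr ek
  have h0 : (0 : ℤ) ∈ Set.Icc (min 0 (disp h (sh (c + q.1) x.1, q.2)) - (R : ℤ))
      (max 0 (disp h (sh (c + q.1) x.1, q.2)) + R) := by
    rw [Set.mem_Icc]
    constructor <;> omega
  obtain ⟨r1, r2, r3⟩ := reach_congr_Icc (x := (sh (c + q.1) x.1, q.2))
    (x' := (sh (c' + q.1) x'.1, q.2)) h0 rfl
    (fun i hi j hj => by
      change x.1.1 (i + j + (c + q.1)) = x'.1.1 (i + j + (c' + q.1))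
      rw [hd, Set.mem_Icc] at hi
      rw [abs_le] at hj
      have h5 := hpat (q.1 + i + j) (by omega) (by omega)
      have h6 : i + j + (c + q.1) = c + (q.1 + i + j) := by ring
      have h7 : i + j + (c' + q.1) = c' + (q.1 + i + j) := by ring
      rw [h6, h7]
      exact h5) hk
  refine (mem_orb_iff (q'.1 - q.1) q'.2 (key x' c')).2 ⟨k, r1.mem_G, ?_, ?_⟩
  · rw [r2, hdk, hd]
  · rw [r3, ek, hf]

theorem orb_transport {A : Sys b F} {R : ℕ} (hR : A.BCon R) {x x' : Pt b F} (hx : x ∈ A.D)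
    (hx' : x' ∈ A.D) {c c' u v : ℤ}
    (hpat : ∀ k : ℤ, u - R - A.ρ ≤ k → k ≤ v + R + A.ρ → x.1.1 (c + k) = x'.1.1 (c' + k))
    {q q' : ℤ × F} (hqu : u ≤ q.1) (hqv : q.1 ≤ v) (hqu' : u ≤ q'.1) (hqv' : q'.1 ≤ v)
    (h1 : (sh (c + q.1) x.1, q.2) ∈ A.orb x) (h2 : (sh (c' + q.1) x'.1, q.2) ∈ A.orb x') :
    (sh (c + q'.1) x.1, q'.2) ∈ A.orb x ↔ (sh (c' + q'.1) x'.1, q'.2) ∈ A.orb x' :=
  ⟨L06_aux hR hx hpat hqu hqv hqu' hqv' h1 h2,
    L06_aux hR hx' (fun k hk hk' => (hpat k hk hk').symm) hqu hqv hqu' hqv' h2 h1⟩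

end Sys

end Pool.Agent.helper98.NIG
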