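import Pool.Agent.helper2.NIG.LDefs

/-!
# NIG-L07: every window of the hull is seen in the skeleton, on the right and on the left of the hole

PROOFS. `linear_rec` (B03) applied to `y = sg b true`, the given `y'`, `N` and `a = N + 1` gives `t` with
`N + 1 ≤ t ≤ N + 1 + C (N + 1)` and `(sg b true).1 (n + t) = y' n` for `|n| ≤ N`; `n + t ≥ 1`, so
`(sg b true).1 (n + t) = τ (n + t)` (unfold `sg`, `skel`). Similarly with `a = -(N+1) - C (N+1)`:
`t ≤ -(N+1)`. Constant `C + 1`.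
-/

namespace Pool.Agent.helper98.NIG

theorem L07_sg (b : Base) {k : ℤ} (hk : k ≠ 0) : (sg b true).1 k = b.τ k := if_neg hk

theorem place_right (b : Base) : ∃ C : ℕ, 0 < C ∧ ∀ (y' : b.Hull) (N : ℕ),
    ∃ t : ℤ, (N : ℤ) < t ∧ t ≤ C * (N + 1) ∧ ∀ n : ℤ, |n| ≤ N → b.τ (n + t) = y'.1 n := by
  obtain ⟨C, hC, H⟩ := linear_rec b
  refine ⟨C + 1, Nat.succ_pos _, fun y' N => ?_⟩
  obtain ⟨t, h1, h2, h3⟩ := H (sg b true) y' N ((N : ℤ) + 1)
  refine ⟨t, by linarith, ?_, fun n hn => ?_⟩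
  · push_cast
    linarith
  · rw [← h3 n hn, L07_sg]
    have h4 := (abs_le.1 hn).1
    intro h5
    linarith

theorem place_left (b : Base) : ∃ C : ℕ, 0 < C ∧ ∀ (y' : b.Hull) (N : ℕ),
    ∃ t : ℤ, t < -(N : ℤ) ∧ -(C * (N + 1) : ℤ) ≤ t ∧ ∀ n : ℤ, |n| ≤ N → b.τ (n + t) = y'.1 n := by
  obtain ⟨C, hC, H⟩ := linear_rec b
  refine ⟨C + 1, Nat.succ_pos _, fun y' N => ?_⟩
  obtain ⟨t, h1, h2, h3⟩ := H (sg b true) y' N (-((N : ℤ) + 1) - C * (N + 1))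
  refine ⟨t, by linarith, ?_, fun n hn => ?_⟩
  · push_cast
    linarith
  · rw [← h3 n hn, L07_sg]
    have h4 := (abs_le.1 hn).2
    intro h5
    linarith

end Pool.Agent.helper98.NIG
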