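import Pool.Agent.helper2.NIG.L06
import Pool.Agent.helper2.NIG.L07

/-!
# NIG-L08: germs of an orbit at gates, chains of scales

`Germ R1 w x c`: the points of the orbit of `x` in the left window `[c - R1 - w, c - R1)` (positions
relative to `c`). `GermR`: the same for the right window `[c + R1, c + R1 + w)`.
`VL`, `VR`: the set of germs at all gates of level `K` in `[a, a']`.

PROOFS.
* `germ_nonempty`: `SYN w` at `n = c - R1 - w` (resp. `c + R1`).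
* `VL_finite`: all germs are subsets of the finite set `Ico (-R1-w) (R1+w) ×ˢ univ`; the set of all subsets
  of a finite set is finite (`Set.Finite.finite_subsets`).
* `VL_mono`: a gate of level `K'` is a gate of level `K ≤ K'`.
* `chain`: the sets `VL (K0 + i m) ∪ ...` shrink with `i`; `f i = ncard VL + ncard VR` is antitone and at most
  `2 * 2 ^ ((2 R1 + 2 w) card F)`, so `f i = f (i + 1)` for some `i` up to this number; then both inclusions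
  are equalities (`Set.eq_of_subset_of_ncard_le`).
* `germ_map_right` (transport from the right germ of a gate to a far point): let `c, c'` be gates of level
  `K` of `x`, `x'` resp. (two orbits; also used with `x' = x`): all windows between (with the margin
  `R + ρ < R1`) are in `(0, P^K)`, where both sequences are the skeleton. By `orb_transport` with a point
  `q ∈ GermR` common to both (`germ_nonempty`): if `GermR x c = GermR x' c'` then
  `Germ x (c+u) = Germ x' (c'+u)`, and if the germs at `c+u`, `c'+u` are equal then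
  `GermR x c = GermR x' c'`.
* `germ_map_left`: the mirror statement.
-/

namespace Pool.Agent.helper98.NIG

variable {b : Base} {F : Type}

namespace Sys

/-- the germ of the orbit of `x` on the left of the position `c` -/
def Germ (A : Sys b F) (R1 w : ℕ) (x : Pt b F) (c : ℤ) : Set (ℤ × F) :=
  {q | -(R1 : ℤ) - w ≤ q.1 ∧ q.1 < -(R1 : ℤ) ∧ (sh (c + q.1) x.1, q.2) ∈ A.orb x}

/-- the germ of the orbit of `x` on the right of the position `c` -/
def GermR (A : Sys b F) (R1 w : ℕ) (x : Pt b F) (c : ℤ) : Set (ℤ × F) :=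
  {q | (R1 : ℤ) ≤ q.1 ∧ q.1 < (R1 : ℤ) + w ∧ (sh (c + q.1) x.1, q.2) ∈ A.orb x}

/-- the left germs at the gates of level `K` in `[a, a']` -/
def VL (A : Sys b F) (R1 w : ℕ) (x : Pt b F) (K : ℕ) (a a' : ℤ) : Set (Set (ℤ × F)) :=
  {V | ∃ c : ℤ, a ≤ c ∧ c ≤ a' ∧ IsGate x.1 K c ∧ V = A.Germ R1 w x c}

/-- the right germs at the gates of level `K` in `[a, a']` -/
def VR (A : Sys b F) (R1 w : ℕ) (x : Pt b F) (K : ℕ) (a a' : ℤ) : Set (Set (ℤ × F)) :=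
  {V | ∃ c : ℤ, a ≤ c ∧ c ≤ a' ∧ IsGate x.1 K c ∧ V = A.GermR R1 w x c}

theorem germ_nonempty {A : Sys b F} {w : ℕ} (hw : A.SYN w) (R1 : ℕ) {x : Pt b F} (hx : x ∈ A.D)
    (c : ℤ) : (A.Germ R1 w x c).Nonempty ∧ (A.GermR R1 w x c).Nonempty := by
  have key : ∀ n : ℤ, ∃ k : ℤ, ∃ φ : F, n ≤ k ∧ k < n + w ∧ ((sh k x.1, φ) : Pt b F) ∈ A.orb x := by
    intro n
    obtain ⟨g, hg, h1, h2⟩ := hw x hx n
    refine ⟨disp g x, (g x).2, h1, h2, g, hg, ?_⟩
    exact (eq_of_pos (sameLine_of_mem_PW (A.G_le_PW hg) x)).symm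
  constructor
  · obtain ⟨k, φ, h1, h2, h3⟩ := key (c - R1 - w)
    refine ⟨(k - c, φ), ?_, ?_, ?_⟩
    · change -(R1 : ℤ) - w ≤ k - c
      linarith
    · change k - c < -(R1 : ℤ)
      linarith
    · change (sh (c + (k - c)) x.1, φ) ∈ A.orb x
      rw [add_sub_cancel]
      exact h3
  · obtain ⟨k, φ, h1, h2, h3⟩ := key (c + R1)
    refine ⟨(k - c, φ), ?_, ?_, ?_⟩
    · change (R1 : ℤ) ≤ k - c
      linarith
    · change k - c < (R1 : ℤ) + w
      linarith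
    · change (sh (c + (k - c)) x.1, φ) ∈ A.orb x
      rw [add_sub_cancel]
      exact h3

/-- the finite set of all possible germs -/
def L08_univ (F : Type) (R1 w : ℕ) : Set (Set (ℤ × F)) :=
  {V | V ⊆ Set.Icc (-(R1 : ℤ) - w) ((R1 : ℤ) + w) ×ˢ (Set.univ : Set F)}

theorem L08_univ_finite [Finite F] (R1 w : ℕ) : (L08_univ F R1 w).Finite :=
  ((Set.finite_Icc _ _).prod Set.finite_univ).finite_subsets

theorem L08_sub (A : Sys b F) (R1 w : ℕ) (x : Pt b F) (c : ℤ) :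
    A.Germ R1 w x c ∈ L08_univ F R1 w := by
  rintro ⟨k, φ⟩ ⟨h1, h2, -⟩
  refine ⟨⟨h1, ?_⟩, Set.mem_univ _⟩
  change k ≤ (R1 : ℤ) + w
  change k < -(R1 : ℤ) at h2
  omega

theorem L08_subR (A : Sys b F) (R1 w : ℕ) (x : Pt b F) (c : ℤ) :
    A.GermR R1 w x c ∈ L08_univ F R1 w := by
  rintro ⟨k, φ⟩ ⟨h1, h2, -⟩
  change (R1 : ℤ) ≤ k at h1
  change k < (R1 : ℤ) + w at h2
  refine ⟨⟨?_, ?_⟩, Set.mem_univ _⟩
  · change -(R1 : ℤ) - w ≤ k
    omega
  · change k ≤ (R1 : ℤ) + w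
    omega

theorem VL_finite [Finite F] (A : Sys b F) (R1 w : ℕ) (x : Pt b F) (K : ℕ) (a a' : ℤ) :
    (A.VL R1 w x K a a').Finite ∧ (A.VR R1 w x K a a').Finite := by
  refine ⟨(L08_univ_finite R1 w).subset ?_, (L08_univ_finite R1 w).subset ?_⟩
  · rintro V ⟨c, -, -, -, rfl⟩
    exact L08_sub A R1 w x c
  · rintro V ⟨c, -, -, -, rfl⟩
    exact L08_subR A R1 w x c

theorem VL_mono (A : Sys b F) (R1 w : ℕ) (x : Pt b F) {K K' : ℕ} (hK : K ≤ K') {a a' c c' : ℤ}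
    (h : c ≤ a) (h' : a' ≤ c') : A.VL R1 w x K' a a' ⊆ A.VL R1 w x K c c' ∧
      A.VR R1 w x K' a a' ⊆ A.VR R1 w x K c c' := by
  have hg : ∀ {y : b.Hull} {d : ℤ}, IsGate y K' d → IsGate y K d := fun hd k h0 hk =>
    hd k h0 (hk.trans_le (B02_pow_le b hK))
  constructor
  · rintro V ⟨d, h1, h2, h3, h4⟩
    exact ⟨d, h.trans h1, h2.trans h', hg h3, h4⟩
  · rintro V ⟨d, h1, h2, h3, h4⟩
    exact ⟨d, h.trans h1, h2.trans h', hg h3, h4⟩

/-- among the first `n` scales of a chain there is one where nothing changes; `n` depends only on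
`R1`, `w` and `F` -/
theorem chain [Finite F] (A : Sys b F) (R1 w : ℕ) : ∃ n : ℕ, ∀ (x : Pt b F) (K : ℕ → ℕ)
    (a a' : ℕ → ℤ), Monotone K → Monotone a → Antitone a' → ∃ i < n,
      A.VL R1 w x (K (i + 1)) (a (i + 1)) (a' (i + 1)) = A.VL R1 w x (K i) (a i) (a' i) ∧
      A.VR R1 w x (K (i + 1)) (a (i + 1)) (a' (i + 1)) = A.VR R1 w x (K i) (a i) (a' i) := by
  refine ⟨2 * (L08_univ F R1 w).ncard + 1, fun x K a a' hK ha ha' => ?_⟩
  by_contra hcon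
  push Not at hcon
  have hfin := L08_univ_finite (F := F) R1 w
  -- the number of germs
  have hL : ∀ i, (A.VL R1 w x (K i) (a i) (a' i)).ncard ≤ (L08_univ F R1 w).ncard := by
    intro i
    refine Set.ncard_le_ncard ?_ hfin
    rintro V ⟨c, -, -, -, rfl⟩
    exact L08_sub A R1 w x c
  have hR : ∀ i, (A.VR R1 w x (K i) (a i) (a' i)).ncard ≤ (L08_univ F R1 w).ncard := by
    intro i
    refine Set.ncard_le_ncard ?_ hfin
    rintro V ⟨c, -, -, -, rfl⟩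
    exact L08_subR A R1 w x c
  have hstep : ∀ i, i < 2 * (L08_univ F R1 w).ncard + 1 →
      (A.VL R1 w x (K (i + 1)) (a (i + 1)) (a' (i + 1))).ncard +
        (A.VR R1 w x (K (i + 1)) (a (i + 1)) (a' (i + 1))).ncard <
      (A.VL R1 w x (K i) (a i) (a' i)).ncard + (A.VR R1 w x (K i) (a i) (a' i)).ncard := by
    intro i hi
    obtain ⟨m1, m2⟩ := VL_mono A R1 w x (hK (Nat.le_succ i)) (ha (Nat.le_succ i))
      (ha' (Nat.le_succ i))
    obtain ⟨f1, f2⟩ := VL_finite A R1 w x (K i) (a i) (a' i)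
    have n1 := Set.ncard_le_ncard m1 f1
    have n2 := Set.ncard_le_ncard m2 f2
    by_contra hlt
    have e1 := Set.eq_of_subset_of_ncard_le m1 (by simp only [Nat.succ_eq_add_one] at *; omega) f1
    have e2 := Set.eq_of_subset_of_ncard_le m2 (by simp only [Nat.succ_eq_add_one] at *; omega) f2
    exact hcon i hi e1 e2
  have hdec : ∀ i, i ≤ 2 * (L08_univ F R1 w).ncard + 1 →
      (A.VL R1 w x (K i) (a i) (a' i)).ncard + (A.VR R1 w x (K i) (a i) (a' i)).ncard + i ≤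
      (A.VL R1 w x (K 0) (a 0) (a' 0)).ncard + (A.VR R1 w x (K 0) (a 0) (a' 0)).ncard := by
    intro i
    induction i with
    | zero => intro _; exact le_rfl
    | succ i ih =>
      intro hi
      have h1 := ih (by omega)
      have h2 := hstep i (by omega)
      omega
  have h1 := hdec _ le_rfl
  have h2 := hL 0
  have h3 := hR 0
  omega

theorem germ_map_right {A : Sys b F} {R w : ℕ} (hR : A.BCon R) (hw : A.SYN w) {R1 : ℕ}
    (hR1 : R + A.ρ < R1) {x x' : Pt b F} (hx : x ∈ A.D) (hx' : x' ∈ A.D) {K : ℕ} {c c' u : ℤ}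
    (hc : IsGate x.1 K c) (hc' : IsGate x'.1 K c') (hu : 2 * (R1 : ℤ) + 2 * w ≤ u)
    (hu' : u < (b.p : ℤ) ^ K) :
    A.GermR R1 w x c = A.GermR R1 w x' c' ↔ A.Germ R1 w x (c + u) = A.Germ R1 w x' (c' + u) := by
  have hpat : ∀ k : ℤ, (R1 : ℤ) - R - A.ρ ≤ k → k ≤ u - R1 - 1 + R + A.ρ →
      x.1.1 (c + k) = x'.1.1 (c' + k) := by
    intro k h1 h2
    have h3 : 0 < k := by omega
    have h4 : |k| < (b.p : ℤ) ^ K := by
      rw [abs_of_pos h3]
      omega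
    rw [hc k (abs_pos.2 h3.ne') h4, hc' k (abs_pos.2 h3.ne') h4]
  constructor
  · intro hG
    obtain ⟨q, hq⟩ := (germ_nonempty hw R1 hx c).2
    have hq' := hq
    rw [hG] at hq'
    ext ⟨k, φ⟩
    have key : (R1 : ℤ) ≤ u + k → u + k ≤ u - R1 - 1 →
        ((sh (c + (u + k)) x.1, φ) ∈ A.orb x ↔ (sh (c' + (u + k)) x'.1, φ) ∈ A.orb x') :=
      fun h1 h2 => orb_transport (q := q) (q' := (u + k, φ)) hR hx hx' hpat hq.1
        (by have := hq.2.1; omega) h1 h2 hq.2.2 hq'.2.2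
    change (-(R1 : ℤ) - w ≤ k ∧ k < -(R1 : ℤ) ∧ (sh (c + u + k) x.1, φ) ∈ A.orb x) ↔
      (-(R1 : ℤ) - w ≤ k ∧ k < -(R1 : ℤ) ∧ (sh (c' + u + k) x'.1, φ) ∈ A.orb x')
    rw [add_assoc, add_assoc]
    constructor
    · rintro ⟨h1, h2, h3⟩
      exact ⟨h1, h2, (key (by omega) (by omega)).1 h3⟩
    · rintro ⟨h1, h2, h3⟩
      exact ⟨h1, h2, (key (by omega) (by omega)).2 h3⟩
  · intro hG
    obtain ⟨⟨j, ψ⟩, hq⟩ := (germ_nonempty hw R1 hx (c + u)).1
    have hq' := hq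
    rw [hG] at hq'
    have e1 : (sh (c + (u + j)) x.1, ψ) ∈ A.orb x := by rw [← add_assoc]; exact hq.2.2
    have e2 : (sh (c' + (u + j)) x'.1, ψ) ∈ A.orb x' := by rw [← add_assoc]; exact hq'.2.2
    have j1 : -(R1 : ℤ) - w ≤ j := hq.1
    have j2 : j < -(R1 : ℤ) := hq.2.1
    ext ⟨k, φ⟩
    have key : (R1 : ℤ) ≤ k → k ≤ u - R1 - 1 →
        ((sh (c + k) x.1, φ) ∈ A.orb x ↔ (sh (c' + k) x'.1, φ) ∈ A.orb x') :=
      fun h1 h2 => orb_transport (q := (u + j, ψ)) (q' := (k, φ)) hR hx hx' hpat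
        (by change (R1 : ℤ) ≤ u + j; omega) (by change u + j ≤ u - R1 - 1; omega) h1 h2 e1 e2
    change ((R1 : ℤ) ≤ k ∧ k < (R1 : ℤ) + w ∧ (sh (c + k) x.1, φ) ∈ A.orb x) ↔
      ((R1 : ℤ) ≤ k ∧ k < (R1 : ℤ) + w ∧ (sh (c' + k) x'.1, φ) ∈ A.orb x')
    constructor
    · rintro ⟨h1, h2, h3⟩
      exact ⟨h1, h2, (key (by omega) (by omega)).1 h3⟩
    · rintro ⟨h1, h2, h3⟩
      exact ⟨h1, h2, (key (by omega) (by omega)).2 h3⟩

theorem germ_map_left {A : Sys b F} {R w : ℕ} (hR : A.BCon R) (hw : A.SYN w) {R1 : ℕ}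
    (hR1 : R + A.ρ < R1) {x x' : Pt b F} (hx : x ∈ A.D) (hx' : x' ∈ A.D) {K : ℕ} {c c' u : ℤ}
    (hc : IsGate x.1 K c) (hc' : IsGate x'.1 K c') (hu : 2 * (R1 : ℤ) + 2 * w ≤ u)
    (hu' : u < (b.p : ℤ) ^ K) :
    A.Germ R1 w x c = A.Germ R1 w x' c' ↔ A.GermR R1 w x (c - u) = A.GermR R1 w x' (c' - u) := by
  have hpat : ∀ k : ℤ, (-u + R1 : ℤ) - R - A.ρ ≤ k → k ≤ -(R1 : ℤ) - 1 + R + A.ρ →
      x.1.1 (c + k) = x'.1.1 (c' + k) := by
    intro k h1 h2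
    have h3 : k < 0 := by omega
    have h4 : |k| < (b.p : ℤ) ^ K := by
      rw [abs_of_neg h3]
      omega
    rw [hc k (abs_pos.2 h3.ne) h4, hc' k (abs_pos.2 h3.ne) h4]
  constructor
  · intro hG
    obtain ⟨q, hq⟩ := (germ_nonempty hw R1 hx c).1
    have hq' := hq
    rw [hG] at hq'
    ext ⟨k, φ⟩
    have key : (-u + R1 : ℤ) ≤ -u + k → -u + k ≤ -(R1 : ℤ) - 1 →
        ((sh (c + (-u + k)) x.1, φ) ∈ A.orb x ↔ (sh (c' + (-u + k)) x'.1, φ) ∈ A.orb x') :=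
      fun h1 h2 => orb_transport (q := q) (q' := (-u + k, φ)) hR hx hx' hpat
        (by have := hq.1; omega) (by have := hq.2.1; omega)
        h1 h2 hq.2.2 hq'.2.2
    change ((R1 : ℤ) ≤ k ∧ k < (R1 : ℤ) + w ∧ (sh (c - u + k) x.1, φ) ∈ A.orb x) ↔
      ((R1 : ℤ) ≤ k ∧ k < (R1 : ℤ) + w ∧ (sh (c' - u + k) x'.1, φ) ∈ A.orb x')
    rw [sub_eq_add_neg, sub_eq_add_neg, add_assoc, add_assoc]
    constructor
    · rintro ⟨h1, h2, h3⟩
      exact ⟨h1, h2, (key (by omega) (by omega)).1 h3⟩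
    · rintro ⟨h1, h2, h3⟩
      exact ⟨h1, h2, (key (by omega) (by omega)).2 h3⟩
  · intro hG
    obtain ⟨⟨j, ψ⟩, hq⟩ := (germ_nonempty hw R1 hx (c - u)).2
    have hq' := hq
    rw [hG] at hq'
    have e1 : (sh (c + (-u + j)) x.1, ψ) ∈ A.orb x := by
      rw [← add_assoc, ← sub_eq_add_neg]; exact hq.2.2
    have e2 : (sh (c' + (-u + j)) x'.1, ψ) ∈ A.orb x' := by
      rw [← add_assoc, ← sub_eq_add_neg]; exact hq'.2.2
    have j1 : (R1 : ℤ) ≤ j := hq.1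
    have j2 : j < (R1 : ℤ) + w := hq.2.1
    ext ⟨k, φ⟩
    have key : (-u + R1 : ℤ) ≤ k → k ≤ -(R1 : ℤ) - 1 →
        ((sh (c + k) x.1, φ) ∈ A.orb x ↔ (sh (c' + k) x'.1, φ) ∈ A.orb x') :=
      fun h1 h2 => orb_transport (q := (-u + j, ψ)) (q' := (k, φ)) hR hx hx' hpat
        (by change (-u + R1 : ℤ) ≤ -u + j; omega) (by change -u + j ≤ -(R1 : ℤ) - 1; omega)
        h1 h2 e1 e2
    change (-(R1 : ℤ) - w ≤ k ∧ k < -(R1 : ℤ) ∧ (sh (c + k) x.1, φ) ∈ A.orb x) ↔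
      (-(R1 : ℤ) - w ≤ k ∧ k < -(R1 : ℤ) ∧ (sh (c' + k) x'.1, φ) ∈ A.orb x')
    constructor
    · rintro ⟨h1, h2, h3⟩
      exact ⟨h1, h2, (key (by omega) (by omega)).1 h3⟩
    · rintro ⟨h1, h2, h3⟩
      exact ⟨h1, h2, (key (by omega) (by omega)).2 h3⟩

/-- equal germs at aligned windows: all aligned points are shared -/
theorem germ_aligned {A : Sys b F} {R w : ℕ} (hR : A.BCon R) (hw : A.SYN w) {R1 : ℕ}
    {x z : Pt b F} (hx : x ∈ A.D) (hz : z ∈ A.D) {c c' : ℤ} {N : ℕ}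
    (hN : R1 + w + R + A.ρ ≤ N) (hpat : ∀ k : ℤ, |k| ≤ N → x.1.1 (c + k) = z.1.1 (c' + k))
    (hg : A.Germ R1 w x c = A.Germ R1 w z c') {q : ℤ × F} (hq : |q.1| + R + A.ρ ≤ N) :
    (sh (c + q.1) x.1, q.2) ∈ A.orb x ↔ (sh (c' + q.1) z.1, q.2) ∈ A.orb z := by
  obtain ⟨⟨j, ψ⟩, hj⟩ := (germ_nonempty hw R1 hx c).1
  have hj' := hj
  rw [hg] at hj'
  have j1 : -(R1 : ℤ) - w ≤ j := hj.1
  have j2 : j < -(R1 : ℤ) := hj.2.1
  have hN' : (R1 : ℤ) + w + R + A.ρ ≤ N := by exact_mod_cast hN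
  have hq2 := abs_le.1 (show |q.1| ≤ (N : ℤ) - R - A.ρ by linarith)
  refine orb_transport (u := -((N : ℤ) - R - A.ρ)) (v := (N : ℤ) - R - A.ρ) (q := (j, ψ)) hR hx hz
    ?_ ?_ ?_ hq2.1 hq2.2 hj.2.2 hj'.2.2
  · intro k h1 h2
    exact hpat k (abs_le.2 ⟨by linarith, by linarith⟩)
  · change -((N : ℤ) - R - A.ρ) ≤ j
    linarith
  · change j ≤ (N : ℤ) - R - A.ρ
    have : (0 : ℤ) ≤ R1 := by positivity
    have : (0 : ℤ) ≤ w := by positivity
    linarith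

end Sys

end Pool.Agent.helper98.NIG
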