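import Pool.Agent.helper2.NIG.L08
import Pool.Agent.helper2.NIG.L04

/-!
# NIG-L09: strand linear recurrence

PROOF. `P = (b.p : ℤ)`, `R1 = R + ρ + 1`. Let `n` be the number from `chain`, `Cp` the maximum of the constants
of `place_right`, `place_left`. Choose `m` with `8 (Cp + 1) P ^ 3 ≤ P ^ m`. Put `N_K = 2 P ^ (K+3) + 2 P ^ K`.
Let `K0` be given with `4 R1 + 4 w + 4 R + 4 ρ + 4 ≤ P ^ K0`. Let `K i = K0 + i m`, `L' = P ^ (K0 + (n+2) m)`,
`a i = i L'`, `a' i = L - i L'` with `L = (2 n + 6) L' P`. (So the interval `[a n, a' n]` still has length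
`≥ P ^ (K n + 1)` and contains a gate of level `K n`.)
`chain` gives `i < n` with `VL (K (i+1)) .. = VL (K i) .. =: V` and `VR (K (i+1)) .. = VR (K i) .. =: V⁺`.
Write `K = K i`, `K' = K (i+1) = K + m`.
(1) For `z ∈ D` (in fact any `y' ∈ Hull`) and a position `c` let `t` be given by `place_right` for the
  sequence `sh c z.1` and `N_K`: `N_K < t`, `t + N_K < P ^ K'` (`t ≤ Cp (N_K + 1)`, choice of `m`) and
  `τ (k + t) = z.1 (c + k)` for `|k| ≤ N_K`. For a gate `C` of level `K'` of `x`: `x.1 (C + t + k) = z.1 (c + k)` for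
  `|k| ≤ N_K`. In particular if `c` is a gate of level `K` of `z` then `C + t` is a gate of level `K` of `x`; and if
  moreover `C ∈ [a (i+1), a' (i+1)]` then `C + t ∈ [a i, a' i]`.
(2) COUNTING. The map `GermR x C ↦ Germ x (C + t)`, `C` a gate of level `K'` in `[a (i+1), a' (i+1)]`, is well
  defined and injective by `germ_map_right` (with `x' = x`), from `VR (K')` into `VL (K)`:
  `ncard V⁺ ≤ ncard V`. Using `place_left`: `ncard V ≤ ncard V⁺`. So both are equal and the map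
  `V⁺ → V` is onto: FOR EVERY `v ∈ V` THERE IS A GATE `C` OF LEVEL `K'` IN `[a (i+1), a' (i+1)]` WITH
  `Germ x (C + t) = v`. (Here `z` must have a gate of level `K` at `c`, to know `Germ x (C+t) ∈ V`; `z` exists:
  `z = x`.)
(3) CLAIM A: if `c` is a gate of level `K` of `z ∈ D`, `Germ z c ∈ V`, `c'` is another gate of level `K` of `z`,
  `|c' - c| ≤ P ^ (K+3)`, then `Germ z c' ∈ V`: take `C` with `Germ x (C + t) = Germ z c`; by `germ_aligned`
  (`N = N_K`) the orbits of `x` around `C + t` and of `z` around `c` share all aligned points at distance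
  `≤ N_K - R - ρ`, so `Germ z c' = Germ x (C + t + (c' - c))`, and `C + t + (c' - c)` is a gate of level `K` of `x` in
  `[a i, a' i]` (the pattern around it is aligned: `|k| < P ^ K`, `|c' - c| + P ^ K ≤ N_K`; TIP: for the interval use
  `t + |c' - c| ≤ L'`).
(4) `M = {z ∈ D | ∃ c, |c| ≤ P ^ (K+1) ∧ IsGate z.1 K c ∧ Germ z c ∈ V}`. It is invariant under `s ∈ S`: `c - disp s z`
  is a gate of `s z` with the same germ (`mem_orb_map`), and by Claim A (and `exists_gate`) there is one with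
  absolute value `≤ P ^ (K+1)`. So it is invariant under `G`. It depends only on a window: if `Agree N z z'`
  with `N ≥ P ^ (K+1) + P^K + 2 R1 + w + 2 ρ + R + 2` then `z ∈ M ↔ z' ∈ M` (`orb_transport` with `q = (0, z.2)`). It
  is not empty: take `C ∈ [a (i+1), a' (i+1)]` a gate of `x` and a point `x''` of the orbit of `x` near `C`
  (`SYN`). By minimality (`A.minimal x'' z N`) `M = D`.
(5) END. Let `z ∈ D`, `N` with `N ≤ P ^ K0`. By (4) there is a gate `c` of level `K` of `z`, `|c| ≤ P ^ (K+1)`,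
  `Germ z c ∈ V`; by (2) `C` with `Germ x (C + t) = Germ z c`. By `germ_aligned` with `q = (-c, z.2)`:
  `(sh (C + t - c) x.1, z.2) ∈ orb x`, because `(sh 0 z.1, z.2) = z ∈ orb z`. This point agrees with `z` on the
  window of radius `N_K - P ^ (K+1) ≥ N`, and its position `C + t - c` is in `[0, L + 2 L']`.
(6) CONSTANT. Given `N` take the least `K0` with `N + 4 R1 + 4 w + 4 R + 4 ρ + 4 ≤ P ^ K0`, so
  `P ^ K0 ≤ P (N + const)`, and `L + 2 L' ≤ (2 n + 8) P · P ^ ((n+2) m) · P ^ K0 ≤ C (N + 1)`.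
It may be convenient to state (1)-(5) as separate lemmas.
-/

namespace Pool.Agent.helper98.NIG

variable {b : Base} {F : Type}

namespace Sys

/-- the radius of the windows -/
def L09_N (b : Base) (K : ℕ) : ℕ := 2 * b.p ^ (K + 3) + 2 * b.p ^ K

theorem L09_N_cast (b : Base) (K : ℕ) :
    ((L09_N b K : ℕ) : ℤ) = 2 * (b.p : ℤ) ^ (K + 3) + 2 * (b.p : ℤ) ^ K := by
  unfold L09_N
  push_cast
  ring

theorem L09_pow (b : Base) (K : ℕ) : 2 * (b.p : ℤ) ^ K ≤ (b.p : ℤ) ^ (K + 1) ∧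
    2 * (b.p : ℤ) ^ (K + 1) ≤ (b.p : ℤ) ^ (K + 2) ∧
    2 * (b.p : ℤ) ^ (K + 2) ≤ (b.p : ℤ) ^ (K + 3) ∧ 0 < (b.p : ℤ) ^ K := by
  have h2 := B02_two_le b
  have h0 := B02_pow_pos b K
  have h1 := B02_pow_pos b (K + 1)
  have h3 := B02_pow_pos b (K + 2)
  refine ⟨?_, ?_, ?_, h0⟩
  · rw [pow_succ]
    nlinarith
  · rw [pow_succ (b.p : ℤ) (K + 1)]
    nlinarith
  · rw [pow_succ (b.p : ℤ) (K + 2)]
    nlinarith

/-- setting of the argument: two scales `K < K'` where nothing changes -/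
structure L09_Set (A : Sys b F) (R w R1 : ℕ) (x : Pt b F) (K K' : ℕ) (a a' e e' : ℤ) : Prop where
  hR : A.BCon R
  hw : A.SYN w
  hR1 : R + A.ρ < R1
  hx : x ∈ A.D
  hK : 4 * (R1 : ℤ) + 4 * w + 4 * R + 4 * A.ρ + 4 ≤ (b.p : ℤ) ^ K
  right : ∀ y' : b.Hull, ∃ t : ℤ, (L09_N b K : ℤ) < t ∧ t + L09_N b K < (b.p : ℤ) ^ K' ∧
    ∀ n : ℤ, |n| ≤ L09_N b K → b.τ (n + t) = y'.1 n
  left : ∀ y' : b.Hull, ∃ t : ℤ, t < -(L09_N b K : ℤ) ∧ -((b.p : ℤ) ^ K') < t - L09_N b K ∧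
    ∀ n : ℤ, |n| ≤ L09_N b K → b.τ (n + t) = y'.1 n
  ha : a + (b.p : ℤ) ^ K' ≤ e
  ha' : e' + (b.p : ℤ) ^ K' ≤ a'
  hlen : a + (b.p : ℤ) ^ (K + 1) ≤ a'
  eqL : A.VL R1 w x K' e e' = A.VL R1 w x K a a'
  eqR : A.VR R1 w x K' e e' = A.VR R1 w x K a a'

variable {A : Sys b F} {R w R1 : ℕ} {x : Pt b F} {K K' : ℕ} {a a' e e' : ℤ}

theorem L09_pat {y : b.Hull} {C t : ℤ} (hC : IsGate y K' C) {N : ℤ} (h1 : N < t)
    (h2 : t + N < (b.p : ℤ) ^ K') {k : ℤ} (hk : |k| ≤ N) : y.1 (C + t + k) = b.τ (k + t) := by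
  have h3 := abs_le.1 hk
  have h4 : 0 < t + k := by linarith
  rw [add_assoc, add_comm k t]
  refine hC _ (abs_pos.2 h4.ne') ?_
  rw [abs_of_pos h4]
  linarith

theorem L09_pat_left {y : b.Hull} {C t : ℤ} (hC : IsGate y K' C) {N : ℤ} (h1 : t < -N)
    (h2 : -((b.p : ℤ) ^ K') < t - N) {k : ℤ} (hk : |k| ≤ N) :
    y.1 (C + t + k) = b.τ (k + t) := by
  have h3 := abs_le.1 hk
  have h4 : t + k < 0 := by linarith
  rw [add_assoc, add_comm k t]
  refine hC _ (abs_pos.2 h4.ne) ?_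
  rw [abs_of_neg h4]
  linarith

theorem L09_card [Finite F] (S : L09_Set A R w R1 x K K' a a' e e') :
    (A.VL R1 w x K a a').ncard ≤ (A.VR R1 w x K' e e').ncard := by
  rw [S.eqR, ← S.eqL]
  obtain ⟨c, -, -, hc⟩ := exists_gate x.1 K 0
  obtain ⟨t, h1, h2, h3⟩ := S.left (sh c x.1)
  have hN := L09_N_cast b K
  have hp := L09_pow b K
  have hK := S.hK
  have hgate : ∀ C, IsGate x.1 K' C → IsGate x.1 K (C + t) := by
    intro C hC k hk0 hk
    have hkN : |k| ≤ (L09_N b K : ℤ) := by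
      rw [hN]
      linarith [hp.1, hp.2.1, hp.2.2.1, hp.2.2.2]
    rw [L09_pat_left hC h1 h2 hkN, h3 k hkN, sh_apply, add_comm k c]
    exact hc k hk0 hk
  have hch : ∀ V ∈ A.VL R1 w x K' e e', ∃ C : ℤ, e ≤ C ∧ C ≤ e' ∧ IsGate x.1 K' C ∧
      V = A.Germ R1 w x C := fun V hV => hV
  choose! g hg using hch
  refine Set.ncard_le_ncard_of_injOn (fun V => A.GermR R1 w x (g V - (-t))) ?_ ?_
    (VL_finite A R1 w x K a a').2
  · intro V hV
    obtain ⟨g1, g2, g3, -⟩ := hg V hV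
    refine ⟨g V - (-t), ?_, ?_, ?_, rfl⟩
    · have := S.ha
      have h5 : (0 : ℤ) ≤ (L09_N b K : ℤ) := Int.natCast_nonneg _
      linarith
    · have := S.ha'
      have h5 : (0 : ℤ) ≤ (L09_N b K : ℤ) := Int.natCast_nonneg _
      have h6 := B02_pow_pos b K'
      linarith
    · rw [sub_neg_eq_add]
      exact hgate _ g3
  · intro V hV V' hV' hVV
    obtain ⟨g1, g2, g3, g4⟩ := hg V hV
    obtain ⟨g1', g2', g3', g4'⟩ := hg V' hV'
    rw [g4, g4']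
    refine (germ_map_left S.hR S.hw S.hR1 S.hx S.hx g3 g3' (u := -t) ?_ ?_).2 hVV
    · have h5 : (0 : ℤ) ≤ (R : ℤ) := Int.natCast_nonneg _
      have h6 : (0 : ℤ) ≤ (A.ρ : ℤ) := Int.natCast_nonneg _
      have h7 : (0 : ℤ) ≤ (R1 : ℤ) := Int.natCast_nonneg _
      have h8 : (0 : ℤ) ≤ (w : ℤ) := Int.natCast_nonneg _
      rw [hN] at h1
      linarith [hp.1, hp.2.1, hp.2.2.1, hp.2.2.2]
    · have h5 : (0 : ℤ) ≤ (L09_N b K : ℤ) := Int.natCast_nonneg _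
      linarith

theorem L09_surj [Finite F] (S : L09_Set A R w R1 x K K' a a' e e') {t : ℤ}
    (h1 : (L09_N b K : ℤ) < t) (h2 : t + L09_N b K < (b.p : ℤ) ^ K')
    (hτ : ∀ k : ℤ, 0 < |k| → |k| < (b.p : ℤ) ^ K → b.τ (k + t) = b.τ k) :
    ∀ v ∈ A.VL R1 w x K a a', ∃ C : ℤ, e ≤ C ∧ C ≤ e' ∧ IsGate x.1 K' C ∧
      v = A.Germ R1 w x (C + t) := by
  have hN := L09_N_cast b K
  have hp := L09_pow b K
  have hK := S.hK
  have hgate : ∀ C, IsGate x.1 K' C → IsGate x.1 K (C + t) := by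
    intro C hC k hk0 hk
    have hkN : |k| ≤ (L09_N b K : ℤ) := by
      rw [hN]
      linarith [hp.1, hp.2.1, hp.2.2.1, hp.2.2.2]
    rw [L09_pat hC h1 h2 hkN]
    exact hτ k hk0 hk
  have hch : ∀ V ∈ A.VR R1 w x K' e e', ∃ C : ℤ, e ≤ C ∧ C ≤ e' ∧ IsGate x.1 K' C ∧
      V = A.GermR R1 w x C := fun V hV => hV
  choose! g hg using hch
  intro v hv
  obtain ⟨V, hV, hvV⟩ := Set.surj_on_of_inj_on_of_ncard_le
    (s := A.VR R1 w x K' e e') (t := A.VL R1 w x K a a')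
    (fun V _ => A.Germ R1 w x (g V + t)) (fun V hV => by
      obtain ⟨g1, g2, g3, -⟩ := hg V hV
      refine ⟨g V + t, ?_, ?_, hgate _ g3, rfl⟩
      · have := S.ha
        have h5 : (0 : ℤ) ≤ (L09_N b K : ℤ) := Int.natCast_nonneg _
        have h6 := B02_pow_pos b K'
        linarith
      · have := S.ha'
        have h5 : (0 : ℤ) ≤ (L09_N b K : ℤ) := Int.natCast_nonneg _
        linarith) (fun V V' hV hV' hVV => by
      obtain ⟨g1, g2, g3, g4⟩ := hg V hV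
      obtain ⟨g1', g2', g3', g4'⟩ := hg V' hV'
      rw [g4, g4']
      refine (germ_map_right S.hR S.hw S.hR1 S.hx S.hx g3 g3' (u := t) ?_ ?_).2 hVV
      · have h5 : (0 : ℤ) ≤ (R : ℤ) := Int.natCast_nonneg _
        have h6 : (0 : ℤ) ≤ (A.ρ : ℤ) := Int.natCast_nonneg _
        have h7 : (0 : ℤ) ≤ (R1 : ℤ) := Int.natCast_nonneg _
        have h8 : (0 : ℤ) ≤ (w : ℤ) := Int.natCast_nonneg _
        rw [hN] at h1
        linarith [hp.1, hp.2.1, hp.2.2.1, hp.2.2.2]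
      · have h5 : (0 : ℤ) ≤ (L09_N b K : ℤ) := Int.natCast_nonneg _
        linarith) (L09_card S) (VL_finite A R1 w x K a a').1 v hv
  obtain ⟨g1, g2, g3, -⟩ := hg V hV
  exact ⟨g V, g1, g2, g3, hvV⟩

/-- a window of `z` around a gate `c` with a germ in `V` is seen by the orbit of `x` -/
theorem L09_align [Finite F] (S : L09_Set A R w R1 x K K' a a' e e') {z : Pt b F}
    (hz : z ∈ A.D) {c : ℤ} (hc : IsGate z.1 K c) (hV : A.Germ R1 w z c ∈ A.VL R1 w x K a a') :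
    ∃ d : ℤ, e ≤ d - L09_N b K ∧ d + L09_N b K ≤ e' + (b.p : ℤ) ^ K' ∧
      (∀ k : ℤ, |k| ≤ L09_N b K → x.1.1 (d + k) = z.1.1 (c + k)) ∧
      ∀ q : ℤ × F, |q.1| + R + A.ρ ≤ L09_N b K →
        ((sh (d + q.1) x.1, q.2) ∈ A.orb x ↔ (sh (c + q.1) z.1, q.2) ∈ A.orb z) := by
  have hN := L09_N_cast b K
  have hp := L09_pow b K
  have hK := S.hK
  obtain ⟨t, h1, h2, h3⟩ := S.right (sh c z.1)
  obtain ⟨C, c1, c2, c3, c4⟩ := L09_surj S h1 h2 (fun k hk0 hk => by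
    have hkN : |k| ≤ (L09_N b K : ℤ) := by
      rw [hN]
      linarith [hp.1, hp.2.1, hp.2.2.1, hp.2.2.2]
    rw [h3 k hkN, sh_apply, add_comm k c]
    exact hc k hk0 hk) _ hV
  have hpat : ∀ k : ℤ, |k| ≤ L09_N b K → x.1.1 (C + t + k) = z.1.1 (c + k) := by
    intro k hk
    rw [L09_pat c3 h1 h2 hk, h3 k hk, sh_apply, add_comm k c]
  refine ⟨C + t, by linarith, by linarith, hpat, fun q hq => ?_⟩
  refine germ_aligned S.hR S.hw S.hx hz ?_ hpat c4.symm hq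
  have h5 : (R1 : ℤ) + w + R + A.ρ ≤ (L09_N b K : ℤ) := by
    have h5 : (0 : ℤ) ≤ (R : ℤ) := Int.natCast_nonneg _
    have h6 : (0 : ℤ) ≤ (A.ρ : ℤ) := Int.natCast_nonneg _
    have h7 : (0 : ℤ) ≤ (R1 : ℤ) := Int.natCast_nonneg _
    have h8 : (0 : ℤ) ≤ (w : ℤ) := Int.natCast_nonneg _
    rw [hN]
    linarith [hp.1, hp.2.1, hp.2.2.1, hp.2.2.2]
  exact_mod_cast h5

theorem L09_claimA [Finite F] (S : L09_Set A R w R1 x K K' a a' e e') {z : Pt b F}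
    (hz : z ∈ A.D) {c c' : ℤ} (hc : IsGate z.1 K c)
    (hV : A.Germ R1 w z c ∈ A.VL R1 w x K a a') (hc' : IsGate z.1 K c')
    (hd : |c' - c| ≤ (b.p : ℤ) ^ (K + 3)) : A.Germ R1 w z c' ∈ A.VL R1 w x K a a' := by
  have hN := L09_N_cast b K
  have hp := L09_pow b K
  have hK := S.hK
  have z5 : (0 : ℤ) ≤ (R : ℤ) := Int.natCast_nonneg _
  have z6 : (0 : ℤ) ≤ (A.ρ : ℤ) := Int.natCast_nonneg _
  have z7 : (0 : ℤ) ≤ (R1 : ℤ) := Int.natCast_nonneg _
  have z8 : (0 : ℤ) ≤ (w : ℤ) := Int.natCast_nonneg _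
  obtain ⟨d, d1, d2, d3, d4⟩ := L09_align S hz hc hV
  have hd' := abs_le.1 hd
  refine ⟨d + (c' - c), ?_, ?_, ?_, ?_⟩
  · have := S.ha
    have h6 := B02_pow_pos b K'
    rw [hN] at d1
    linarith [hp.1, hp.2.1, hp.2.2.1, hp.2.2.2]
  · have := S.ha'
    rw [hN] at d2
    linarith [hp.1, hp.2.1, hp.2.2.1, hp.2.2.2]
  · intro k hk0 hk
    have hkN : |c' - c + k| ≤ (L09_N b K : ℤ) := by
      rw [hN]
      have := abs_add_le (c' - c) k
      linarith [hp.1, hp.2.1, hp.2.2.1, hp.2.2.2]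
    rw [add_assoc, d3 _ hkN, ← add_assoc, add_sub_cancel]
    exact hc' k hk0 hk
  · ext ⟨k, φ⟩
    change (-(R1 : ℤ) - w ≤ k ∧ k < -(R1 : ℤ) ∧ (sh (c' + k) z.1, φ) ∈ A.orb z) ↔
      (-(R1 : ℤ) - w ≤ k ∧ k < -(R1 : ℤ) ∧ (sh (d + (c' - c) + k) x.1, φ) ∈ A.orb x)
    have key : -(R1 : ℤ) - w ≤ k → k < -(R1 : ℤ) →
        ((sh (d + (c' - c) + k) x.1, φ) ∈ A.orb x ↔ (sh (c' + k) z.1, φ) ∈ A.orb z) := by
      intro k1 k2
      have h := d4 (c' - c + k, φ) (by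
        change |c' - c + k| + R + A.ρ ≤ (L09_N b K : ℤ)
        have h9 := abs_add_le (c' - c) k
        rw [abs_of_neg (show k < 0 by linarith)] at h9
        rw [hN]
        linarith [hp.1, hp.2.1, hp.2.2.1, hp.2.2.2])
      have e1 : d + (c' - c + k) = d + (c' - c) + k := by ring
      have e2 : c + (c' - c + k) = c' + k := by ring
      change (sh (d + (c' - c + k)) x.1, φ) ∈ A.orb x ↔
        (sh (c + (c' - c + k)) z.1, φ) ∈ A.orb z at h
      rwa [e1, e2] at h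
    constructor
    · rintro ⟨k1, k2, k3⟩
      exact ⟨k1, k2, (key k1 k2).2 k3⟩
    · rintro ⟨k1, k2, k3⟩
      exact ⟨k1, k2, (key k1 k2).1 k3⟩

theorem L09_all [Finite F] (S : L09_Set A R w R1 x K K' a a' e e') {c : ℤ}
    (hc : IsGate x.1 K c) : A.Germ R1 w x c ∈ A.VL R1 w x K a a' := by
  have hp := L09_pow b K
  obtain ⟨C0, a1, a2, a3⟩ := exists_gate x.1 K a
  have hC0 : A.Germ R1 w x C0 ∈ A.VL R1 w x K a a' :=
    ⟨C0, a1, a2.le.trans S.hlen, a3, rfl⟩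
  have key : ∀ j : ℕ, ∀ c : ℤ, IsGate x.1 K c → |c - C0| ≤ j * (b.p : ℤ) ^ (K + 1) →
      A.Germ R1 w x c ∈ A.VL R1 w x K a a' := by
    intro j
    induction j with
    | zero =>
      intro c hc hj
      refine L09_claimA S S.hx a3 hC0 hc (hj.trans ?_)
      rw [Nat.cast_zero, zero_mul]
      exact (B02_pow_pos b _).le
    | succ j ih =>
      intro c hc hj
      by_cases hcl : |c - C0| ≤ (b.p : ℤ) ^ (K + 3)
      · exact L09_claimA S S.hx a3 hC0 hc hcl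
      · push Not at hcl
        push_cast at hj
        have hj' : |c - C0| ≤ j * (b.p : ℤ) ^ (K + 1) + (b.p : ℤ) ^ (K + 1) := by linarith
        rcases le_total C0 c with h | h
        · rw [abs_of_nonneg (show 0 ≤ c - C0 by linarith)] at hcl hj'
          obtain ⟨c2, b1, b2, b3⟩ := exists_gate x.1 K (c - 2 * (b.p : ℤ) ^ (K + 1))
          refine L09_claimA S S.hx b3 (ih c2 b3 ?_) hc ?_
          · rw [abs_of_nonneg (by linarith [hp.1, hp.2.1, hp.2.2.1, hp.2.2.2])]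
            linarith
          · rw [abs_of_nonneg (by linarith [hp.1, hp.2.1, hp.2.2.1, hp.2.2.2])]
            linarith [hp.1, hp.2.1, hp.2.2.1, hp.2.2.2]
        · rw [abs_of_nonpos (show c - C0 ≤ 0 by linarith)] at hcl hj'
          obtain ⟨c2, b1, b2, b3⟩ := exists_gate x.1 K (c + (b.p : ℤ) ^ (K + 1))
          refine L09_claimA S S.hx b3 (ih c2 b3 ?_) hc ?_
          · rw [abs_of_nonpos (by linarith [hp.1, hp.2.1, hp.2.2.1, hp.2.2.2])]
            linarith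
          · rw [abs_of_nonpos (by linarith [hp.1, hp.2.1, hp.2.2.1, hp.2.2.2])]
            linarith [hp.1, hp.2.1, hp.2.2.1, hp.2.2.2]
  refine key (c - C0).natAbs c hc ?_
  have h1 : |c - C0| = ((c - C0).natAbs : ℤ) := Int.abs_eq_natAbs _
  rw [h1]
  have h2 : (1 : ℤ) ≤ (b.p : ℤ) ^ (K + 1) := B02_pow_pos b _
  have h3 : (0 : ℤ) ≤ ((c - C0).natAbs : ℤ) := Int.natCast_nonneg _
  nlinarith

theorem L09_germ [Finite F] (S : L09_Set A R w R1 x K K' a a' e e') {z : Pt b F}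
    (hz : z ∈ A.D) {c : ℤ} (hc0 : 0 ≤ c) (hc1 : c < (b.p : ℤ) ^ (K + 1))
    (hc : IsGate z.1 K c) : A.Germ R1 w z c ∈ A.VL R1 w x K a a' := by
  have hN := L09_N_cast b K
  have hp := L09_pow b K
  have hK := S.hK
  have z5 : (0 : ℤ) ≤ (R : ℤ) := Int.natCast_nonneg _
  have z6 : (0 : ℤ) ≤ (A.ρ : ℤ) := Int.natCast_nonneg _
  have z7 : (0 : ℤ) ≤ (R1 : ℤ) := Int.natCast_nonneg _
  have z8 : (0 : ℤ) ≤ (w : ℤ) := Int.natCast_nonneg _
  obtain ⟨g, hg, hag⟩ := A.minimal x S.hx z hz (L09_N b K)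
  have hg' : g ∈ A.G := hg
  have hpos : g x = (sh (disp g x) x.1, (g x).2) := eq_of_pos (sameLine_of_mem_PW (A.G_le_PW hg') x)
  have hgx1 : (g x).1 = sh (disp g x) x.1 := by
    rw [hpos]
  have hgate : IsGate x.1 K (c + disp g x) := by
    intro k hk0 hk
    have hkN : |c + k| ≤ (L09_N b K : ℤ) := by
      rw [hN]
      have := abs_add_le c k
      rw [abs_of_nonneg hc0] at this
      linarith [hp.1, hp.2.1, hp.2.2.1, hp.2.2.2]
    have h1 := hag.2 (c + k) hkN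
    rw [hgx1, sh_apply] at h1
    have e1 : c + disp g x + k = c + k + disp g x := by ring
    rw [e1, h1]
    exact hc k hk0 hk
  have hgerm : A.Germ R1 w z c = A.Germ R1 w x (c + disp g x) := by
    ext ⟨k, φ⟩
    change (-(R1 : ℤ) - w ≤ k ∧ k < -(R1 : ℤ) ∧ (sh (c + k) z.1, φ) ∈ A.orb z) ↔
      (-(R1 : ℤ) - w ≤ k ∧ k < -(R1 : ℤ) ∧ (sh (c + disp g x + k) x.1, φ) ∈ A.orb x)
    have key : -(R1 : ℤ) - w ≤ k → k < -(R1 : ℤ) →
        ((sh (c + k) z.1, φ) ∈ A.orb z ↔ (sh (c + disp g x + k) x.1, φ) ∈ A.orb x) := by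
      intro k1 k2
      have h := orb_transport (x := z) (x' := g x) (c := 0) (c' := 0)
        (u := -((b.p : ℤ) ^ (K + 2))) (v := (b.p : ℤ) ^ (K + 2)) (q := (0, z.2))
        (q' := (c + k, φ)) S.hR hz (A.map_mem hg' S.hx) (by
          intro j j1 j2
          rw [zero_add]
          refine (hag.2 j ?_).symm
          rw [hN]
          exact abs_le.2 ⟨by linarith [hp.1, hp.2.1, hp.2.2.1, hp.2.2.2],
            by linarith [hp.1, hp.2.1, hp.2.2.1, hp.2.2.2]⟩)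
        (by change -((b.p : ℤ) ^ (K + 2)) ≤ 0; linarith [hp.1, hp.2.1, hp.2.2.1, hp.2.2.2])
        (by change (0 : ℤ) ≤ (b.p : ℤ) ^ (K + 2); linarith [hp.1, hp.2.1, hp.2.2.1, hp.2.2.2])
        (by change -((b.p : ℤ) ^ (K + 2)) ≤ c + k; linarith [hp.1, hp.2.1, hp.2.2.1, hp.2.2.2])
        (by change c + k ≤ (b.p : ℤ) ^ (K + 2); linarith [hp.1, hp.2.1, hp.2.2.1, hp.2.2.2])
        (by
          refine ⟨1, A.G.one_mem, ?_⟩
          change (sh (0 + 0) z.1, z.2) = z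
          rw [add_zero, sh_zero])
        (by
          refine ⟨1, A.G.one_mem, ?_⟩
          change (sh (0 + 0) (g x).1, z.2) = g x
          rw [add_zero, sh_zero, ← hag.1])
      change (sh (0 + (c + k)) z.1, φ) ∈ A.orb z ↔ (sh (0 + (c + k)) (g x).1, φ) ∈ A.orb (g x) at h
      rw [zero_add, mem_orb_map hg', hgx1, sh_sh] at h
      have e1 : c + disp g x + k = c + k + disp g x := by ring
      rw [e1]
      exact h
    constructor
    · rintro ⟨k1, k2, k3⟩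
      exact ⟨k1, k2, (key k1 k2).1 k3⟩
    · rintro ⟨k1, k2, k3⟩
      exact ⟨k1, k2, (key k1 k2).2 k3⟩
  rw [hgerm]
  exact L09_all S hgate

theorem L09_end [Finite F] (S : L09_Set A R w R1 x K K' a a' e e') {z : Pt b F}
    (hz : z ∈ A.D) {N : ℕ} (hN : (N : ℤ) ≤ (b.p : ℤ) ^ K) (he : 0 ≤ e) :
    ∃ g ∈ A.G, |disp g x| ≤ e' + (b.p : ℤ) ^ K' ∧ Agree N (g x) z := by
  have hNK := L09_N_cast b K
  have hp := L09_pow b K
  have hK := S.hK
  have z5 : (0 : ℤ) ≤ (R : ℤ) := Int.natCast_nonneg _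
  have z6 : (0 : ℤ) ≤ (A.ρ : ℤ) := Int.natCast_nonneg _
  have z7 : (0 : ℤ) ≤ (R1 : ℤ) := Int.natCast_nonneg _
  have z8 : (0 : ℤ) ≤ (w : ℤ) := Int.natCast_nonneg _
  obtain ⟨c, c1, c2, c3⟩ := exists_gate z.1 K 0
  rw [zero_add] at c2
  obtain ⟨d, d1, d2, d3, d4⟩ := L09_align S hz c3 (L09_germ S hz c1 c2 c3)
  have h1 := (d4 (-c, z.2) (by
    change |(-c)| + R + A.ρ ≤ (L09_N b K : ℤ)
    rw [abs_neg, abs_of_nonneg c1, hNK]
    linarith [hp.1, hp.2.1, hp.2.2.1, hp.2.2.2])).2 (by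
      refine ⟨1, A.G.one_mem, ?_⟩
      change (sh (c + -c) z.1, z.2) = z
      rw [add_neg_cancel, sh_zero])
  obtain ⟨g, hg, hgx⟩ := h1
  change (sh (d + -c) x.1, z.2) = g x at hgx
  have hdisp : disp g x = d - c := by
    have h2 : pos x (sh (d + -c) x.1, z.2) = d + -c := pos_sh x (d + -c) z.2
    rw [hgx] at h2
    rw [disp, h2]
    ring
  refine ⟨g, hg, ?_, ?_, ?_⟩
  · rw [hdisp, abs_le]
    have h6 := B02_pow_pos b K'
    rw [hNK] at d1 d2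
    constructor
    · linarith [hp.1, hp.2.1, hp.2.2.1, hp.2.2.2]
    · linarith [hp.1, hp.2.1, hp.2.2.1, hp.2.2.2]
  · rw [← hgx]
  · intro k hk
    rw [← hgx]
    change x.1.1 (k + (d + -c)) = z.1.1 k
    have e1 : k + (d + -c) = d + (k - c) := by ring
    rw [e1, d3 (k - c) ?_]
    · rw [add_sub_cancel]
    · rw [hNK]
      have h3 := abs_le.1 hk
      exact abs_le.2 ⟨by linarith [hp.1, hp.2.1, hp.2.2.1, hp.2.2.2],
        by linarith [hp.1, hp.2.1, hp.2.2.1, hp.2.2.2]⟩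

theorem L09_exists_K0 (b : Base) (M : ℕ) : ∃ K0 : ℕ, (M : ℤ) + 1 ≤ (b.p : ℤ) ^ K0 ∧
    (b.p : ℤ) ^ K0 ≤ (b.p : ℤ) * (M + 1) := by
  have hex : ∃ k : ℕ, (M : ℤ) + 1 ≤ (b.p : ℤ) ^ k := ⟨M, B02_lt_pow b M⟩
  classical
  refine ⟨Nat.find hex, Nat.find_spec hex, ?_⟩
  rcases Nat.eq_zero_or_pos (Nat.find hex) with h | h
  · rw [h, pow_zero]
    have h2 := B02_two_le b
    nlinarith [Int.natCast_nonneg M]
  · obtain ⟨j, hj⟩ := Nat.exists_eq_succ_of_ne_zero h.ne'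
    have h1 := Nat.find_min hex (m := j) (by omega)
    push Not at h1
    rw [hj, pow_succ, mul_comm]
    have h2 := B02_two_le b
    nlinarith

theorem exists_SLR [Finite F] {A : Sys b F} {R w : ℕ} (hR : A.BCon R) (hw : A.SYN w) :
    ∃ C : ℕ, A.SLR C := by
  obtain ⟨Cr, -, hCr⟩ := place_right b
  obtain ⟨Cl, -, hCl⟩ := place_left b
  obtain ⟨R1, hR1⟩ : ∃ R1 : ℕ, R1 = R + A.ρ + 1 := ⟨_, rfl⟩
  obtain ⟨n, hn⟩ := A.chain R1 w
  obtain ⟨Cp, hCp⟩ : ∃ Cp : ℕ, Cp = Cr + Cl := ⟨_, rfl⟩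
  obtain ⟨m, hm⟩ : ∃ m : ℕ, 8 * ((Cp : ℤ) + 1) * (b.p : ℤ) ^ 3 ≤ (b.p : ℤ) ^ m := by
    refine ⟨8 * (Cp + 1) * b.p ^ 3, ?_⟩
    have := B02_lt_pow b (8 * (Cp + 1) * b.p ^ 3)
    push_cast at this
    exact this.le
  have hm0 : 0 < m := by
    rcases Nat.eq_zero_or_pos m with h | h
    · rw [h, pow_zero] at hm
      have h1 := B02_pow_pos b 3
      have h2 : (0 : ℤ) ≤ (Cp : ℤ) := Int.natCast_nonneg _
      nlinarith
    · exact h
  obtain ⟨E, hE⟩ : ∃ E : ℕ, E = 4 * R1 + 4 * w + 4 * R + 4 * A.ρ + 4 := ⟨_, rfl⟩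
  refine ⟨(2 * n + 3) * b.p ^ (n * m) * (b.p * (E + 1)), ?_⟩
  intro x hx z hz N
  obtain ⟨K0, hK0, hK0'⟩ := L09_exists_K0 b (N + E)
  push_cast at hK0 hK0'
  obtain ⟨L', hL'⟩ : ∃ L' : ℤ, L' = (b.p : ℤ) ^ (K0 + n * m) := ⟨_, rfl⟩
  have hL'0 : 0 < L' := by rw [hL']; exact B02_pow_pos b _
  have hNn : (0 : ℤ) ≤ (N : ℤ) := Int.natCast_nonneg _
  have hEn : (0 : ℤ) ≤ (E : ℤ) := Int.natCast_nonneg _
  obtain ⟨i, hi, eL, eR⟩ := hn x (fun i => K0 + i * m) (fun i => (i : ℤ) * L')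
    (fun i => (2 * n + 2) * L' - (i : ℤ) * L')
    (fun i j h => Nat.add_le_add_left (Nat.mul_le_mul_right m h) K0)
    (fun i j h => by
      have : (i : ℤ) ≤ (j : ℤ) := by exact_mod_cast h
      exact mul_le_mul_of_nonneg_right this hL'0.le)
    (fun i j h => by
      have : (i : ℤ) ≤ (j : ℤ) := by exact_mod_cast h
      have := mul_le_mul_of_nonneg_right this hL'0.le
      change (2 * n + 2) * L' - (j : ℤ) * L' ≤ (2 * n + 2) * L' - (i : ℤ) * L'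
      linarith)
  have hin : (i : ℤ) + 1 ≤ n := by exact_mod_cast hi
  have hK' : (b.p : ℤ) ^ (K0 + (i + 1) * m) ≤ L' := by
    rw [hL']
    exact B02_pow_le b (Nat.add_le_add_left (Nat.mul_le_mul_right m hi) K0)
  -- the estimate for the translations
  have hsmall : ∀ C : ℕ, C ≤ Cp → (C : ℤ) * ((L09_N b (K0 + i * m) : ℤ) + 1) +
      L09_N b (K0 + i * m) < (b.p : ℤ) ^ (K0 + (i + 1) * m) := by
    intro C hC
    have hC' : (C : ℤ) ≤ Cp := by exact_mod_cast hC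
    have hC0 : (0 : ℤ) ≤ C := Int.natCast_nonneg _
    rw [L09_N_cast]
    have hp := L09_pow b (K0 + i * m)
    have e1 : (b.p : ℤ) ^ (K0 + (i + 1) * m) = (b.p : ℤ) ^ (K0 + i * m) * (b.p : ℤ) ^ m := by
      rw [← pow_add]
      congr 1
      ring
    have e2 : (b.p : ℤ) ^ (K0 + i * m + 3) = (b.p : ℤ) ^ (K0 + i * m) * (b.p : ℤ) ^ 3 := by
      rw [← pow_add]
    have h1 := mul_le_mul_of_nonneg_left hm hp.2.2.2.le
    rw [← e1] at h1
    have h2 : (b.p : ℤ) ^ (K0 + i * m) * (8 * ((Cp : ℤ) + 1) * (b.p : ℤ) ^ 3) =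
        8 * ((Cp : ℤ) + 1) * (b.p : ℤ) ^ (K0 + i * m + 3) := by
      rw [e2]
      ring
    rw [h2] at h1
    refine lt_of_lt_of_le ?_ h1
    have h3 : 2 * (b.p : ℤ) ^ (K0 + i * m + 3) + 2 * (b.p : ℤ) ^ (K0 + i * m) + 1 ≤
        4 * (b.p : ℤ) ^ (K0 + i * m + 3) := by linarith [hp.1, hp.2.1, hp.2.2.1, hp.2.2.2]
    have h4 : 0 < (b.p : ℤ) ^ (K0 + i * m + 3) := B02_pow_pos b _
    have h5 : (C : ℤ) * (2 * (b.p : ℤ) ^ (K0 + i * m + 3) + 2 * (b.p : ℤ) ^ (K0 + i * m) + 1) ≤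
        Cp * (4 * (b.p : ℤ) ^ (K0 + i * m + 3)) := by
      refine mul_le_mul hC' h3 ?_ (hC0.trans hC')
      linarith [hp.1, hp.2.1, hp.2.2.1, hp.2.2.2]
    have h6 : (0 : ℤ) ≤ Cp * (b.p : ℤ) ^ (K0 + i * m + 3) := mul_nonneg (hC0.trans hC') h4.le
    linarith
  have S : L09_Set A R w R1 x (K0 + i * m) (K0 + (i + 1) * m) ((i : ℤ) * L')
      ((2 * n + 2) * L' - (i : ℤ) * L') (((i + 1 : ℕ) : ℤ) * L')
      ((2 * n + 2) * L' - ((i + 1 : ℕ) : ℤ) * L') := by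
    refine ⟨hR, hw, by omega, hx, ?_, ?_, ?_, ?_, ?_, ?_, eL, eR⟩
    · have h1 : ((4 * R1 + 4 * w + 4 * R + 4 * A.ρ + 4 : ℕ) : ℤ) = E := by rw [hE]
      push_cast at h1
      have h2 := B02_pow_le b (M := K0) (N := K0 + i * m) (Nat.le_add_right _ _)
      linarith
    · intro y'
      obtain ⟨t, t1, t2, t3⟩ := hCr y' (L09_N b (K0 + i * m))
      exact ⟨t, t1, by linarith [hsmall Cr (by omega)], t3⟩
    · intro y'
      obtain ⟨t, t1, t2, t3⟩ := hCl y' (L09_N b (K0 + i * m))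
      exact ⟨t, t1, by linarith [hsmall Cl (by omega)], t3⟩
    · push_cast
      linarith
    · push_cast
      linarith
    · have h1 : (b.p : ℤ) ^ (K0 + i * m + 1) ≤ L' := by
        rw [hL']
        apply B02_pow_le b
        have h2 : (i + 1) * m ≤ n * m := Nat.mul_le_mul_right m hi
        have h3 : (i + 1) * m = i * m + m := by ring
        omega
      have h4 : (i : ℤ) * L' ≤ n * L' := mul_le_mul_of_nonneg_right (by linarith) hL'0.le
      linarith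
  obtain ⟨g, hg, g1, g2⟩ := L09_end S hz (N := N) (by
    have h2 := B02_pow_le b (M := K0) (N := K0 + i * m) (Nat.le_add_right _ _)
    linarith) (by positivity)
  refine ⟨g, hg, g1.trans ?_, g2⟩
  have h1 : (2 * (n : ℤ) + 2) * L' - ((i + 1 : ℕ) : ℤ) * L' + (b.p : ℤ) ^ (K0 + (i + 1) * m) ≤
      (2 * n + 3) * L' := by
    have : 0 ≤ ((i + 1 : ℕ) : ℤ) * L' := by positivity
    linarith
  refine h1.trans ?_
  rw [hL', pow_add]
  push_cast
  have h2 : (b.p : ℤ) ^ K0 ≤ (b.p : ℤ) * ((E : ℤ) + 1) * (N + 1) := by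
    refine hK0'.trans ?_
    have h2 := B02_two_le b
    have h3 : (N : ℤ) + E + 1 ≤ ((E : ℤ) + 1) * (N + 1) := by nlinarith
    rw [mul_assoc]
    exact mul_le_mul_of_nonneg_left h3 (by linarith)
  have h3 : (0 : ℤ) ≤ (2 * n + 3) * (b.p : ℤ) ^ (n * m) := by
    have := B02_pow_pos b (n * m)
    positivity
  calc (2 * (n : ℤ) + 3) * ((b.p : ℤ) ^ K0 * (b.p : ℤ) ^ (n * m))
      = (2 * (n : ℤ) + 3) * (b.p : ℤ) ^ (n * m) * (b.p : ℤ) ^ K0 := by ring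
    _ ≤ (2 * (n : ℤ) + 3) * (b.p : ℤ) ^ (n * m) * ((b.p : ℤ) * ((E : ℤ) + 1) * (N + 1)) :=
        mul_le_mul_of_nonneg_left h2 h3
    _ = _ := by ring

end Sys

end Pool.Agent.helper98.NIG
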