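import Pool.Agent.helper2.NIG.L04

/-!
# NIG-L10: uniform density

PROOF. Let `f = card F`. For `n : ℕ` let `M n = sup` and `μ n = inf` over `x ∈ D` of `cn x n` (integers in
`[0, f n]`; attained). `cn x (n + k) = cn x n + cn (g x) (k + n - disp g x) ...`: by `SYN` choose `g ∈ G` with
`n ≤ disp g x < n + w`; `cn x (n + k) - cn x n` differs from `cn (g x) k` by at most `2 f w` (`cn_add`,
`cn_lip`). So `M (n + k) ≤ M n + M k + 2 f w`, `μ (n + k) ≥ μ n + μ k - 2 f w`: `M n + 2 f w` is subadditive and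
`2 f w - μ n` is subadditive: Fekete (`Subadditive.tendsto_lim` in Mathlib, or directly): `M n / n → α`,
`μ n / n → β`, with `α n ≤ M n + 2 f w` and `μ n ≤ β n + 2 f w` for all `n`, `β ≤ α`.
CLAIM `α = β`. Let `n` be large, let `z ∈ D` with `cn z n = M n`. Let `x ∈ D` with `cn x L = μ L`, where
`L = 4 C (n + R + 2 ρ + 3) + 4 w + 4 n`... precisely: by `SYN` take `x1 = g1 x` in the middle of `[0, L]`, and by SLR
(`N = n + R + 2 ρ + 2`) `g2` with `|disp g2 x1| ≤ C (N + 1)` and `Agree N (g2 x1) z`; then `a = disp (g2 g1) x` satisfies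
`0 ≤ a`, `a + n ≤ L` and `cn (g2 g1 x) n = cn z n = M n` (`cn_congr`). So
`μ L = cn x L = cn x a + cn (g2 g1 x) n + (cn x L - cn x (a + n)) ≥ μ a + M n + μ (L - a - n) - 2 f w`
`≥ M n + β' (L - n) - c'`, where `β' < β` and `c'` is such that `μ k ≥ β' k - c'` for all `k ≥ 0`.
With `μ L ≤ β L + 2 f w` and `M n ≥ α n - 2 f w`: `(α - β) n ≤ (β - β') L + c''`. Since `L ≤ C' n`, dividing by `n` and
letting `n → ∞` gives `α - β ≤ (β - β') C'`, for every `β' < β`. So `α = β =: d`.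
`d > 0` by `cn_syn` (`n ≤ w (cn x n + 1)`).
For `n ≥ 0`: `μ n ≤ cn x n ≤ M n` and `M n / n, μ n / n → d` give the statement. For `n < 0`: choose `g` with
`n ≤ disp g x < n + w`; `cn x n` differs from `- cn (g x) (-n)` by at most `2 f w` (`cn_add`: with `k = - disp g x`,
`cn (g x) k = cn x 0 - cn x (disp g x) = - cn x (disp g x)`).
TIP: a direct proof of the convergence may be shorter: from `α n ≤ M n + 2fw` and subadditivity.
-/

namespace Pool.Agent.helper98.NIG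

variable {b : Base} {F : Type}

namespace Sys

/-- the counts are additive up to a constant -/
theorem L10_shift [Finite F] {A : Sys b F} {w : ℕ} (hw : A.SYN w) {x : Pt b F} (hx : x ∈ A.D)
    (a : ℤ) : ∃ y ∈ A.D, ∀ n : ℤ,
      |A.cn x (a + n) - A.cn x a - A.cn y n| ≤ 2 * (Nat.card F * w) := by
  obtain ⟨g, hg, h1, h2⟩ := hw x hx a
  refine ⟨g x, A.map_mem hg hx, fun n => ?_⟩
  rw [cn_add A hg x n]
  have e1 := cn_lip A x (a + n) (disp g x + n)
  have e2 := cn_lip A x a (disp g x)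
  have e3 : |a - disp g x| ≤ w := by rw [abs_le]; constructor <;> linarith
  have e4 : |a + n - (disp g x + n)| ≤ w := by rw [abs_le]; constructor <;> linarith
  have f0 : (0 : ℤ) ≤ Nat.card F := by positivity
  have e5 := mul_le_mul_of_nonneg_left e3 f0
  have e6 := mul_le_mul_of_nonneg_left e4 f0
  have e7 := abs_le.1 (e1.trans e6)
  have e8 := abs_le.1 (e2.trans e5)
  rw [abs_le]
  constructor <;> linarith [e7.1, e7.2, e8.1, e8.2]

/-- upper rate `t` -/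
def L10P (A : Sys b F) (t : ℝ) : Prop :=
  ∃ B : ℝ, ∀ x ∈ A.D, ∀ n : ℕ, (A.cn x n : ℝ) ≤ t * n + B

/-- lower rate `t` -/
def L10Q (A : Sys b F) (t : ℝ) : Prop :=
  ∃ B : ℝ, ∀ x ∈ A.D, ∀ n : ℕ, t * n - B ≤ (A.cn x n : ℝ)

theorem L10_shiftR [Finite F] {A : Sys b F} {w : ℕ} (hw : A.SYN w) {x : Pt b F} (hx : x ∈ A.D)
    (a : ℤ) : ∃ y ∈ A.D, ∀ n : ℤ,
      |(A.cn x (a + n) : ℝ) - A.cn x a - A.cn y n| ≤ 2 * (Nat.card F * w) := by
  obtain ⟨y, hy, h⟩ := L10_shift hw hx a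
  exact ⟨y, hy, fun n => by exact_mod_cast h n⟩

theorem L10_lipR [Finite F] (A : Sys b F) (x : Pt b F) (u v : ℤ) :
    |(A.cn x u : ℝ) - A.cn x v| ≤ Nat.card F * |(u : ℝ) - v| := by
  exact_mod_cast cn_lip A x u v

theorem L10_iterU [Finite F] {A : Sys b F} {w : ℕ} (hw : A.SYN w) {t : ℝ} {n : ℕ} (hn : 1 ≤ n)
    (h : ∀ z ∈ A.D, (A.cn z n : ℝ) ≤ t * n - 2 * (Nat.card F * w)) : L10P A t := by
  have h1 : ∀ q : ℕ, ∀ x ∈ A.D, (A.cn x ((q * n : ℕ) : ℤ) : ℝ) ≤ t * (q * n : ℕ) := by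
    intro q
    induction q with
    | zero =>
      intro x _
      have e : ((0 * n : ℕ) : ℤ) = 0 := by simp
      rw [e, cn_zero]
      simp
    | succ q ih =>
      intro x hx
      obtain ⟨y, hy, hs⟩ := L10_shiftR hw hx ((q * n : ℕ) : ℤ)
      have e : (((q + 1) * n : ℕ) : ℤ) = ((q * n : ℕ) : ℤ) + (n : ℤ) := by push_cast; ring
      have e2 : (((q + 1) * n : ℕ) : ℝ) = ((q * n : ℕ) : ℝ) + (n : ℝ) := by push_cast; ring
      rw [e, e2]
      have h2 := (abs_le.1 (hs n)).2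
      have h3 := ih x hx
      have h4 := h y hy
      linarith
  refine ⟨|t| * n + Nat.card F * n, fun x hx m => ?_⟩
  have h2 := h1 (m / n) x hx
  have h3 : m / n * n + m % n = m := Nat.div_add_mod' m n
  have h4 : m % n < n := Nat.mod_lt _ hn
  have h5 := (abs_le.1 (L10_lipR A x m ((m / n * n : ℕ) : ℤ))).2
  have h8 : (m : ℝ) = ((m / n * n : ℕ) : ℝ) + ((m % n : ℕ) : ℝ) := by
    have h := congrArg (Nat.cast (R := ℝ)) h3
    rw [Nat.cast_add] at h
    exact h.symm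
  have h6 : ((m : ℤ) : ℝ) - (((m / n * n : ℕ) : ℤ) : ℝ) = ((m % n : ℕ) : ℝ) := by
    rw [Int.cast_natCast, Int.cast_natCast, h8]
    ring
  rw [h6, abs_of_nonneg (Nat.cast_nonneg _)] at h5
  have h7 : ((m % n : ℕ) : ℝ) ≤ n := by exact_mod_cast h4.le
  have h9 : (0 : ℝ) ≤ Nat.card F := Nat.cast_nonneg _
  have h10 := mul_le_mul_of_nonneg_left h7 h9
  have h11 : -(|t| * n) ≤ t * ((m % n : ℕ) : ℝ) := by
    have a1 : -|t| ≤ t := neg_abs_le t
    have a2 : (0 : ℝ) ≤ ((m % n : ℕ) : ℝ) := Nat.cast_nonneg _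
    have a3 := mul_le_mul_of_nonneg_right a1 a2
    have a4 := mul_le_mul_of_nonneg_left h7 (abs_nonneg t)
    linarith
  rw [h8, mul_add]
  have h12 : ((m : ℕ) : ℤ) = (m : ℤ) := rfl
  linarith

theorem L10_iterL [Finite F] {A : Sys b F} {w : ℕ} (hw : A.SYN w) {t : ℝ} {n : ℕ} (hn : 1 ≤ n)
    (h : ∀ z ∈ A.D, t * n + 2 * (Nat.card F * w) ≤ (A.cn z n : ℝ)) : L10Q A t := by
  have h1 : ∀ q : ℕ, ∀ x ∈ A.D, t * (q * n : ℕ) ≤ (A.cn x ((q * n : ℕ) : ℤ) : ℝ) := by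
    intro q
    induction q with
    | zero =>
      intro x _
      have e : ((0 * n : ℕ) : ℤ) = 0 := by simp
      rw [e, cn_zero]
      simp
    | succ q ih =>
      intro x hx
      obtain ⟨y, hy, hs⟩ := L10_shiftR hw hx ((q * n : ℕ) : ℤ)
      have e : (((q + 1) * n : ℕ) : ℤ) = ((q * n : ℕ) : ℤ) + (n : ℤ) := by push_cast; ring
      have e2 : (((q + 1) * n : ℕ) : ℝ) = ((q * n : ℕ) : ℝ) + (n : ℝ) := by push_cast; ring
      rw [e, e2]
      have h2 := (abs_le.1 (hs n)).1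
      have h3 := ih x hx
      have h4 := h y hy
      linarith
  refine ⟨|t| * n, fun x hx m => ?_⟩
  have h2 := h1 (m / n) x hx
  have h3 : m / n * n + m % n = m := Nat.div_add_mod' m n
  have h4 : m % n < n := Nat.mod_lt _ hn
  have h5 : A.cn x ((m / n * n : ℕ) : ℤ) ≤ A.cn x m := cn_mono A x (by
    have : m / n * n ≤ m := Nat.div_mul_le_self m n
    exact_mod_cast this)
  have h5' : (A.cn x ((m / n * n : ℕ) : ℤ) : ℝ) ≤ A.cn x m := by exact_mod_cast h5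
  have h7 : ((m % n : ℕ) : ℝ) ≤ n := by exact_mod_cast h4.le
  have h8 : (m : ℝ) = ((m / n * n : ℕ) : ℝ) + ((m % n : ℕ) : ℝ) := by
    have h := congrArg (Nat.cast (R := ℝ)) h3
    rw [Nat.cast_add] at h
    exact h.symm
  have h11 : t * ((m % n : ℕ) : ℝ) ≤ |t| * n := by
    have a1 : t ≤ |t| := le_abs_self t
    have a2 : (0 : ℝ) ≤ ((m % n : ℕ) : ℝ) := Nat.cast_nonneg _
    have a3 := mul_le_mul_of_nonneg_right a1 a2
    have a4 := mul_le_mul_of_nonneg_left h7 (abs_nonneg t)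
    linarith
  rw [h8, mul_add]
  linarith

theorem L10Q.mono {A : Sys b F} {s t : ℝ} (hst : s ≤ t) (h : L10Q A t) : L10Q A s := by
  obtain ⟨B, hB⟩ := h
  refine ⟨B, fun x hx n => le_trans ?_ (hB x hx n)⟩
  have := mul_le_mul_of_nonneg_right hst (Nat.cast_nonneg (α := ℝ) n)
  linarith

/-- the place of a window in a long window -/
theorem L10_place [Finite F] {A : Sys b F} {R w C : ℕ} (hR : A.BCon R) (hw : A.SYN w)
    (hC : A.SLR C) {x z : Pt b F} (hx : x ∈ A.D) (hz : z ∈ A.D) (n : ℕ) :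
    ∃ g ∈ A.G, 0 ≤ disp g x ∧
      disp g x ≤ 2 * C * ((n : ℤ) + R + 2 * A.ρ + 3) + w ∧ A.cn (g x) n = A.cn z n := by
  obtain ⟨g1, hg1, h1, h2⟩ := hw x hx (C * ((n : ℤ) + R + 2 * A.ρ + 3))
  obtain ⟨g2, hg2, h3, h4⟩ := hC (g1 x) (A.map_mem hg1 hx) z hz (n + R + 2 * A.ρ + 2)
  have h5 : disp (g2 * g1) x = disp g2 (g1 x) + disp g1 x :=
    disp_mul (A.G_le_PW hg2) (A.G_le_PW hg1) x
  push_cast at h3
  have h6 : (C : ℤ) * ((n : ℤ) + R + 2 * A.ρ + 2 + 1) = C * ((n : ℤ) + R + 2 * A.ρ + 3) := by ring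
  rw [h6] at h3
  have h7 := abs_le.1 h3
  refine ⟨g2 * g1, A.G.mul_mem hg2 hg1, ?_, ?_, ?_⟩
  · rw [h5]; linarith [h7.1]
  · rw [h5]; linarith [h7.2]
  · refine cn_congr hR (A.map_mem (A.G.mul_mem hg2 hg1) hx) hz h4 ?_
    rw [abs_of_nonneg (Int.natCast_nonneg n)]
    push_cast
    linarith

theorem unif_density [Finite F] {A : Sys b F} {R w C : ℕ} (hR : A.BCon R) (hw : A.SYN w)
    (hC : A.SLR C) : ∃ d : ℝ, 0 < d ∧ ∀ ε : ℝ, 0 < ε → ∃ B : ℝ, ∀ x ∈ A.D, ∀ n : ℤ,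
      |(A.cn x n : ℝ) - d * n| ≤ ε * |(n : ℝ)| + B := by
  classical
  obtain ⟨x0, hx0⟩ := A.nonempty
  have hw0 : 0 < w := by
    obtain ⟨g, _, h1, h2⟩ := hw x0 hx0 0
    by_contra hcon
    have : w = 0 := by omega
    rw [this] at h2
    push_cast at h2
    linarith
  have hwR : (0 : ℝ) < w := by exact_mod_cast hw0
  -- the constant
  obtain ⟨c, hc⟩ : ∃ c : ℝ, c = 2 * (Nat.card F * w) := ⟨_, rfl⟩
  have hc0 : 0 ≤ c := by rw [hc]; positivity
  -- a lower rate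
  have hQ1 : L10Q A (1 / w) := by
    refine ⟨1, fun x hx n => ?_⟩
    have h1 := cn_syn hw hx (u := 0) (v := n) (Int.natCast_nonneg n)
    rw [cn_zero, sub_zero, sub_zero] at h1
    have h2 : (n : ℝ) ≤ w * (A.cn x n + 1) := by exact_mod_cast h1
    rw [div_mul_eq_mul_div, one_mul, sub_le_iff_le_add, div_le_iff₀ hwR]
    linarith
  have hbdd : ∀ t : ℝ, L10Q A t → t ≤ Nat.card F := by
    rintro t ⟨B, hB⟩
    by_contra hcon
    have hcon' : 0 < t - Nat.card F := by linarith [not_le.1 hcon]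
    obtain ⟨n, hn⟩ := exists_nat_gt (B / (t - Nat.card F))
    rw [div_lt_iff₀ hcon'] at hn
    have h1 := hB x0 hx0 n
    have h2 := (abs_le.1 (L10_lipR A x0 n 0)).2
    rw [cn_zero] at h2
    push_cast at h2
    rw [sub_zero, sub_zero, abs_of_nonneg (Nat.cast_nonneg n)] at h2
    nlinarith
  have hBA : BddAbove {t : ℝ | L10Q A t} := ⟨_, fun t ht => hbdd t ht⟩
  set β : ℝ := sSup {t : ℝ | L10Q A t} with hβ
  have hβ1 : 1 / (w : ℝ) ≤ β := le_csSup hBA hQ1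
  have hlow : ∀ s, s < β → L10Q A s := by
    intro s hs
    obtain ⟨t, ht, hst⟩ := exists_lt_of_lt_csSup (s := {t : ℝ | L10Q A t}) ⟨_, hQ1⟩ hs
    exact L10Q.mono hst.le ht
  have hup : ∀ s, β < s → ¬ L10Q A s := fun s hs h => absurd (le_csSup hBA h) (not_le.2 hs)
  -- the main step
  have hmain : ∀ ε : ℝ, 0 < ε → L10P A (β + ε) := by
    intro ε hε
    by_contra hP
    have hC1 : (0 : ℝ) < 2 * (2 * C + 1) := by positivity
    obtain ⟨δ, hδ⟩ : ∃ δ : ℝ, δ = ε / (2 * (2 * C + 1)) := ⟨_, rfl⟩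
    have hδ0 : 0 < δ := by rw [hδ]; positivity
    have hδ1 : 2 * δ * (2 * C + 1) = ε := by
      rw [hδ]
      field_simp
    obtain ⟨B', hB'⟩ := hlow (β - δ) (by linarith)
    obtain ⟨c0, hc0'⟩ : ∃ c0 : ℝ, c0 = 2 * C * (R + 2 * A.ρ + 3) + w := ⟨_, rfl⟩
    obtain ⟨n, hn⟩ := exists_nat_gt ((2 * δ * c0 + 2 * B' + 3 * c) / δ)
    rw [div_lt_iff₀ hδ0] at hn
    -- we may enlarge `n`
    obtain ⟨n1, hn1, hn1'⟩ : ∃ n1 : ℕ, 1 ≤ n1 ∧ (2 * δ * c0 + 2 * B' + 3 * c) < n1 * δ := by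
      refine ⟨n + 1, by omega, hn.trans_le ?_⟩
      push_cast
      nlinarith
    obtain ⟨z, hz, hz'⟩ : ∃ z ∈ A.D, (β + ε) * n1 - c < (A.cn z n1 : ℝ) := by
      by_contra hcon
      push Not at hcon
      exact hP (L10_iterU hw hn1 fun z hz => by rw [← hc]; exact hcon z hz)
    obtain ⟨L, hL⟩ : ∃ L : ℕ, L = 2 * C * (n1 + R + 2 * A.ρ + 3) + w + n1 := ⟨_, rfl⟩
    obtain ⟨x, hx, hx'⟩ : ∃ x ∈ A.D, (A.cn x L : ℝ) < (β + δ) * L + c := by
      by_contra hcon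
      push Not at hcon
      exact hup (β + δ) (by linarith)
        (L10_iterL hw (n := L) (by omega) fun x hx => by rw [← hc]; exact hcon x hx)
    obtain ⟨g, hg, h1, h2, h3⟩ := L10_place hR hw hC hx hz n1
    obtain ⟨a, ha⟩ := Int.eq_ofNat_of_zero_le h1
    have haL : a + n1 ≤ L := by
      have : (a : ℤ) + n1 ≤ L := by
        rw [hL]
        push_cast
        rw [← ha]
        linarith
      exact_mod_cast this
    obtain ⟨e, he⟩ : ∃ e : ℕ, L = a + n1 + e := ⟨L - (a + n1), by omega⟩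
    obtain ⟨y2, hy2, h4⟩ := L10_shiftR hw hx ((a : ℤ) + n1)
    have h5 := (abs_le.1 (h4 e)).1
    have h6 : (a : ℤ) + n1 + e = (L : ℤ) := by rw [he]; push_cast; ring
    rw [h6, ← hc] at h5
    have h7 := cn_add A hg x n1
    rw [h3, ha] at h7
    have h8 : (A.cn z n1 : ℝ) = A.cn x ((a : ℤ) + n1) - A.cn x (a : ℤ) := by exact_mod_cast h7
    have h9 := hB' x hx a
    have h10 := hB' y2 hy2 e
    have h11 : (L : ℝ) = a + n1 + e := by rw [he]; push_cast; ring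
    have h12 : (L : ℝ) = (2 * C + 1) * n1 + c0 := by
      rw [hL, hc0']
      push_cast
      ring
    have h13 : ((a : ℕ) : ℤ) = (a : ℤ) := rfl
    have h14 : (β - δ) * L + (ε + δ) * n1 - 2 * B' - 2 * c < (A.cn x L : ℝ) := by
      have e1 : (β - δ) * (L : ℝ) = (β - δ) * a + (β - δ) * n1 + (β - δ) * e := by
        rw [h11]; ring
      have e2 : (ε + δ) * (n1 : ℝ) + (β - δ) * n1 = (β + ε) * n1 := by ring
      linarith
    have h15 : (β - δ) * (L : ℝ) + (ε + δ) * n1 - 2 * B' - 2 * c < (β + δ) * L + c :=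
      h14.trans hx'
    have h16 : (ε + δ) * (n1 : ℝ) < 2 * δ * L + 2 * B' + 3 * c := by linarith
    rw [h12] at h16
    have h17 : 2 * δ * ((2 * (C : ℝ) + 1) * n1 + c0) = ε * n1 + 2 * δ * c0 := by
      rw [← hδ1]; ring
    rw [h17] at h16
    linarith
  refine ⟨β, lt_of_lt_of_le (by positivity) hβ1, fun ε hε => ?_⟩
  obtain ⟨B1, hB1⟩ := hmain ε hε
  obtain ⟨B2, hB2⟩ := hlow (β - ε) (by linarith)
  have hnat : ∀ x ∈ A.D, ∀ n : ℕ, |(A.cn x n : ℝ) - β * n| ≤ ε * n + (|B1| + |B2|) := by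
    intro x hx n
    have h1 := hB1 x hx n
    have h2 := hB2 x hx n
    have h3 := le_abs_self B1
    have h4 := le_abs_self B2
    have h5 := abs_nonneg B1
    have h6 := abs_nonneg B2
    rw [abs_le]
    constructor <;> linarith
  refine ⟨|B1| + |B2| + c, fun x hx n => ?_⟩
  rcases le_or_gt 0 n with hn | hn
  · obtain ⟨m, rfl⟩ := Int.eq_ofNat_of_zero_le hn
    have h1 := hnat x hx m
    have h2 : |(((m : ℕ) : ℤ) : ℝ)| = m := by
      push_cast
      exact abs_of_nonneg (Nat.cast_nonneg m)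
    rw [h2]
    push_cast
    linarith
  · obtain ⟨m, hm⟩ : ∃ m : ℕ, n = -(m : ℤ) := ⟨n.natAbs, by omega⟩
    obtain ⟨y, hy, h1⟩ := L10_shiftR hw hx n
    have h2 := h1 m
    have h3 : n + (m : ℤ) = 0 := by rw [hm]; ring
    rw [h3, cn_zero, ← hc] at h2
    have h4 := hnat y hy m
    have h5 : |(n : ℝ)| = m := by
      rw [hm]
      push_cast
      rw [abs_neg]
      exact abs_of_nonneg (Nat.cast_nonneg m)
    rw [h5]
    have h6 : (n : ℝ) = -(m : ℝ) := by rw [hm]; push_cast; ring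
    rw [h6]
    push_cast at h2
    have h7 := abs_le.1 h2
    have h8 := abs_le.1 h4
    rw [abs_le]
    constructor <;> linarith [h7.1, h7.2, h8.1, h8.2]

end Sys

end Pool.Agent.helper98.NIG
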