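import Pool.Agent.helper2.NIG.L05
import Pool.Agent.helper2.NIG.L10

/-!
# NIG-L11: displacements along locks

author: helper6

PROOF. Let `d` be the density, `ε = d η / 100` small, `f = card F`. Let `n = disp u x`, `n' = disp u y`, `|n| ≤ Q`.
`Dir` at `h = u`: `|cn y n' - σ cn x n| ≤ C0`. With `|cn x n| ≤ f |n|` and `cn_syn_abs` at `y` (`u = n'`, `v = 0`):
`|n'| ≤ w (f Q + C0 + 1)`. Then `|d n' - σ d n| ≤ |cn y n' - σ cn x n| + ε |n'| + ε |n| + 2 B
≤ C0 + 2 B + ε (w (f Q + C0 + 1) + Q)`. Choose `ε` with `ε (w f + 1) ≤ d η / 2` and then `Q` so large that the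
constants are at most `d η Q / 2`.
-/

namespace Pool.Agent.helper98.NIG

variable {b : Base} {F : Type}

namespace Sys

theorem disp_lock [Finite F] {A : Sys b F} {R w C : ℕ} (hR : A.BCon R) (hw : A.SYN w)
    (hC : A.SLR C) (C0 : ℕ) : ∀ η : ℝ, 0 < η → ∃ Q0 : ℕ, ∀ Q : ℕ, Q0 ≤ Q →
      ∀ x ∈ A.D, ∀ y ∈ A.D, ∀ σ : ℤ, (σ = 1 ∨ σ = -1) → ∀ m : ℕ, A.Dir C0 m σ x y →
        ∀ u ∈ A.W m, |disp u x| ≤ Q → |((disp u y - σ * disp u x : ℤ) : ℝ)| ≤ η * Q := by
  classical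
  obtain ⟨d, hd, hdens⟩ := unif_density hR hw hC
  intro η hη
  set f : ℝ := (Nat.card F : ℝ) with hf
  have hf0 : 0 ≤ f := Nat.cast_nonneg _
  have hw0 : (0 : ℝ) ≤ w := Nat.cast_nonneg _
  have hwf : 0 < w * f + 1 := by positivity
  set ε : ℝ := d * η / (2 * (w * f + 1)) with hε
  have hε0 : 0 < ε := by positivity
  have hεe : ε * (w * f + 1) = d * η / 2 := by
    rw [hε]; field_simp
  obtain ⟨B, hB⟩ := hdens ε hε0
  set K : ℝ := ε * (w * (C0 + 1)) + 2 * |B| + C0 with hK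
  obtain ⟨Q0, hQ0⟩ := exists_nat_ge (K / (d * η / 2))
  have hdη : 0 < d * η / 2 := by positivity
  refine ⟨Q0, fun Q hQ x hx y hy σ hσ m hdir u hu hux => ?_⟩
  have hKQ : K ≤ d * η / 2 * Q := by
    have h1 : K / (d * η / 2) ≤ Q := hQ0.trans (by exact_mod_cast hQ)
    rw [div_le_iff₀ hdη] at h1
    linarith
  have h1 := hdir u hu
  set n : ℤ := disp u x with hn
  set n' : ℤ := disp u y with hn'
  have hσa : |(σ : ℝ)| = 1 := by
    rcases hσ with rfl | rfl <;> simp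
  have h2 : |A.cn x n| ≤ Nat.card F * |n| := by
    have := cn_lip A x n 0
    rwa [cn_zero, sub_zero, sub_zero] at this
  have h3 : |n'| ≤ w * (|A.cn y n'| + 1) := by
    have := cn_syn_abs hw hy n' 0
    rwa [cn_zero, sub_zero, sub_zero] at this
  have h4 := hB x hx n
  have h5 := hB y hy n'
  have h1r : |(A.cn y n' : ℝ) - σ * A.cn x n| ≤ C0 := by exact_mod_cast h1
  have h2r : |(A.cn x n : ℝ)| ≤ f * |(n : ℝ)| := by rw [hf]; exact_mod_cast h2
  have h3r : |(n' : ℝ)| ≤ w * (|(A.cn y n' : ℝ)| + 1) := by exact_mod_cast h3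
  have hnQ : |(n : ℝ)| ≤ Q := by exact_mod_cast hux
  have hBB : B ≤ |B| := le_abs_self B
  have h6 : |(A.cn y n' : ℝ)| ≤ C0 + f * Q := by
    have e : (A.cn y n' : ℝ) = (A.cn y n' - σ * A.cn x n) + σ * A.cn x n := by ring
    rw [e]
    refine (abs_add_le _ _).trans ?_
    rw [abs_mul, hσa, one_mul]
    have := mul_le_mul_of_nonneg_left hnQ hf0
    linarith
  have h7 : |(n' : ℝ)| ≤ w * (C0 + f * Q + 1) :=
    h3r.trans (mul_le_mul_of_nonneg_left (by linarith) hw0)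
  have h8 : |d * ((n' : ℝ) - σ * n)| ≤ d * η * Q := by
    have e : d * ((n' : ℝ) - σ * n) = -((A.cn y n' : ℝ) - d * n') +
        σ * ((A.cn x n : ℝ) - d * n) + ((A.cn y n' : ℝ) - σ * A.cn x n) := by ring
    rw [e]
    refine (abs_add_le _ _).trans ?_
    have h9 := abs_add_le (-((A.cn y n' : ℝ) - d * n')) (σ * ((A.cn x n : ℝ) - d * n))
    rw [abs_neg, abs_mul, hσa, one_mul] at h9
    have h10 := mul_le_mul_of_nonneg_left h7 hε0.le
    have h11 := mul_le_mul_of_nonneg_left hnQ hε0.le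
    have h12 : ε * (w * (C0 + f * Q + 1)) + ε * Q = ε * (w * f + 1) * Q + ε * (w * (C0 + 1)) := by
      ring
    rw [hεe] at h12
    linarith
  rw [abs_mul, abs_of_pos hd, mul_assoc] at h8
  have h13 := le_of_mul_le_mul_left h8 hd
  push_cast
  exact h13

end Sys

end Pool.Agent.helper98.NIG
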