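import Pool.Agent.helper2.NIG.L05

/-!
# NIG-L12: a long direct lock of an orbit with itself and with a small shift is trivial

PROOF. Suppose not: for every `N : ℕ` there are `x_N ∈ D`, `v_N ∈ G` with `|disp v_N x_N| ≤ s`, `E N x_N (v_N x_N)`,
`Dir C N 1 x_N (v_N x_N)`, `v_N x_N ≠ x_N`. By `conn_W` we may take `v_N ∈ W (K (s + 1))` (replace `v_N` by an element
with the same value at `x_N`), a finite set, so along an ultrafilter `U` on `ℕ` (`Filter.hyperfilter ℕ`)
`v_N = v` is constant (`Ultrafilter` and finitely many values). Let `x_N → x` (`exists_ulim`), `x ∈ D`, and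
`v x_N → v x` (`ulim_map`).
Let `h ∈ G`. For `U`-many `N`: `h ∈ W N`, `disp h x_N = disp h x`, `disp h (v x_N) = disp h (v x)`, the counts are
the same (`cn_congr`, `agree_W`), so `|cn (v x) (disp h (v x)) - cn x (disp h x)| ≤ C`. By `cn_add`
`cn (v x) n = cn x (disp v x + n) - cn x (disp v x)`. So
`|cn x (disp v x + disp h (v x)) - cn x (disp h x)| ≤ C + |cn x (disp v x)|`, and by `cn_syn_abs`
`|pos (h x) (h (v x))| = |disp v x + disp h (v x) - disp h x|` is bounded independently of `h`. `A.Reduced` gives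
`v x = x`. Then `v x_N = x_N` for `U`-many `N` (`fix_iff_of_agree`): contradiction.
(`E` is not even used. `pos (h x) (h (v x)) = - disp h x + disp v x + disp h (v x)` by `pos_add`, `pos_neg`.)
-/

namespace Pool.Agent.helper98.NIG

variable {b : Base} {F : Type}

namespace Sys

theorem self_lock_small [Finite F] {A : Sys b F} (hA : A.Reduced) {R w : ℕ} (hR : A.BCon R)
    (hw : A.SYN w) (C s : ℕ) : ∃ N : ℕ, ∀ x ∈ A.D, ∀ v ∈ A.G, |disp v x| ≤ s →
      A.Dir C N 1 x (v x) → v x = x := by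
  by_contra hcon
  push Not at hcon
  obtain ⟨K, hK, hconn⟩ := conn_W hR
  have h1 : ∀ N : ℕ, ∃ x ∈ A.D, ∃ v ∈ A.W (K * (s + 1)), A.Dir C N 1 x (v x) ∧ v x ≠ x := by
    intro N
    obtain ⟨x, hx, v, hv, hs, hd, hne⟩ := hcon N
    obtain ⟨v', hv', e⟩ := hconn x hx v hv
    refine ⟨x, hx, v', A.W_mono ?_ hv', ?_, ?_⟩
    · apply Nat.mul_le_mul_left
      rw [Int.abs_eq_natAbs] at hs
      omega
    · rw [e]
      exact hd
    · rw [e]
      exact hne
  choose u hu v hv hd hne using h1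
  obtain ⟨v0, hv0, hv0'⟩ : ∃ v0 ∈ A.W (K * (s + 1)),
      ∀ᶠ i in ((Filter.hyperfilter ℕ : Ultrafilter ℕ) : Filter ℕ), v i = v0 := by
    rw [← Ultrafilter.eventually_exists_mem_iff (A.W_finite _)]
    exact Filter.Eventually.of_forall fun i => ⟨v i, hv i, rfl⟩
  have hge : ∀ m : ℕ, ∀ᶠ i in ((Filter.hyperfilter ℕ : Ultrafilter ℕ) : Filter ℕ), m ≤ i :=
    fun m => Nat.hyperfilter_le_atTop (Filter.eventually_ge_atTop m)
  obtain ⟨x, hx⟩ := exists_ulim (Filter.hyperfilter ℕ : Ultrafilter ℕ) u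
  have hxD : x ∈ A.D := A.mem_D_of_ulim hx (Filter.Eventually.of_forall hu)
  have hv0G : v0 ∈ A.G := A.W_le_G hv0
  have hvx := ulim_map (A.G_le_PW hv0G) hx
  have hvxD : v0 x ∈ A.D := A.map_mem hv0G hxD
  have hline : SameLine x (v0 x) := sameLine_of_mem_PW (A.G_le_PW hv0G) x
  -- the key estimate
  have key : ∀ h ∈ A.G, |pos (h x) (h (v0 x))| ≤ w * ((C : ℤ) + |A.cn x (disp v0 x)| + 1) := by
    intro h hh
    obtain ⟨n, hn⟩ := A.exists_W hh
    let N0 : ℕ := A.ρ * n + (disp h x).natAbs + (disp h (v0 x)).natAbs + R + 2 * A.ρ + 2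
    obtain ⟨i, ⟨⟨hi1, hi2⟩, hi3⟩, hi4⟩ :=
      ((((hx N0).and (hvx N0)).and (hge n)).and hv0').exists
    have h2 := hd i h (A.W_mono hi3 hn)
    rw [hi4] at h2
    have h3 : disp h (u i) = disp h x :=
      disp_eq_of_agree (A.W_isPW hn) (hi1.mono (by omega))
    have h4 : disp h (v0 (u i)) = disp h (v0 x) :=
      disp_eq_of_agree (A.W_isPW hn) (hi2.mono (by omega))
    have h5 : A.cn (u i) (disp h x) = A.cn x (disp h x) := by
      apply cn_congr hR (hu i) hxD hi1
      have : |disp h x| = ((disp h x).natAbs : ℤ) := Int.abs_eq_natAbs _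
      rw [this]
      have h6 : (disp h x).natAbs + R + 2 * A.ρ + 2 ≤ N0 := by omega
      exact_mod_cast h6
    have h6 : A.cn (v0 (u i)) (disp h (v0 x)) = A.cn (v0 x) (disp h (v0 x)) := by
      apply cn_congr hR (A.map_mem hv0G (hu i)) hvxD hi2
      have : |disp h (v0 x)| = ((disp h (v0 x)).natAbs : ℤ) := Int.abs_eq_natAbs _
      rw [this]
      have h6 : (disp h (v0 x)).natAbs + R + 2 * A.ρ + 2 ≤ N0 := by omega
      exact_mod_cast h6
    rw [h3, h4, h5, h6, A.cn_add hv0G, one_mul] at h2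
    have h7 := cn_syn_abs hw hxD (disp v0 x + disp h (v0 x)) (disp h x)
    have h8 : |A.cn x (disp v0 x + disp h (v0 x)) - A.cn x (disp h x)| ≤
        (C : ℤ) + |A.cn x (disp v0 x)| := by
      have h9 := abs_add_le (A.cn x (disp v0 x + disp h (v0 x)) - A.cn x (disp v0 x) -
        A.cn x (disp h x)) (A.cn x (disp v0 x))
      have h10 : A.cn x (disp v0 x + disp h (v0 x)) - A.cn x (disp v0 x) -
        A.cn x (disp h x) + A.cn x (disp v0 x) =
          A.cn x (disp v0 x + disp h (v0 x)) - A.cn x (disp h x) := by ring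
      rw [h10] at h9
      linarith
    have h9 : pos (h x) (h (v0 x)) = disp v0 x + disp h (v0 x) - disp h x := by
      have e1 : SameLine x (h x) := sameLine_of_mem_PW (A.G_le_PW hh) x
      have e2 : SameLine (v0 x) (h (v0 x)) := sameLine_of_mem_PW (A.G_le_PW hh) (v0 x)
      rw [pos_add (sameLine_symm e1) (sameLine_trans hline e2), pos_neg e1, pos_add hline e2]
      unfold disp
      ring
    rw [h9]
    refine h7.trans ?_
    apply mul_le_mul_of_nonneg_left _ (Int.natCast_nonneg w)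
    linarith
  have hfix : x = v0 x := hA x hxD (v0 x) hvxD hline ⟨_, key⟩
  obtain ⟨i, hi1, hi2⟩ := ((hx (A.ρ * (K * (s + 1)))).and hv0').exists
  apply hne i
  rw [hi2]
  exact (fix_iff_of_agree (A.W_isPW hv0) hi1).2 hfix.symm

end Sys

end Pool.Agent.helper98.NIG
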