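import Pool.Agent.helper2.NIG.L12

/-!
# NIG-L13: bounded powers: a direct self-lock with shift `s ≠ 0` has range at most `C' s`

PROOF. Constants: `K` (`conn_W`), `f = card F`, `Cs` (SLR), `ρ`. Let `C` be given. Suppose `Dir C N 1 x (g x)`,
`E N x (g x)`, `g x ≠ x` and `C' |disp g x| < N`, `N ≥ N0`, with `C'`, `N0` large, to be chosen.
Put `y = g x`, `t = cn x (disp g x)`, `s1 = w (f |disp g x| + C + 1)` (so `s1 ≤ N / (large)` if `C'`, `N0` are large) and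
`N1` = a small fraction of `N` such that `K (Cs (N1 + 1) + 1) ≤ N / 4`; `s1 + R + 2 ρ + 2 ≤ N1 / 2`.
(1) TRANSPORT. Let `z ∈ D`. SLR: `u' ∈ G` with `|disp u' x| ≤ Cs (N1 + 1)`, `Agree N1 (u' x) z`; by `conn_W` there is
  `u ∈ W (N / 4)` with `u x = u' x`. Put `z' = u x`, `y' = u y`. `E (N / 2) z' y'` (`E_map`).
  `cn z' (pos z' y') = cn x (disp u x + pos z' y') - cn x (disp u x)`, where
  `disp u x + pos z' y' = pos x y' = disp g x + disp u y`, and `cn x (disp g x + disp u y) = cn x (disp g x) +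
  cn y (disp u y)` (`cn_add`). So `|cn z' (pos z' y') - t| = |cn y (disp u y) - cn x (disp u x)| ≤ C`.
  Hence `|pos z' y'| ≤ w (|t| + C + 1) ≤ s1` (`cn_syn_abs`, `|t| ≤ f |disp g x|`).
  Put `ζ = (sh (pos z' y') z.1, y'.2)`. `orb_transport` (`c = c' = 0`, `q = (0, z.2)`, `q' = (pos z' y', y'.2)`; `z'` and `z`
  agree on the window of radius `N1`): `ζ ∈ orb z`, because `y' = u g u⁻¹ z' ∈ orb z'`.
  `Agree (N1 - s1) y' ζ` (`agree_sh`). So `E N2 z ζ` for `ρ N2 ≤ N1 - s1` (`E_of_agree`, `E_trans`), and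
  `Dir (2 C) N2 1 z ζ` if `2 ρ N2 + R + 2 ρ + 2 ≤ N1 - s1` (`Dir_map` for `(z', y')`, `Dir_of_agree`, `Dir_trans`), and
  `cn z (pos z ζ) = cn z' (pos z' y')` (`cn_congr`), so `|cn z (pos z ζ) - t| ≤ C`.
(2) UNIQUENESS. Let `ζ1, ζ2 ∈ orb z` with `Dir (4 C) N3 1 z ζi`, `|cn z (pos z ζi) - t| ≤ 4 C`.
  Then `ζ2 = v ζ1`, `|cn z (pos z ζ1) - cn z (pos z ζ2)| ≤ 8 C`, so `|disp v ζ1| = |pos z ζ2 - pos z ζ1| ≤ w (8 C + 1)`,
  `Dir (8 C) N3 1 ζ1 ζ2` (`Dir_symm`, `Dir_trans`), and `self_lock_small` (with `8 C`, `s = w (8 C + 1)`) gives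
  `ζ1 = ζ2`, if `N3 ≥` its `N`. So it is enough that `N2 - 1 ≥ N3`.
(3) EQUIVARIANCE. For `s ∈ S`: `s ζ(z)` satisfies `Dir (4 C) (N2 - 1) 1 (s z) (s ζ(z))` (`Dir_map`), and
  `cn (s z) (pos (s z) (s ζ)) = cn z (pos z ζ) + cn ζ (disp s ζ) - cn z (disp s z)`, which differs from `cn z (pos z ζ)`
  by at most `2 C`. So `s ζ(z) = ζ(s z)`. By induction `g ζ(z) = ζ(g z)` for all `g ∈ G`.
(4) END. `|pos (g z) (g ζ(z))| = |pos (g z) (ζ (g z))| ≤ s1` for all `g`, so `ζ(z) = z` by `A.Reduced`. Then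
  `cn z (pos z ζ) = 0`, `|t| ≤ C`, `|disp g x| ≤ w (C + 1)`, and `self_lock_small` (with `s = w (C + 1)`) gives
  `g x = x`: contradiction.
-/

namespace Pool.Agent.helper98.NIG

variable {b : Base} {F : Type}

namespace Sys

theorem L13_mem_orb_self (A : Sys b F) (x : Pt b F) : (sh (0 + 0) x.1, x.2) ∈ A.orb x := by
  refine ⟨1, A.G.one_mem, ?_⟩
  rw [add_zero, sh_zero]
  rfl

theorem L13_disp_pos {A : Sys b F} {g : Equiv.Perm (Pt b F)} (hg : g ∈ A.G) (x : Pt b F) :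
    g x = (sh (disp g x) x.1, (g x).2) :=
  eq_of_pos (sameLine_of_mem_PW (A.G_le_PW hg) x)

/-- conjugation: the displacement of `u x` under `u g u⁻¹` -/
theorem L13_conj {A : Sys b F} {u g : Equiv.Perm (Pt b F)} (hu : u ∈ A.G) (hg : g ∈ A.G)
    (x : Pt b F) : (u * g * u⁻¹) (u x) = u (g x) ∧
      disp u x + disp (u * g * u⁻¹) (u x) = disp g x + disp u (g x) := by
  have hv : u * g * u⁻¹ ∈ A.G := A.G.mul_mem (A.G.mul_mem hu hg) (A.G.inv_mem hu)
  have e1 : (u * g * u⁻¹) * u = u * g := by group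
  have h1 := disp_mul (A.G_le_PW hv) (A.G_le_PW hu) x
  have h2 := disp_mul (A.G_le_PW hu) (A.G_le_PW hg) x
  rw [e1] at h1
  constructor
  · change ((u * g * u⁻¹) * u) x = (u * g) x
    rw [e1]
  · linarith

theorem L13_cn_conj [Finite F] {A : Sys b F} {u g : Equiv.Perm (Pt b F)} (hu : u ∈ A.G)
    (hg : g ∈ A.G) (x : Pt b F) : A.cn (u x) (disp (u * g * u⁻¹) (u x)) =
      A.cn x (disp g x) + (A.cn (g x) (disp u (g x)) - A.cn x (disp u x)) := by
  rw [cn_add A hu x, (L13_conj hu hg x).2, cn_add A hg x]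
  ring

/-- (1) transport of the lock to every point of `D` -/
theorem L13_transport [Finite F] {A : Sys b F} {R w Cs K : ℕ} (hR : A.BCon R) (hw : A.SYN w)
    (hC : A.SLR Cs) (hK : A.CONN K) {C N N1 N2 q s1 : ℕ} {x : Pt b F} (hx : x ∈ A.D)
    {g : Equiv.Perm (Pt b F)} (hg : g ∈ A.G) (hdir : A.Dir C N 1 x (g x))
    (h1 : K * (Cs * (N1 + 1) + 1) ≤ q) (h2 : q + N2 ≤ N)
    (h3 : 2 * A.ρ * N2 + R + 2 * A.ρ + 2 + s1 ≤ N1)
    (h4 : w * (Nat.card F * (disp g x).natAbs + C + 1) ≤ s1) {z : Pt b F} (hz : z ∈ A.D) :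
    ∃ v ∈ A.G, A.Dir (2 * C) N2 1 z (v z) ∧ |A.cn z (disp v z) - A.cn x (disp g x)| ≤ C ∧
      |disp v z| ≤ s1 := by
  obtain ⟨u', hu', hud', hag'⟩ := hC x hx z hz N1
  obtain ⟨u, huW, hux⟩ := hK x hx u' hu'
  have hag : Agree N1 (u x) z := by rw [hux]; exact hag'
  have huq : u ∈ A.W q := by
    refine A.W_mono (le_trans (Nat.mul_le_mul_left _ ?_) h1) huW
    have : ((disp u' x).natAbs : ℤ) ≤ Cs * (N1 + 1) := by
      rw [Int.natCast_natAbs]
      exact hud'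
    have h5 : (disp u' x).natAbs ≤ Cs * (N1 + 1) := by exact_mod_cast this
    omega
  have hu : u ∈ A.G := A.W_le_G huq
  obtain ⟨v, hv⟩ : ∃ v, v = u * g * u⁻¹ := ⟨_, rfl⟩
  have hvG : v ∈ A.G := by rw [hv]; exact A.G.mul_mem (A.G.mul_mem hu hg) (A.G.inv_mem hu)
  have hvz : v (u x) = u (g x) := by rw [hv]; exact (L13_conj hu hg x).1
  have hz' : u x ∈ A.D := A.map_mem hu hx
  have hy' : v (u x) ∈ A.D := A.map_mem hvG hz'
  -- the count
  have hcn : |A.cn (u x) (disp v (u x)) - A.cn x (disp g x)| ≤ C := by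
    rw [hv, L13_cn_conj hu hg x]
    have h5 := hdir u (A.W_mono (by omega) huq)
    rw [one_mul] at h5
    have e : A.cn x (disp g x) + (A.cn (g x) (disp u (g x)) - A.cn x (disp u x)) -
      A.cn x (disp g x) = A.cn (g x) (disp u (g x)) - A.cn x (disp u x) := by ring
    rw [e]
    exact h5
  have ht : |A.cn x (disp g x)| ≤ Nat.card F * (disp g x).natAbs := by
    have h5 := cn_lip A x (disp g x) 0
    rw [cn_zero, sub_zero, sub_zero, Int.abs_eq_natAbs (disp g x)] at h5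
    exact h5
  have hpos : |disp v (u x)| ≤ s1 := by
    have h5 := cn_syn_abs hw hz' (disp v (u x)) 0
    rw [cn_zero, sub_zero, sub_zero] at h5
    have h6 : |A.cn (u x) (disp v (u x))| ≤ C + Nat.card F * (disp g x).natAbs := by
      have e : A.cn (u x) (disp v (u x)) =
        (A.cn (u x) (disp v (u x)) - A.cn x (disp g x)) + A.cn x (disp g x) := by ring
      rw [e]
      exact (abs_add_le _ _).trans (by linarith)
    have h7 : (w : ℤ) * (|A.cn (u x) (disp v (u x))| + 1) ≤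
        w * (Nat.card F * (disp g x).natAbs + C + 1) := by
      refine mul_le_mul_of_nonneg_left ?_ (Int.natCast_nonneg w)
      linarith
    have h8 : (w : ℤ) * (Nat.card F * (disp g x).natAbs + C + 1) ≤ s1 := by exact_mod_cast h4
    exact h5.trans (h7.trans h8)
  -- the point `ζ`
  have hvpos := L13_disp_pos hvG (u x)
  have hζ : (sh (disp v (u x)) z.1, (v (u x)).2) ∈ A.orb z := by
    have hp := abs_le.1 hpos
    have h5 := orb_transport hR hz' hz (c := 0) (c' := 0) (u := -(s1 : ℤ)) (v := s1)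
      (q := (0, (u x).2)) (q' := (disp v (u x), (v (u x)).2))
      (fun k hk1 hk2 => by
        rw [zero_add]
        refine hag.2 k ?_
        have h3' : (2 * A.ρ * N2 + R + 2 * A.ρ + 2 + s1 : ℤ) ≤ N1 := by exact_mod_cast h3
        have h6 : (0 : ℤ) ≤ 2 * A.ρ * N2 := by positivity
        have h7 : (0 : ℤ) ≤ A.ρ := Int.natCast_nonneg _
        rw [abs_le]
        constructor <;> linarith)
      (by simp) (by simp) hp.1 hp.2 (L13_mem_orb_self A (u x))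
      (by rw [hag.1]; exact L13_mem_orb_self A z)
    simp only [zero_add] at h5
    exact h5.1 ⟨v, hvG, hvpos.symm⟩
  obtain ⟨v2, hv2, hζ2⟩ := hζ
  have hd2 : disp v2 z = disp v (u x) := by
    unfold disp
    rw [← hζ2, pos_sh]
    rfl
  have hy2 : v2 z ∈ A.D := A.map_mem hv2 hz
  have hN1 : (2 * A.ρ * N2 + R + 2 * A.ρ + 2 + s1 : ℤ) ≤ N1 := by exact_mod_cast h3
  have hρN : (0 : ℤ) ≤ 2 * A.ρ * N2 := by positivity
  -- agreement
  have hag2 : Agree (N1 - s1) (v (u x)) (v2 z) := by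
    rw [hvpos, ← hζ2]
    refine agree_sh hag _ _ ?_
    have : ((N1 - s1 : ℕ) : ℤ) = N1 - s1 := by
      push_cast [Nat.cast_sub (show s1 ≤ N1 by omega)]
      ring
    rw [this]
    linarith
  have hcz : A.cn z (disp v2 z) = A.cn (u x) (disp v (u x)) := by
    rw [hd2]
    refine (cn_congr hR hz' hz hag ?_).symm
    linarith
  refine ⟨v2, hv2, ?_, by rw [hcz]; exact hcn, by rw [hd2]; exact hpos⟩
  have d1 : A.Dir 0 N2 1 z (u x) := Dir_of_agree hR hz hz' (N := N1) (by omega) hag.symm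
  have d2 : A.Dir (2 * C) N2 1 (u x) (v (u x)) := by
    rw [hvz]
    exact Dir_map (m := N2) (k := q) (hdir.mono le_rfl (by omega)) huq
  have d3 : A.Dir 0 N2 1 (v (u x)) (v2 z) :=
    Dir_of_agree hR hy' hy2 (N := N1 - s1) (by omega) hag2
  have d4 := Dir_trans (Or.inl rfl) (Dir_trans (Or.inl rfl) d1 d2) d3
  rw [one_mul, one_mul] at d4
  exact d4.mono (by omega) le_rfl

/-- (2) uniqueness -/
theorem L13_unique [Finite F] {A : Sys b F} {w : ℕ} (hw : A.SYN w) {C N3 : ℕ}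
    (hN3 : ∀ x ∈ A.D, ∀ v ∈ A.G, |disp v x| ≤ (w * (6 * C + 1) : ℕ) →
      A.Dir (8 * C) N3 1 x (v x) → v x = x) {z : Pt b F} (hz : z ∈ A.D) {t : ℤ}
    {v1 v2 : Equiv.Perm (Pt b F)} (hv1 : v1 ∈ A.G) (hv2 : v2 ∈ A.G)
    (d1 : A.Dir (4 * C) N3 1 z (v1 z)) (d2 : A.Dir (4 * C) N3 1 z (v2 z))
    (t1 : |A.cn z (disp v1 z) - t| ≤ 3 * C) (t2 : |A.cn z (disp v2 z) - t| ≤ 3 * C) :
    v1 z = v2 z := by
  have hG : v2 * v1⁻¹ ∈ A.G := A.G.mul_mem hv2 (A.G.inv_mem hv1)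
  have e1 : (v2 * v1⁻¹) (v1 z) = v2 z := by
    rw [Equiv.Perm.mul_apply]
    congr 1
    exact v1.symm_apply_apply z
  have h1 := disp_mul (A.G_le_PW hG) (A.G_le_PW hv1) z
  have e2 : v2 * v1⁻¹ * v1 = v2 := by group
  rw [e2] at h1
  have h2 : |disp (v2 * v1⁻¹) (v1 z)| ≤ (w * (6 * C + 1) : ℕ) := by
    have e3 : disp (v2 * v1⁻¹) (v1 z) = disp v2 z - disp v1 z := by linarith
    rw [e3]
    refine (cn_syn_abs hw hz _ _).trans ?_
    push_cast
    refine mul_le_mul_of_nonneg_left ?_ (Int.natCast_nonneg w)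
    have h3 := abs_le.1 t1
    have h4 := abs_le.1 t2
    have h5 : |A.cn z (disp v2 z) - A.cn z (disp v1 z)| ≤ 6 * C := by
      rw [abs_le]
      constructor <;> linarith [h3.1, h3.2, h4.1, h4.2]
    linarith
  have h3 : A.Dir (8 * C) N3 1 (v1 z) ((v2 * v1⁻¹) (v1 z)) := by
    rw [e1]
    have h4 := Dir_trans (Or.inl rfl) (Dir_symm (Or.inl rfl) d1) d2
    rw [one_mul] at h4
    exact h4.mono (by omega) le_rfl
  have h4 := hN3 (v1 z) (A.map_mem hv1 hz) _ hG h2 h3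
  rw [e1] at h4
  exact h4.symm

theorem self_lock [Finite F] {A : Sys b F} (hA : A.Reduced) {R w Cs : ℕ} (hR : A.BCon R)
    (hw : A.SYN w) (hC : A.SLR Cs) (C : ℕ) : ∃ C' N0 : ℕ, ∀ N : ℕ, N0 ≤ N → ∀ x ∈ A.D, ∀ g ∈ A.G,
      A.E N x (g x) → A.Dir C N 1 x (g x) → g x ≠ x → (N : ℤ) ≤ C' * |disp g x| := by
  classical
  obtain ⟨K, hK, hconn⟩ := conn_W hR
  obtain ⟨N3, hN3⟩ := self_lock_small hA hR hw (8 * C) (w * (6 * C + 1))
  obtain ⟨N4, hN4⟩ := self_lock_small hA hR hw C (w * (C + 1))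
  obtain ⟨c1, hc1⟩ : ∃ c1 : ℕ,
    c1 = 2 * A.ρ * (N3 + 1) + R + 2 * A.ρ + 2 + w * (C + 1) := ⟨_, rfl⟩
  refine ⟨2 * K * Cs * w * Nat.card F, 2 * (K * (Cs * (c1 + 1) + 1) + (N3 + 1)) + N4, ?_⟩
  intro N hN x hx g hg _ hdir hne
  by_contra hcon
  obtain ⟨δ, hδ⟩ : ∃ δ : ℕ, δ = (disp g x).natAbs := ⟨_, rfl⟩
  have hδ' : |disp g x| = δ := by rw [hδ]; exact Int.abs_eq_natAbs _
  rw [hδ', not_le] at hcon
  have hcon' : 2 * K * Cs * w * Nat.card F * δ < N := by exact_mod_cast hcon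
  obtain ⟨s1, hs1⟩ : ∃ s1 : ℕ, s1 = w * (Nat.card F * δ + C + 1) := ⟨_, rfl⟩
  obtain ⟨N1, hN1⟩ : ∃ N1 : ℕ, N1 = 2 * A.ρ * (N3 + 1) + R + 2 * A.ρ + 2 + s1 := ⟨_, rfl⟩
  obtain ⟨q, hq⟩ : ∃ q : ℕ, q = K * (Cs * (N1 + 1) + 1) := ⟨_, rfl⟩
  have hq' : q = K * (Cs * (c1 + 1) + 1) + K * Cs * w * Nat.card F * δ := by
    rw [hq, hN1, hs1, hc1]
    ring
  have hqN : q + (N3 + 1) ≤ N := by
    have e : 2 * K * Cs * w * Nat.card F * δ = 2 * (K * Cs * w * Nat.card F * δ) := by ring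
    rw [e] at hcon'
    omega
  have T : ∀ z ∈ A.D, ∃ v ∈ A.G, A.Dir (2 * C) (N3 + 1) 1 z (v z) ∧
      |A.cn z (disp v z) - A.cn x (disp g x)| ≤ C ∧ |disp v z| ≤ s1 := fun z hz =>
    L13_transport hR hw hC hconn hx hg hdir hq.ge hqN hN1.ge (by rw [← hδ]; exact hs1.ge) hz
  choose! v hvG hvD hvt hvs using T
  -- equivariance
  have hS : ∀ s ∈ A.S, ∀ z ∈ A.D, v (s z) (s z) = s (v z z) := by
    intro s hs z hz
    have hsG := A.mem_G_of_mem_S hs
    have hsz := A.map_mem hsG hz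
    have hcG : s * v z * s⁻¹ ∈ A.G :=
      A.G.mul_mem (A.G.mul_mem hsG (hvG z hz)) (A.G.inv_mem hsG)
    have e1 := (L13_conj hsG (hvG z hz) z).1
    rw [← e1]
    refine L13_unique hw hN3 hsz (t := A.cn x (disp g x)) (hvG _ hsz) hcG ?_ ?_ ?_ ?_
    · exact (hvD _ hsz).mono (by omega) (by omega)
    · rw [e1]
      exact (Dir_map (m := N3) (k := 1) (hvD z hz) (A.mem_W_one hs)).mono (by omega) le_rfl
    · have := hvt _ hsz
      linarith
    · rw [L13_cn_conj hsG (hvG z hz) z]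
      have h1 := abs_le.1 (hvt z hz)
      have h2 := abs_le.1 (hvD z hz s (A.W_mono (by omega) (A.mem_W_one hs)))
      push_cast at h2
      rw [one_mul] at h2
      rw [abs_le]
      constructor <;> linarith [h1.1, h1.2, h2.1, h2.2]
  have hW : ∀ n : ℕ, ∀ h ∈ A.W n, ∀ z ∈ A.D, v (h z) (h z) = h (v z z) := by
    intro n
    induction n with
    | zero =>
      intro h hh z _
      have h1 : h = 1 := hh
      rw [h1]
      rfl
    | succ n ih =>
      rintro h ⟨s, hs, k, hk, rfl⟩ z hz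
      rw [Equiv.Perm.mul_apply, Equiv.Perm.mul_apply, hS s hs _ (A.map_mem (A.W_le_G hk) hz),
        ih k hk z hz]
  -- the end
  have hxx : x = v x x := by
    refine hA x hx (v x x) (A.map_mem (hvG x hx) hx)
      (sameLine_of_mem_PW (A.G_le_PW (hvG x hx)) x) ⟨s1, fun h hh => ?_⟩
    obtain ⟨n, hn⟩ := A.exists_W hh
    rw [← hW n h hn x hx]
    exact hvs (h x) (A.map_mem hh hx)
  have h0 : disp (v x) x = 0 := by
    unfold disp
    rw [← hxx, pos_self]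
  have h1 := hvt x hx
  rw [h0, cn_zero, zero_sub, abs_neg] at h1
  have h2 : |disp g x| ≤ (w * (C + 1) : ℕ) := by
    have h3 := cn_syn_abs hw hx (disp g x) 0
    rw [cn_zero, sub_zero, sub_zero] at h3
    refine h3.trans ?_
    push_cast
    exact mul_le_mul_of_nonneg_left (by linarith) (Int.natCast_nonneg w)
  exact hne (hN4 x hx g hg h2 (hdir.mono le_rfl (by omega)))

end Sys

end Pool.Agent.helper98.NIG
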