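import Pool.Agent.helper2.NIG.LDefs

/-!
# NIG-L14: windows of the hull repeat with one exceptional position

PROOF. Let `r` be an address of `y` of level `L + 1` (`exists_addr`). There is at most one `k` with
`|k| ≤ H` and `P ^ (L+1) ∣ n0 + k - r` (two of them differ by a multiple of `P ^ (L+1) > 2 H`). Let `ke` be this `k`,
or `ke = 0` if there is none. Let `n, n' ≡ n0` modulo `P ^ (L+2)`, `|k| ≤ H`. If `¬ P ^ (L+1) ∣ n + k - r` then
`y (n + k) = τ (n + k - r) = τ (n' + k - r) = y (n' + k)` by `Addr` and `loc (L+1)`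
(`P ^ (L+2) ∣ n - n'`). Otherwise `P ^ (L+1) ∣ n0 + k - r`, so `k = ke`.
-/

namespace Pool.Agent.helper98.NIG

theorem pattern_hole {b : Base} (y : b.Hull) (L H : ℕ) (hH : 2 * (H : ℤ) < (b.p : ℤ) ^ (L + 1))
    (n0 : ℤ) : ∃ ke : ℤ, ∀ n n' : ℤ, (b.p : ℤ) ^ (L + 2) ∣ n - n0 →
      (b.p : ℤ) ^ (L + 2) ∣ n' - n0 → y.1 (n + ke) = y.1 (n' + ke) →
        ∀ k : ℤ, |k| ≤ H → y.1 (n + k) = y.1 (n' + k) := by
  obtain ⟨r, hr⟩ := exists_addr y (L + 1)
  have hdvd : (b.p : ℤ) ^ (L + 1) ∣ (b.p : ℤ) ^ (L + 2) := pow_dvd_pow _ (by omega)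
  -- the divisibility condition at `n` is the condition at `n0`
  have key : ∀ n k : ℤ, (b.p : ℤ) ^ (L + 2) ∣ n - n0 →
      ((b.p : ℤ) ^ (L + 1) ∣ n + k - r ↔ (b.p : ℤ) ^ (L + 1) ∣ n0 + k - r) := by
    intro n k hn
    have h1 : n + k - r = (n - n0) + (n0 + k - r) := by ring
    rw [h1]
    exact dvd_add_right (hdvd.trans hn)
  have reg : ∀ n n' k : ℤ, (b.p : ℤ) ^ (L + 2) ∣ n - n0 → (b.p : ℤ) ^ (L + 2) ∣ n' - n0 →
      ¬ (b.p : ℤ) ^ (L + 1) ∣ n0 + k - r → y.1 (n + k) = y.1 (n' + k) := by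
    intro n n' k hn hn' hk
    have h1 := mt (key n k hn).1 hk
    have h2 := mt (key n' k hn').1 hk
    rw [hr _ h1, hr _ h2]
    refine b.loc (L + 1) _ _ h1 ?_
    have h3 : n + k - r - (n' + k - r) = (n - n0) - (n' - n0) := by ring
    rw [h3]
    exact dvd_sub hn hn'
  by_cases h : ∃ k0 : ℤ, |k0| ≤ H ∧ (b.p : ℤ) ^ (L + 1) ∣ n0 + k0 - r
  · obtain ⟨k0, hk0, hd0⟩ := h
    refine ⟨k0, fun n n' hn hn' he k hk => ?_⟩
    by_cases hd : (b.p : ℤ) ^ (L + 1) ∣ n0 + k - r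
    · have h4 : (b.p : ℤ) ^ (L + 1) ∣ k - k0 := by
        have h5 : k - k0 = (n0 + k - r) - (n0 + k0 - r) := by ring
        rw [h5]
        exact dvd_sub hd hd0
      have h6 : k - k0 = 0 := by
        refine Int.eq_zero_of_abs_lt_dvd h4 ?_
        have := abs_le.1 hk
        have := abs_le.1 hk0
        rw [abs_lt]
        constructor <;> linarith
      rw [sub_eq_zero.1 h6]
      exact he
    · exact reg n n' k hn hn' hd
  · refine ⟨0, fun n n' hn hn' _ k hk => reg n n' k hn hn' fun hd => h ⟨k, hk, hd⟩⟩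

end Pool.Agent.helper98.NIG
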