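import Pool.Agent.helper2.NIG.L11
import Pool.Agent.helper2.NIG.L13
import Pool.Agent.helper2.NIG.L14

/-!
# NIG-L15: the drift of a lock is bounded (pigeonhole)

author: helper26

`Pair`-lemma `drift_pair`: two places of a locked run with the same local data have the same drift.

SETTING. `P = b.p`, `Q = P ^ (L+2)`, `H = ` about `P ^ (L+1) / 2` (`2 H < P ^ (L+1) ≤ 2 H + 2`), so `H ≥ Q / (2 P) - 1`.

PROOF of `drift_pair`. `a = g x`, `a' = g' x`, `b = g y`, `b' = g' y`. Positions: `disp g x = n + o`,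
`disp g' x = n' + o` with `0 ≤ o < w1`, `Q ∣ n - n'`; `disp g y = k + D`, `disp g' y = k' + D'` with `Q ∣ k - k'`,
`|D|, |D'| ≤ H / 4`. The windows of radius `H` of `x.1` at `n` and `n'` are equal, the windows of radius `H` of
`y.1` at `k` and `k'` are equal (hypotheses, from `pattern_hole` and one bit each). `a` and `a'` have the same
floor. The orbit of `y` contains the points `(k + e, φ)`, `(k' + e, φ)`, `0 ≤ e < w`.
 (i) `Agree (H - w1) a a'`.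
 (ii) `b~ := (sh (k' + D) y.1, b.2) ∈ orb y` by `orb_transport` (`x = x' = y`, `c = k`, `c' = k'`, `q = (e, φ)`,
   `q' = (D, b.2)`), and `Agree (H - |D|) b b~`.
 (iii) Let `N3` with `2 ρ N3 + R + 2 ρ + 2 + w1 ≤ H / 2`. Then `E N3 a a'`, `E N3 b b~` (`E_of_agree`), and
   `E N3 a b`, `E N3 a' b'`: so `E N3 b' b~`. Similarly `Dir (2 C0) N3 1 b' b~` by `Dir_of_agree`, `Dir_symm`,
   `Dir_trans` (`σ * σ = 1`).
 (iv) `b~ = v b'`, `v ∈ G`, `disp v b' = D - D'`. If `D ≠ D'` then `v b' ≠ b'` and `self_lock` (with `C = 2 C0`) gives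
   `N3 ≤ C' |D - D'|`.
So the conclusion is `D = D' ∨ N3 ≤ C' |D - D'|`.

PROOF of `drift_run'` (and its special case `drift_run`; `|o| ≤ w1`). `C'`, `N0` from `self_lock` with `C = 2 C0`. Number of data:
`T = (2 w1 + 1) * card F * 2 * 2 * w * card F` (offset `o`, floor of `h m x`, bit of `x` at the exceptional position, bit
of `y`, first point `(e, φ)` of the orbit of `y` in the window `[k_m, k_m + w)`). The step `Δ = P ^ (L+1) / c3`
(`c3` a large constant), `N3 = cN Δ`, `H = 4 (T + 2) Δ + 4 ρ N3 + c0`, `2 H < P ^ (L+1)`.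
`N' ≥ κ (N + 1)` with `N = K (Q + w1 + 1) + N3 + Q + m1`, so that by `LC` every pair
`(h m x, h m y)` has a sign `σ_m` with `Dir C0 N σ_m`; `σ_m = σ_{m+1}` by `Dir_map` and `Dir_unique`.
Let `k_m = disp (h 0) y + σ δ m Q`, `D_m = disp (h m) y - k_m`. `D_0 = 0` and `|D_{m+1} - D_m| ≤ Δ`:
`h (m+1) = u * h m`, `disp u (h m x) = δ Q + O(w1)` and `disp_lock`.
CLAIM `|D_m| ≤ (T + 1) Δ` for all `m ≤ M` (`L15_bdd`): otherwise for `j = 0, …, T` there is an index `m_j` with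
`j Δ < ± D_{m_j} ≤ (j + 1) Δ`. Two of these `T + 1` indices have the same
data, their `D` are different and differ by at most `(T + 1) Δ`: contradiction to `drift_pair`.
-/

namespace Pool.Agent.helper98.NIG

variable {b : Base} {F : Type}

/-- discrete intermediate values -/
theorem L15_ivt (D : ℕ → ℤ) (Δ c : ℤ) : ∀ M : ℕ, D 0 ≤ c → (∀ m < M, D (m + 1) - D m ≤ Δ) →
    c < D M → ∃ m ≤ M, c < D m ∧ D m ≤ c + Δ := by
  intro M
  induction M with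
  | zero => intro h0 _ h1; omega
  | succ M ih =>
    intro h0 hs h1
    by_cases h2 : c < D M
    · obtain ⟨m, hm, h3⟩ := ih h0 (fun m hm => hs m (by omega)) h2
      exact ⟨m, by omega, h3⟩
    · have := hs M (by omega)
      exact ⟨M + 1, le_rfl, h1, by omega⟩

/-- a walk with finitely many states: if it returns to no state with a different small drift then
the drift is bounded (above) -/
theorem L15_up {α : Type*} [Finite α] (T M : ℕ) (hT : Nat.card α ≤ T) (D : ℕ → ℤ) (Δ : ℤ)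
    (hΔ : 0 < Δ) (h0 : D 0 = 0) (hs : ∀ m < M, |D (m + 1) - D m| ≤ Δ) (d : ℕ → α)
    (hp : ∀ m ≤ M, ∀ m' ≤ M, d m = d m' → |D m| ≤ (T + 1) * Δ → |D m'| ≤ (T + 1) * Δ →
      D m = D m' ∨ (T + 1) * Δ < |D m - D m'|) :
    ∀ m ≤ M, D m ≤ (T + 1) * Δ := by
  intro m hm
  by_contra hcon
  push Not at hcon
  have key : ∀ j : Fin (T + 1), ∃ i ≤ m, ((j : ℕ) : ℤ) * Δ < D i ∧
      D i ≤ ((j : ℕ) : ℤ) * Δ + Δ := by
    intro j
    have hj : ((j : ℕ) : ℤ) ≤ T := by have := j.2; omega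
    refine L15_ivt D Δ _ m ?_ ?_ ?_
    · rw [h0]; positivity
    · intro i hi
      exact (le_abs_self _).trans (hs i (by omega))
    · have h9 := mul_le_mul_of_nonneg_right hj hΔ.le
      linarith
  choose I hI hI1 hI2 using key
  have hninj : ¬ Function.Injective (fun j : Fin (T + 1) => d (I j)) := by
    intro hinj
    have := Nat.card_le_card_of_injective _ hinj
    rw [Nat.card_eq_fintype_card, Fintype.card_fin] at this
    omega
  rw [Function.Injective] at hninj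
  push Not at hninj
  obtain ⟨j, j', hd, hjj⟩ := hninj
  have hjT : ((j : ℕ) : ℤ) ≤ T := by have := j.2; omega
  have hjT' : ((j' : ℕ) : ℤ) ≤ T := by have := j'.2; omega
  have hj0 : (0 : ℤ) ≤ ((j : ℕ) : ℤ) * Δ := by positivity
  have hj0' : (0 : ℤ) ≤ ((j' : ℕ) : ℤ) * Δ := by positivity
  have hjm : ((j : ℕ) : ℤ) * Δ ≤ T * Δ := mul_le_mul_of_nonneg_right hjT hΔ.le
  have hjm' : ((j' : ℕ) : ℤ) * Δ ≤ T * Δ := mul_le_mul_of_nonneg_right hjT' hΔ.le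
  have e1 : ((T : ℤ) + 1) * Δ = T * Δ + Δ := by ring
  have h1 := hI1 j
  have h2 := hI2 j
  have h1' := hI1 j'
  have h2' := hI2 j'
  have a1 : |D (I j)| ≤ (T + 1) * Δ := abs_le.2 ⟨by linarith, by linarith⟩
  have a2 : |D (I j')| ≤ (T + 1) * Δ := abs_le.2 ⟨by linarith, by linarith⟩
  have a3 : |D (I j) - D (I j')| ≤ (T + 1) * Δ := abs_le.2 ⟨by linarith, by linarith⟩
  rcases hp (I j) ((hI j).trans hm) (I j') ((hI j').trans hm) hd a1 a2 with h | h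
  · apply hjj
    have h3 : ((j : ℕ) : ℤ) * Δ < (((j' : ℕ) : ℤ) + 1) * Δ := by linarith
    have h4 : ((j' : ℕ) : ℤ) * Δ < (((j : ℕ) : ℤ) + 1) * Δ := by linarith
    have h5 := lt_of_mul_lt_mul_right h3 hΔ.le
    have h6 := lt_of_mul_lt_mul_right h4 hΔ.le
    apply Fin.ext
    omega
  · linarith

theorem L15_bdd {α : Type*} [Finite α] (T M : ℕ) (hT : Nat.card α ≤ T) (D : ℕ → ℤ) (Δ : ℤ)
    (hΔ : 0 < Δ) (h0 : D 0 = 0) (hs : ∀ m < M, |D (m + 1) - D m| ≤ Δ) (d : ℕ → α)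
    (hp : ∀ m ≤ M, ∀ m' ≤ M, d m = d m' → |D m| ≤ (T + 1) * Δ → |D m'| ≤ (T + 1) * Δ →
      D m = D m' ∨ (T + 1) * Δ < |D m - D m'|) :
    ∀ m ≤ M, |D m| ≤ (T + 1) * Δ := by
  intro m hm
  have h1 := L15_up T M hT D Δ hΔ h0 hs d hp m hm
  have h2 := L15_up T M hT (fun i => - D i) Δ hΔ (by simp [h0])
    (fun i hi => by
      have e : -D (i + 1) - -D i = -(D (i + 1) - D i) := by ring
      show |-D (i + 1) - -D i| ≤ Δ
      rw [e, abs_neg]
      exact hs i hi) d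
    (fun i hi i' hi' hd h3 h4 => by
      have h3' : |D i| ≤ (T + 1) * Δ := by rw [← abs_neg]; exact h3
      have h4' : |D i'| ≤ (T + 1) * Δ := by rw [← abs_neg]; exact h4
      rcases hp i hi i' hi' hd h3' h4' with h | h
      · left
        show -D i = -D i'
        rw [h]
      · right
        have e : -D i - -D i' = -(D i - D i') := by ring
        show (T + 1) * Δ < |-D i - -D i'|
        rw [e, abs_neg]
        exact h) m hm
  have h2' : -D m ≤ (T + 1) * Δ := h2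
  exact abs_le.2 ⟨by linarith, h1⟩

namespace Sys

theorem drift_pair' [Finite F] {A : Sys b F} {R w : ℕ} (hR : A.BCon R)
    {C0 C' N3 N0 : ℕ} (hself : ∀ N : ℕ, N0 ≤ N → ∀ x ∈ A.D, ∀ g ∈ A.G,
      A.E N x (g x) → A.Dir (2 * C0) N 1 x (g x) → g x ≠ x → (N : ℤ) ≤ C' * |disp g x|)
    (hN3 : N0 ≤ N3) {H w1 : ℕ} (hH : 4 * A.ρ * N3 + 2 * R + 4 * A.ρ + 4 + 2 * w1 + 4 * w ≤ H)
    {σ : ℤ} (hσ : σ = 1 ∨ σ = -1) {x y : Pt b F} (hx : x ∈ A.D) (hy : y ∈ A.D)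
    {g g' : Equiv.Perm (Pt b F)} (hg : g ∈ A.G) (hg' : g' ∈ A.G)
    {n n' o k k' D D' e : ℤ} {φ : F} (ho : |o| ≤ w1)
    (h1 : disp g x = n + o) (h1' : disp g' x = n' + o) (h2 : disp g y = k + D)
    (h2' : disp g' y = k' + D') (hD : 4 * |D| ≤ H) 
    (hxw : ∀ j : ℤ, |j| ≤ H → x.1.1 (n + j) = x.1.1 (n' + j))
    (hyw : ∀ j : ℤ, |j| ≤ H → y.1.1 (k + j) = y.1.1 (k' + j)) (hfl : (g x).2 = (g' x).2)
    (he : 0 ≤ e) (he' : e < w) (hey : (sh (k + e) y.1, φ) ∈ A.orb y)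
    (hey' : (sh (k' + e) y.1, φ) ∈ A.orb y) (hE : A.E N3 (g x) (g y))
    (hE' : A.E N3 (g' x) (g' y)) (hdir : A.Dir C0 N3 σ (g x) (g y))
    (hdir' : A.Dir C0 N3 σ (g' x) (g' y)) : D = D' ∨ (N3 : ℤ) ≤ C' * |D - D'| := by
  have ho1 := abs_le.1 ho
  have hgP := A.G_le_PW hg
  have hgP' := A.G_le_PW hg'
  obtain ⟨M1, hM1⟩ : ∃ M1 : ℕ, 2 * A.ρ * N3 + R + 2 * A.ρ + 2 = M1 := ⟨_, rfl⟩
  have hM2 : 4 * A.ρ * N3 + 2 * R + 4 * A.ρ + 4 = 2 * M1 := by rw [← hM1]; ring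
  have hM4 : 2 * A.ρ * N3 = 2 * (A.ρ * N3) := by ring
  have hM3 : A.ρ * N3 ≤ M1 := by omega
  have hRM : R + A.ρ ≤ M1 := by omega
  have hHM : 2 * M1 + 2 * w1 + 4 * w ≤ H := by omega
  have ha : (g x).1 = sh (n + o) x.1 := by
    rw [← h1]; exact pos_spec (sameLine_of_mem_PW hgP x)
  have ha' : (g' x).1 = sh (n' + o) x.1 := by
    rw [← h1']; exact pos_spec (sameLine_of_mem_PW hgP' x)
  have hb : (g y).1 = sh (k + D) y.1 := by
    rw [← h2]; exact pos_spec (sameLine_of_mem_PW hgP y)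
  have hb' : (g' y).1 = sh (k' + D') y.1 := by
    rw [← h2']; exact pos_spec (sameLine_of_mem_PW hgP' y)
  have hDa := abs_nonneg D
  have hD1 := le_abs_self D
  have hD2 := neg_abs_le D
  -- the transported point
  obtain ⟨z, hz⟩ : ∃ z : Pt b F, z = (sh (k' + D) y.1, (g y).2) := ⟨_, rfl⟩
  have hzo : z ∈ A.orb y := by
    have h3 := orb_transport hR hy hy (c := k) (c' := k') (u := -|D|) (v := |D| + w)
      (fun j hj1 hj2 => hyw j (abs_le.2 ⟨by omega, by omega⟩)) (q := (e, φ))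
      (q' := (D, (g y).2)) (by show -|D| ≤ e; omega) (by show e ≤ |D| + w; omega)
      (by show -|D| ≤ D; omega) (by show D ≤ |D| + w; omega) hey hey'
    rw [hz]
    refine h3.1 ⟨g, hg, ?_⟩
    exact (Prod.ext hb.symm rfl)
  obtain ⟨t, ht, hzt⟩ := hzo
  have hzD : z ∈ A.D := by rw [hzt]; exact A.map_mem ht hy
  -- agreements
  have hAx : Agree M1 (g x) (g' x) := by
    refine ⟨hfl, fun j hj => ?_⟩
    rw [ha, ha', sh_apply, sh_apply]
    have hj' := abs_le.1 hj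
    have h4 := hxw (j + o) (abs_le.2 ⟨by omega, by omega⟩)
    have e1 : j + (n + o) = n + (j + o) := by ring
    have e2 : j + (n' + o) = n' + (j + o) := by ring
    rw [e1, e2]
    exact h4
  have hAy : Agree M1 (g y) z := by
    rw [hz]
    refine ⟨rfl, fun j hj => ?_⟩
    rw [hb]
    show y.1.1 (j + (k + D)) = y.1.1 (j + (k' + D))
    have hj' := abs_le.1 hj
    have h4 := hyw (j + D) (abs_le.2 ⟨by omega, by omega⟩)
    have e1 : j + (k + D) = k + (j + D) := by ring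
    have e2 : j + (k' + D) = k' + (j + D) := by ring
    rw [e1, e2]
    exact h4
  have hEz : A.E N3 (g' y) z :=
    E_trans (E_symm hE') (E_trans (E_symm (E_of_agree hM3 hAx)) (E_trans hE (E_of_agree hM3 hAy)))
  have hDz : A.Dir (2 * C0) N3 1 (g' y) z := by
    have d1 := Dir_symm hσ hdir'
    have d2 : A.Dir 0 N3 1 (g' x) (g x) :=
      Dir_of_agree hR (A.map_mem hg' hx) (A.map_mem hg hx) hM1.le hAx.symm
    have d3 : A.Dir 0 N3 1 (g y) z := Dir_of_agree hR (A.map_mem hg hy) hzD hM1.le hAy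
    have d4 := Dir_trans (Or.inl rfl) (Dir_trans hσ (Dir_trans (Or.inl rfl) d1 d2) hdir) d3
    have e1 : σ * 1 * σ * 1 = 1 := by rcases hσ with rfl | rfl <;> norm_num
    rw [e1] at d4
    exact d4.mono (by omega) le_rfl
  by_cases hDD : D = D'
  · exact Or.inl hDD
  · right
    have hv : t * g'⁻¹ ∈ A.G := mul_mem ht (A.G.inv_mem hg')
    have hvz : (t * g'⁻¹) (g' y) = z := by
      have h6 : g'⁻¹ (g' y) = y := Equiv.symm_apply_apply g' y
      rw [Equiv.Perm.mul_apply, h6]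
      exact hzt.symm
    have hvd : disp (t * g'⁻¹) (g' y) = D - D' := by
      unfold disp
      rw [hvz]
      apply pos_eq
      rw [hb', sh_sh, hz]
      show sh (k' + D) y.1 = _
      congr 1
      ring
    have h5 := hself N3 hN3 (g' y) (A.map_mem hg' hy) (t * g'⁻¹) hv (by rw [hvz]; exact hEz)
      (by rw [hvz]; exact hDz) (by
        intro h6
        have h7 : disp (t * g'⁻¹) (g' y) = 0 := by
          unfold disp
          rw [h6]
          exact pos_self _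
        rw [hvd] at h7
        exact hDD (by omega))
    rw [hvd] at h5
    exact h5

theorem drift_pair [Finite F] {A : Sys b F} {R w : ℕ} (hR : A.BCon R)
    {C0 C' N3 N0 : ℕ} (hself : ∀ N : ℕ, N0 ≤ N → ∀ x ∈ A.D, ∀ g ∈ A.G,
      A.E N x (g x) → A.Dir (2 * C0) N 1 x (g x) → g x ≠ x → (N : ℤ) ≤ C' * |disp g x|)
    (hN3 : N0 ≤ N3) {H w1 : ℕ} (hH : 4 * A.ρ * N3 + 2 * R + 4 * A.ρ + 4 + 2 * w1 + 4 * w ≤ H)
    {σ : ℤ} (hσ : σ = 1 ∨ σ = -1) {x y : Pt b F} (hx : x ∈ A.D) (hy : y ∈ A.D)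
    {g g' : Equiv.Perm (Pt b F)} (hg : g ∈ A.G) (hg' : g' ∈ A.G)
    {n n' o k k' D D' e : ℤ} {φ : F} (ho : 0 ≤ o) (ho' : o < w1)
    (h1 : disp g x = n + o) (h1' : disp g' x = n' + o) (h2 : disp g y = k + D)
    (h2' : disp g' y = k' + D') (hD : 4 * |D| ≤ H) (hD' : 4 * |D'| ≤ H)
    (hxw : ∀ j : ℤ, |j| ≤ H → x.1.1 (n + j) = x.1.1 (n' + j))
    (hyw : ∀ j : ℤ, |j| ≤ H → y.1.1 (k + j) = y.1.1 (k' + j)) (hfl : (g x).2 = (g' x).2)
    (he : 0 ≤ e) (he' : e < w) (hey : (sh (k + e) y.1, φ) ∈ A.orb y)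
    (hey' : (sh (k' + e) y.1, φ) ∈ A.orb y) (hE : A.E N3 (g x) (g y))
    (hE' : A.E N3 (g' x) (g' y)) (hdir : A.Dir C0 N3 σ (g x) (g y))
    (hdir' : A.Dir C0 N3 σ (g' x) (g' y)) : D = D' ∨ (N3 : ℤ) ≤ C' * |D - D'| := by
  have _ := hD'
  exact drift_pair' hR hself hN3 hH hσ hx hy hg hg' (abs_le.2 ⟨by linarith, ho'.le⟩) h1 h1' h2 h2' hD
    hxw hyw hfl he he' hey hey' hE hE' hdir hdir'

theorem drift_run' [Finite F] {A : Sys b F} (hA : A.Reduced) {R w Cs K C0 κ : ℕ} (hR : A.BCon R)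
    (hw : A.SYN w) (hC : A.SLR Cs) (hK : A.CONN K) (hLC : A.LC C0 κ) (w1 q0 : ℕ) :
    ∃ Q N' B : ℕ, q0 ≤ Q ∧ 0 < Q ∧ ∀ δ : ℤ, (δ = 1 ∨ δ = -1) → ∀ x ∈ A.D, ∀ y ∈ A.D, ∀ M : ℕ,
      ∀ h : ℕ → Equiv.Perm (Pt b F), (∀ m ≤ M, h m ∈ A.G) →
      (∀ m ≤ M, |disp (h m) x - δ * m * Q| ≤ w1) →
      (∀ m < M, ∃ u ∈ A.W (K * (Q + w1 + 1)), h (m + 1) = u * h m) →
      (∀ m ≤ M, A.E N' (h m x) (h m y)) →
      ∃ σ : ℤ, (σ = 1 ∨ σ = -1) ∧ A.Dir C0 Q σ (h 0 x) (h 0 y) ∧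
        ∀ m ≤ M, |disp (h m) y - disp (h 0) y - σ * δ * m * Q| ≤ B := by
  classical
  have _ := hK
  obtain ⟨C', N0, hself⟩ := self_lock hA hR hw hC (2 * C0)
  obtain ⟨m1, hm1⟩ := Dir_unique hR hw (2 * C0)
  obtain ⟨T, hT⟩ : ∃ T : ℕ, T = Nat.card (Fin (2 * w1 + 1) × F × Bool × Bool × Fin w × F) := ⟨_, rfl⟩
  obtain ⟨cN, hcN⟩ : ∃ cN : ℕ, cN = 2 * (T + 2) * (C' + 1) := ⟨_, rfl⟩
  obtain ⟨c0, hc0⟩ : ∃ c0 : ℕ, c0 = 2 * R + 4 * A.ρ + 4 + 2 * w1 + 4 * w := ⟨_, rfl⟩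
  obtain ⟨c4, hc4⟩ : ∃ c4 : ℕ, c4 = 4 * (T + 2) + 4 * A.ρ * cN + 1 := ⟨_, rfl⟩
  obtain ⟨c3, hc3⟩ : ∃ c3 : ℕ, c3 = 2 * c4 + 1 := ⟨_, rfl⟩
  have hP : 2 ≤ b.p := b.two_le
  have hPr : (2 : ℝ) ≤ b.p := by exact_mod_cast hP
  have hc3p : 0 < c3 := by omega
  have hc3r : (0 : ℝ) < c3 := by exact_mod_cast hc3p
  have hη0 : (0 : ℝ) < 1 / (8 * b.p * c3) := by positivity
  obtain ⟨Q0, hQ0⟩ := disp_lock hR hw hC C0 (1 / (8 * b.p * c3)) hη0
  -- the choice of `L`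
  obtain ⟨L, hL⟩ : ∃ L : ℕ, c3 * (c0 + N0 + 4 * w1 + 1 + q0 + Q0) ≤ b.p ^ (L + 1) := by
    refine ⟨c3 * (c0 + N0 + 4 * w1 + 1 + q0 + Q0), ?_⟩
    have hb1 : 1 < b.p := by omega
    have hlt : c3 * (c0 + N0 + 4 * w1 + 1 + q0 + Q0) + 1 <
        b.p ^ (c3 * (c0 + N0 + 4 * w1 + 1 + q0 + Q0) + 1) := Nat.lt_pow_self hb1
    exact (Nat.le_succ _).trans hlt.le
  obtain ⟨q, hq⟩ : ∃ q : ℕ, q = b.p ^ (L + 1) := ⟨_, rfl⟩
  rw [← hq] at hL
  obtain ⟨Δ, hΔ⟩ : ∃ Δ : ℕ, Δ = q / c3 := ⟨_, rfl⟩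
  have hΔ1 : c3 * Δ ≤ q := by rw [hΔ]; exact Nat.mul_div_le _ _
  have hΔ2 : q < c3 * (Δ + 1) := by rw [hΔ]; exact Nat.lt_mul_div_succ _ hc3p
  have hΔ3 : c0 + N0 + 4 * w1 + 1 + q0 + Q0 ≤ Δ := by
    rw [hΔ, Nat.le_div_iff_mul_le hc3p, mul_comm]
    exact hL
  obtain ⟨Q, hQ⟩ : ∃ Q : ℕ, Q = b.p ^ (L + 2) := ⟨_, rfl⟩
  have hQq : Q = b.p * q := by rw [hQ, hq]; ring
  have hqΔ : Δ ≤ q := le_trans (Nat.le_mul_of_pos_left _ hc3p) hΔ1
  have hqQ : q ≤ Q := by rw [hQq]; exact Nat.le_mul_of_pos_left _ (by omega)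
  obtain ⟨N3, hN3⟩ : ∃ N3 : ℕ, N3 = cN * Δ := ⟨_, rfl⟩
  obtain ⟨H, hH⟩ : ∃ H : ℕ, H = 4 * (T + 2) * Δ + 4 * A.ρ * N3 + c0 := ⟨_, rfl⟩
  have hHq : 2 * H < q := by
    have e1 : c4 * Δ = 4 * (T + 2) * Δ + 4 * A.ρ * N3 + Δ := by rw [hc4, hN3]; ring
    have e2 : c3 * Δ = 2 * (c4 * Δ) + Δ := by rw [hc3]; ring
    omega
  have hHz : 2 * (H : ℤ) < (b.p : ℤ) ^ (L + 1) := by
    rw [hq] at hHq
    exact_mod_cast hHq
  have hN3' : N0 ≤ N3 := by
    have : Δ ≤ N3 := by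
      rw [hN3]
      exact Nat.le_mul_of_pos_left _ (by rw [hcN]; positivity)
    omega
  obtain ⟨N, hN⟩ : ∃ N : ℕ, N = K * (Q + w1 + 1) + (N3 + Q + m1) := ⟨_, rfl⟩
  obtain ⟨kK, hkK⟩ : ∃ kK : ℕ, kK = K * (Q + w1 + 1) := ⟨_, rfl⟩
  rw [← hkK] at hN
  refine ⟨Q, κ * (N + 1) + N3, (T + 1) * Δ, by omega, by omega, ?_⟩
  intro δ hδ x hx y hy M h hG hdx hu hE
  rw [← hkK] at hu
  have hDx : ∀ m ≤ M, h m x ∈ A.D := fun m hm => A.map_mem (hG m hm) hx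
  have hDy : ∀ m ≤ M, h m y ∈ A.D := fun m hm => A.map_mem (hG m hm) hy
  -- the signs
  have hsig : ∀ m ≤ M, ∃ σ : ℤ, (σ = 1 ∨ σ = -1) ∧ A.Dir C0 N σ (h m x) (h m y) :=
    fun m hm => hLC N _ (hDx m hm) _ (hDy m hm) (E_mono (Nat.le_add_right _ _) (hE m hm))
  obtain ⟨σ, hσ, hdir0⟩ := hsig 0 (Nat.zero_le _)
  have hdir : ∀ m ≤ M, A.Dir C0 N σ (h m x) (h m y) := by
    intro m
    induction m with
    | zero => intro _; exact hdir0
    | succ m ih =>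
      intro hm
      have ih' := ih (by omega)
      obtain ⟨u, hu1, hu2⟩ := hu m (by omega)
      obtain ⟨σ', hσ', hd'⟩ := hsig (m + 1) hm
      have h1 : A.Dir (2 * C0) (N3 + Q + m1) σ (h (m + 1) x) (h (m + 1) y) := by
        rw [hu2]
        exact Dir_map (m := N3 + Q + m1) (k := kK) (ih'.mono le_rfl (by omega)) hu1
      have h2 : A.Dir (2 * C0) (N3 + Q + m1) σ' (h (m + 1) x) (h (m + 1) y) :=
        hd'.mono (by omega) (by omega)
      have h3 := hm1 _ (hDx _ hm) _ _ (by omega) σ σ' hσ hσ' h1 h2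
      rw [h3]
      exact hd'
  refine ⟨σ, hσ, hdir0.mono le_rfl (by omega), ?_⟩
  have hσa : |σ| = 1 := by rcases hσ with rfl | rfl <;> simp
  have hδa : |δ| = 1 := by rcases hδ with rfl | rfl <;> simp
  obtain ⟨n0, hn0⟩ : ∃ n0 : ℤ, n0 = disp (h 0) y := ⟨_, rfl⟩
  rw [← hn0]
  obtain ⟨Dm, hDm⟩ : ∃ Dm : ℕ → ℤ, ∀ m, Dm m = disp (h m) y - n0 - σ * δ * m * Q :=
    ⟨_, fun _ => rfl⟩
  have hD0 : Dm 0 = 0 := by rw [hDm, hn0]; push_cast; ring
  have hΔ0 : (0 : ℤ) < Δ := by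
    have : 0 < Δ := by omega
    exact_mod_cast this
  -- the steps of the drift
  have hstep : ∀ m < M, |Dm (m + 1) - Dm m| ≤ Δ := by
    intro m hm
    obtain ⟨u, hu1, hu2⟩ := hu m hm
    have huP := A.G_le_PW (A.W_le_G hu1)
    have hmP := A.G_le_PW (hG m (by omega))
    have e1 : disp (h (m + 1)) x = disp u (h m x) + disp (h m) x := by
      rw [hu2, disp_mul huP hmP]
    have e2 : disp (h (m + 1)) y = disp u (h m y) + disp (h m) y := by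
      rw [hu2, disp_mul huP hmP]
    have hd1 := hdx m (by omega)
    have hd2 := hdx (m + 1) (by omega)
    have e3 : δ * ((m + 1 : ℕ) : ℤ) * Q = δ * m * Q + δ * Q := by push_cast; ring
    rw [e3] at hd2
    have h3 : |disp u (h m x) - δ * Q| ≤ 2 * w1 := by
      have e4 : disp u (h m x) - δ * Q = (disp (h (m + 1)) x - (δ * m * Q + δ * Q)) -
          (disp (h m) x - δ * m * Q) := by rw [e1]; ring
      rw [e4]
      exact (abs_sub _ _).trans (by linarith)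
    have hw1Q : 2 * w1 ≤ Q := by omega
    have h4 : |disp u (h m x)| ≤ ((2 * Q : ℕ) : ℤ) := by
      have e4 : disp u (h m x) = (disp u (h m x) - δ * Q) + δ * Q := by ring
      rw [e4]
      refine (abs_add_le _ _).trans ?_
      rw [abs_mul, hδa, one_mul, Nat.abs_cast]
      push_cast
      have : 2 * (w1 : ℤ) ≤ Q := by exact_mod_cast hw1Q
      linarith
    have h5 := hQ0 (2 * Q) (by omega) (h m x) (hDx m (by omega)) (h m y) (hDy m (by omega)) σ hσ N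
      (hdir m (by omega)) u (A.W_mono (by omega) hu1) h4
    -- `η * (2 Q) ≤ Δ / 2`
    have h6 : 1 / (8 * (b.p : ℝ) * c3) * ((2 * Q : ℕ) : ℝ) ≤ (Δ : ℝ) / 2 := by
      have h7 : (q : ℝ) ≤ 2 * c3 * Δ := by
        have h8 : q ≤ 2 * c3 * Δ := by
          have h9 : Δ + 1 ≤ 2 * Δ := by omega
          calc q ≤ c3 * (Δ + 1) := hΔ2.le
            _ ≤ c3 * (2 * Δ) := Nat.mul_le_mul_left _ h9
            _ = 2 * c3 * Δ := by ring
        exact_mod_cast h8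
      have h8 : (Q : ℝ) = b.p * q := by exact_mod_cast hQq
      push_cast
      rw [h8, one_div, inv_mul_le_iff₀ (by positivity)]
      have h9 : (0 : ℝ) ≤ b.p := by positivity
      have h10 := mul_le_mul_of_nonneg_left h7 h9
      linarith
    have h7 : |((disp u (h m y) - σ * disp u (h m x) : ℤ) : ℝ)| ≤ (Δ : ℝ) / 2 := h5.trans h6
    have h8 : 2 * |disp u (h m y) - σ * disp u (h m x)| ≤ Δ := by
      have h9 : 2 * |((disp u (h m y) - σ * disp u (h m x) : ℤ) : ℝ)| ≤ Δ := by linarith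
      exact_mod_cast h9
    have e5 : Dm (m + 1) - Dm m = (disp u (h m y) - σ * disp u (h m x)) +
        σ * (disp u (h m x) - δ * Q) := by
      rw [hDm, hDm, e2]
      push_cast
      ring
    rw [e5]
    have h9 := abs_add_le (disp u (h m y) - σ * disp u (h m x)) (σ * (disp u (h m x) - δ * Q))
    rw [abs_mul, hσa, one_mul] at h9
    have h10 : 4 * (w1 : ℤ) ≤ Δ := by
      have : 4 * w1 ≤ Δ := by omega
      exact_mod_cast this
    linarith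
  -- the data
  obtain ⟨kx, hkx⟩ := pattern_hole x.1 L H hHz 0
  obtain ⟨ky, hky⟩ := pattern_hole y.1 L H hHz n0
  have hdata : ∀ m : ℕ, m ≤ M → ∃ d : Fin (2 * w1 + 1) × F × Bool × Bool × Fin w × F,
      disp (h m) x = δ * m * Q + (((d.1 : ℕ) : ℤ) - w1) ∧ (h m x).2 = d.2.1 ∧
      x.1.1 (δ * m * Q + kx) = d.2.2.1 ∧ y.1.1 (n0 + σ * δ * m * Q + ky) = d.2.2.2.1 ∧
      (sh (n0 + σ * δ * m * Q + ((d.2.2.2.2.1 : ℕ) : ℤ)) y.1, d.2.2.2.2.2) ∈ A.orb y := by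
    intro m hm
    obtain ⟨hd1, hd2⟩ := abs_le.1 (hdx m hm)
    obtain ⟨g, hg, hg1, hg2⟩ := hw y hy (n0 + σ * δ * m * Q)
    refine ⟨(⟨(disp (h m) x - δ * m * Q + w1).toNat, by omega⟩, (h m x).2, x.1.1 (δ * m * Q + kx),
      y.1.1 (n0 + σ * δ * m * Q + ky),
      ⟨(disp g y - (n0 + σ * δ * m * Q)).toNat, by omega⟩, (g y).2), ?_, rfl, rfl, rfl, ?_⟩
    · show disp (h m) x = δ * m * Q + ((((disp (h m) x - δ * m * Q + w1).toNat : ℕ) : ℤ) - w1)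
      omega
    · refine ⟨g, hg, ?_⟩
      have e1 : n0 + σ * δ * m * Q + (((disp g y - (n0 + σ * δ * m * Q)).toNat : ℕ) : ℤ)
          = disp g y := by omega
      show ((sh (n0 + σ * δ * m * Q +
        (((disp g y - (n0 + σ * δ * m * Q)).toNat : ℕ) : ℤ)) y.1, (g y).2) : Pt b F) = g y
      rw [e1]
      exact Prod.ext (pos_spec (sameLine_of_mem_PW (A.G_le_PW hg) y)).symm rfl
  have hne : Nonempty (Fin (2 * w1 + 1) × F × Bool × Bool × Fin w × F) :=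
    ⟨(hdata 0 (Nat.zero_le _)).choose⟩
  choose! d hd using hdata
  have hQdvd : ∀ a : ℤ, (b.p : ℤ) ^ (L + 2) ∣ a * Q := by
    intro a
    rw [hQ]
    push_cast
    exact Dvd.intro_left _ rfl
  have hmain := L15_bdd T M hT.ge Dm Δ hΔ0 hD0 hstep d (by
    intro m hm m' hm' hdd hDm1 hDm2
    obtain ⟨p1, p2, p3, p4, p5⟩ := hd m hm
    obtain ⟨p1', p2', p3', p4', p5'⟩ := hd m' hm'
    rw [← hdd] at p1' p2' p3' p4' p5'
    have hb1 : (4 : ℤ) * ((T + 1) * Δ) ≤ H := by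
      have : 4 * ((T + 1) * Δ) ≤ H := by
        have e1 : 4 * (T + 2) * Δ = 4 * ((T + 1) * Δ) + 4 * Δ := by ring
        rw [hH, e1]
        omega
      exact_mod_cast this
    have hpair := drift_pair' (w := w) hR hself hN3' (H := H) (w1 := w1)
      (by rw [hH, hc0]; omega) hσ hx hy (hG m hm) (hG m' hm')
      (n := δ * m * Q) (n' := δ * m' * Q) (o := (((d m).1 : ℕ) : ℤ) - w1)
      (k := n0 + σ * δ * m * Q) (k' := n0 + σ * δ * m' * Q) (D := Dm m) (D' := Dm m')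
      (e := (((d m).2.2.2.2.1 : ℕ) : ℤ)) (φ := (d m).2.2.2.2.2)
      (abs_le.2 ⟨by omega, by have := (d m).1.2; omega⟩) p1 p1' (by rw [hDm]; ring)
      (by rw [hDm]; ring) (by linarith)
      (hkx (δ * m * Q) (δ * m' * Q) (by rw [sub_zero]; exact hQdvd _)
        (by rw [sub_zero]; exact hQdvd _) (by rw [p3, p3']))
      (hky (n0 + σ * δ * m * Q) (n0 + σ * δ * m' * Q)
        (by rw [add_sub_cancel_left]; exact hQdvd _)
        (by rw [add_sub_cancel_left]; exact hQdvd _) (by rw [p4, p4']))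
      (by rw [p2, p2']) (by positivity) (by exact_mod_cast (d m).2.2.2.2.1.2) p5 p5'
      (E_mono (Nat.le_add_left _ _) (hE m hm)) (E_mono (Nat.le_add_left _ _) (hE m' hm'))
      ((hdir m hm).mono le_rfl (by omega)) ((hdir m' hm').mono le_rfl (by omega))
    rcases hpair with hp | hp
    · exact Or.inl hp
    · right
      by_contra hcon
      push Not at hcon
      have h1 : (C' : ℤ) * |Dm m - Dm m'| ≤ C' * ((T + 1) * Δ) :=
        mul_le_mul_of_nonneg_left hcon (by positivity)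
      have h2 : (C' : ℤ) * ((T + 1) * Δ) < N3 := by
        have h3 : C' * ((T + 1) * Δ) < N3 := by
          rw [hN3, hcN]
          have h4 : 0 < Δ := by omega
          have e1 : 2 * (T + 2) * (C' + 1) * Δ =
              (C' + 1) * ((T + 2) * Δ) + (C' + 1) * ((T + 2) * Δ) := by ring
          have e2 : C' * ((T + 1) * Δ) ≤ (C' + 1) * ((T + 2) * Δ) :=
            Nat.mul_le_mul (by omega) (Nat.mul_le_mul_right _ (by omega))
          have e3 : 0 < (C' + 1) * ((T + 2) * Δ) := by positivity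
          rw [e1]
          omega
        exact_mod_cast h3
      linarith)
  intro m hm
  have := hmain m hm
  rw [hDm] at this
  push_cast
  exact this

theorem drift_run [Finite F] {A : Sys b F} (hA : A.Reduced) {R w Cs K C0 κ : ℕ} (hR : A.BCon R)
    (hw : A.SYN w) (hC : A.SLR Cs) (hK : A.CONN K) (hLC : A.LC C0 κ) (w1 q0 : ℕ) :
    ∃ Q N' B : ℕ, q0 ≤ Q ∧ 0 < Q ∧ ∀ δ : ℤ, (δ = 1 ∨ δ = -1) → ∀ x ∈ A.D, ∀ y ∈ A.D, ∀ M : ℕ,
      ∀ h : ℕ → Equiv.Perm (Pt b F), (∀ m ≤ M, h m ∈ A.G) →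
      (∀ m ≤ M, δ * m * Q ≤ disp (h m) x ∧ disp (h m) x < δ * m * Q + w1) →
      (∀ m < M, ∃ u ∈ A.W (K * (Q + w1 + 1)), h (m + 1) = u * h m) →
      (∀ m ≤ M, A.E N' (h m x) (h m y)) →
      ∃ σ : ℤ, (σ = 1 ∨ σ = -1) ∧ A.Dir C0 Q σ (h 0 x) (h 0 y) ∧
        ∀ m ≤ M, |disp (h m) y - disp (h 0) y - σ * δ * m * Q| ≤ B := by
  obtain ⟨Q, N', B, h1, h2, h3⟩ := drift_run' hA hR hw hC hK hLC w1 q0
  exact ⟨Q, N', B, h1, h2, fun δ hδ x hx y hy M h hG hdx => h3 δ hδ x hx y hy M h hG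
    fun m hm => abs_le.2 ⟨by linarith [(hdx m hm).1, (hdx m hm).2],
      by linarith [(hdx m hm).1, (hdx m hm).2]⟩⟩

end Sys

end Pool.Agent.helper98.NIG
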