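import Pool.Agent.helper2.NIG.L09
import Pool.Agent.helper2.NIG.L15

/-!
# NIG-L16: two points with the same stabiliser have bounded drift (M1)

`Run A K Q w1 x h`: `h : ℤ → Perm` is a sequence of group elements which moves `x` to the positions
`m Q + [0, w1)` by short steps.

PROOFS.
* `exists_run`: `SYN` gives for every `m` a `g_m ∈ G` with `m Q ≤ disp g_m x < m Q + w`. Define `h 0 = 1` and, for
  `m ≥ 0`, `h (m+1) = u h m` where `u ∈ W (K (|..| + 1))` is given by `CONN` at the point `h m x` for the element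
  `g_{m+1} (h m)⁻¹` (displacement of absolute value at most `Q + w`), so `h (m+1) x = g_{m+1} x`; for `m < 0`
  similarly downwards: `h (m-1) = u h m` (the inverse of `u` is in `W` too).
  (For `m = 0`: `disp 1 x = 0 ∈ [0, w)`, `0 < w` because `SYN` holds and `D` is not empty.)
* `rel_drift`: constants `Q, N', B` from `drift_run` with `w1 = w`, `q0 =` the `m1` of `Dir_unique` for `C0`. For
  `Rel x y` all `E n` hold (`rel_iff`, `Rel.map`). Apply `drift_run` to `m ↦ h m` (`δ = 1`) and to `m ↦ h (-m)`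
  (`δ = -1`) for all `M`. The signs are all equal because of `Dir C0 Q σ x y` and `Dir_unique`. For
  `g ∈ G` let `m` be the integer with `m Q ≤ disp g x < (m + 1) Q`; by `CONN` at `h m x`: `g x = v (h m x)` with
  `v ∈ W (K (Q + w + 1))`, so `g y = v (h m y)` (`Rel`: `(v (h m))⁻¹ g` fixes `x`), and
  `|disp g y - disp (h m) y| ≤ ρ K (Q + w + 1)`, `|disp g x - m Q| ≤ Q`.
* `rel_dir`: `LC` for every `m` gives a sign, `Dir_unique` shows that the signs for all `m ≥ m1` agree, and the sign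
  is the sign of the drift: `Dir C0 m σ` for all `m`, `|disp g y - σ' disp g x| ≤ B` for all `g`; take `g` with
  `disp g x` large and use `cn_syn_abs`, `cn_mono`, `cn_zero`: `cn x (disp g x)` is large positive, so `cn y (disp g y)`
  has the sign `σ`, and it has the sign of `disp g y`.
-/

namespace Pool.Agent.helper98.NIG

variable {b : Base} {F : Type}

namespace Sys

/-- a sequence of elements which moves `x` along its line by short steps -/
structure Run (A : Sys b F) (K Q w1 : ℕ) (x : Pt b F) (h : ℤ → Equiv.Perm (Pt b F)) : Prop where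
  zero : h 0 = 1
  mem : ∀ m, h m ∈ A.G
  low : ∀ m : ℤ, m * Q ≤ disp (h m) x
  up : ∀ m : ℤ, disp (h m) x < m * Q + w1
  step : ∀ m, ∃ u ∈ A.W (K * (Q + w1 + 1)), h (m + 1) = u * h m

private theorem exists_prod {α : Type*} [Group α] (u : ℤ → α) :
    ∃ h : ℤ → α, h 0 = 1 ∧ ∀ m, h (m + 1) = u m * h m := by
  let hp : ℕ → α := fun n => Nat.rec 1 (fun n r => u n * r) n
  let hn : ℕ → α := fun n => Nat.rec 1 (fun n r => (u (-(n + 1 : ℕ)))⁻¹ * r) n
  have hp1 : ∀ n : ℕ, hp (n + 1) = u n * hp n := fun n => rfl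
  have hn1 : ∀ n : ℕ, hn (n + 1) = (u (-(n + 1 : ℕ)))⁻¹ * hn n := fun n => rfl
  refine ⟨fun m => if 0 ≤ m then hp m.toNat else hn (-m).toNat, by simp [hp], fun m => ?_⟩
  dsimp only
  rcases lt_trichotomy m (-1) with h | h | h
  · obtain ⟨n, rfl⟩ : ∃ n : ℕ, m = -(n + 2 : ℕ) := ⟨(-m - 2).toNat, by push_cast; omega⟩
    rw [if_neg (by push_cast; omega), if_neg (by push_cast; omega)]
    have e1 : (-(-((n + 2 : ℕ) : ℤ) + 1)).toNat = n + 1 := by push_cast; omega
    have e2 : (-(-((n + 2 : ℕ) : ℤ))).toNat = n + 1 + 1 := by push_cast; omega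
    rw [e1, e2, hn1 (n + 1)]
    rw [mul_inv_cancel_left]
  · subst h
    rw [if_pos (by norm_num), if_neg (by norm_num)]
    have e2 : (-(-1 : ℤ)).toNat = 0 + 1 := by norm_num
    have e1 : ((-1 : ℤ) + 1).toNat = 0 := by norm_num
    rw [e1, e2, hn1 0]
    simp [hp, hn]
  · have h0 : 0 ≤ m := by omega
    obtain ⟨n, rfl⟩ := Int.eq_ofNat_of_zero_le h0
    rw [if_pos (by omega), if_pos h0]
    have e1 : ((n : ℤ) + 1).toNat = n + 1 := by omega
    have e2 : ((n : ℤ)).toNat = n := by omega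
    rw [e1, e2, hp1 n]

private theorem perm_inv_self {α : Type*} (g : Equiv.Perm α) (x : α) : g⁻¹ (g x) = x :=
  g.symm_apply_apply x

theorem exists_run {A : Sys b F} {w K : ℕ} (hw : A.SYN w) (hK : A.CONN K) (Q : ℕ) {x : Pt b F}
    (hx : x ∈ A.D) : ∃ h : ℤ → Equiv.Perm (Pt b F), A.Run K Q w x h := by
  have hw0 : 0 < w := by
    obtain ⟨g, -, h1, h2⟩ := hw x hx 0
    omega
  have ht : ∀ m : ℤ, ∃ t ∈ A.G, (m = 0 → t = 1) ∧ m * Q ≤ disp t x ∧ disp t x < m * Q + w := by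
    intro m
    by_cases hm : m = 0
    · refine ⟨1, A.G.one_mem, fun _ => rfl, ?_, ?_⟩
      · rw [disp_one, hm]; simp
      · rw [disp_one, hm]; simpa using hw0
    · obtain ⟨g, hg, h1, h2⟩ := hw x hx (m * Q)
      exact ⟨g, hg, fun h => absurd h hm, h1, h2⟩
  choose t ht1 ht2 ht3 ht4 using ht
  have hu : ∀ m : ℤ, ∃ u ∈ A.W (K * (Q + w + 1)), u (t m x) = t (m + 1) x := by
    intro m
    have hm1 : t (m + 1) * (t m)⁻¹ ∈ A.G := mul_mem (ht1 _) (A.G.inv_mem (ht1 _))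
    obtain ⟨u, hu1, hu2⟩ := hK (t m x) (A.map_mem (ht1 m) hx) _ hm1
    have e1 : (t (m + 1) * (t m)⁻¹) (t m x) = t (m + 1) x := by
      rw [Equiv.Perm.mul_apply, perm_inv_self]
    refine ⟨u, A.W_mono (Nat.mul_le_mul_left K (Nat.succ_le_succ ?_)) hu1, by rw [hu2, e1]⟩
    have e2 : disp (t (m + 1) * (t m)⁻¹ * t m) x =
        disp (t (m + 1) * (t m)⁻¹) (t m x) + disp (t m) x :=
      disp_mul (A.G_le_PW hm1) (A.G_le_PW (ht1 m)) x
    rw [inv_mul_cancel_right] at e2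
    have h1 := ht3 m
    have h2 := ht4 m
    have h3 := ht3 (m + 1)
    have h4 := ht4 (m + 1)
    have h5 : (m + 1) * (Q : ℤ) = m * Q + Q := by ring
    rw [h5] at h3 h4
    omega
  choose u hu1 hu2 using hu
  obtain ⟨h, h0, hs⟩ := exists_prod u
  have hx' : ∀ m : ℤ, h m x = t m x := by
    intro m
    induction m using Int.induction_on with
    | zero => rw [h0, ht2 0 rfl]
    | succ m ih => rw [hs, Equiv.Perm.mul_apply, ih, hu2]
    | pred m ih =>
      have e1 := hs (-(m : ℤ) - 1)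
      have e2 := hu2 (-(m : ℤ) - 1)
      rw [sub_add_cancel] at e1 e2
      rw [e1, Equiv.Perm.mul_apply, ← e2] at ih
      exact (u _).injective ih
  have hmem : ∀ m, h m ∈ A.G := by
    intro m
    induction m using Int.induction_on with
    | zero => rw [h0]; exact A.G.one_mem
    | succ m ih => rw [hs]; exact mul_mem (A.W_le_G (hu1 _)) ih
    | pred m ih =>
      have e1 := hs (-(m : ℤ) - 1)
      rw [sub_add_cancel] at e1
      have e2 : h (-(m : ℤ) - 1) = (u (-(m : ℤ) - 1))⁻¹ * h (-(m : ℤ)) := by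
        rw [e1, inv_mul_cancel_left]
      rw [e2]
      exact mul_mem (A.G.inv_mem (A.W_le_G (hu1 _))) ih
  have hd : ∀ m, disp (h m) x = disp (t m) x := by
    intro m
    unfold disp
    rw [hx']
  exact ⟨h, h0, hmem, fun m => by rw [hd]; exact ht3 m, fun m => by rw [hd]; exact ht4 m,
    fun m => ⟨u m, hu1 m, hs m⟩⟩

/-- all the constants exist -/
theorem consts [Finite F] {A : Sys b F} {R w : ℕ} (hR : A.BCon R) (hw : A.SYN w) :
    ∃ Cs K C0 κ : ℕ, A.SLR Cs ∧ A.CONN K ∧ A.LC C0 κ := by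
  obtain ⟨Cs, hCs⟩ := exists_SLR hR hw
  obtain ⟨K, -, hK⟩ := conn_W hR
  obtain ⟨C0, κ, -, hLC⟩ := exists_LC hR hw
  exact ⟨Cs, K, C0, κ, hCs, hK, hLC⟩

/-- M1: bounded drift -/
theorem rel_drift [Finite F] {A : Sys b F} (hA : A.Reduced) {R w : ℕ} (hR : A.BCon R)
    (hw : A.SYN w) : ∃ B : ℕ, ∀ x ∈ A.D, ∀ y ∈ A.D, A.Rel x y →
      ∃ σ : ℤ, (σ = 1 ∨ σ = -1) ∧ ∀ g ∈ A.G, |disp g y - σ * disp g x| ≤ B := by
  obtain ⟨Cs, K, C0, κ, hCs, hK, hLC⟩ := consts hR hw
  obtain ⟨m1, hm1⟩ := Dir_unique hR hw C0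
  obtain ⟨Q, N', B0, hQ1, hQ0, hrun⟩ := drift_run hA hR hw hCs hK hLC w m1
  refine ⟨A.ρ * (K * (Q + w + 1)) + B0 + Q, fun x hx y hy hxy => ?_⟩
  obtain ⟨h, hr⟩ := exists_run hw hK Q hx
  have hE : ∀ (n : ℕ), ∀ g ∈ A.G, A.E n (g x) (g y) := fun n g hg =>
    rel_iff.1 (Rel.map hxy hg) n
  -- positive direction
  have hpos : ∀ M : ℕ, ∃ σ : ℤ, (σ = 1 ∨ σ = -1) ∧ A.Dir C0 Q σ x y ∧
      ∀ m ≤ M, |disp (h (m : ℤ)) y - σ * m * Q| ≤ B0 := by
    intro M
    obtain ⟨σ, hσ, h1, h2⟩ := hrun 1 (Or.inl rfl) x hx y hy M (fun m => h (m : ℤ))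
      (fun m _ => hr.mem _)
      (fun m _ => ⟨by have := hr.low m; linarith, by have := hr.up m; linarith⟩)
      (fun m _ => by
        obtain ⟨u, hu, hu'⟩ := hr.step m
        exact ⟨u, hu, by push_cast; exact hu'⟩)
      (fun m _ => hE _ _ (hr.mem _))
    refine ⟨σ, hσ, by simpa [hr.zero] using h1, fun m hm => ?_⟩
    have h3 := h2 m hm
    simp only [Nat.cast_zero, hr.zero, disp_one, sub_zero, mul_one] at h3
    exact h3
  have hneg : ∀ M : ℕ, ∃ σ : ℤ, (σ = 1 ∨ σ = -1) ∧ A.Dir C0 Q σ x y ∧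
      ∀ m ≤ M, |disp (h (-(m : ℤ))) y + σ * m * Q| ≤ B0 := by
    intro M
    obtain ⟨σ, hσ, h1, h2⟩ := hrun (-1) (Or.inr rfl) x hx y hy M (fun m => h (-(m : ℤ)))
      (fun m _ => hr.mem _)
      (fun m _ => ⟨by have := hr.low (-(m : ℤ)); linarith, by have := hr.up (-(m : ℤ)); linarith⟩)
      (fun m _ => by
        obtain ⟨u, hu, hu'⟩ := hr.step (-((m : ℤ) + 1))
        refine ⟨u⁻¹, A.W_inv hu, ?_⟩
        have e : -((m : ℤ) + 1) + 1 = -(m : ℤ) := by ring
        rw [e] at hu'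
        push_cast
        rw [hu', inv_mul_cancel_left])
      (fun m _ => hE _ _ (hr.mem _))
    refine ⟨σ, hσ, by simpa [hr.zero] using h1, fun m hm => ?_⟩
    have h3 := h2 m hm
    simp only [Nat.cast_zero, neg_zero, hr.zero, disp_one, sub_zero] at h3
    have e : disp (h (-(m : ℤ))) y + σ * m * Q = disp (h (-(m : ℤ))) y - σ * -1 * m * Q := by ring
    rw [e]
    exact h3
  obtain ⟨σ, hσ, hdir, -⟩ := hpos 0
  refine ⟨σ, hσ, ?_⟩
  have hall : ∀ m : ℤ, |disp (h m) y - σ * m * Q| ≤ B0 := by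
    intro m
    rcases le_total 0 m with hm | hm
    · obtain ⟨n, rfl⟩ := Int.eq_ofNat_of_zero_le hm
      obtain ⟨σ', hσ', hdir', h1⟩ := hpos n
      have e := hm1 x hx y Q hQ1 σ σ' hσ hσ' hdir hdir'
      rw [e]
      exact h1 n le_rfl
    · obtain ⟨n, hn⟩ := Int.eq_ofNat_of_zero_le (neg_nonneg.2 hm)
      obtain ⟨σ', hσ', hdir', h1⟩ := hneg n
      have e := hm1 x hx y Q hQ1 σ σ' hσ hσ' hdir hdir'
      have h2 := h1 n le_rfl
      have e2 : m = -(n : ℤ) := by rw [← hn]; ring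
      rw [e, e2]
      have e3 : disp (h (-(n : ℤ))) y - σ' * -(n : ℤ) * Q =
          disp (h (-(n : ℤ))) y + σ' * n * Q := by ring
      rw [e3]
      exact h2
  intro g hg
  have hQ0' : (0 : ℤ) < Q := by exact_mod_cast hQ0
  set m : ℤ := disp g x / Q with hm
  have hl : m * Q ≤ disp g x := by rw [hm]; exact Int.ediv_mul_le _ hQ0'.ne'
  have hup : disp g x < m * Q + Q := by
    have := Int.lt_ediv_add_one_mul_self (disp g x) hQ0'
    rw [← hm] at this
    linarith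
  have hgm : g * (h m)⁻¹ ∈ A.G := mul_mem hg (A.G.inv_mem (hr.mem m))
  obtain ⟨v, hv1, hv2⟩ := hK (h m x) (A.map_mem (hr.mem m) hx) _ hgm
  have e1 : (g * (h m)⁻¹) (h m x) = g x := by
    rw [Equiv.Perm.mul_apply, perm_inv_self]
  have e2 : disp (g * (h m)⁻¹ * h m) x = disp (g * (h m)⁻¹) (h m x) + disp (h m) x :=
    disp_mul (A.G_le_PW hgm) (A.G_le_PW (hr.mem m)) x
  rw [inv_mul_cancel_right] at e2
  have hv3 : v ∈ A.W (K * (Q + w + 1)) := by
    refine A.W_mono (Nat.mul_le_mul_left K (Nat.succ_le_succ ?_)) hv1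
    have h1 := hr.low m
    have h2 := hr.up m
    omega
  have hvG : v ∈ A.G := A.W_le_G hv3
  have hvy : v (h m y) = g y := by
    have h1 : (g⁻¹ * (v * h m)) x = x := by
      rw [Equiv.Perm.mul_apply, Equiv.Perm.mul_apply, hv2, e1, perm_inv_self]
    have h2 := (hxy _ (mul_mem (A.G.inv_mem hg) (mul_mem hvG (hr.mem m)))).1 h1
    rw [Equiv.Perm.mul_apply, Equiv.Perm.mul_apply, Equiv.Perm.inv_eq_iff_eq] at h2
    exact h2
  have e3 : disp (v * h m) y = disp v (h m y) + disp (h m) y :=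
    disp_mul (A.G_le_PW hvG) (A.G_le_PW (hr.mem m)) y
  have e4 : disp (v * h m) y = disp g y := by
    unfold disp
    rw [Equiv.Perm.mul_apply, hvy]
  have h1 := A.abs_disp_W hv3 (h m y)
  have h2 := hall m
  push_cast
  push_cast at h1
  rw [← e4, e3]
  have h3 : |σ * (m * Q) - σ * disp g x| ≤ Q := by
    rw [← mul_sub, abs_mul]
    have h4 : |σ| = 1 := by rcases hσ with rfl | rfl <;> simp
    rw [h4, one_mul, abs_le]
    constructor <;> linarith
  have h5 : disp v (h m y) + disp (h m) y - σ * disp g x =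
      disp v (h m y) + (disp (h m) y - σ * m * Q) + (σ * (m * Q) - σ * disp g x) := by ring
  rw [h5]
  refine (abs_add_le _ _).trans ?_
  have h6 := abs_add_le (disp v (h m y)) (disp (h m) y - σ * m * Q)
  linarith

/-- the sign of the drift is the sign of the counts -/
theorem rel_dir [Finite F] {A : Sys b F} {R w C0 κ : ℕ} (hR : A.BCon R)
    (hw : A.SYN w) (hLC : A.LC C0 κ) {x y : Pt b F} (hx : x ∈ A.D) (hy : y ∈ A.D)
    (h : A.Rel x y) {σ : ℤ} (hσ : σ = 1 ∨ σ = -1) {B : ℕ}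
    (hB : ∀ g ∈ A.G, |disp g y - σ * disp g x| ≤ B) (m : ℕ) : A.Dir C0 m σ x y := by
  obtain ⟨g, hg, hgx⟩ := A.right x hx (w * (C0 + 2) + B)
  have hg' : g ∈ A.G := hg
  obtain ⟨M0, hM0⟩ := A.exists_W hg'
  obtain ⟨σ', hσ', hdir⟩ := hLC (max m M0) x hx y hy (rel_iff.1 h _)
  have hw0 : (0 : ℤ) ≤ w := by positivity
  have hB0 : (0 : ℤ) ≤ B := by positivity
  have hC0 : (0 : ℤ) ≤ C0 := by positivity
  have hpos : 0 ≤ disp g x := by
    have : (0 : ℤ) ≤ w * (C0 + 2) := by positivity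
    linarith
  have h1 := cn_syn hw hx hpos
  rw [cn_zero, sub_zero, sub_zero] at h1
  have h2 : (C0 : ℤ) + 1 < A.cn x (disp g x) := by
    by_contra hcon
    push Not at hcon
    have : (w : ℤ) * (A.cn x (disp g x) + 1) ≤ w * (C0 + 2) :=
      mul_le_mul_of_nonneg_left (by linarith) hw0
    linarith
  have h3 := abs_le.1 (hdir g (A.W_mono (le_max_right _ _) hM0))
  have h4 := abs_le.1 (hB g hg')
  have h5 : (0 : ℤ) ≤ w * (C0 + 2) := by positivity
  have e : σ = σ' := by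
    rcases hσ with rfl | rfl
    · have h6 : 0 ≤ disp g y := by linarith [h4.1]
      have h7 := A.cn_mono y h6
      rw [cn_zero] at h7
      rcases hσ' with rfl | rfl
      · rfl
      · exfalso
        linarith [h3.2]
    · have h6 : disp g y ≤ 0 := by linarith [h4.2]
      have h7 := A.cn_mono y h6
      rw [cn_zero] at h7
      rcases hσ' with rfl | rfl
      · exfalso
        linarith [h3.1]
      · rfl
  rw [e]
  exact Dir.mono le_rfl (le_max_left _ _) hdir

end Sys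

end Pool.Agent.helper98.NIG
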