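import Pool.Agent.helper2.NIG.L16

/-!
# NIG-L17: following a run; local equality of loops implies equality of the stabilisers

`CRun K Q w1 τ I x h` (coarse run): `h m ∈ G` for `m ∈ I`, `h 0 = 1`, `h m x` is at position
`τ m Q` up to `w1`, consecutive elements differ by a word of length `K (Q + w1 + 1)`.

PROOFS.
* `exists_DR`: this is `drift_run'` of L15 (drift_run with symmetric tolerance).
* `crun_follow`. Let `k = K (c + w1 + 1)`. If `m, m' ∈ I` and `v h_m x`, `v' h_{m'} x` (`v, v' ∈ W k`) are equal or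
  differ by one generator then `|m - m'| Q ≤ 2 w1 + 2 ρ k + ρ`, so `|m - m'| ≤ c' := 2 w1 + 2 ρ k + ρ`, and
  `h_{m'} = u h_m` with `u ∈ W (c' K (Q + w1 + 1))` (product of `|m - m'|` steps or their inverses; `I` is
  order connected). Take `n0 = 2 k + 1 + c' K (Q + w1 + 1)`.
  Induction on `Reach x J g`, for all `m, v` at the same time.
  `g = 1`: `x = v h_m x`, so `v h_m` fixes `x = h_0 x`, and `v h_m = v u ∈ W n0` (`m' = 0`): it fixes `y`.
  `s g`: let `s g x = v h_m x`. The position `p ∈ J` of `g x` (`Reach.disp_mem`) satisfies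
  `|p - τ m' Q| ≤ c` for some `m' ∈ I`; by `CONN` at `h_{m'} x`, `g x = v' h_{m'} x` with `v' ∈ W k`. By induction
  `g y = v' h_{m'} y`. Now `s v' h_{m'} x = v u h_{m'} x` with `h_m = u h_{m'}`; `E n0 (h_{m'} x) (h_{m'} y)` and `E_eq` give
  `s g y = s v' h_{m'} y = v u h_{m'} y = v h_m y`.
* `rel_of_local`: let `N0 = n0` for `w1 = w`, `Q = 1` or any fixed `Q > 0`, `c = Q`, `I = J = univ`; `exists_run`
  for `x` is a coarse run with `τ = 1`. If `g x = x` then (`m = 0`, `v = 1`) `g y = y`; the converse is the same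
  statement with `x`, `y` exchanged.
* `rel_of_run`: by `crun_follow` with `I = J = univ`: for `g ∈ G` there are `m`, `v ∈ W k` with `g x = v h_m x`,
  `g y = v h_m y`; `E (n - 2 k) (g x) (g y)` by `E_map`. So `rel_of_local` applies.
-/

namespace Pool.Agent.helper98.NIG

variable {b : Base} {F : Type}

namespace Sys

/-- coarse run on the index set `I` -/
structure CRun (A : Sys b F) (K Q w1 : ℕ) (τ : ℤ) (I : Set ℤ) (x : Pt b F)
    (h : ℤ → Equiv.Perm (Pt b F)) : Prop where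
  zero : h 0 = 1
  zero_mem : (0 : ℤ) ∈ I
  conn : I.OrdConnected
  mem : ∀ m ∈ I, h m ∈ A.G
  near : ∀ m ∈ I, |disp (h m) x - τ * m * Q| ≤ w1
  step : ∀ m ∈ I, m + 1 ∈ I → ∃ u ∈ A.W (K * (Q + w1 + 1)), h (m + 1) = u * h m

theorem Run.crun {A : Sys b F} {K Q w1 : ℕ} {x : Pt b F} {h : ℤ → Equiv.Perm (Pt b F)}
    (H : A.Run K Q w1 x h) : A.CRun K Q w1 1 Set.univ x h where
  zero := H.zero
  zero_mem := trivial
  conn := Set.ordConnected_univ
  mem := fun m _ => H.mem m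
  near := fun m _ => by
    have h1 := H.low m
    have h2 := H.up m
    rw [one_mul, abs_le]
    constructor <;> linarith
  step := fun m _ _ => H.step m

/-- the conclusion of `drift_run'`: locks along runs have bounded drift -/
def DR (A : Sys b F) (K Q N' w1 C0 B : ℕ) : Prop :=
  ∀ δ : ℤ, (δ = 1 ∨ δ = -1) → ∀ x ∈ A.D, ∀ y ∈ A.D, ∀ M : ℕ,
    ∀ h : ℕ → Equiv.Perm (Pt b F), (∀ m ≤ M, h m ∈ A.G) →
      (∀ m ≤ M, |disp (h m) x - δ * m * Q| ≤ w1) →
      (∀ m < M, ∃ u ∈ A.W (K * (Q + w1 + 1)), h (m + 1) = u * h m) →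
      (∀ m ≤ M, A.E N' (h m x) (h m y)) →
      ∃ σ : ℤ, (σ = 1 ∨ σ = -1) ∧ A.Dir C0 Q σ (h 0 x) (h 0 y) ∧
        ∀ m ≤ M, |disp (h m) y - disp (h 0) y - σ * δ * m * Q| ≤ B

theorem exists_DR [Finite F] {A : Sys b F} (hA : A.Reduced) {R w Cs K C0 κ : ℕ} (hR : A.BCon R)
    (hw : A.SYN w) (hC : A.SLR Cs) (hK : A.CONN K) (hLC : A.LC C0 κ) (w1 q0 : ℕ) :
    ∃ Q N' B : ℕ, q0 ≤ Q ∧ 0 < Q ∧ A.DR K Q N' w1 C0 B := by
  obtain ⟨Q, N', B, hq, hQ, H⟩ := drift_run hA hR hw hC hK hLC (2 * w1 + w + 1) q0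
  refine ⟨Q, N', B, hq, hQ, ?_⟩
  intro δ hδ x hx y hy M h hG hnear hstep hE
  obtain ⟨t, ht, ht1, ht2⟩ := hw x hx (-(w1 : ℤ) - w)
  have htP := A.G_le_PW ht
  have e1 : ∀ z : Pt b F, t⁻¹ (t z) = z := fun z => t.symm_apply_apply z
  have hti : t⁻¹ ∈ A.G := A.G.inv_mem ht
  have hdx : disp t⁻¹ (t x) = - disp t x := disp_inv htP x
  have hd : ∀ m ≤ M, ∀ z : Pt b F, disp (h m * t⁻¹) (t z) = disp (h m) z - disp t z := by
    intro m hm z
    rw [disp_mul (A.G_le_PW (hG m hm)) (A.G_le_PW hti), e1, disp_inv htP]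
    ring
  have e2 : ∀ (m : ℕ) (z : Pt b F), (h m * t⁻¹) (t z) = h m z := fun m z => by
    rw [Equiv.Perm.mul_apply, e1]
  obtain ⟨σ, hσ, hdir, hdr⟩ := H δ hδ (t x) (A.map_mem ht hx) (t y) (A.map_mem ht hy) M
    (fun m => h m * t⁻¹) (fun m hm => mul_mem (hG m hm) hti)
    (fun m hm => by
      have h1 := abs_le.1 (hnear m hm)
      have h2 := hd m hm x
      push_cast
      constructor <;> linarith [h1.1, h1.2])
    (fun m hm => by
      obtain ⟨u, hu, e⟩ := hstep m hm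
      refine ⟨u, A.W_mono (Nat.mul_le_mul_left K (by omega)) hu, ?_⟩
      rw [e, mul_assoc])
    (fun m hm => by
      rw [e2, e2]
      exact hE m hm)
  refine ⟨σ, hσ, ?_, fun m hm => ?_⟩
  · rwa [e2, e2] at hdir
  · have h1 := hdr m hm
    rw [hd m hm, hd 0 (Nat.zero_le _)] at h1
    have e3 : disp (h m) y - disp t y - (disp (h 0) y - disp t y) - σ * δ * m * Q =
        disp (h m) y - disp (h 0) y - σ * δ * m * Q := by ring
    rwa [e3] at h1

/-- a product of consecutive steps -/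
theorem CRun.steps {A : Sys b F} {K Q w1 : ℕ} {τ : ℤ} {I : Set ℤ} {x : Pt b F}
    {h : ℤ → Equiv.Perm (Pt b F)} (H : A.CRun K Q w1 τ I x h) (n : ℕ) :
    ∀ m : ℤ, m ∈ I → m + n ∈ I →
      ∃ u ∈ A.W (n * (K * (Q + w1 + 1))), h (m + n) = u * h m := by
  induction n with
  | zero =>
    intro m _ _
    exact ⟨1, A.one_mem_W _, by simp⟩
  | succ n ih =>
    intro m hm hmn
    have hn : m + n ∈ I := H.conn.out hm hmn ⟨by omega, by push_cast; omega⟩
    obtain ⟨u, hu, e⟩ := ih m hm hn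
    have hn1 : m + n + 1 ∈ I := by
      have : m + n + 1 = m + ((n + 1 : ℕ) : ℤ) := by push_cast; ring
      rwa [this]
    obtain ⟨u', hu', e'⟩ := H.step (m + n) hn hn1
    refine ⟨u' * u, A.W_mono (le_of_eq (by ring)) (A.W_mul hu' hu), ?_⟩
    have : m + ((n + 1 : ℕ) : ℤ) = m + n + 1 := by push_cast; ring
    rw [this, e', e, mul_assoc]

/-- two members of a coarse run differ by a word -/
theorem CRun.between {A : Sys b F} {K Q w1 : ℕ} {τ : ℤ} {I : Set ℤ} {x : Pt b F}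
    {h : ℤ → Equiv.Perm (Pt b F)} (H : A.CRun K Q w1 τ I x h) {m m' : ℤ} (hm : m ∈ I)
    (hm' : m' ∈ I) {c : ℕ} (hc : |m - m'| ≤ c) :
    ∃ u ∈ A.W (c * (K * (Q + w1 + 1))), h m = u * h m' := by
  have hc' := abs_le.1 hc
  rcases le_total m' m with hle | hle
  · obtain ⟨u, hu, e⟩ := H.steps (m - m').toNat m' hm' (by
      rw [Int.toNat_of_nonneg (by omega)]
      have : m' + (m - m') = m := by ring
      rwa [this])
    rw [Int.toNat_of_nonneg (by omega)] at e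
    refine ⟨u, A.W_mono (Nat.mul_le_mul_right _ (by omega)) hu, ?_⟩
    rw [← e]
    congr 1
    ring
  · obtain ⟨u, hu, e⟩ := H.steps (m' - m).toNat m hm (by
      rw [Int.toNat_of_nonneg (by omega)]
      have : m + (m' - m) = m' := by ring
      rwa [this])
    rw [Int.toNat_of_nonneg (by omega)] at e
    refine ⟨u⁻¹, A.W_inv (A.W_mono (Nat.mul_le_mul_right _ (by omega)) hu), ?_⟩
    have e2 : m + (m' - m) = m' := by ring
    rw [e2] at e
    rw [e, inv_mul_cancel_left]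

/-- a point near a member of a coarse run is reached by a short word -/
theorem CRun.reach_near {A : Sys b F} {K : ℕ} (hK : A.CONN K) {Q w1 : ℕ} {τ : ℤ} {I : Set ℤ}
    {x : Pt b F} (hx : x ∈ A.D) {h : ℤ → Equiv.Perm (Pt b F)} (H : A.CRun K Q w1 τ I x h)
    {m : ℤ} (hm : m ∈ I) {c : ℕ} {g : Equiv.Perm (Pt b F)} (hg : g ∈ A.G)
    (hc : |disp g x - τ * m * Q| ≤ c) :
    ∃ v ∈ A.W (K * (c + w1 + 1)), v (h m x) = g x := by
  have hmG := H.mem m hm
  have h1 : g * (h m)⁻¹ ∈ A.G := mul_mem hg (A.G.inv_mem hmG)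
  obtain ⟨v, hv, e⟩ := hK (h m x) (A.map_mem hmG hx) _ h1
  have e1 : (g * (h m)⁻¹) (h m x) = g x := by
    rw [Equiv.Perm.mul_apply]
    congr 1
    exact (h m).symm_apply_apply x
  refine ⟨v, A.W_mono (Nat.mul_le_mul_left K (Nat.succ_le_succ ?_)) hv, by rw [e, e1]⟩
  have e2 : disp (g * (h m)⁻¹ * h m) x = disp (g * (h m)⁻¹) (h m x) + disp (h m) x :=
    disp_mul (A.G_le_PW h1) (A.G_le_PW hmG) x
  rw [inv_mul_cancel_right] at e2
  have h2 := abs_le.1 hc
  have h3 := abs_le.1 (H.near m hm)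
  omega

private theorem abs_le_abs_mul {τ : ℤ} (hτ : τ = 1 ∨ τ = -1) {Q : ℕ} (hQ : 0 < Q) (m m' : ℤ) :
    |m - m'| ≤ |τ * m * Q - τ * m' * Q| := by
  have e : τ * m * Q - τ * m' * Q = τ * ((m - m') * Q) := by ring
  have h1 : |τ| = 1 := by rcases hτ with rfl | rfl <;> simp
  rw [e, abs_mul, abs_mul, h1, one_mul, Nat.abs_cast]
  have h2 : (1 : ℤ) ≤ Q := by exact_mod_cast hQ
  nlinarith [abs_nonneg (m - m')]

theorem crun_follow {A : Sys b F} {K : ℕ} (hK : A.CONN K) (Q w1 c : ℕ) (hQ : 0 < Q) :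
    ∃ n0 : ℕ, ∀ τ : ℤ, (τ = 1 ∨ τ = -1) → ∀ I J : Set ℤ, (0 : ℤ) ∈ J →
      (∀ p ∈ J, ∃ m ∈ I, |p - τ * m * Q| ≤ c) → ∀ x ∈ A.D, ∀ y ∈ A.D,
      ∀ h : ℤ → Equiv.Perm (Pt b F), A.CRun K Q w1 τ I x h →
      (∀ m ∈ I, A.E n0 (h m x) (h m y)) → ∀ g, A.Reach x J g → ∀ m ∈ I,
        ∀ v ∈ A.W (K * (c + w1 + 1)), g x = v (h m x) → g y = v (h m y) := by
  set k := K * (c + w1 + 1) with hk
  set c' := 2 * w1 + 2 * (A.ρ * k) + A.ρ with hc'
  refine ⟨2 * k + 1 + c' * (K * (Q + w1 + 1)), ?_⟩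
  intro τ hτ I J hJ0 hcov x hx y hy h H hE g hg
  induction hg with
  | one =>
    intro m hm v hv e
    have hvG := A.W_le_G hv
    have e0 : (v * h m) x = (1 : Equiv.Perm (Pt b F)) x := e.symm
    have h1 := L02_disp_congr e0
    rw [disp_one, disp_mul (A.G_le_PW hvG) (A.G_le_PW (H.mem m hm))] at h1
    have h2 := abs_le.1 (A.abs_disp_W hv (h m x))
    have h3 := abs_le.1 (H.near m hm)
    have h4 := abs_le_abs_mul hτ hQ m 0
    have h5 : |τ * m * Q - τ * 0 * Q| ≤ c' := by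
      rw [abs_le]
      push_cast [hc']
      constructor <;> nlinarith [h2.1, h2.2, h3.1, h3.2]
    obtain ⟨u, hu, eu⟩ := H.between hm H.zero_mem (h4.trans h5)
    rw [H.zero, mul_one] at eu
    have h6 := hE 0 H.zero_mem
    rw [H.zero] at h6
    have h7 := (h6 (v * u) (A.W_mono (by omega) (A.W_mul hv hu))).1
      (by rw [Equiv.Perm.one_apply, Equiv.Perm.mul_apply, ← eu]; exact e.symm)
    rw [Equiv.Perm.one_apply] at h7
    rw [Equiv.Perm.one_apply, eu]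
    exact h7.symm
  | @step g s hg hs hp ih =>
    intro m hm v hv e
    have hvG := A.W_le_G hv
    have hgG := hg.mem_G
    have hsG := A.mem_G_of_mem_S hs
    obtain ⟨m', hm', hmc⟩ := hcov (disp g x) (hg.disp_mem hJ0)
    obtain ⟨v', hv', e'⟩ := H.reach_near hK hx hm' hgG hmc
    have hy' := ih m' hm' v' hv' e'.symm
    have hv'G := A.W_le_G hv'
    -- the distance
    have e0 : (v * h m) x = (s * g) x := e.symm
    have h1 := L02_disp_congr e0
    rw [disp_mul (A.G_le_PW hvG) (A.G_le_PW (H.mem m hm)),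
      disp_mul (A.G_le_PW hsG) (A.G_le_PW hgG)] at h1
    have e1 : (v' * h m') x = g x := e'
    have h1' := L02_disp_congr e1
    rw [disp_mul (A.G_le_PW hv'G) (A.G_le_PW (H.mem m' hm'))] at h1'
    have h2 := abs_le.1 (A.abs_disp_W hv (h m x))
    have h2' := abs_le.1 (A.abs_disp_W hv' (h m' x))
    have h2s := abs_le.1 (abs_disp_le (A.pw s hs).1 (g x))
    have h3 := abs_le.1 (H.near m hm)
    have h3' := abs_le.1 (H.near m' hm')
    have h4 := abs_le_abs_mul hτ hQ m m'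
    have h5 : |τ * m * Q - τ * m' * Q| ≤ c' := by
      rw [abs_le]
      push_cast [hc']
      constructor <;> nlinarith [h2.1, h2.2, h3.1, h3.2, h2'.1, h2'.2, h3'.1, h3'.2, h2s.1, h2s.2]
    obtain ⟨u, hu, eu⟩ := H.between hm hm' (h4.trans h5)
    have h6 : A.E ((1 + k) + (k + c' * (K * (Q + w1 + 1)))) (h m' x) (h m' y) :=
      E_mono (by omega) (hE m' hm')
    have h7 : (s * v') (h m' x) = (v * u) (h m' x) := by
      rw [Equiv.Perm.mul_apply, e', Equiv.Perm.mul_apply, ← Equiv.Perm.mul_apply u, ← eu]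
      exact e
    have h8 := (E_eq h6 (A.W_mul (A.mem_W_one hs) hv') (A.W_mul hv hu)).1 h7
    rw [Equiv.Perm.mul_apply, hy', eu]
    exact h8

theorem rel_of_local [Finite F] {A : Sys b F} {R w : ℕ} (hR : A.BCon R) (hw : A.SYN w) :
    ∃ N0 : ℕ, ∀ x ∈ A.D, ∀ y ∈ A.D, (∀ g ∈ A.G, A.E N0 (g x) (g y)) → A.Rel x y := by
  obtain ⟨K, -, hK⟩ := conn_W hR
  obtain ⟨n0, hn0⟩ := crun_follow hK 1 w 1 one_pos
  have key : ∀ x ∈ A.D, ∀ y ∈ A.D, (∀ g ∈ A.G, A.E n0 (g x) (g y)) → ∀ g ∈ A.G,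
      g x = x → g y = y := by
    intro x hx y hy hE g hg e
    obtain ⟨h, H⟩ := exists_run hw hK 1 hx
    have h1 := hn0 1 (Or.inl rfl) Set.univ Set.univ trivial
      (fun p _ => ⟨p, trivial, by simp⟩) x hx y hy h H.crun (fun m _ => hE _ (H.mem m)) g
      (A.reach_univ hg x) 0 trivial 1 (A.one_mem_W _) (by rw [H.zero]; exact e)
    rw [H.zero] at h1
    exact h1
  exact ⟨n0, fun x hx y hy hE g hg =>
    ⟨key x hx y hy hE g hg, key y hy x hx (fun g hg => E_symm (hE g hg)) g hg⟩⟩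

theorem rel_of_run [Finite F] {A : Sys b F} {R w K : ℕ} (hR : A.BCon R) (hw : A.SYN w)
    (hK : A.CONN K) (Q w1 : ℕ) (hQ : 0 < Q) :
    ∃ n : ℕ, ∀ x ∈ A.D, ∀ y ∈ A.D, ∀ h : ℤ → Equiv.Perm (Pt b F), A.Run K Q w1 x h →
      (∀ m : ℤ, A.E n (h m x) (h m y)) → A.Rel x y := by
  obtain ⟨N0, hN0⟩ := rel_of_local hR hw
  obtain ⟨n0, hn0⟩ := crun_follow hK Q w1 Q hQ
  refine ⟨n0 + (N0 + 2 * (K * (Q + w1 + 1))), fun x hx y hy h H hE => hN0 x hx y hy ?_⟩
  intro g hg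
  have hcov : ∀ p ∈ (Set.univ : Set ℤ), ∃ m ∈ (Set.univ : Set ℤ), |p - 1 * m * Q| ≤ Q := by
    intro p _
    refine ⟨p / Q, trivial, ?_⟩
    have hQ' : (0 : ℤ) < Q := by exact_mod_cast hQ
    have h1 := Int.emod_nonneg p hQ'.ne'
    have h2 := Int.emod_lt_of_pos p hQ'
    have h3 := Int.emod_add_mul_ediv p Q
    rw [abs_le]
    constructor <;> nlinarith
  obtain ⟨m, -, hm⟩ := hcov (disp g x) trivial
  obtain ⟨v, hv, e⟩ := H.crun.reach_near hK hx (Set.mem_univ m) hg hm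
  have h1 := hn0 1 (Or.inl rfl) Set.univ Set.univ trivial hcov x hx y hy h H.crun
    (fun m _ => E_mono (by omega) (hE m)) g (A.reach_univ hg x) m trivial v hv e.symm
  rw [h1, ← e]
  exact E_map (E_mono (by omega) (hE m)) hv

end Sys

end Pool.Agent.helper98.NIG
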