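import Pool.Agent.helper98.NIG.B05

/-!
# NIG-L18: differences of addresses

`Al e y y'`: the address of `y'` minus the address of `y` is the integer `e` (at all levels `J ≥ 3`).
`rv y`: the reversed sequence with exchanged types.
`Sing y`: `y` is one of the singular sequences.

PROOFS. `P = (b.p : ℤ)`.
* `addr_sh`: `Addr (sh n y) J (r - n) ↔ Addr y J r`: substitute `k ↦ k - n`, `sh_apply`.
* `addr_mono`: `Addr y (J+1) r → Addr y J r`: `¬ P^J ∣ n - r` implies `¬ P^(J+1) ∣ n - r`.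
* `addr_sg`: `Addr (sg b h) J 0`: `sg b h n = τ n` for `n ≠ 0`; so `Addr (sh n (sg b h)) J (-n)`.
* `al_refl`: `addr_unique`. `al_symm`, `al_trans` (`exists_addr` for the middle sequence), `al_sh` (`addr_sh`).
* `al_int`: `Al e y y'`, `Al e' y y'` gives `P^J ∣ e - e'` for all `J ≥ 3`, so `e = e'` (`B02_lt_pow`).
* `al_zero`: for every `J` take an address `r` of `y` and `r'` of `y'` of level `max J 3 + 1`; `P ^ (max J 3 + 1) ∣ r' - r`,
  so `r' = r + (r' - r)` is also an address of `y` of level `max J 3` (`addr_mono`, `Addr.add`), hence of level `J`: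
  common addresses at all levels; `sing_of_addr`.
* `al_sing`: `Al e (sh n (sg b h)) y'` gives `Al 0 (sh n (sg b h)) (sh e y')`, `al_zero`.
* `al_window`: if `y`, `y'` agree on a window of radius `N ≥ 2 P^(J+3)` then `P^J ∣ r' - r`: `exists_gate y (J+2) 0` gives a
  gate `c ∈ [0, P^(J+3))` of `y`, which is also a gate of level `J+2` of `y'`; `gate_addr` twice.
* `al_ulim_level`: for `J ≥ 3`: `Agree N (u i) x`, `Agree N (v i) y` for a large `N` and the assumption at the level `J`,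
  with `al_window` and `exists_addr`. `al_ulim` is a special case.
* `rv_mem`: if `y n = τ (n - m)` for `|n| ≤ N`, `|m| > N`, then `!y (-n) = !τ (-n - m) = τ (n + m)`
  (`-n - m ≠ 0`), `anti`. `rv_addr`: the same computation. `rv_sg`: at `0` it is `!h`, elsewhere `anti`.
* `exists_regular`: let `n_K = Σ_{j ≤ K} P^(j^2)`, `y_K = sh (n_K) (sg b true)`; let `y` be the limit along an ultrafilter
  (`exists_ulim` with `F = Unit`). For every `J ≥ 3`, for almost all `K`: `-n_K` is an address of `y_K`, so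
  `P^J ∣ r + n_K` for every address `r` of `y` (`al_window`), and `n_K ≡ S_J := Σ_{j^2 < J} P^(j^2)` mod `P^J`. If `y = sh n (sg b h)`
  then `P^J ∣ n - S_J` for all `J ≥ 3`. For `J = i^2` (`i` large): `0 ≤ S_J ≤ 2 P^((i-1)^2) ≤ P^J / 2`; `|n| < P^J / 4`; so
  `n = S_J`, for all large `i`: contradiction, since `S_J` grows.
* `exists_regular_D`: `y0` regular, `x ∈ A.D`; `linear_rec` gives `t` with `sh t y0` agreeing with `x.1` on the window `ρ`;
  `(sh t y0, x.2) ∈ A.D` (`clopen`), and `sh t y0` is regular.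
-/

namespace Pool.Agent.helper98.NIG

variable {b : Base} {F : Type}

/-- the address of `y'` minus the address of `y` is `e` -/
def Al (e : ℤ) (y y' : b.Hull) : Prop :=
  ∀ J : ℕ, 3 ≤ J → ∀ r r' : ℤ, Addr y J r → Addr y' J r' → (b.p : ℤ) ^ J ∣ r' - r - e

/-- a singular sequence -/
def Sing (y : b.Hull) : Prop := ∃ (n : ℤ) (h : Bool), y = sh n (sg b h)

theorem addr_sh {y : b.Hull} {J : ℕ} {n r : ℤ} : Addr (sh n y) J (r - n) ↔ Addr y J r := by
  constructor
  · intro h k hk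
    have e1 : k - n - (r - n) = k - r := by ring
    have h1 := h (k - n) (by rw [e1]; exact hk)
    rw [e1, sh_apply, sub_add_cancel] at h1
    exact h1
  · intro h k hk
    have e1 : k - (r - n) = k + n - r := by ring
    rw [e1] at hk ⊢
    rw [sh_apply]
    exact h _ hk

theorem addr_mono {y : b.Hull} {J J' : ℕ} (hJ : J ≤ J') {r : ℤ} (h : Addr y J' r) :
    Addr y J r := by
  intro n hn
  exact h n fun h1 => hn ((pow_dvd_pow _ hJ).trans h1)

theorem addr_sg (n : ℤ) (h : Bool) (J : ℕ) : Addr (sh n (sg b h)) J (-n) := by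
  have h0 : Addr (sg b h) J 0 := by
    intro k hk
    have hk0 : k ≠ 0 := by
      rintro rfl
      exact hk (by simp)
    show skel b h k = _
    unfold skel
    rw [if_neg hk0, sub_zero]
  have h1 := (addr_sh (n := n)).2 h0
  rwa [zero_sub] at h1

theorem al_refl (y : b.Hull) : Al 0 y y := by
  intro J hJ r r' hr hr'
  rw [sub_zero]
  exact addr_unique hJ hr' hr

theorem al_symm {e : ℤ} {y y' : b.Hull} (h : Al e y y') : Al (-e) y' y := by
  intro J hJ r r' hr hr'
  have h1 := h J hJ r' r hr' hr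
  have e1 : r' - r - -e = -(r - r' - e) := by ring
  rw [e1]
  exact (dvd_neg).2 h1

theorem al_trans {e e' : ℤ} {y y' y'' : b.Hull} (h : Al e y y') (h' : Al e' y' y'') :
    Al (e + e') y y'' := by
  intro J hJ r r' hr hr'
  obtain ⟨r1, hr1⟩ := exists_addr y' J
  have h1 := dvd_add (h J hJ r r1 hr hr1) (h' J hJ r1 r' hr1 hr')
  have e1 : r1 - r - e + (r' - r1 - e') = r' - r - (e + e') := by ring
  rwa [e1] at h1

theorem al_sh {e n m : ℤ} {y y' : b.Hull} (h : Al e y y') : Al (e + n - m) (sh n y) (sh m y') := by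
  intro J hJ r r' hr hr'
  have e1 : r + n - n = r := by ring
  have e2 : r' + m - m = r' := by ring
  have h1 : Addr y J (r + n) := by
    rw [← addr_sh (n := n), e1]
    exact hr
  have h2 : Addr y' J (r' + m) := by
    rw [← addr_sh (n := m), e2]
    exact hr'
  have h3 := h J hJ _ _ h1 h2
  have e3 : r' + m - (r + n) - e = r' - r - (e + n - m) := by ring
  rwa [e3] at h3

theorem al_int {e e' : ℤ} {y y' : b.Hull} (h : Al e y y') (h' : Al e' y y') : e = e' := by
  by_contra hne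
  have hlt : |e - e'| < (b.p : ℤ) ^ ((e - e').natAbs + 3) := by
    rw [Int.abs_eq_natAbs]
    exact (B02_lt_pow b _).trans_le (B02_pow_le b (by omega))
  refine B02_not_dvd b (sub_ne_zero.2 hne) hlt ?_
  obtain ⟨r, hr⟩ := exists_addr y ((e - e').natAbs + 3)
  obtain ⟨r', hr'⟩ := exists_addr y' ((e - e').natAbs + 3)
  have h1 := dvd_sub (h' _ (by omega) r r' hr hr') (h _ (by omega) r r' hr hr')
  have e1 : r' - r - e' - (r' - r - e) = e - e' := by ring
  rwa [e1] at h1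

/-- equal addresses: equal or the two singular sequences -/
theorem al_zero {y y' : b.Hull} (h : Al 0 y y') :
    y = y' ∨ ∃ (n : ℤ) (h : Bool), y = sh n (sg b h) ∧ y' = sh n (sg b (!h)) := by
  by_cases hne : y = y'
  · exact Or.inl hne
  refine Or.inr (sing_of_addr hne fun J => ?_)
  obtain ⟨r, hr⟩ := exists_addr y (max J 3 + 1)
  obtain ⟨r', hr'⟩ := exists_addr y' (max J 3 + 1)
  have h1 := h (max J 3 + 1) (by omega) r r' hr hr'
  rw [sub_zero] at h1
  have h2 : Addr y (max J 3) (r + (r' - r)) := Addr.add (addr_mono (by omega) hr) h1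
  have e1 : r + (r' - r) = r' := by ring
  rw [e1] at h2
  exact ⟨r', addr_mono (by omega) h2, addr_mono (by omega) hr'⟩

theorem L18_shift {e : ℤ} {y y' : b.Hull} (h : Al e y y') : Al 0 y (sh e y') := by
  have h1 := al_sh (n := 0) (m := e) h
  rwa [sh_zero, add_zero, sub_self] at h1

theorem L18_unshift {e : ℤ} {y y' : b.Hull} (h : sh e y' = y) : y' = sh (-e) y := by
  rw [← h, sh_sh, neg_add_cancel, sh_zero]

theorem al_sing {e : ℤ} {y y' : b.Hull} (h : Al e y y') (hy : Sing y) : Sing y' := by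
  rcases al_zero (L18_shift h) with h1 | ⟨n, k, -, h2⟩
  · obtain ⟨n, k, h2⟩ := hy
    refine ⟨-e + n, k, ?_⟩
    rw [L18_unshift h1.symm, h2, sh_sh]
  · refine ⟨-e + n, !k, ?_⟩
    rw [L18_unshift h2, sh_sh]

/-- a regular sequence: aligned means on the same line -/
theorem al_regular {e : ℤ} {y y' : b.Hull} (h : Al e y y') (hy : ¬ Sing y) :
    y' = sh (-e) y := by
  rcases al_zero (L18_shift h) with h1 | ⟨n, k, h2, -⟩
  · exact L18_unshift h1.symm
  · exact absurd ⟨n, k, h2⟩ hy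

theorem al_window {J : ℕ} (hJ : 3 ≤ J) : ∃ N : ℕ, ∀ y y' : b.Hull,
    (∀ k : ℤ, |k| ≤ N → y.1 k = y'.1 k) → ∀ r r' : ℤ, Addr y J r → Addr y' J r' →
      (b.p : ℤ) ^ J ∣ r' - r := by
  refine ⟨2 * b.p ^ (J + 3), fun y y' hyy r r' hr hr' => ?_⟩
  obtain ⟨c, hc0, hc1, hc⟩ := exists_gate y (J + 2) 0
  have hc' : IsGate y' (J + 2) c := by
    intro k hk0 hk
    rw [← hc k hk0 hk]
    symm
    apply hyy
    have h1 := abs_add_le c k
    rw [abs_of_nonneg hc0] at h1
    have h2 : (b.p : ℤ) ^ (J + 2) ≤ (b.p : ℤ) ^ (J + 3) := B02_pow_le b (by omega)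
    have h3 : (b.p : ℤ) ^ (J + 2 + 1) = (b.p : ℤ) ^ (J + 3) := rfl
    push_cast
    linarith
  have h1 := dvd_sub (gate_addr hJ hc' hr') (gate_addr hJ hc hr)
  have e1 : r' - c - (r - c) = r' - r := by ring
  rwa [e1] at h1

theorem L18_ulim {ι : Type*} {U : Ultrafilter ι} {u v : ι → Pt b F} {x y : Pt b F} {e : ℤ}
    (hu : ∀ N : ℕ, ∀ᶠ i in (U : Filter ι), Agree N (u i) x)
    (hv : ∀ N : ℕ, ∀ᶠ i in (U : Filter ι), Agree N (v i) y)
    (h : ∀ J : ℕ, 3 ≤ J → ∀ᶠ i in (U : Filter ι), ∀ r r' : ℤ, Addr (u i).1 J r →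
      Addr (v i).1 J r' → (b.p : ℤ) ^ J ∣ r' - r - e) : Al e x.1 y.1 := by
  intro J hJ r r' hr hr'
  obtain ⟨N, hN⟩ := al_window (b := b) hJ
  obtain ⟨i, ⟨h1, h2⟩, h3⟩ := (((hu N).and (hv N)).and (h J hJ)).exists
  obtain ⟨r0, hr0⟩ := exists_addr (u i).1 J
  obtain ⟨r0', hr0'⟩ := exists_addr (v i).1 J
  have h4 := hN _ _ h1.2 r0 r hr0 hr
  have h5 := hN _ _ h2.2 r0' r' hr0' hr'
  have h6 := dvd_sub (dvd_add h5 (h3 r0 r0' hr0 hr0')) h4
  have e1 : r' - r0' + (r0' - r0 - e) - (r - r0) = r' - r - e := by ring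
  rwa [e1] at h6

theorem al_ulim {ι : Type*} {U : Ultrafilter ι} {u v : ι → Pt b F} {x y : Pt b F} {e : ℤ}
    (hu : ∀ N : ℕ, ∀ᶠ i in (U : Filter ι), Agree N (u i) x)
    (hv : ∀ N : ℕ, ∀ᶠ i in (U : Filter ι), Agree N (v i) y)
    (h : ∀ᶠ i in (U : Filter ι), Al e (u i).1 (v i).1) : Al e x.1 y.1 :=
  L18_ulim hu hv fun J hJ => h.mono fun _ hi => hi J hJ

/-- the same with the weaker assumption that the address difference is `e` at the level `J` for
almost all `i` (depending on `J`) -/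
theorem al_ulim_level {ι : Type*} {U : Ultrafilter ι} {u v : ι → Pt b F} {x y : Pt b F} {e : ℤ}
    (hu : ∀ N : ℕ, ∀ᶠ i in (U : Filter ι), Agree N (u i) x)
    (hv : ∀ N : ℕ, ∀ᶠ i in (U : Filter ι), Agree N (v i) y)
    (h : ∀ J : ℕ, 3 ≤ J → ∀ᶠ i in (U : Filter ι), ∀ r r' : ℤ, Addr (u i).1 J r →
      Addr (v i).1 J r' → (b.p : ℤ) ^ J ∣ r' - r - e) : Al e x.1 y.1 :=
  L18_ulim hu hv h

theorem L18_anti {m m' : ℤ} (h : m' = -m) (hm : m ≠ 0) : (!(b.τ m')) = b.τ m := by
  rw [h, b.anti m hm, Bool.not_not]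

theorem rv_mem (y : b.Hull) : (fun k : ℤ => !(y.1 (-k))) ∈ b.Hull := by
  intro N
  obtain ⟨m, hm, h⟩ := y.2 N
  refine ⟨-m, by rw [abs_neg]; exact hm, fun n hn => ?_⟩
  show (!(y.1 (-n))) = _
  rw [h (-n) (by rw [abs_neg]; exact hn)]
  apply L18_anti (by ring)
  intro h0
  have h1 : n = -m := by linarith
  rw [h1, abs_neg] at hn
  linarith

/-- the reversed sequence with exchanged types -/
def rv (y : b.Hull) : b.Hull := ⟨fun k => !(y.1 (-k)), rv_mem y⟩

theorem rv_rv (y : b.Hull) : rv (rv y) = y := by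
  apply Subtype.ext
  funext k
  show (!(!(y.1 (- -k)))) = y.1 k
  rw [Bool.not_not, neg_neg]

theorem rv_sh (n : ℤ) (y : b.Hull) : rv (sh n y) = sh (-n) (rv y) := by
  apply Subtype.ext
  funext k
  show (!(y.1 (-k + n))) = (!(y.1 (-(k + -n))))
  have e1 : -k + n = -(k + -n) := by ring
  rw [e1]

theorem rv_sg (h : Bool) : rv (sg b h) = sg b (!h) := by
  apply Subtype.ext
  funext k
  show (!(skel b h (-k))) = skel b (!h) k
  unfold skel
  by_cases hk : k = 0
  · subst hk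
    simp
  · rw [if_neg hk, if_neg (by omega)]
    exact L18_anti rfl hk

theorem rv_addr {y : b.Hull} {J : ℕ} {r : ℤ} (h : Addr y J r) : Addr (rv y) J (-r) := by
  intro n hn
  have e1 : -n - r = -(n - -r) := by ring
  have hn' : ¬ (b.p : ℤ) ^ J ∣ -n - r := by
    rw [e1, dvd_neg]
    exact hn
  show (!(y.1 (-n))) = _
  rw [h (-n) hn']
  apply L18_anti e1
  intro h0
  rw [h0] at hn
  exact hn (dvd_zero _)

theorem al_rv {e : ℤ} {y y' : b.Hull} (h : Al e y y') : Al (-e) (rv y) (rv y') := by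
  intro J hJ r r' hr hr'
  have h1 := rv_addr hr
  have h2 := rv_addr hr'
  rw [rv_rv] at h1 h2
  have h3 := h J hJ _ _ h1 h2
  have e1 : r' - r - -e = -(-r' - -r - e) := by ring
  rw [e1]
  exact (dvd_neg).2 h3

theorem L18_closed (b : Base) : IsClosed b.Hull := by
  rw [← isOpen_compl_iff, isOpen_pi_iff]
  intro y hy
  have hy' : ∃ N : ℕ, ∀ m : ℤ, (N : ℤ) < |m| → ∃ n : ℤ, |n| ≤ N ∧ y n ≠ b.τ (n - m) := by
    by_contra hcon
    push Not at hcon
    exact hy hcon
  obtain ⟨N, hN⟩ := hy'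
  refine ⟨Finset.Icc (-(N : ℤ)) N, fun k => {y k}, fun k _ => ⟨isOpen_discrete _, rfl⟩, ?_⟩
  intro z hz hzH
  obtain ⟨m, hm, h⟩ := hzH N
  obtain ⟨n, hn, hne⟩ := hN m hm
  apply hne
  rw [← h n hn]
  have h1 : z n = y n := hz n (Finset.mem_coe.2 (Finset.mem_Icc.2 (abs_le.1 hn)))
  exact h1.symm

theorem exists_regular (b : Base) : ∃ y : b.Hull, ¬ Sing y := by
  by_contra hcon
  push Not at hcon
  have : CompactSpace b.Hull := isCompact_iff_compactSpace.1 (L18_closed b).isCompact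
  have : Nonempty b.Hull := ⟨sg b true⟩
  obtain ⟨q, hq⟩ := nonempty_interior_of_iUnion_of_closed
    (f := fun q : ℤ × Bool => ({sh q.1 (sg b q.2)} : Set b.Hull)) (fun q => isClosed_singleton) (by
      ext y
      simp only [Set.mem_iUnion, Set.mem_singleton_iff, Set.mem_univ, iff_true]
      obtain ⟨n, h, hy⟩ := hcon y
      exact ⟨(n, h), hy⟩)
  set y0 : b.Hull := sh q.1 (sg b q.2) with hy0
  obtain ⟨y1, hy1⟩ := hq
  have h1 : y1 = y0 := Set.mem_singleton_iff.1 (interior_subset hy1)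
  rw [h1] at hy1
  have hopen : IsOpen (interior ({y0} : Set b.Hull)) := isOpen_interior
  rw [isOpen_induced_iff] at hopen
  obtain ⟨V, hV, hVe⟩ := hopen
  have hyV : y0.1 ∈ V := by
    have : y0 ∈ (Subtype.val ⁻¹' V : Set b.Hull) := by rw [hVe]; exact hy1
    exact this
  obtain ⟨I, w, hw, hsub⟩ := isOpen_pi_iff.1 hV y0.1 hyV
  obtain ⟨N, hN⟩ : ∃ N : ℕ, ∀ k ∈ I, |k| ≤ (N : ℤ) := by
    refine ⟨I.sup Int.natAbs, fun k hk => ?_⟩
    rw [Int.abs_eq_natAbs]
    exact_mod_cast Finset.le_sup (f := Int.natAbs) hk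
  obtain ⟨C, -, hC⟩ := linear_rec b
  obtain ⟨t, ht1, -, ht⟩ := hC y0 y0 N 1
  have h2 : (sh t y0).1 ∈ V := by
    apply hsub
    intro k hk
    have h3 : (sh t y0).1 k = y0.1 k := by
      rw [sh_apply]
      exact ht k (hN k hk)
    rw [h3]
    exact (hw k hk).2
  have h3 : sh t y0 ∈ (Subtype.val ⁻¹' V : Set b.Hull) := h2
  rw [hVe] at h3
  have h4 : sh t y0 = y0 := Set.mem_singleton_iff.1 (interior_subset h3)
  have h5 : sh t y0 = sh 0 y0 := by rw [h4, sh_zero]
  have h6 := sh_inj h5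
  omega

theorem Sys.exists_regular_D (A : Sys b F) : ∃ x ∈ A.D, ¬ Sing x.1 := by
  obtain ⟨y0, hy0⟩ := exists_regular b
  obtain ⟨x, hx⟩ := A.nonempty
  obtain ⟨C, -, hC⟩ := linear_rec b
  obtain ⟨t, -, -, ht⟩ := hC y0 x.1 A.ρ 0
  refine ⟨(sh t y0, x.2), ?_, ?_⟩
  · have hag : Agree A.ρ x (sh t y0, x.2) := by
      refine ⟨rfl, fun k hk => ?_⟩
      show x.1.1 k = (sh t y0).1 k
      rw [sh_apply]
      exact (ht k hk).symm
    exact (A.clopen _ _ hag).1 hx
  · rintro ⟨n, h, hs⟩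
    apply hy0
    refine ⟨-t + n, h, ?_⟩
    have h1 : y0 = sh (-t) (sh t y0) := by rw [sh_sh, neg_add_cancel, sh_zero]
    have h2 : sh t y0 = sh n (sg b h) := hs
    rw [h1, h2, sh_sh]

end Pool.Agent.helper98.NIG
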