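import Pool.Agent.helper2.NIG.L17
import Pool.Agent.helper2.NIG.L18

/-!
# NIG-L19: limits of pairs at a bounded distance are equal; twins

`tw h n φ`: the point at position `n` (relative to the hole) and floor `φ` of the singular line with
type `h`. For `n < 0` it lies on the left of the hole, for `n > 0` on the right.

PROOFS.
* `eq_of_ulim_bounded`: let `B` be the bound. For `g ∈ G`: `disp g (u i) = disp g x` and
  `disp g (v i) = disp g y` for almost all `i` (windows agree), so `|disp g y - disp g x| ≤ B`. Then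
  `pos (g x) (g y) = pos x y + disp g y - disp g x` is bounded, and `A.Reduced` gives `x = y`.
* `eventually_twin`: suppose `Al (e i) (u i).1 (v i).1` with `|e i| ≤ B`. Then `e i = e` is constant along `U` and
  `Al e x.1 y.1` (`al_ulim`). If `x.1` is regular, `y.1 = sh (-e) x.1` (`al_regular`), so `x = y` by
  `eq_of_ulim_bounded`, so `e = 0` (`al_int`, `al_refl`), and `(v i).2 = y.2 = x.2 = (u i).2` for almost all `i`.
* `agree_tw`: the sequences `sg b h` and `sg b h'` differ at most at `0`; `tw h n φ` and `tw h' n φ` agree on the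
  window of radius `|n| - 1`.
* `move_twins`: let `n ≤ -(R + ρ + 1)`, `x = tw h n φ ∈ D`, `x' = tw h' n φ ∈ D`, `M : ℕ`. `SYN` gives `g ∈ G` with
  `-n - ... `: a point with `n + disp g x ≤ -M` and `disp g x ≤ 0`; `BCon` gives a path in `[disp g x - R, R]`; all windows
  of radius `ρ` around points of the path are on the left of the hole, so `reach_congr_Icc` transports the path to
  `x'`: `disp g x' = disp g x`, same floor. Conclusion: `g x = tw h n' φ'`, `g x' = tw h' n' φ'`, `n' ≤ -M`.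
  The right side: the same with signs exchanged.
* `tw_mem`: if `|n| > ρ` then `tw h n φ ∈ D ↔ tw h' n φ ∈ D` (`clopen`).
* `approach`: for `x, p ∈ D` there are `g i ∈ G` (`i : ℕ`) with `g i x → p` (minimality).
-/

namespace Pool.Agent.helper98.NIG

variable {b : Base} {F : Type}

/-- the point at position `n`, floor `φ` of the singular line of type `h` -/
def tw (b : Base) {F : Type} (h : Bool) (n : ℤ) (φ : F) : Pt b F := (sh n (sg b h), φ)

theorem agree_tw (h h' : Bool) (n : ℤ) (φ : F) {N : ℕ} (hN : (N : ℤ) < |n|) :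
    Agree N (tw b h n φ) (tw b h' n φ) := by
  refine ⟨rfl, fun k hk => ?_⟩
  change skel b h (k + n) = skel b h' (k + n)
  have h0 : k + n ≠ 0 := by
    intro h0
    have h1 : n = -k := by linarith
    rw [h1, abs_neg] at hN
    linarith
  simp only [skel, if_neg h0]

theorem tw_inj {h h' : Bool} {n n' : ℤ} {φ φ' : F} (he : tw b h n φ = tw b h' n' φ') :
    h = h' ∧ n = n' ∧ φ = φ' := by
  have h1 : sh n (sg b h) = sh n' (sg b h') := congrArg Prod.fst he
  have h2 : φ = φ' := congrArg Prod.snd he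
  have h3 : n = n' := by
    by_contra hne
    have hne' : n' - n ≠ 0 := sub_ne_zero.2 (Ne.symm hne)
    have hJ : 3 ≤ 3 + (n' - n).natAbs := by omega
    have a1 : Addr (sh n (sg b h)) (3 + (n' - n).natAbs) (-n) := addr_sg n h _
    have a2 : Addr (sh n (sg b h)) (3 + (n' - n).natAbs) (-n') := by
      rw [h1]
      exact addr_sg n' h' _
    have a3 := addr_unique hJ a1 a2
    have a4 : -n - -n' = n' - n := by ring
    rw [a4] at a3
    refine B02_not_dvd b hne' ?_ a3
    have a5 := B02_lt_pow b (n' - n).natAbs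
    have a6 := B02_pow_le b (show (n' - n).natAbs ≤ 3 + (n' - n).natAbs by omega)
    rw [Int.abs_eq_natAbs]
    linarith
  refine ⟨?_, h3, h2⟩
  subst h3
  have h4 : (sh n (sg b h)).1 (-n) = (sh n (sg b h')).1 (-n) := by rw [h1]
  rw [sh_apply, sh_apply] at h4
  change skel b h (-n + n) = skel b h' (-n + n) at h4
  simpa [skel] using h4

theorem map_tw {g : Equiv.Perm (Pt b F)} (hg : g ∈ PW b F) (h : Bool) (n : ℤ) (φ : F) :
    g (tw b h n φ) = tw b h (n + disp g (tw b h n φ)) (g (tw b h n φ)).2 := by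
  have h1 := eq_of_pos (sameLine_of_mem_PW hg (tw b h n φ))
  refine h1.trans ?_
  change (sh (disp g (tw b h n φ)) (sh n (sg b h)), (g (tw b h n φ)).2) = _
  rw [sh_sh, add_comm]
  rfl

namespace Sys

theorem tw_mem (A : Sys b F) {h h' : Bool} {n : ℤ} {φ : F} (hn : (A.ρ : ℤ) < |n|)
    (hx : tw b h n φ ∈ A.D) : tw b h' n φ ∈ A.D :=
  (A.clopen _ _ (agree_tw h h' n φ hn)).1 hx

theorem eq_of_ulim_bounded {A : Sys b F} (hA : A.Reduced) {ι : Type*} {U : Ultrafilter ι}
    {u v : ι → Pt b F} {x y : Pt b F} (hx : x ∈ A.D) (hy : y ∈ A.D)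
    (hu : ∀ N : ℕ, ∀ᶠ i in (U : Filter ι), Agree N (u i) x)
    (hv : ∀ N : ℕ, ∀ᶠ i in (U : Filter ι), Agree N (v i) y) (hxy : SameLine x y) (B : ℕ)
    (hB : ∀ g ∈ A.G, ∀ᶠ i in (U : Filter ι), |disp g (v i) - disp g (u i)| ≤ B) : x = y := by
  refine hA x hx y hy hxy ⟨|pos x y| + B, fun g hg => ?_⟩
  have hgP := A.G_le_PW hg
  obtain ⟨ρ', hρ', -⟩ := hgP
  obtain ⟨i, ⟨hi, hi'⟩, hi''⟩ := (((hu ρ').and (hv ρ')).and (hB g hg)).exists
  rw [disp_eq_of_agree hρ' hi, disp_eq_of_agree hρ' hi'] at hi''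
  have hgP := A.G_le_PW hg
  have l1 : SameLine x (g x) := sameLine_of_mem_PW hgP x
  have l2 : SameLine y (g y) := sameLine_of_mem_PW hgP y
  have e1 : pos (g x) (g y) = pos (g x) x + (pos x y + pos y (g y)) := by
    rw [← pos_add hxy l2]
    exact pos_add (sameLine_symm l1) (sameLine_trans hxy l2)
  have e2 : pos (g x) x = - disp g x := pos_neg l1
  have e3 : pos y (g y) = disp g y := rfl
  rw [e1, e2, e3]
  have e4 : -disp g x + (pos x y + disp g y) = pos x y + (disp g y - disp g x) := by ring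
  rw [e4]
  exact (abs_add_le _ _).trans (by linarith)

theorem eventually_twin {A : Sys b F} (hA : A.Reduced) {ι : Type*} {U : Ultrafilter ι}
    {u v : ι → Pt b F} {x y : Pt b F} (hx : x ∈ A.D) (hy : y ∈ A.D) (hreg : ¬ Sing x.1)
    (hu : ∀ N : ℕ, ∀ᶠ i in (U : Filter ι), Agree N (u i) x)
    (hv : ∀ N : ℕ, ∀ᶠ i in (U : Filter ι), Agree N (v i) y) (B : ℕ) {e : ι → ℤ}
    (he : ∀ i, |e i| ≤ B) (hal : ∀ i, Al (e i) (u i).1 (v i).1)
    (hB : ∀ g ∈ A.G, ∀ᶠ i in (U : Filter ι), |disp g (v i) - disp g (u i)| ≤ B) :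
    ∀ᶠ i in (U : Filter ι), Al 0 (u i).1 (v i).1 ∧ (u i).2 = (v i).2 := by
  obtain ⟨e0, he0⟩ : ∃ e0 : ℤ, ∀ᶠ i in (U : Filter ι), e i = e0 := by
    by_contra hcon
    push Not at hcon
    have h2 : ∀ᶠ i in (U : Filter ι), ∀ c ∈ Finset.Icc (-(B : ℤ)) B, e i ≠ c :=
      (Filter.eventually_all_finset _).2 fun c _ => hcon c
    obtain ⟨i, hi⟩ := h2.exists
    exact hi (e i) (Finset.mem_Icc.2 (abs_le.1 (he i))) rfl
  have h1 : Al e0 x.1 y.1 := al_ulim hu hv (he0.mono fun i hi => hi ▸ hal i)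
  have h2 : y.1 = sh (-e0) x.1 := al_regular h1 hreg
  have h3 : x = y := eq_of_ulim_bounded hA hx hy hu hv ⟨-e0, h2⟩ B hB
  subst h3
  have h4 : e0 = 0 := al_int h1 (al_refl _)
  subst h4
  filter_upwards [he0, hu 0, hv 0] with i h5 h6 h7
  refine ⟨?_, h6.1.trans h7.1.symm⟩
  have h8 := hal i
  rwa [h5] at h8

/-- twins move together away from the hole, `δ = -1`: to the left, `δ = 1`: to the right -/
theorem move_twins {A : Sys b F} {R w : ℕ} (hR : A.BCon R) (hw : A.SYN w) {δ : ℤ}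
    (hδ : δ = 1 ∨ δ = -1) {h h' : Bool} {n : ℤ} {φ : F} (hn : (R : ℤ) + A.ρ + 1 ≤ δ * n)
    (hx : tw b h n φ ∈ A.D) (M : ℕ) : ∃ g ∈ A.G, ∃ (n' : ℤ) (φ' : F), (M : ℤ) ≤ δ * n' ∧
      g (tw b h n φ) = tw b h n' φ' ∧ g (tw b h' n φ) = tw b h' n' φ' := by
  obtain ⟨g, hg, hd⟩ : ∃ g ∈ A.G, (M : ℤ) + |n| ≤ δ * disp g (tw b h n φ) := by
    rcases hδ with rfl | rfl
    · obtain ⟨g, hg, h1, -⟩ := hw _ hx (M + |n|)
      exact ⟨g, hg, by linarith⟩
    · obtain ⟨g, hg, -, h2⟩ := hw _ hx (-(M + |n|) - w)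
      exact ⟨g, hg, by linarith⟩
  obtain ⟨g', hg', e⟩ := hR _ hx g hg
  have e1 : disp g' (tw b h n φ) = disp g (tw b h n φ) := L02_disp_congr e
  have hM : (0 : ℤ) ≤ M := Int.natCast_nonneg _
  have hR0 : (0 : ℤ) ≤ R := Int.natCast_nonneg _
  have hn0 : 0 ≤ |n| := abs_nonneg n
  have h0 : (0 : ℤ) ∈ Set.Icc (min 0 (disp g (tw b h n φ)) - (R : ℤ))
      (max 0 (disp g (tw b h n φ)) + R) := by
    constructor
    · have := min_le_left 0 (disp g (tw b h n φ))
      linarith
    · have := le_max_left 0 (disp g (tw b h n φ))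
      linarith
  have key := reach_congr_Icc (x := tw b h n φ) (x' := tw b h' n φ) h0 rfl
    (fun k hk j hj => ?_) hg'
  · obtain ⟨-, k2, k3⟩ := key
    have hgG := hg'.mem_G
    have hgP := A.G_le_PW hgG
    refine ⟨g', hgG, n + disp g' (tw b h n φ), (g' (tw b h n φ)).2, ?_, map_tw hgP h n φ, ?_⟩
    · rw [e1, mul_add]
      have h5 : -|n| ≤ δ * n := by
        rcases hδ with rfl | rfl
        · linarith [neg_abs_le n]
        · linarith [le_abs_self n]
      linarith
    · have h6 := map_tw hgP h' n φ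
      rw [k2, k3] at h6
      exact h6
  · change skel b h (k + j + n) = skel b h' (k + j + n)
    have h7 : k + j + n ≠ 0 := by
      obtain ⟨k1, k2⟩ := hk
      obtain ⟨j1, j2⟩ := abs_le.1 hj
      rcases hδ with rfl | rfl
      · have h8 : min 0 (disp g (tw b h n φ)) = 0 := min_eq_left (by linarith)
        rw [h8] at k1
        intro h9
        linarith
      · have h8 : max 0 (disp g (tw b h n φ)) = 0 := max_eq_left (by linarith)
        rw [h8] at k2
        intro h9
        linarith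
    simp only [skel, if_neg h7]

theorem approach {A : Sys b F} {x p : Pt b F} (hx : x ∈ A.D) (hp : p ∈ A.D) :
    ∃ g : ℕ → Equiv.Perm (Pt b F), (∀ i, g i ∈ A.G) ∧ ∀ N i : ℕ, N ≤ i → Agree N (g i x) p := by
  choose g hg hg' using A.minimal x hx p hp
  exact ⟨g, hg, fun N i hi => (hg' i).mono hi⟩

end Sys

end Pool.Agent.helper98.NIG
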