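import Pool.Agent.helper2.NIG.L19

/-!
# NIG-L20: half runs and locks along half runs

Put `k = K (Q + w1 + 1)`. `Along h M g`: `g = v * h m` with `m ≥ M`, `v ∈ W k`.

PROOFS.
* `W_reach`: induction on `n` with `Reach.trans`/`Reach.step`, `abs_disp_W`.
* `Run.hrun`: `τ = 1`: clear. `τ = -1`: `h (-(m+1)) = u⁻¹ * h (-m)` where `h (-m) = u * h (-m-1)`; `W_inv`.
* `visit`: let `m0 ≥ M` with `m0 Q ≥ M Q + Cs (N + 1) + 2 w1 + 2 Q + 1`. `SLR` at `x' = h m0 x` and `p`: `u ∈ G` with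
  `|disp u x'| ≤ Cs (N + 1)`, `Agree N (u x') p`. Let `P = disp (u * h m0) x`, so `τ P ≥ M Q + w1 + Q + 1`, let
  `m = (τ P) / Q` (floor), `m ≥ M`, `|P - τ m Q| ≤ Q`. `CONN` at `h m x` for the element
  `u * h m0 * (h m)⁻¹` of displacement at most `Q + w1` in absolute value gives `v ∈ W k` with
  `v (h m x) = u (h m0 x)`. So `g = v * h m` works.
* `hlock_step`: let `c = Q + w1 + ρ k + Q`, `n0` = (number of `crun_follow` for `Q`, `w1`, `c`) + `N0` + `2 (K (c + w1 + 1))`.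
  `CRun K Q w1 τ (Ici 0) x h` from `HRun`. `J = {P | -c ≤ τ * P}`: for every `P ∈ J` there is `m ≥ 0` with
  `|P - τ m Q| ≤ c` (`m = max 0 ((τ P) / Q)`). Let `l ∈ G`, `l ∈ W a`, and let `M` with `M Q ≥ ρ (a + k) + w1 + Q + c`.
  Let `g = v * h m` be `Along h M`. Then `Reach x J (l * g)`: `h m` is reached in `J` by induction on `m` (each step is a
  word of length `k`: `W_reach`, positions at least `-w1 - ρ k` in the direction `τ`), then `v`, then `l`: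
  positions `τ P ≥ m Q - w1 - ρ (k + a) ≥ 0`. Let `P = disp (l * g) x`, `m' = (τ P) / Q ≥ 0`; `CONN` at `h m' x`: `v' ∈ W k` with
  `l (g x) = v' (h m' x)`. `crun_follow`: `l (g y) = v' (h m' y)`. Hence `E N0 (l (g x)) (l (g y))` (`E_map`, `n0 ≥ N0 + 2 k`) and
  `disp (l * g) y = disp v' (h m' y) + disp (h m') y` (from `L02_disp_congr`, `disp_mul`), the same for `x`; so
  `|disp (l * g) y - σ disp (l * g) x| ≤ B1 + 2 ρ k`.
-/

namespace Pool.Agent.helper98.NIG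

variable {b : Base} {F : Type}

namespace Sys

/-- a word of length `n` is reached within the distance `ρ n` -/
theorem W_reach {A : Sys b F} {n : ℕ} {g : Equiv.Perm (Pt b F)} (hg : g ∈ A.W n) (x : Pt b F) :
    A.Reach x (Set.Icc (-((A.ρ * n : ℕ) : ℤ)) ((A.ρ * n : ℕ) : ℤ)) g := by
  induction n generalizing g with
  | zero =>
    have h1 : g = 1 := hg
    rw [h1]
    exact Reach.one
  | succ n ih =>
    have hg' := hg
    obtain ⟨s, hs, k, hk, rfl⟩ := hg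
    have h1 : ((A.ρ * n : ℕ) : ℤ) ≤ ((A.ρ * (n + 1) : ℕ) : ℤ) := by
      exact_mod_cast Nat.mul_le_mul_left _ (Nat.le_succ n)
    refine Reach.step ((ih hk).mono (Set.Icc_subset_Icc (neg_le_neg h1) h1)) hs ?_
    have h4 := abs_le.1 (A.abs_disp_W hg' x)
    push_cast at h4 ⊢
    exact ⟨h4.1, h4.2⟩

/-- `g = v * h m`, `v` a short word, `m ≥ M` -/
def Along (A : Sys b F) (K Q w1 : ℕ) (h : ℤ → Equiv.Perm (Pt b F)) (M : ℕ)
    (g : Equiv.Perm (Pt b F)) : Prop :=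
  ∃ m : ℤ, (M : ℤ) ≤ m ∧ ∃ v ∈ A.W (K * (Q + w1 + 1)), g = v * h m

theorem Along.mono {A : Sys b F} {K Q w1 : ℕ} {h : ℤ → Equiv.Perm (Pt b F)} {M M' : ℕ}
    (hM : M ≤ M') {g : Equiv.Perm (Pt b F)} (H : A.Along K Q w1 h M' g) :
    A.Along K Q w1 h M g := by
  obtain ⟨m, hm, v, hv, e⟩ := H
  exact ⟨m, le_trans (by exact_mod_cast hM) hm, v, hv, e⟩

/-- half run: positions `τ m Q` up to `w1`, for `m ≥ 0` -/
structure HRun (A : Sys b F) (K Q w1 : ℕ) (τ : ℤ) (x : Pt b F)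
    (h : ℤ → Equiv.Perm (Pt b F)) : Prop where
  zero : h 0 = 1
  mem : ∀ m : ℤ, 0 ≤ m → h m ∈ A.G
  near : ∀ m : ℤ, 0 ≤ m → |disp (h m) x - τ * m * Q| ≤ w1
  step : ∀ m : ℤ, 0 ≤ m → ∃ u ∈ A.W (K * (Q + w1 + 1)), h (m + 1) = u * h m

theorem Run.hrun {A : Sys b F} {K Q w1 : ℕ} {x : Pt b F} {h : ℤ → Equiv.Perm (Pt b F)}
    (H : A.Run K Q w1 x h) {τ : ℤ} (hτ : τ = 1 ∨ τ = -1) :
    A.HRun K Q w1 τ x (fun m => h (τ * m)) := by
  refine ⟨?_, fun m _ => H.mem _, fun m _ => ?_, fun m _ => ?_⟩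
  · rw [mul_zero]
    exact H.zero
  · have h1 := H.low (τ * m)
    have h2 := H.up (τ * m)
    rw [abs_le]
    constructor <;> linarith
  · rcases hτ with rfl | rfl
    · obtain ⟨u, hu, e⟩ := H.step m
      refine ⟨u, hu, ?_⟩
      rw [one_mul, one_mul]
      exact e
    · obtain ⟨u, hu, e⟩ := H.step (-1 * (m + 1))
      refine ⟨u⁻¹, A.W_inv hu, ?_⟩
      have e1 : -1 * (m + 1) + 1 = -1 * m := by ring
      rw [e1] at e
      rw [e, inv_mul_cancel_left]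

theorem HRun.along_mem {A : Sys b F} {K Q w1 : ℕ} {τ : ℤ} {x : Pt b F}
    {h : ℤ → Equiv.Perm (Pt b F)} (H : A.HRun K Q w1 τ x h) {M : ℕ}
    {g : Equiv.Perm (Pt b F)} (hg : A.Along K Q w1 h M g) : g ∈ A.G := by
  obtain ⟨m, hm, v, hv, rfl⟩ := hg
  exact A.G.mul_mem (A.W_le_G hv) (H.mem m (le_trans (Int.natCast_nonneg _) hm))

private theorem abs_sign {τ : ℤ} (hτ : τ = 1 ∨ τ = -1) (a : ℤ) : |τ * a| = |a| := by
  rcases hτ with rfl | rfl
  · rw [one_mul]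
  · rw [neg_one_mul, abs_neg]

private theorem sign_sq {τ : ℤ} (hτ : τ = 1 ∨ τ = -1) : τ * τ = 1 := by
  rcases hτ with rfl | rfl <;> norm_num

/-- the position along a half run in the direction `τ` -/
private theorem HRun.low {A : Sys b F} {K Q w1 : ℕ} {τ : ℤ} (hτ : τ = 1 ∨ τ = -1) {x : Pt b F}
    {h : ℤ → Equiv.Perm (Pt b F)} (H : A.HRun K Q w1 τ x h) {m : ℤ} (hm : 0 ≤ m) :
    m * Q - w1 ≤ τ * disp (h m) x := by
  have h1 := H.near m hm
  rw [← abs_sign hτ] at h1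
  have h2 : τ * (disp (h m) x - τ * m * Q) = τ * disp (h m) x - (τ * τ) * m * Q := by ring
  rw [h2, sign_sq hτ, one_mul] at h1
  linarith [(abs_le.1 h1).1]

/-- a point at the position `P` is joined to a point of the half run by a short word -/
private theorem HRun.join {A : Sys b F} {K Q w1 : ℕ} (hK : A.CONN K) (hQ : 0 < Q) {τ : ℤ}
    (hτ : τ = 1 ∨ τ = -1) {x : Pt b F} (hx : x ∈ A.D)
    {h : ℤ → Equiv.Perm (Pt b F)} (H : A.HRun K Q w1 τ x h) {M : ℕ} {g : Equiv.Perm (Pt b F)}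
    (hg : g ∈ A.G) (hd : (M : ℤ) * Q ≤ τ * disp g x) :
    ∃ m : ℤ, (M : ℤ) ≤ m ∧ ∃ v ∈ A.W (K * (Q + w1 + 1)), v (h m x) = g x := by
  have hQ' : (0 : ℤ) < Q := by exact_mod_cast hQ
  refine ⟨τ * disp g x / Q, Int.le_ediv_of_mul_le hQ' hd, ?_⟩
  set m : ℤ := τ * disp g x / Q with hm
  have hmM : (M : ℤ) ≤ m := Int.le_ediv_of_mul_le hQ' hd
  have hm0 : 0 ≤ m := le_trans (Int.natCast_nonneg _) hmM
  have h1 : m * Q ≤ τ * disp g x := Int.ediv_mul_le _ hQ'.ne'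
  have h2 : τ * disp g x < (m + 1) * Q := Int.lt_ediv_add_one_mul_self _ hQ'
  have hmG := H.mem m hm0
  have hmP := A.G_le_PW hmG
  have hgP := A.G_le_PW hg
  have hxm : h m x ∈ A.D := A.map_mem hmG hx
  have he : g * (h m)⁻¹ ∈ A.G := A.G.mul_mem hg (A.G.inv_mem hmG)
  obtain ⟨v, hv, hv'⟩ := hK _ hxm _ he
  have e1 : (g * (h m)⁻¹) (h m x) = g x := by
    rw [← Equiv.Perm.mul_apply, inv_mul_cancel_right]
  have e2 : disp (g * (h m)⁻¹) (h m x) = disp g x - disp (h m) x := by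
    have h3 := disp_mul (A.G_le_PW he) hmP x
    rw [inv_mul_cancel_right] at h3
    linarith
  rw [e1] at hv'
  refine ⟨v, A.W_mono (Nat.mul_le_mul_left _ ?_) hv, hv'⟩
  rw [e2]
  have h4 : |disp g x - disp (h m) x| ≤ Q + w1 := by
    have h5 := H.near m hm0
    have h6 : |disp g x - τ * m * Q| ≤ Q := by
      rw [← abs_sign hτ]
      have h7 : τ * (disp g x - τ * m * Q) = τ * disp g x - (τ * τ) * m * Q := by ring
      rw [h7, sign_sq hτ, one_mul, abs_le]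
      constructor <;> linarith
    have h8 : disp g x - disp (h m) x =
        (disp g x - τ * m * Q) - (disp (h m) x - τ * m * Q) := by ring
    rw [h8]
    exact (abs_sub _ _).trans (by linarith)
  have h9 : ((disp g x - disp (h m) x).natAbs : ℤ) = |disp g x - disp (h m) x| :=
    Int.natCast_natAbs _
  omega

/-- elements along the run are far away in the direction `τ` -/
theorem HRun.along_far {A : Sys b F} {K Q w1 : ℕ} {τ : ℤ} (hτ : τ = 1 ∨ τ = -1) {x : Pt b F}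
    {h : ℤ → Equiv.Perm (Pt b F)} (H : A.HRun K Q w1 τ x h) {M : ℕ}
    {g : Equiv.Perm (Pt b F)} (hg : A.Along K Q w1 h M g) :
    (M : ℤ) * Q - w1 - A.ρ * (K * (Q + w1 + 1)) ≤ τ * disp g x := by
  obtain ⟨m, hm, v, hv, rfl⟩ := hg
  have hm0 : 0 ≤ m := le_trans (Int.natCast_nonneg _) hm
  have h1 := H.low hτ hm0
  have h2 := A.abs_disp_W hv (h m x)
  rw [← abs_sign hτ] at h2
  push_cast at h2
  have h3 := (abs_le.1 h2).1
  rw [disp_mul (A.G_le_PW (A.W_le_G hv)) (A.G_le_PW (H.mem m hm0)), mul_add]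
  have h4 : (M : ℤ) * Q ≤ m * Q := mul_le_mul_of_nonneg_right hm (Int.natCast_nonneg _)
  linarith

/-- every point is approximated by points along the half run -/
theorem visit {A : Sys b F} {Cs K : ℕ} (hC : A.SLR Cs) (hK : A.CONN K) {Q w1 : ℕ} (hQ : 0 < Q)
    {τ : ℤ} (hτ : τ = 1 ∨ τ = -1) {x : Pt b F} (hx : x ∈ A.D) {h : ℤ → Equiv.Perm (Pt b F)}
    (H : A.HRun K Q w1 τ x h) {p : Pt b F} (hp : p ∈ A.D) (N M : ℕ) :
    ∃ g, A.Along K Q w1 h M g ∧ Agree N (g x) p := by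
  have hQ' : (1 : ℤ) ≤ Q := by exact_mod_cast hQ
  obtain ⟨m0, hm0⟩ : ∃ m0 : ℕ, m0 = M + (Cs * (N + 1) + w1) := ⟨_, rfl⟩
  have h0 : (0 : ℤ) ≤ m0 := Int.natCast_nonneg _
  have hmG := H.mem m0 h0
  obtain ⟨u, hu, hu1, hu2⟩ := hC (h m0 x) (A.map_mem hmG hx) p hp N
  have hguG : u * h m0 ∈ A.G := A.G.mul_mem hu hmG
  have h1 := H.low hτ h0
  have h2 : (M : ℤ) * Q ≤ τ * disp (u * h m0) x := by
    rw [disp_mul (A.G_le_PW hu) (A.G_le_PW hmG), mul_add]
    rw [← abs_sign hτ] at hu1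
    have h3 := (abs_le.1 hu1).1
    have h4 : ((m0 : ℕ) : ℤ) * Q = M * Q + (Cs * (N + 1) + w1) * Q := by
      rw [hm0]
      push_cast
      ring
    rw [h4] at h1
    have h5 : (Cs * (N + 1) + w1 : ℤ) ≤ (Cs * (N + 1) + w1) * Q := by
      have h6 : (0 : ℤ) ≤ Cs * (N + 1) + w1 := by positivity
      nlinarith
    linarith
  obtain ⟨m, hm, v, hv, hv'⟩ := H.join hK hQ hτ hx hguG h2
  refine ⟨v * h m, ⟨m, hm, v, hv, rfl⟩, ?_⟩
  have h3 : (v * h m) x = u (h m0 x) := hv'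
  rw [h3]
  exact hu2

/-- a lock along a half run: the elements far along the run are locked and have the drift `σ` -/
theorem hlock_step {A : Sys b F} {K : ℕ} (hK : A.CONN K) (Q w1 : ℕ) (hQ : 0 < Q) (N0 : ℕ) :
    ∃ n0 : ℕ, ∀ τ : ℤ, (τ = 1 ∨ τ = -1) → ∀ x ∈ A.D, ∀ y ∈ A.D,
      ∀ h : ℤ → Equiv.Perm (Pt b F), A.HRun K Q w1 τ x h →
      (∀ m : ℤ, 0 ≤ m → A.E n0 (h m x) (h m y)) → ∀ (σ : ℤ) (B1 : ℕ),
      (σ = 1 ∨ σ = -1) → (∀ m : ℤ, 0 ≤ m → |disp (h m) y - σ * disp (h m) x| ≤ B1) →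
      ∀ l ∈ A.G, ∃ M : ℕ, ∀ g, A.Along K Q w1 h M g → A.E N0 (l (g x)) (l (g y)) ∧
        |disp (l * g) y - σ * disp (l * g) x| ≤ B1 + 2 * A.ρ * (K * (Q + w1 + 1)) := by
  have hQ' : (1 : ℤ) ≤ Q := by exact_mod_cast hQ
  obtain ⟨k, hk⟩ : ∃ k : ℕ, k = K * (Q + w1 + 1) := ⟨_, rfl⟩
  obtain ⟨c, hc⟩ : ∃ c : ℕ, c = Q + w1 + A.ρ * k + Q := ⟨_, rfl⟩
  have hcZ : (c : ℤ) = Q + w1 + A.ρ * k + Q := by
    rw [hc]
    push_cast
    ring
  have hρk : (0 : ℤ) ≤ A.ρ * k := by positivity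
  have hw0 : (0 : ℤ) ≤ w1 := Int.natCast_nonneg _
  obtain ⟨n1, hn1⟩ := crun_follow hK Q w1 c hQ
  refine ⟨n1 + N0 + 2 * (K * (c + w1 + 1)), ?_⟩
  intro τ hτ x hx y hy h H hE σ B1 hσ hB1 l hl
  have hττ := sign_sq hτ
  -- the coarse run
  have HC : A.CRun K Q w1 τ (Set.Ici 0) x h :=
    ⟨H.zero, Set.mem_Ici.2 le_rfl, Set.ordConnected_Ici, fun m hm => H.mem m hm,
      fun m hm => H.near m hm, fun m hm _ => H.step m hm⟩
  have hJ0 : (0 : ℤ) ∈ {P : ℤ | -(c : ℤ) ≤ τ * P} := by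
    change -(c : ℤ) ≤ τ * 0
    rw [mul_zero]
    linarith [Int.natCast_nonneg c]
  have hcov : ∀ P ∈ {P : ℤ | -(c : ℤ) ≤ τ * P}, ∃ m ∈ Set.Ici (0 : ℤ), |P - τ * m * Q| ≤ c := by
    intro P hP
    have hP' : -(c : ℤ) ≤ τ * P := hP
    by_cases h0 : 0 ≤ τ * P
    · refine ⟨τ * P / Q, Int.ediv_nonneg h0 (by linarith), ?_⟩
      have h1 : τ * P / Q * Q ≤ τ * P := Int.ediv_mul_le _ (by linarith)
      have h2 : τ * P < (τ * P / Q + 1) * Q := Int.lt_ediv_add_one_mul_self _ (by linarith)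
      rw [← abs_sign hτ]
      have h7 : τ * (P - τ * (τ * P / Q) * Q) = τ * P - (τ * τ) * (τ * P / Q) * Q := by ring
      rw [h7, hττ, one_mul, abs_le]
      constructor <;> linarith
    · refine ⟨0, Set.mem_Ici.2 le_rfl, ?_⟩
      rw [mul_zero, zero_mul, sub_zero, ← abs_sign hτ, abs_le]
      constructor <;> linarith
  obtain ⟨a, ha⟩ := A.exists_W hl
  refine ⟨A.ρ * (a + k) + w1 + Q + c, fun g hg => ?_⟩
  -- the half run is reached in `J`
  have R1 : ∀ j : ℕ, A.Reach x {P : ℤ | -(c : ℤ) ≤ τ * P} (h j) := by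
    intro j
    induction j with
    | zero =>
      rw [Nat.cast_zero, H.zero]
      exact Reach.one
    | succ j ih =>
      obtain ⟨u, hu, e⟩ := H.step j (Int.natCast_nonneg _)
      rw [Nat.cast_succ, e]
      refine ih.trans ((W_reach hu (h j x)).mono fun q hq => ?_)
      have h1 := H.low hτ (Int.natCast_nonneg j)
      have h2 : |q| ≤ A.ρ * k := by
        rw [abs_le]
        rw [← hk] at hq
        push_cast at hq
        exact ⟨hq.1, hq.2⟩
      rw [← abs_sign hτ] at h2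
      have h3 := (abs_le.1 h2).1
      have h4 : (0 : ℤ) ≤ (j : ℤ) * Q := by positivity
      change -(c : ℤ) ≤ τ * (q + disp (h j) x)
      rw [mul_add]
      linarith
  obtain ⟨m, hm, v, hv, hgv⟩ := hg
  have hm0 : 0 ≤ m := le_trans (Int.natCast_nonneg _) hm
  have hmG := H.mem m hm0
  have hMQ : ((A.ρ * (a + k) + w1 + Q + c : ℕ) : ℤ) ≤ m * Q := by
    have h1 : m ≤ m * Q := by nlinarith
    linarith
  push_cast at hMQ
  have hvk : v ∈ A.W k := by rw [hk]; exact hv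
  have hlowm := H.low hτ hm0
  have hρa : (0 : ℤ) ≤ A.ρ * a := by positivity
  have R2 : A.Reach x {P : ℤ | -(c : ℤ) ≤ τ * P} g := by
    rw [hgv]
    have h1 := R1 m.toNat
    rw [Int.toNat_of_nonneg hm0] at h1
    refine h1.trans ((W_reach hvk (h m x)).mono fun q hq => ?_)
    have h2 : |q| ≤ A.ρ * k := by
      rw [abs_le]
      push_cast at hq
      exact ⟨hq.1, hq.2⟩
    rw [← abs_sign hτ] at h2
    have h3 := (abs_le.1 h2).1
    change -(c : ℤ) ≤ τ * (q + disp (h m) x)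
    rw [mul_add]
    linarith
  have hgG : g ∈ A.G := R2.mem_G
  have hfar : m * Q - w1 - A.ρ * k ≤ τ * disp g x := by
    have h2 := A.abs_disp_W hvk (h m x)
    rw [← abs_sign hτ] at h2
    have h3 := (abs_le.1 h2).1
    rw [hgv, disp_mul (A.G_le_PW (A.W_le_G hv)) (A.G_le_PW hmG), mul_add]
    linarith
  have R3 : A.Reach x {P : ℤ | -(c : ℤ) ≤ τ * P} (l * g) := by
    refine R2.trans ((W_reach ha (g x)).mono fun q hq => ?_)
    have h2 : |q| ≤ A.ρ * a := by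
      rw [abs_le]
      push_cast at hq
      exact ⟨hq.1, hq.2⟩
    rw [← abs_sign hτ] at h2
    have h3 := (abs_le.1 h2).1
    change -(c : ℤ) ≤ τ * (q + disp g x)
    rw [mul_add]
    nlinarith
  have hlgG : l * g ∈ A.G := A.G.mul_mem hl hgG
  have hfar2 : ((0 : ℕ) : ℤ) * Q ≤ τ * disp (l * g) x := by
    have h2 := A.abs_disp_W ha (g x)
    rw [← abs_sign hτ] at h2
    have h3 := (abs_le.1 h2).1
    rw [disp_mul (A.G_le_PW hl) (A.G_le_PW hgG), mul_add]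
    push_cast
    nlinarith
  obtain ⟨m', hm', v', hv', e'⟩ := H.join hK hQ hτ hx hlgG hfar2
  have hm'0 : 0 ≤ m' := by
    rw [Nat.cast_zero] at hm'
    exact hm'
  have hle : K * (Q + w1 + 1) ≤ K * (c + w1 + 1) := by
    refine Nat.mul_le_mul_left _ ?_
    rw [hc]
    omega
  have hv'' : v' ∈ A.W (K * (c + w1 + 1)) := A.W_mono hle hv'
  have hfol : (l * g) y = v' (h m' y) :=
    hn1 τ hτ (Set.Ici 0) {P : ℤ | -(c : ℤ) ≤ τ * P} hJ0 hcov x hx y hy h HC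
      (fun q hq => E_mono (by omega) (hE q hq)) (l * g) R3 m' hm'0 v' hv'' e'.symm
  have hm'G := H.mem m' hm'0
  have ex : (v' * h m') x = (l * g) x := e'
  have ey : (v' * h m') y = (l * g) y := hfol.symm
  constructor
  · have h1 : A.E N0 (v' (h m' x)) (v' (h m' y)) :=
      E_map (E_mono (by omega) (hE m' hm'0)) hv''
    rw [e', ← hfol] at h1
    exact h1
  · have h1 : disp (l * g) x = disp v' (h m' x) + disp (h m') x := by
      rw [← L02_disp_congr ex, disp_mul (A.G_le_PW (A.W_le_G hv')) (A.G_le_PW hm'G)]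
    have h2 : disp (l * g) y = disp v' (h m' y) + disp (h m') y := by
      rw [← L02_disp_congr ey, disp_mul (A.G_le_PW (A.W_le_G hv')) (A.G_le_PW hm'G)]
    have h3 := A.abs_disp_W hv' (h m' x)
    have h4 := A.abs_disp_W hv' (h m' y)
    have h5 := hB1 m' hm'0
    rw [h1, h2]
    have h6 : disp v' (h m' y) + disp (h m') y - σ * (disp v' (h m' x) + disp (h m') x) =
        (disp (h m') y - σ * disp (h m') x) + disp v' (h m' y) - σ * disp v' (h m' x) := by ring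
    rw [h6]
    have h7 : |σ * disp v' (h m' x)| = |disp v' (h m' x)| := abs_sign hσ _
    have h8 := abs_sub ((disp (h m') y - σ * disp (h m') x) + disp v' (h m' y))
      (σ * disp v' (h m' x))
    have h9 := abs_add_le (disp (h m') y - σ * disp (h m') x) (disp v' (h m' y))
    push_cast at h3 h4
    linarith

end Sys

end Pool.Agent.helper98.NIG
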