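import Pool.Agent.helper2.NIG.L19

/-!
# NIG-L21: equal stabilisers on the two singular lines, direct case

`Direct A x y`: bounded difference of the displacements. `Mirror A x y`: bounded sum.

PROOFS. `B` from `rel_drift`.
* `direct_or_mirror`: `rel_drift`. `Direct` with some bound implies the bound `B` (compare with `rel_drift`: the sign must
  be `1` because `disp g x` is unbounded by `A.right`). Composition rules: group of signs.
* `direct_eq`: `SameLine x y`, `Rel x y`, `Direct`: `pos (g x) (g y) = pos x y + disp g y - disp g x` is bounded: `A.Reduced`.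
* `twin_offset`: let `x = tw h n φ`, `y = tw (!h) n' φ'`, `Rel x y`, `Direct x y`. Claim `|n - n'| ≤ B`. Let `g i ∈ G` with
  `disp (g i) x → -∞` (`SYN`/`left`); along an ultrafilter `g i x → p`, `g i y → q`; the numbers
  `(n' + disp (g i) y) - (n + disp (g i) x)` are bounded, so constant `= k` along `U`. The windows of `g i x` and of
  `sh (-k)` of `g i y` agree as soon as they are on the left of the hole, so `q.1 = sh k p.1`: `SameLine p q`.
  For `g ∈ G`: `|disp g (g i y) - disp g (g i x)| ≤ 2 B`. `eq_of_ulim_bounded`: `p = q`, so `k = 0`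
  (`sh_inj`). So for some `i`: `n' + disp (g i) y = n + disp (g i) x` and `|n' - n| = |disp (g i) x - disp (g i) y| ≤ B`.
* `twin_far`: suppose there is no `D0`. Then for every `i : ℕ` there are `h_i, n_i, n'_i, φ_i, φ'_i` with `x_i = tw h_i n_i φ_i`,
  `y_i = tw (!h_i) n'_i φ'_i`, `Rel`, `Direct`, `max |n_i| |n'_i| ≥ i` and `(n_i, φ_i) ≠ (n'_i, φ'_i)`. By `twin_offset`
  `|n_i - n'_i| ≤ B`, constant along `U`. Limits `p`, `q`: on the same line (the holes go away: windows agree up to the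
  shift by `n'_i - n_i = k`), `eq_of_ulim_bounded` (`|disp g y_i - disp g x_i| ≤ B`) gives `p = q`, `k = 0`, equal floors
  for almost all `i`: contradiction.
* `sparse_rel` (for P6): suppose not: `z_N, x1_N, x2_N, x3_N` with `E N`, the positions of `x2_N, x3_N` relative to `x1_N` are
  constant along `U`, limits `z, x1, x2, x3` with `x1, x2, x3` distinct on one line and `Rel z xi` (`rel_of_ulim_E`). Two of the
  three signs of `(z, xi)` agree; then `Rel xi xj`, `Direct xi xj`, same line: equal, contradiction.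
-/

namespace Pool.Agent.helper98.NIG

variable {b : Base} {F : Type}

private theorem L21_sameLine_map {A : Sys b F} {g : Equiv.Perm (Pt b F)} (hg : g ∈ A.G)
    {x y : Pt b F} (h : SameLine x y) : SameLine (g x) (g y) :=
  sameLine_trans (sameLine_symm (sameLine_of_mem_PW (A.G_le_PW hg) x))
    (sameLine_trans h (sameLine_of_mem_PW (A.G_le_PW hg) y))

private theorem L21_pos_map {A : Sys b F} {g : Equiv.Perm (Pt b F)} (hg : g ∈ A.G)
    {x y : Pt b F} (h : SameLine x y) : pos (g x) (g y) = pos x y + disp g y - disp g x := by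
  have h1 := pos_add (sameLine_of_mem_PW (A.G_le_PW hg) x) (L21_sameLine_map hg h)
  have h2 := pos_add h (sameLine_of_mem_PW (A.G_le_PW hg) y)
  unfold disp
  linarith

private theorem L21_disp_map {A : Sys b F} {g k : Equiv.Perm (Pt b F)} (hg : g ∈ A.G)
    (hk : k ∈ A.G) (x : Pt b F) : disp k (g x) = disp (k * g) x - disp g x := by
  have := disp_mul (A.G_le_PW hk) (A.G_le_PW hg) x
  linarith

private theorem L21_agree_eq {x y : Pt b F} {h : ∀ N : ℕ, Agree N x y} : x = y := by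
  refine Prod.ext (Subtype.ext ?_) (h 0).1
  funext k
  exact (h k.natAbs).2 k (by rw [Int.abs_eq_natAbs])

/-- an integer sequence which is bounded along an ultrafilter is eventually constant -/
private theorem L21_const {ι : Type*} (U : Ultrafilter ι) (f : ι → ℤ) (B : ℤ)
    (h : ∀ᶠ i in (U : Filter ι), |f i| ≤ B) : ∃ k : ℤ, |k| ≤ B ∧ ∀ᶠ i in (U : Filter ι), f i = k := by
  have h1 : ∀ᶠ i in (U : Filter ι), ∃ k ∈ Set.Icc (-B) B, f i = k := by
    filter_upwards [h] with i hi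
    exact ⟨f i, abs_le.1 hi, rfl⟩
  rw [Ultrafilter.eventually_exists_mem_iff (Set.finite_Icc _ _)] at h1
  obtain ⟨k, hk, hk'⟩ := h1
  exact ⟨k, abs_le.2 hk, hk'⟩

private theorem L21_lim {ι : Type*} {U : Ultrafilter ι} {u v : ι → Pt b F} {p q : Pt b F}
    (hu : ∀ N : ℕ, ∀ᶠ i in (U : Filter ι), Agree N (u i) p)
    (hv : ∀ N : ℕ, ∀ᶠ i in (U : Filter ι), Agree N (v i) q) (k : ℤ)
    (h : ∀ N : ℕ, ∀ᶠ i in (U : Filter ι), Agree N (v i) (sh k (u i).1, (v i).2)) :
    q = (sh k p.1, q.2) := by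
  apply L21_agree_eq
  intro N
  obtain ⟨i, ⟨h1, h2⟩, h3⟩ := (((hu (k.natAbs + N)).and (hv N)).and (h N)).exists
  have h4 : Agree N ((sh k (u i).1, (v i).2) : Pt b F) (sh k p.1, (v i).2) := by
    apply agree_sh h1
    rw [Int.abs_eq_natAbs]
    push_cast
    exact le_rfl
  have h5 : Agree N q (sh k p.1, (v i).2) := h2.symm.trans (h3.trans h4)
  exact ⟨rfl, h5.2⟩

/-- limits of twins with holes at infinity are on one line -/
private theorem L21_twins {ι : Type*} {U : Ultrafilter ι} {u v : ι → Pt b F} {p q : Pt b F}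
    (hu : ∀ N : ℕ, ∀ᶠ i in (U : Filter ι), Agree N (u i) p)
    (hv : ∀ N : ℕ, ∀ᶠ i in (U : Filter ι), Agree N (v i) q) (k : ℤ)
    (h : ∀ N : ℕ, ∀ᶠ i in (U : Filter ι), ∃ (e e' : Bool) (m : ℤ), (N : ℤ) < |m + k| ∧
      (u i).1 = sh m (sg b e) ∧ (v i).1 = sh (m + k) (sg b e')) :
    q = (sh k p.1, q.2) := by
  apply L21_lim hu hv
  intro N
  filter_upwards [h N] with i hi
  obtain ⟨e, e', m, h1, h2, h3⟩ := hi
  have h4 := agree_tw (b := b) e' e (m + k) (v i).2 h1
  have h5 : v i = tw b e' (m + k) (v i).2 := Prod.ext h3 rfl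
  have h6 : ((sh k (u i).1, (v i).2) : Pt b F) = tw b e (m + k) (v i).2 := by
    unfold tw
    rw [h2, sh_sh, add_comm k m]
  rw [h6]
  rw [← h5] at h4
  exact h4

namespace Sys

/-- bounded difference of the displacements -/
def Direct (A : Sys b F) (x y : Pt b F) : Prop := ∃ B : ℤ, ∀ g ∈ A.G, |disp g y - disp g x| ≤ B

/-- bounded sum of the displacements -/
def Mirror (A : Sys b F) (x y : Pt b F) : Prop := ∃ B : ℤ, ∀ g ∈ A.G, |disp g y + disp g x| ≤ B

theorem Direct.symm {A : Sys b F} {x y : Pt b F} (h : A.Direct x y) : A.Direct y x := by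
  obtain ⟨B, hB⟩ := h
  exact ⟨B, fun g hg => by rw [abs_sub_comm]; exact hB g hg⟩

theorem Mirror.symm {A : Sys b F} {x y : Pt b F} (h : A.Mirror x y) : A.Mirror y x := by
  obtain ⟨B, hB⟩ := h
  exact ⟨B, fun g hg => by rw [add_comm]; exact hB g hg⟩

theorem Direct.trans {A : Sys b F} {x y z : Pt b F} (h : A.Direct x y) (h' : A.Direct y z) :
    A.Direct x z := by
  obtain ⟨B, hB⟩ := h
  obtain ⟨B', hB'⟩ := h'
  refine ⟨B + B', fun g hg => ?_⟩
  have h1 := abs_le.1 (hB g hg)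
  have h2 := abs_le.1 (hB' g hg)
  rw [abs_le]
  constructor <;> linarith [h1.1, h1.2, h2.1, h2.2]

theorem Mirror.trans {A : Sys b F} {x y z : Pt b F} (h : A.Mirror x y) (h' : A.Mirror y z) :
    A.Direct x z := by
  obtain ⟨B, hB⟩ := h
  obtain ⟨B', hB'⟩ := h'
  refine ⟨B + B', fun g hg => ?_⟩
  have h1 := abs_le.1 (hB g hg)
  have h2 := abs_le.1 (hB' g hg)
  rw [abs_le]
  constructor <;> linarith [h1.1, h1.2, h2.1, h2.2]

theorem Direct.map {A : Sys b F} {x y : Pt b F} (h : A.Direct x y) {g : Equiv.Perm (Pt b F)}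
    (hg : g ∈ A.G) : A.Direct (g x) (g y) := by
  obtain ⟨B, hB⟩ := h
  refine ⟨B + B, fun k hk => ?_⟩
  have h1 := abs_le.1 (hB g hg)
  have h2 := abs_le.1 (hB _ (A.G.mul_mem hk hg))
  rw [L21_disp_map hg hk, L21_disp_map hg hk, abs_le]
  constructor <;> linarith [h1.1, h1.2, h2.1, h2.2]

theorem Mirror.map {A : Sys b F} {x y : Pt b F} (h : A.Mirror x y) {g : Equiv.Perm (Pt b F)}
    (hg : g ∈ A.G) : A.Mirror (g x) (g y) := by
  obtain ⟨B, hB⟩ := h
  refine ⟨B + B, fun k hk => ?_⟩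
  have h1 := abs_le.1 (hB g hg)
  have h2 := abs_le.1 (hB _ (A.G.mul_mem hk hg))
  rw [L21_disp_map hg hk, L21_disp_map hg hk, abs_le]
  constructor <;> linarith [h1.1, h1.2, h2.1, h2.2]

theorem not_direct_mirror {A : Sys b F} {x y : Pt b F} (hx : x ∈ A.D) (h : A.Direct x y)
    (h' : A.Mirror x y) : False := by
  obtain ⟨B, hB⟩ := h
  obtain ⟨B', hB'⟩ := h'
  have h0 := (abs_nonneg _).trans (hB 1 A.G.one_mem)
  have h0' := (abs_nonneg _).trans (hB' 1 A.G.one_mem)
  obtain ⟨g, hg, h1⟩ := A.right x hx (B + B')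
  have h2 := abs_le.1 (hB g hg)
  have h3 := abs_le.1 (hB' g hg)
  linarith [h2.1, h2.2, h3.1, h3.2]

/-- M1 again, with uniform bounds -/
theorem direct_or_mirror [Finite F] {A : Sys b F} (hA : A.Reduced) {R w : ℕ} (hR : A.BCon R)
    (hw : A.SYN w) : ∃ B : ℕ, ∀ x ∈ A.D, ∀ y ∈ A.D, A.Rel x y →
      ((A.Direct x y ∧ ∀ g ∈ A.G, |disp g y - disp g x| ≤ B) ∨
        (A.Mirror x y ∧ ∀ g ∈ A.G, |disp g y + disp g x| ≤ B)) := by
  obtain ⟨B, hB⟩ := rel_drift hA hR hw
  refine ⟨B, fun x hx y hy hxy => ?_⟩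
  obtain ⟨σ, hσ, h⟩ := hB x hx y hy hxy
  rcases hσ with rfl | rfl
  · left
    have h1 : ∀ g ∈ A.G, |disp g y - disp g x| ≤ B := by
      intro g hg
      have := h g hg
      rwa [one_mul] at this
    exact ⟨⟨B, h1⟩, h1⟩
  · right
    have h1 : ∀ g ∈ A.G, |disp g y + disp g x| ≤ B := by
      intro g hg
      have := h g hg
      rwa [neg_one_mul, sub_neg_eq_add] at this
    exact ⟨⟨B, h1⟩, h1⟩

/-- the uniform bound for direct pairs -/
private theorem L21_direct [Finite F] {A : Sys b F} (hA : A.Reduced) {R w : ℕ} (hR : A.BCon R)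
    (hw : A.SYN w) : ∃ B : ℕ, ∀ x ∈ A.D, ∀ y ∈ A.D, A.Rel x y → A.Direct x y →
      ∀ g ∈ A.G, |disp g y - disp g x| ≤ B := by
  obtain ⟨B, hB⟩ := direct_or_mirror hA hR hw
  refine ⟨B, fun x hx y hy hxy hd => ?_⟩
  rcases hB x hx y hy hxy with h | h
  · exact h.2
  · exact (not_direct_mirror hx hd h.1).elim

theorem direct_eq {A : Sys b F} (hA : A.Reduced) {x y : Pt b F} (hx : x ∈ A.D) (hy : y ∈ A.D)
    (hl : SameLine x y) (h : A.Direct x y) : x = y := by
  obtain ⟨B, hB⟩ := h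
  refine hA x hx y hy hl ⟨|pos x y| + B, fun g hg => ?_⟩
  rw [L21_pos_map hg hl, add_sub_assoc]
  exact (abs_add_le _ _).trans (by linarith [hB g hg])

theorem twin_offset [Finite F] {A : Sys b F} (hA : A.Reduced) {R w : ℕ} (hR : A.BCon R)
    (hw : A.SYN w) : ∃ B : ℕ, ∀ (h : Bool) (n n' : ℤ) (φ φ' : F), tw b h n φ ∈ A.D →
      tw b (!h) n' φ' ∈ A.D → A.Rel (tw b h n φ) (tw b (!h) n' φ') →
      A.Direct (tw b h n φ) (tw b (!h) n' φ') → |n' - n| ≤ B := by
  obtain ⟨B, hB⟩ := L21_direct hA hR hw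
  refine ⟨B, fun h n n' φ φ' hx hy hrel hdir => ?_⟩
  have hb := hB _ hx _ hy hrel hdir
  set x : Pt b F := tw b h n φ with hxd
  set y : Pt b F := tw b (!h) n' φ' with hyd
  choose g hg hgd using fun i : ℕ => A.left x hx (-(i : ℤ))
  let U : Ultrafilter ℕ := Filter.hyperfilter ℕ
  have hUtop : (U : Filter ℕ) ≤ Filter.atTop := by
    rw [← Nat.cofinite_eq_atTop]
    exact Filter.hyperfilter_le_cofinite
  obtain ⟨p, hp⟩ := exists_ulim U (fun i => g i x)
  obtain ⟨q, hq⟩ := exists_ulim U (fun i => g i y)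
  have hpD : p ∈ A.D := A.mem_D_of_ulim hp (Filter.Eventually.of_forall fun i => A.map_mem (hg i) hx)
  have hqD : q ∈ A.D := A.mem_D_of_ulim hq (Filter.Eventually.of_forall fun i => A.map_mem (hg i) hy)
  obtain ⟨k, -, hk⟩ := L21_const U
    (fun i => (n' + disp (g i) y) - (n + disp (g i) x)) (|n' - n| + B) (by
      refine Filter.Eventually.of_forall fun i => ?_
      have e : (n' + disp (g i) y) - (n + disp (g i) x)
          = (n' - n) + (disp (g i) y - disp (g i) x) := by ring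
      rw [e]
      exact (abs_add_le _ _).trans (by linarith [hb (g i) (hg i)]))
  have hline : q = (sh k p.1, q.2) := by
    apply L21_twins hp hq k
    intro N
    have hlarge : ∀ᶠ i : ℕ in (U : Filter ℕ), (N : ℤ) + |n| + |k| ≤ (i : ℤ) := by
      have := hUtop (Filter.eventually_ge_atTop (N + n.natAbs + k.natAbs))
      filter_upwards [this] with i hi
      rw [Int.abs_eq_natAbs, Int.abs_eq_natAbs]
      exact_mod_cast hi
    filter_upwards [hk, hlarge] with i hi hi2
    refine ⟨h, !h, n + disp (g i) x, ?_, ?_, ?_⟩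
    · have h1 : disp (g i) x < -(i : ℤ) := hgd i
      have h2 := le_abs_self n
      have h3 := le_abs_self k
      rw [lt_abs]
      right
      linarith
    · rw [hxd, map_tw (A.G_le_PW (hg i))]
      rfl
    · have h1 : n + disp (g i) x + k = n' + disp (g i) y := by linarith
      rw [h1]
      show (g i y).1 = _
      rw [hyd, map_tw (A.G_le_PW (hg i))]
      rfl
  have hpq : p = q := by
    refine eq_of_ulim_bounded hA hpD hqD hp hq ⟨k, by rw [hline]⟩ (2 * B) ?_
    intro k' hk'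
    refine Filter.Eventually.of_forall fun i => ?_
    rw [L21_disp_map (hg i) hk', L21_disp_map (hg i) hk']
    have h1 := abs_le.1 (hb _ (A.G.mul_mem hk' (hg i)))
    have h2 := abs_le.1 (hb _ (hg i))
    rw [abs_le]
    push_cast
    constructor <;> linarith [h1.1, h1.2, h2.1, h2.2]
  have hk0 : k = 0 := by
    have h1 : sh k p.1 = sh 0 p.1 := by
      rw [sh_zero]
      rw [← hpq] at hline
      exact (congrArg Prod.fst hline).symm
    exact sh_inj h1
  obtain ⟨i, hi⟩ := hk.exists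
  have h1 := hb (g i) (hg i)
  have h2 : n' - n = -(disp (g i) y - disp (g i) x) := by
    rw [hk0] at hi
    linarith
  rw [h2, abs_neg]
  exact h1

theorem twin_far [Finite F] {A : Sys b F} (hA : A.Reduced) {R w : ℕ} (hR : A.BCon R)
    (hw : A.SYN w) : ∃ D0 : ℕ, ∀ (h : Bool) (n n' : ℤ) (φ φ' : F), tw b h n φ ∈ A.D →
      tw b (!h) n' φ' ∈ A.D → A.Rel (tw b h n φ) (tw b (!h) n' φ') →
      A.Direct (tw b h n φ) (tw b (!h) n' φ') → ((D0 : ℤ) ≤ |n| ∨ (D0 : ℤ) ≤ |n'|) →
        n = n' ∧ φ = φ' := by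
  obtain ⟨B, hB⟩ := twin_offset hA hR hw
  obtain ⟨B', hB'⟩ := L21_direct hA hR hw
  by_contra hcon
  push Not at hcon
  choose h n n' φ φ' hx hy hrel hdir hfar hne using hcon
  let U : Ultrafilter ℕ := Filter.hyperfilter ℕ
  have hUtop : (U : Filter ℕ) ≤ Filter.atTop := by
    rw [← Nat.cofinite_eq_atTop]
    exact Filter.hyperfilter_le_cofinite
  obtain ⟨p, hp⟩ := exists_ulim U (fun i => tw b (h i) (n i) (φ i))
  obtain ⟨q, hq⟩ := exists_ulim U (fun i => tw b (!(h i)) (n' i) (φ' i))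
  have hpD : p ∈ A.D := A.mem_D_of_ulim hp (Filter.Eventually.of_forall hx)
  have hqD : q ∈ A.D := A.mem_D_of_ulim hq (Filter.Eventually.of_forall hy)
  have hoff : ∀ i, |n' i - n i| ≤ B := fun i => hB _ _ _ _ _ (hx i) (hy i) (hrel i) (hdir i)
  obtain ⟨k, -, hk⟩ := L21_const U (fun i => n' i - n i) B (Filter.Eventually.of_forall hoff)
  have hline : q = (sh k p.1, q.2) := by
    apply L21_twins hp hq k
    intro N
    have hlarge : ∀ᶠ i in (U : Filter ℕ), N + B + 1 ≤ i :=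
      hUtop (Filter.eventually_ge_atTop (N + B + 1))
    filter_upwards [hk, hlarge] with i hi hi2
    refine ⟨h i, !(h i), n i, ?_, rfl, ?_⟩
    · have h1 : n i + k = n' i := by linarith
      rw [h1]
      have h2 := hoff i
      have h3 : |n i| ≤ |n' i| + |n' i - n i| := by
        have e : n i = n' i - (n' i - n i) := by ring
        calc |n i| = |n' i - (n' i - n i)| := by rw [← e]
          _ ≤ |n' i| + |n' i - n i| := abs_sub _ _
      have h4 : (N : ℤ) + B + 1 ≤ i := by exact_mod_cast hi2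
      rcases hfar i with h5 | h5 <;> linarith
    · have h1 : n i + k = n' i := by linarith
      rw [h1]
      rfl
  have hpq : p = q := by
    refine eq_of_ulim_bounded hA hpD hqD hp hq ⟨k, by rw [hline]⟩ B' ?_
    intro k' hk'
    exact Filter.Eventually.of_forall fun i => hB' _ (hx i) _ (hy i) (hrel i) (hdir i) k' hk'
  have hk0 : k = 0 := by
    have h1 : sh k p.1 = sh 0 p.1 := by
      rw [sh_zero]
      rw [← hpq] at hline
      exact (congrArg Prod.fst hline).symm
    exact sh_inj h1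
  obtain ⟨i, ⟨hi1, hi2⟩, hi3⟩ := ((hk.and (hp 0)).and (hq 0)).exists
  apply hne i
  · rw [hk0] at hi1
    linarith
  · have h1 : φ i = p.2 := hi2.1
    have h2 : φ' i = q.2 := hi3.1
    rw [h1, h2, hpq]

theorem sparse_rel [Finite F] {A : Sys b F} (hA : A.Reduced) {R w : ℕ} (hR : A.BCon R)
    (hw : A.SYN w) (W : ℕ) : ∃ N : ℕ, ∀ z ∈ A.D, ∀ x1 ∈ A.D, ∀ x2 ∈ A.D, ∀ x3 ∈ A.D,
      SameLine x1 x2 → SameLine x1 x3 → |pos x1 x2| ≤ W → |pos x1 x3| ≤ W →
      x1 ≠ x2 → x1 ≠ x3 → x2 ≠ x3 → A.E N z x1 → A.E N z x2 → A.E N z x3 → False := by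
  by_contra hcon
  push Not at hcon
  choose z hz x1 hx1 x2 hx2 x3 hx3 hl2 hl3 hp2 hp3 h12 h13 h23 hE1 hE2 hE3 using hcon
  let U : Ultrafilter ℕ := Filter.hyperfilter ℕ
  have hUtop : (U : Filter ℕ) ≤ Filter.atTop := by
    rw [← Nat.cofinite_eq_atTop]
    exact Filter.hyperfilter_le_cofinite
  obtain ⟨z0, hz0⟩ := exists_ulim U z
  obtain ⟨y1, hy1⟩ := exists_ulim U x1
  obtain ⟨y2, hy2⟩ := exists_ulim U x2
  obtain ⟨y3, hy3⟩ := exists_ulim U x3
  have hz0D : z0 ∈ A.D := A.mem_D_of_ulim hz0 (Filter.Eventually.of_forall hz)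
  have hy1D : y1 ∈ A.D := A.mem_D_of_ulim hy1 (Filter.Eventually.of_forall hx1)
  have hy2D : y2 ∈ A.D := A.mem_D_of_ulim hy2 (Filter.Eventually.of_forall hx2)
  have hy3D : y3 ∈ A.D := A.mem_D_of_ulim hy3 (Filter.Eventually.of_forall hx3)
  obtain ⟨c2, -, hc2⟩ := L21_const U (fun i => pos (x1 i) (x2 i)) W
    (Filter.Eventually.of_forall hp2)
  obtain ⟨c3, -, hc3⟩ := L21_const U (fun i => pos (x1 i) (x3 i)) W
    (Filter.Eventually.of_forall hp3)
  have e2 : y2 = (sh c2 y1.1, y2.2) := by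
    apply L21_lim hy1 hy2
    intro N
    filter_upwards [hc2] with i hi
    have h1 := eq_of_pos (hl2 i)
    rw [hi] at h1
    rw [← h1]
    exact Agree.refl _ _
  have e3 : y3 = (sh c3 y1.1, y3.2) := by
    apply L21_lim hy1 hy3
    intro N
    filter_upwards [hc3] with i hi
    have h1 := eq_of_pos (hl3 i)
    rw [hi] at h1
    rw [← h1]
    exact Agree.refl _ _
  have n12 : y1 ≠ y2 := by
    intro he
    have hc : c2 = 0 := by
      have h1 : sh c2 y1.1 = sh 0 y1.1 := by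
        rw [sh_zero]
        rw [← he] at e2
        exact (congrArg Prod.fst e2).symm
      exact sh_inj h1
    obtain ⟨i, ⟨i1, i2⟩, i3⟩ := ((hc2.and (hy1 0)).and (hy2 0)).exists
    apply h12 i
    have h1 := eq_of_pos (hl2 i)
    rw [i1, hc, sh_zero, i3.1, ← he, ← i2.1] at h1
    exact h1.symm
  have n13 : y1 ≠ y3 := by
    intro he
    have hc : c3 = 0 := by
      have h1 : sh c3 y1.1 = sh 0 y1.1 := by
        rw [sh_zero]
        rw [← he] at e3
        exact (congrArg Prod.fst e3).symm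
      exact sh_inj h1
    obtain ⟨i, ⟨i1, i2⟩, i3⟩ := ((hc3.and (hy1 0)).and (hy3 0)).exists
    apply h13 i
    have h1 := eq_of_pos (hl3 i)
    rw [i1, hc, sh_zero, i3.1, ← he, ← i2.1] at h1
    exact h1.symm
  have n23 : y2 ≠ y3 := by
    intro he
    have hc : c2 = c3 := by
      have h1 : sh c2 y1.1 = sh c3 y1.1 := by
        have f2 := congrArg Prod.fst e2
        have f3 := congrArg Prod.fst e3
        simp only at f2 f3
        rw [← f2, ← f3, he]
      exact sh_inj h1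
    obtain ⟨i, ⟨⟨i1, i2⟩, i3⟩, i4⟩ := (((hc2.and hc3).and (hy2 0)).and (hy3 0)).exists
    apply h23 i
    have f1 := eq_of_pos (hl2 i)
    have f2 := eq_of_pos (hl3 i)
    rw [i1] at f1
    rw [i2] at f2
    rw [f1, f2, hc, i3.1, i4.1, he]
  have hrel : ∀ (x : ℕ → Pt b F) (y : Pt b F), (∀ N : ℕ, ∀ᶠ i in (U : Filter ℕ), Agree N (x i) y) →
      (∀ i, A.E i (z i) (x i)) → A.Rel z0 y := by
    intro x y hxy hE
    refine rel_of_ulim_E hz0 hxy fun n => ?_
    filter_upwards [hUtop (Filter.eventually_ge_atTop n)] with i hi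
    exact E_mono hi (hE i)
  have r1 := hrel x1 y1 hy1 hE1
  have r2 := hrel x2 y2 hy2 hE2
  have r3 := hrel x3 y3 hy3 (fun i => (hE3 i).1)
  have s12 : SameLine y1 y2 := ⟨c2, by rw [e2]⟩
  have s13 : SameLine y1 y3 := ⟨c3, by rw [e3]⟩
  have s23 : SameLine y2 y3 := sameLine_trans (sameLine_symm s12) s13
  obtain ⟨B, hB⟩ := direct_or_mirror hA hR hw
  rcases hB z0 hz0D y1 hy1D r1 with ⟨d1, -⟩ | ⟨d1, -⟩ <;>
  rcases hB z0 hz0D y2 hy2D r2 with ⟨d2, -⟩ | ⟨d2, -⟩ <;>
  rcases hB z0 hz0D y3 hy3D r3 with ⟨d3, -⟩ | ⟨d3, -⟩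
  · exact n12 (direct_eq hA hy1D hy2D s12 (d1.symm.trans d2))
  · exact n12 (direct_eq hA hy1D hy2D s12 (d1.symm.trans d2))
  · exact n13 (direct_eq hA hy1D hy3D s13 (d1.symm.trans d3))
  · exact n23 (direct_eq hA hy2D hy3D s23 (d2.symm.trans d3))
  · exact n23 (direct_eq hA hy2D hy3D s23 (d2.symm.trans d3))
  · exact n13 (direct_eq hA hy1D hy3D s13 (d1.symm.trans d3))
  · exact n12 (direct_eq hA hy1D hy2D s12 (d1.symm.trans d2))
  · exact n12 (direct_eq hA hy1D hy2D s12 (d1.symm.trans d2))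

end Sys

end Pool.Agent.helper98.NIG
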