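import Pool.Agent.helper2.NIG.L20

/-!
# NIG-L22: limits along a half run lock

PROOFS.
* `hlimit`: `N0` from `rel_of_local`, `n0` from `hlock_step` for this `N0`. `B2 = 2 (B1 + 2 ρ K (Q + w1 + 1))`. For `p ∈ D` and
  `i : ℕ` let `g i` be `Along h i` (use `M = max i M_1` where `M_1` is the number `M` of `hlock_step` for `l = 1`, `Along.mono`)
  with `Agree i (g i x) p` (`visit`). `U` a non-principal ultrafilter (`Filter.hyperfilter ℕ`; cofinite = atTop), `q` the limit of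
  `g i y` (`exists_ulim`), `q ∈ D` (`mem_D_of_ulim`). For `l ∈ G`: `E N0 (l (g i x)) (l (g i y))` for all large `i`, and
  `l (g i x) → l p`, `l (g i y) → l q` (`ulim_map`), so `E N0 (l p) (l q)` (`E_of_agree`, radius `ρ N0`): `rel_of_local`.
  `disp l (g i y) = disp (l * g i) y - disp (g i) y`, the same for `x`: bound `B2`.
* `half_line`: `p ∈ D` regular (`exists_regular_D`), `hlimit` with `σ = 1` (`B1` is the given bound). `Al (e i) (g i x).1 (g i y).1`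
  with `e i = e + disp (g i) x - disp (g i) y` (`al_sh`, `pos_spec`), `|e i| ≤ |e| + B2`. `eventually_twin` with the bound
  `|e| + B2`: so `Al 0 (g i x).1 (g i y).1` and equal floors for almost all `i`; take such an `i ≥ M`.
-/

namespace Pool.Agent.helper98.NIG

variable {b : Base} {F : Type}

namespace Sys

theorem hlimit [Finite F] {A : Sys b F} {R w Cs K : ℕ} (hR : A.BCon R) (hw : A.SYN w)
    (hC : A.SLR Cs) (hK : A.CONN K) (Q w1 : ℕ) (hQ : 0 < Q) :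
    ∃ n0 : ℕ, ∀ τ : ℤ, (τ = 1 ∨ τ = -1) → ∀ x ∈ A.D, ∀ y ∈ A.D,
      ∀ h : ℤ → Equiv.Perm (Pt b F), A.HRun K Q w1 τ x h →
      (∀ m : ℤ, 0 ≤ m → A.E n0 (h m x) (h m y)) → ∀ (σ : ℤ) (B1 : ℕ),
      (σ = 1 ∨ σ = -1) → (∀ m : ℤ, 0 ≤ m → |disp (h m) y - σ * disp (h m) x| ≤ B1) →
      ∃ B2 : ℕ, ∀ p ∈ A.D, ∃ q ∈ A.D, ∃ (U : Ultrafilter ℕ) (g : ℕ → Equiv.Perm (Pt b F)),
        (∀ i, A.Along K Q w1 h i (g i)) ∧ (∀ M : ℕ, ∀ᶠ i in (U : Filter ℕ), M ≤ i) ∧
        (∀ N : ℕ, ∀ᶠ i in (U : Filter ℕ), Agree N (g i x) p) ∧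
        (∀ N : ℕ, ∀ᶠ i in (U : Filter ℕ), Agree N (g i y) q) ∧ A.Rel p q ∧
        (∀ i, |disp (g i) y - σ * disp (g i) x| ≤ B2) ∧
        ∀ l ∈ A.G, ∀ᶠ i in (U : Filter ℕ), |disp l (g i y) - σ * disp l (g i x)| ≤ B2 := by
  obtain ⟨N0, hN0⟩ := rel_of_local hR hw
  obtain ⟨n0, hn0⟩ := hlock_step hK Q w1 hQ N0
  refine ⟨n0, fun τ hτ x hx y hy h H hE σ B1 hσ hB => ?_⟩
  have hst := hn0 τ hτ x hx y hy h H hE σ B1 hσ hB
  obtain ⟨M1, hM1⟩ := hst 1 A.G.one_mem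
  refine ⟨2 * (B1 + 2 * A.ρ * (K * (Q + w1 + 1))), fun p hp => ?_⟩
  have hv : ∀ i : ℕ, ∃ g, A.Along K Q w1 h (max i M1) g ∧ Agree i (g x) p := fun i =>
    visit hC hK hQ hτ hx H hp i (max i M1)
  choose g hg1 hg2 using hv
  have hgG : ∀ i, g i ∈ A.G := fun i => H.along_mem (hg1 i)
  have hge : ∀ M : ℕ, ∀ᶠ i in (Filter.hyperfilter ℕ : Filter ℕ), M ≤ i := fun M =>
    Filter.Eventually.filter_mono Nat.hyperfilter_le_atTop (Filter.eventually_ge_atTop M)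
  obtain ⟨q, hq⟩ := exists_ulim (Filter.hyperfilter ℕ) (fun i => g i y)
  have hgx : ∀ N : ℕ, ∀ᶠ i in (Filter.hyperfilter ℕ : Filter ℕ), Agree N (g i x) p := fun N =>
    (hge N).mono fun i hi => (hg2 i).mono hi
  have hqD : q ∈ A.D := A.mem_D_of_ulim hq
    (Filter.Eventually.of_forall fun i => A.map_mem (hgG i) hy)
  have hd1 : ∀ i, |disp (g i) y - σ * disp (g i) x| ≤
      ((B1 + 2 * A.ρ * (K * (Q + w1 + 1)) : ℕ) : ℤ) := by
    intro i
    have h1 := (hM1 (g i) ((hg1 i).mono (le_max_right _ _))).2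
    rw [one_mul] at h1
    push_cast
    push_cast at h1
    exact h1
  refine ⟨q, hqD, Filter.hyperfilter ℕ, g, fun i => (hg1 i).mono (le_max_left _ _), hge, hgx, hq,
    ?_, ?_, ?_⟩
  · refine hN0 p hp q hqD fun l hl => ?_
    obtain ⟨M, hM⟩ := hst l hl
    have h1 := ulim_map (A.G_le_PW hl) hgx (A.ρ * N0)
    have h2 := ulim_map (A.G_le_PW hl) hq (A.ρ * N0)
    obtain ⟨i, ⟨hi1, hi2⟩, hi3⟩ := ((h1.and h2).and (hge M)).exists
    have h3 := (hM (g i) ((hg1 i).mono (hi3.trans (le_max_left _ _)))).1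
    exact E_trans (E_symm (E_of_agree le_rfl hi1)) (E_trans h3 (E_of_agree le_rfl hi2))
  · intro i
    refine (hd1 i).trans ?_
    exact_mod_cast Nat.le_mul_of_pos_left _ (by norm_num : 0 < 2)
  · intro l hl
    obtain ⟨M, hM⟩ := hst l hl
    refine (hge M).mono fun i hi => ?_
    have h3 := (hM (g i) ((hg1 i).mono (hi.trans (le_max_left _ _)))).2
    have h4 := hd1 i
    rw [disp_mul (A.G_le_PW hl) (A.G_le_PW (hgG i)),
      disp_mul (A.G_le_PW hl) (A.G_le_PW (hgG i))] at h3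
    have e : disp l (g i y) - σ * disp l (g i x) =
        (disp l (g i y) + disp (g i) y - σ * (disp l (g i x) + disp (g i) x)) -
          (disp (g i) y - σ * disp (g i) x) := by ring
    rw [e]
    refine (abs_sub _ _).trans ?_
    push_cast
    push_cast at h3 h4
    linarith

/-- a half line lock between aligned points: the points are equal or twins, far along the run -/
theorem half_line [Finite F] {A : Sys b F} (hA : A.Reduced) {R w Cs K : ℕ} (hR : A.BCon R)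
    (hw : A.SYN w) (hC : A.SLR Cs) (hK : A.CONN K) (Q w1 : ℕ) (hQ : 0 < Q) :
    ∃ n0 : ℕ, ∀ τ : ℤ, (τ = 1 ∨ τ = -1) → ∀ x ∈ A.D, ∀ y ∈ A.D,
      ∀ h : ℤ → Equiv.Perm (Pt b F), A.HRun K Q w1 τ x h →
      (∀ m : ℤ, 0 ≤ m → A.E n0 (h m x) (h m y)) → ∀ B1 : ℕ,
      (∀ m : ℤ, 0 ≤ m → |disp (h m) y - disp (h m) x| ≤ B1) → ∀ e : ℤ, Al e x.1 y.1 →
      ∀ M : ℕ, ∃ g, A.Along K Q w1 h M g ∧ Al 0 (g x).1 (g y).1 ∧ (g x).2 = (g y).2 := by
  obtain ⟨n0, hn0⟩ := hlimit hR hw hC hK Q w1 hQ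
  refine ⟨n0, fun τ hτ x hx y hy h H hE B1 hB e he M => ?_⟩
  obtain ⟨p, hp, hreg⟩ := A.exists_regular_D
  obtain ⟨B2, hB2⟩ := hn0 τ hτ x hx y hy h H hE 1 B1 (Or.inl rfl)
    (fun m hm => by rw [one_mul]; exact hB m hm)
  obtain ⟨q, hq, U, g, hg1, hg2, hg3, hg4, -, hg6, hg7⟩ := hB2 p hp
  have hgP : ∀ i, g i ∈ PW b F := fun i => A.G_le_PW (H.along_mem (hg1 i))
  have hal : ∀ i, Al (e + disp (g i) x - disp (g i) y) (g i x).1 (g i y).1 := by
    intro i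
    have h1 : (g i x).1 = sh (disp (g i) x) x.1 := pos_spec (sameLine_of_mem_PW (hgP i) x)
    have h2 : (g i y).1 = sh (disp (g i) y) y.1 := pos_spec (sameLine_of_mem_PW (hgP i) y)
    rw [h1, h2]
    exact al_sh he
  have key := eventually_twin hA hp hq hreg hg3 hg4 (e.natAbs + B2)
    (e := fun i => e + disp (g i) x - disp (g i) y)
    (fun i => by
      have h1 := abs_le.1 (hg6 i)
      rw [one_mul] at h1
      rw [abs_le]
      push_cast
      have h2 := neg_abs_le e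
      have h3 := le_abs_self e
      constructor <;> linarith [h1.1, h1.2]) hal
    (fun l hl => (hg7 l hl).mono fun i hi => by
      rw [one_mul] at hi
      refine hi.trans ?_
      push_cast
      have := abs_nonneg e
      linarith)
  obtain ⟨i, ⟨hi1, hi2⟩, hi3⟩ := (key.and (hg2 M)).exists
  exact ⟨g i, (hg1 i).mono hi3, hi1, hi2⟩

end Sys

end Pool.Agent.helper98.NIG
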