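import Pool.Agent.helper2.NIG.L21

/-!
# NIG-L23: if all twins on one side are invisible then all twins are invisible

PROOFS. Constants: `consts` (`Cs K C0 κ`), `m1` from `Dir_unique` for `C0`, `D0` from `twin_far`, `B` from `rel_drift`.
* `agree_direct`: `rel_drift` gives `σ`, `B`; `rel_dir` gives `Dir C0 m1 σ x x'`; `Dir_of_agree` gives `Dir 0 m1 1 x x'`,
  `Dir.mono` gives `Dir C0 m1 1 x x'`; `Dir_unique`: `σ = 1`. `N = 2 ρ m1 + R + 2 ρ + 2`.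
* `twins_direct`: `agree_tw` with radius `|n| - 1` and `agree_direct`.
* `twins_both`: `N2 = max` of `N1`, `ρ + 1`, `D0`, the number of `twins_direct`, and `1`. Let `N2 ≤ |n|`, `x = tw h n φ ∈ D`;
  `x1 = tw (!h) n φ ∈ D` by `tw_mem`. If `δ n > 0` then `N1 ≤ δ n` and `H` applies (to `h = false`; for `h = true` use the
  symmetry of `Rel`). Otherwise `δ n ≤ -N2`. `SYN` at `x`: `g ∈ G` with `N2 ≤ δ (n + disp g x)`; `g x = tw h n' φ'`
  (`map_tw`), `N2 ≤ δ n'`. By the first case `Rel (g x) y'`, `y' = tw (!h) n' φ'`, `Direct (g x) y'` (`twins_direct`).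
  Then `y = g⁻¹ y'` satisfies `Rel x y`, `Direct x y` (`Rel.map`, `Direct.map` with `g⁻¹`) and `y = tw (!h) n'' φ''` (`map_tw`
  for `g⁻¹`). `twin_far` (`|n| ≥ D0`): `n = n''`, `φ = φ''`. So `y = x1`.
* `not_agree_rel`: let `N3` be given, `N = max N3` (the number of `agree_direct`). `x ∈ D`; for `i : ℕ` let `g i ∈ G` with
  `i (w + 1) ≤ disp (g i) x < i (w + 1) + w` (`SYN`); the points `g i x` are different. `exists_ulim` (`Filter.hyperfilter ℕ`):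
  there are `i ≠ j` with `Agree N (g i x) p`, `Agree N (g j x) p`. So `Rel (g i x) (g j x)`, `Direct` (`agree_direct`),
  same line: `direct_eq`: equal, contradiction.
-/

namespace Pool.Agent.helper98.NIG

variable {b : Base} {F : Type}

namespace Sys

theorem agree_direct [Finite F] {A : Sys b F} (hA : A.Reduced) {R w : ℕ} (hR : A.BCon R)
    (hw : A.SYN w) : ∃ N : ℕ, ∀ x ∈ A.D, ∀ x' ∈ A.D, Agree N x x' → A.Rel x x' →
      A.Direct x x' := by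
  obtain ⟨Cs, K, C0, κ, -, -, hLC⟩ := consts hR hw
  obtain ⟨m1, hm1⟩ := Dir_unique hR hw C0
  obtain ⟨B, hB⟩ := rel_drift hA hR hw
  refine ⟨2 * A.ρ * m1 + R + 2 * A.ρ + 2, fun x hx x' hx' hag hrel => ?_⟩
  obtain ⟨σ, hσ, h1⟩ := hB x hx x' hx' hrel
  have d1 : A.Dir C0 m1 σ x x' := rel_dir hR hw hLC hx hx' hrel hσ h1 m1
  have d2 : A.Dir C0 m1 1 x x' :=
    (Dir_of_agree hR hx hx' le_rfl hag).mono (Nat.zero_le _) le_rfl
  have h2 : σ = 1 := hm1 x hx x' m1 le_rfl σ 1 hσ (Or.inl rfl) d1 d2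
  refine ⟨B, fun g hg => ?_⟩
  have h3 := h1 g hg
  rwa [h2, one_mul] at h3

theorem twins_direct [Finite F] {A : Sys b F} (hA : A.Reduced) {R w : ℕ} (hR : A.BCon R)
    (hw : A.SYN w) : ∃ N : ℕ, ∀ (h h' : Bool) (n : ℤ) (φ : F), (N : ℤ) ≤ |n| →
      tw b h n φ ∈ A.D → tw b h' n φ ∈ A.D → A.Rel (tw b h n φ) (tw b h' n φ) →
      A.Direct (tw b h n φ) (tw b h' n φ) := by
  obtain ⟨N, hN⟩ := agree_direct hA hR hw
  refine ⟨N + 1, fun h h' n φ hn hx hx' hrel => hN _ hx _ hx' (agree_tw h h' n φ ?_) hrel⟩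
  push_cast at hn
  linarith

theorem twins_both [Finite F] {A : Sys b F} (hA : A.Reduced) {R w : ℕ} (hR : A.BCon R)
    (hw : A.SYN w) {δ : ℤ} (hδ : δ = 1 ∨ δ = -1) {N1 : ℕ}
    (H : ∀ (n : ℤ) (φ : F), (N1 : ℤ) ≤ δ * n → tw b false n φ ∈ A.D → tw b true n φ ∈ A.D →
      A.Rel (tw b false n φ) (tw b true n φ)) :
    ∃ N2 : ℕ, ∀ (h : Bool) (n : ℤ) (φ : F), (N2 : ℤ) ≤ |n| → tw b h n φ ∈ A.D →
      tw b (!h) n φ ∈ A.D ∧ A.Rel (tw b h n φ) (tw b (!h) n φ) := by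
  obtain ⟨D0, hD0⟩ := twin_far hA hR hw
  obtain ⟨Nd, hNd⟩ := twins_direct hA hR hw
  have hcase : ∀ (h : Bool) (n : ℤ) (φ : F), (N1 : ℤ) ≤ δ * n → tw b h n φ ∈ A.D →
      tw b (!h) n φ ∈ A.D → A.Rel (tw b h n φ) (tw b (!h) n φ) := by
    intro h n φ hn hx hx'
    cases h with
    | false => exact H n φ hn hx hx'
    | true => exact (H n φ hn hx' hx).symm
  refine ⟨N1 + A.ρ + 1 + D0 + Nd, fun h n φ hn hx => ?_⟩
  push_cast at hn
  have hN1 : (0 : ℤ) ≤ N1 := Int.natCast_nonneg _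
  have hρ : (0 : ℤ) ≤ A.ρ := Int.natCast_nonneg _
  have hD00 : (0 : ℤ) ≤ D0 := Int.natCast_nonneg _
  have hNd0 : (0 : ℤ) ≤ Nd := Int.natCast_nonneg _
  have hx1 : tw b (!h) n φ ∈ A.D := A.tw_mem (by linarith) hx
  refine ⟨hx1, ?_⟩
  by_cases hc : (N1 : ℤ) ≤ δ * n
  · exact hcase h n φ hc hx hx1
  -- move to the other side
  obtain ⟨g, hg, hd⟩ : ∃ g ∈ A.G,
      (N1 : ℤ) + A.ρ + 1 + D0 + Nd ≤ δ * (n + disp g (tw b h n φ)) := by
    rcases hδ with rfl | rfl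
    · obtain ⟨g, hg, h1, -⟩ := hw _ hx ((N1 : ℤ) + A.ρ + 1 + D0 + Nd - n)
      exact ⟨g, hg, by linarith⟩
    · obtain ⟨g, hg, -, h2⟩ := hw _ hx (-((N1 : ℤ) + A.ρ + 1 + D0 + Nd) - n - w)
      exact ⟨g, hg, by linarith⟩
  have hgP := A.G_le_PW hg
  have hgx := map_tw hgP h n φ
  obtain ⟨n', hn'⟩ : ∃ n', n' = n + disp g (tw b h n φ) := ⟨_, rfl⟩
  obtain ⟨φ', hφ'⟩ : ∃ φ', φ' = (g (tw b h n φ)).2 := ⟨_, rfl⟩
  rw [← hn'] at hd
  rw [← hn', ← hφ'] at hgx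
  have hn'' : (N1 : ℤ) + A.ρ + 1 + D0 + Nd ≤ |n'| := by
    rcases hδ with rfl | rfl
    · exact hd.trans ((one_mul n').le.trans (le_abs_self n'))
    · exact hd.trans ((neg_one_mul n').le.trans (neg_le_abs n'))
  have hgD : tw b h n' φ' ∈ A.D := by
    rw [← hgx]
    exact A.map_mem hg hx
  have hyD : tw b (!h) n' φ' ∈ A.D := A.tw_mem (by linarith) hgD
  have hrel' := hcase h n' φ' (by linarith) hgD hyD
  have hdir' := hNd h (!h) n' φ' (by linarith) hgD hyD hrel'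
  have hgi := A.G.inv_mem hg
  have hx0 : g⁻¹ (tw b h n' φ') = tw b h n φ := by
    rw [← hgx]
    exact g.symm_apply_apply _
  have hrel := Rel.map hrel' hgi
  have hdir := Direct.map hdir' hgi
  have hgy := map_tw (A.G_le_PW hgi) (!h) n' φ'
  rw [hx0] at hrel hdir
  rw [hgy] at hrel hdir
  have hyD' : tw b (!h) (n' + disp g⁻¹ (tw b (!h) n' φ')) (g⁻¹ (tw b (!h) n' φ')).2 ∈ A.D := by
    rw [← hgy]
    exact A.map_mem hgi hyD
  obtain ⟨e1, e2⟩ := hD0 h n _ φ _ hx hyD' hrel hdir (Or.inl (by linarith))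
  rw [← e1, ← e2] at hrel
  exact hrel

theorem not_agree_rel [Finite F] {A : Sys b F} (hA : A.Reduced) {R w : ℕ} (hR : A.BCon R)
    (hw : A.SYN w) : ¬ ∃ N3 : ℕ, ∀ x ∈ A.D, ∀ x' ∈ A.D, Agree N3 x x' → A.Rel x x' := by
  rintro ⟨N3, H⟩
  obtain ⟨Na, hNa⟩ := agree_direct hA hR hw
  obtain ⟨x, hx⟩ := A.nonempty
  have hg : ∀ i : ℕ, ∃ g ∈ A.G, (i : ℤ) * (w + 1) ≤ disp g x ∧
      disp g x < (i : ℤ) * (w + 1) + w := fun i => hw x hx _
  choose g hgG hg1 hg2 using hg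
  obtain ⟨p, hp⟩ := exists_ulim (Filter.hyperfilter ℕ) fun i => g i x
  obtain ⟨i, hi⟩ := (hp (max N3 Na)).exists
  have hgt : ∀ᶠ j in (Filter.hyperfilter ℕ : Filter ℕ), i < j :=
    (Filter.eventually_gt_atTop i).filter_mono Nat.hyperfilter_le_atTop
  obtain ⟨j, hj, hij⟩ := ((hp (max N3 Na)).and hgt).exists
  have hag : Agree (max N3 Na) (g i x) (g j x) := hi.trans hj.symm
  have hiD := A.map_mem (hgG i) hx
  have hjD := A.map_mem (hgG j) hx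
  have hrel := H _ hiD _ hjD (hag.mono (le_max_left _ _))
  have hdir := hNa _ hiD _ hjD (hag.mono (le_max_right _ _)) hrel
  have hl : SameLine (g i x) (g j x) :=
    sameLine_trans (sameLine_symm (sameLine_of_mem_PW (A.G_le_PW (hgG i)) x))
      (sameLine_of_mem_PW (A.G_le_PW (hgG j)) x)
  have heq := direct_eq hA hiD hjD hl hdir
  have h1 : disp (g i) x = disp (g j) x := L02_disp_congr heq
  have h2 := hg2 i
  have h3 := hg1 j
  have h4 : ((i : ℤ) + 1) * (w + 1) ≤ (j : ℤ) * (w + 1) :=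
    mul_le_mul_of_nonneg_right (by exact_mod_cast hij) (by positivity)
  linarith

end Sys

end Pool.Agent.helper98.NIG
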