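import Pool.Agent.helper2.NIG.L22
import Pool.Agent.helper2.NIG.L23

/-!
# NIG-L24: visible twins exist on both sides (M3)

PROOF of `agree_rel`. Constants: `consts` (`Cs K C0 κ`), `m1` from `Dir_unique` for `C0`; `Q, N', B` from `exists_DR` with
`w1 = w`, `q0 = m1`; `k = K (Q + w + 1)`; `n1` from `half_line`, `nr` from `rel_of_run` (both for `Q`, `w1 = w`);
`n = max N' n1 nr`. Suppose the claim fails: for every `N` there are `x N, x' N ∈ D`, `Agree N (x N) (x' N)`, not `Rel`. Let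
`h N : ℤ → Perm` be a run of `x N` (`exists_run`). By `rel_of_run` there is `m` with `¬ E n (h_m x) (h_m x')`; let `m_N` be such
an `m` with `μ_N = |m_N|` minimal, so `E n (h_m x) (h_m x')` for `|m| < μ_N`.
(1) For `|m| ≤ M`: `h_m ∈ W (M k)` (`Run.step`, `W_inv`); if `N ≥ ρ (M k + n)` then `Agree (ρ n) (h_m x) (h_m x')`
  (`agree_W`), so `E n`. Hence `μ_N → ∞`. In particular `μ_N ≥ 1` for large `N`.
(2) `U = Filter.hyperfilter ℕ`. The sign `s` of `m_N` is constant along `U`. `τ = -s`.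
(3) `a_N = h_{m_N - s} x_N`, `a'_N = h_{m_N - s} x'_N`. As `h_{m_N} = u h_{m_N - s}`, `u ∈ W k`: `¬ E (n + 2 k) a_N a'_N` (`E_map`).
(4) `r^N_j = h_{m_N - s - s j} (h_{m_N - s})⁻¹` for `0 ≤ j ≤ μ_N - 1`: `r^N_0 = 1`, `r^N_j ∈ W (j k)`,
  `|disp (r^N_j) a_N - τ j Q| ≤ w`, `E n (r^N_j a_N) (r^N_j a'_N)`.
(5) `exists_DR` for `(x_N, x'_N)`, `δ = s`, the run `m ↦ h (s m)`, length `μ_N - 1`: the sign is `1` for large `N`
  (`Dir_of_agree`, `Dir_unique`, `Q ≥ m1`), so `|disp (h_{s m}) x'_N - s m Q| ≤ B`. `exists_DR` for `(a_N, a'_N)`, `δ = τ`, `r^N`,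
  length `μ_N - 1`: `|disp (r^N_j) a'_N - σ τ j Q| ≤ B`; for `j = μ_N - 1` the left side is
  `- disp (h_{s (μ_N - 1)}) x'_N`, so `|σ τ j Q - τ j Q| ≤ 2 B`, and `σ = 1` for large `N`. So
  `|disp (r^N_j) a'_N - disp (r^N_j) a_N| ≤ B + w`, and `d_N := disp (h_{m_N - s}) x'_N - disp (h_{m_N - s}) x_N`
  satisfies `|d_N| ≤ B + w`.
(6) Limits `a`, `a'` of `a_N`, `a'_N` along `U` (`exists_ulim`; in `D`); `d_N = d` for almost all `N`; for every `j ≥ 0` there is
  `r_j` with `r^N_j = r_j` for almost all `N` (`W_finite`). `HRun K Q w τ a r` (`r_j = 1` for `j < 0`),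
  `E n (r_j a) (r_j a')`, `¬ E (n + 2 k) a a'` (`ulim_map`, `E_of_agree`), `|disp r_j a' - disp r_j a| ≤ B + w`.
(7) `Al (-d) a.1 a'.1` by `al_ulim_level`: an address `r` of `a_N` gives the address `r + disp .. x_N` of `x_N` (`addr_sh`,
  `pos_spec`), the same for `a'_N`, `x'_N`; `al_window` for `x_N`, `x'_N`.
(8) `half_line` with `B1 = B + w`, `e = -d` and `M` with `M Q ≥ N2 + |n0| + w + ρ k`, where `n0` is the position of `a` if
  `a = tw h0 n0 φ0` is singular (and `n0 = 0` otherwise): `g` with `Al 0 (g a).1 (g a').1` and equal floors. `al_zero`: if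
  `g a = g a'` then `a = a'`, contradiction to `¬ E (n + 2 k) a a'`. Otherwise `g a = tw h m φ`, `g a' = tw (!h) m φ`, so `a` is
  singular, `m = n0 + disp g a` (`map_tw`, `tw_inj`), `|m| ≥ N2` (`HRun.along_far`); by `H` `Rel (g a) (g a')`, so
  `Rel a a'` (`Rel.map`, `g⁻¹`), contradiction.

PROOF of `exists_visible`: by contradiction, `twins_both`, `agree_rel`, `not_agree_rel`.
-/

namespace Pool.Agent.helper98.NIG

variable {b : Base} {F : Type}

namespace Sys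

theorem HRun.mem_W {A : Sys b F} {K Q w1 : ℕ} {τ : ℤ} {x : Pt b F}
    {h : ℤ → Equiv.Perm (Pt b F)} (H : A.HRun K Q w1 τ x h) (j : ℕ) :
    h j ∈ A.W (j * (K * (Q + w1 + 1))) := by
  induction j with
  | zero =>
    rw [Nat.cast_zero, H.zero]
    exact A.one_mem_W _
  | succ j ih =>
    obtain ⟨u, hu, he⟩ := H.step j (by positivity)
    rw [Nat.cast_succ, he]
    exact A.W_mono (by ring_nf; omega) (A.W_mul hu ih)

private theorem L24_first {A : Sys b F} {n : ℕ} {x x' : Pt b F}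
    {h : ℤ → Equiv.Perm (Pt b F)} (hne : ¬ ∀ m : ℤ, A.E n (h m x) (h m x')) :
    ∃ (s : ℤ) (μ : ℕ), (s = 1 ∨ s = -1) ∧ ¬ A.E n (h (s * μ) x) (h (s * μ) x') ∧
      ∀ m : ℤ, m.natAbs < μ → A.E n (h m x) (h m x') := by
  classical
  push Not at hne
  obtain ⟨m0, hm0⟩ := hne
  have hex : ∃ μ : ℕ, ∃ m : ℤ, m.natAbs = μ ∧ ¬ A.E n (h m x) (h m x') := ⟨_, m0, rfl, hm0⟩
  obtain ⟨m, hm, hE⟩ := Nat.find_spec hex
  have hmin : ∀ m : ℤ, m.natAbs < Nat.find hex → A.E n (h m x) (h m x') := by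
    intro m' hm'
    by_contra hc
    exact Nat.find_min hex hm' ⟨m', rfl, hc⟩
  rcases le_total 0 m with h0 | h0
  · refine ⟨1, Nat.find hex, Or.inl rfl, ?_, hmin⟩
    have : (1 : ℤ) * (Nat.find hex : ℤ) = m := by omega
    rw [this]
    exact hE
  · refine ⟨-1, Nat.find hex, Or.inr rfl, ?_, hmin⟩
    have : (-1 : ℤ) * (Nat.find hex : ℤ) = m := by omega
    rw [this]
    exact hE

private theorem L24_step {A : Sys b F} {K Q w1 : ℕ} {x : Pt b F} {h : ℤ → Equiv.Perm (Pt b F)}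
    (H : A.Run K Q w1 x h) {s : ℤ} (hs : s = 1 ∨ s = -1) (m : ℤ) :
    ∃ u ∈ A.W (K * (Q + w1 + 1)), h (m + s) = u * h m := by
  rcases hs with rfl | rfl
  · exact H.step m
  · obtain ⟨u, hu, he⟩ := H.step (m + -1)
    refine ⟨u⁻¹, A.W_inv hu, ?_⟩
    have : m + -1 + 1 = m := by ring
    rw [this] at he
    rw [he, inv_mul_cancel_left]

private theorem L24_inv_apply {α : Type*} (g : Equiv.Perm α) (x : α) : g⁻¹ (g x) = x :=
  g.symm_apply_apply x

private theorem L24_key [Finite F] {A : Sys b F} {R w K C0 Q N' B n m1 : ℕ} (hR : A.BCon R)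
    (hw : A.SYN w) (hK : A.CONN K) (hQ : 0 < Q) (hm1 : m1 ≤ Q)
    (hU : ∀ x ∈ A.D, ∀ y : Pt b F, ∀ m : ℕ, m1 ≤ m → ∀ σ σ' : ℤ, (σ = 1 ∨ σ = -1) →
      (σ' = 1 ∨ σ' = -1) → A.Dir C0 m σ x y → A.Dir C0 m σ' x y → σ = σ')
    (hDR : A.DR K Q N' w C0 B) (hN' : N' ≤ n)
    (hr : ∀ x ∈ A.D, ∀ y ∈ A.D, ∀ h : ℤ → Equiv.Perm (Pt b F), A.Run K Q w x h →
      (∀ m : ℤ, A.E n (h m x) (h m y)) → A.Rel x y) (M : ℕ) :
    ∃ N0 : ℕ, ∀ x ∈ A.D, ∀ x' ∈ A.D, Agree N0 x x' → ¬ A.Rel x x' →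
      ∃ (τ : ℤ) (g : Equiv.Perm (Pt b F)) (r : ℤ → Equiv.Perm (Pt b F)), (τ = 1 ∨ τ = -1) ∧
        g ∈ A.G ∧ A.HRun K Q w τ (g x) r ∧
        (∀ j : ℤ, 0 ≤ j → j ≤ M → A.E n (r j (g x)) (r j (g x'))) ∧
        ¬ A.E (n + 2 * (K * (Q + w + 1))) (g x) (g x') ∧
        |disp g x' - disp g x| ≤ ((B + w : ℕ) : ℤ) ∧
        ∀ j : ℤ, 0 ≤ j → j ≤ M → |disp (r j) (g x') - disp (r j) (g x)| ≤ ((B + w : ℕ) : ℤ) := by
  obtain ⟨k, hk⟩ : ∃ k : ℕ, K * (Q + w + 1) = k := ⟨_, rfl⟩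
  refine ⟨max (A.ρ * (n + 2 * ((M + B + 2) * k))) (2 * A.ρ * Q + R + 2 * A.ρ + 2), ?_⟩
  intro x hx x' hx' hag hnr
  obtain ⟨h, hh⟩ := exists_run hw hK Q hx
  obtain ⟨s, μ, hs, hnE, hmin⟩ := L24_first (fun hc => hnr (hr x hx x' hx' h hh hc))
  have hH := hh.hrun hs
  have hss : s * s = 1 := by rcases hs with rfl | rfl <;> norm_num
  have hsneg : -s = 1 ∨ -s = -1 := by rcases hs with rfl | rfl <;> simp
  -- `μ` is large
  have hμ : M + B + 2 < μ := by
    by_contra hc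
    push Not at hc
    apply hnE
    have h1 : A.E (n + 2 * ((M + B + 2) * k)) x x' :=
      E_of_agree le_rfl (hag.mono (le_max_left _ _))
    have h2 := hH.mem_W μ
    rw [hk] at h2
    exact E_map h1 (A.W_mono (Nat.mul_le_mul_right k hc) h2)
  obtain ⟨L, rfl⟩ : ∃ L, μ = L + 1 := ⟨μ - 1, by omega⟩
  have hL : M + B + 2 ≤ L := by omega
  set g := h (s * L) with hg
  have hgG : g ∈ A.G := hh.mem _
  have hPW : ∀ m, h m ∈ PW b F := fun m => A.G_le_PW (hh.mem m)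
  let r : ℤ → Equiv.Perm (Pt b F) := fun j => h (s * (L - j)) * g⁻¹
  have hrj : ∀ j (z : Pt b F), r j (g z) = h (s * (L - j)) z := by
    intro j z
    show h (s * (L - j)) (g⁻¹ (g z)) = _
    rw [L24_inv_apply]
  have hdrj : ∀ j (z : Pt b F), disp (r j) (g z) = disp (h (s * (L - j))) z - disp g z := by
    intro j z
    show disp (h (s * (L - j)) * g⁻¹) (g z) = _
    rw [disp_mul (hPW _) ((PW b F).inv_mem (hPW _)), L24_inv_apply, disp_inv (hPW _)]
    ring
  have hr0 : r 0 = 1 := by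
    show h (s * (L - 0)) * g⁻¹ = 1
    rw [sub_zero, ← hg, mul_inv_cancel]
  have hgx : |disp g x - s * L * Q| ≤ w := hH.near L (by positivity)
  have hrun : A.HRun K Q w (-s) (g x) r := by
    refine ⟨hr0, fun m _ => A.G.mul_mem (hh.mem _) (A.G.inv_mem hgG), ?_, ?_⟩
    · intro m _
      rw [hdrj]
      have e1 := hh.low (s * (L - m))
      have e2 := hh.up (s * (L - m))
      have e3 := hh.low (s * L)
      have e4 := hh.up (s * L)
      rw [← hg] at e3 e4
      rw [abs_le]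
      constructor
      · linarith
      · linarith
    · intro m _
      obtain ⟨u, hu, he⟩ := L24_step hh hsneg (s * (L - m))
      refine ⟨u, hu, ?_⟩
      show h (s * (L - (m + 1))) * g⁻¹ = u * (h (s * (L - m)) * g⁻¹)
      have e : s * ((L : ℤ) - (m + 1)) = s * (L - m) + -s := by ring
      rw [e, he, mul_assoc]
  -- the first application of `DR`
  obtain ⟨σ, hσ, hDir, hσb⟩ := hDR s hs x hx x' hx' L (fun j : ℕ => h (s * j))
    (fun m _ => hh.mem _) (fun m _ => hH.near m (by positivity))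
    (fun m _ => by
      obtain ⟨u, hu, he⟩ := hH.step m (by positivity)
      exact ⟨u, hu, by push_cast; exact he⟩)
    (fun m hm => E_mono hN' (hmin _ (by
      rcases hs with rfl | rfl <;> omega)))
  have h00 : h (s * ((0 : ℕ) : ℤ)) = 1 := by rw [Nat.cast_zero, mul_zero, hh.zero]
  have hσ1 : σ = 1 := by
    have hD : A.Dir C0 Q 1 x x' :=
      (Dir_of_agree hR hx hx' (m := Q) (le_max_right _ _) hag).mono (Nat.zero_le _) le_rfl
    simp only [h00] at hDir
    exact hU x hx x' Q hm1 σ 1 hσ (Or.inl rfl) hDir hD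
  subst hσ1
  have hgx' : |disp g x' - s * L * Q| ≤ B := by
    have := hσb L le_rfl
    simp only [h00, disp_one] at this
    rw [← hg, sub_zero, one_mul] at this
    exact this
  -- the second application of `DR`
  obtain ⟨σ', hσ', -, hσb'⟩ := hDR (-s) hsneg (g x) (A.map_mem hgG hx) (g x') (A.map_mem hgG hx')
    L (fun j : ℕ => r j) (fun m _ => hrun.mem m (by positivity))
    (fun m _ => hrun.near m (by positivity))
    (fun m _ => by
      obtain ⟨u, hu, he⟩ := hrun.step m (by positivity)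
      exact ⟨u, hu, by push_cast; exact he⟩)
    (fun m hm => by
      show A.E N' (r m (g x)) (r m (g x'))
      rw [hrj, hrj]
      exact E_mono hN' (hmin _ (by
        rcases hs with rfl | rfl <;> omega)))
  have hσ1' : σ' = 1 := by
    rcases hσ' with h1 | h1
    · exact h1
    · exfalso
      have e1 := hσb' L le_rfl
      simp only [Nat.cast_zero, hr0, disp_one, hdrj, sub_self, mul_zero, hh.zero] at e1
      rw [h1] at e1
      have e2 : |(2 : ℤ) * (s * L * Q)| ≤ 2 * B := by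
        have e3 := abs_add_le (disp g x' - s * L * Q)
          (0 - disp g x' - 0 - -1 * -s * L * Q)
        have e4 : disp g x' - s * L * Q + (0 - disp g x' - 0 - -1 * -s * L * Q) =
          -(2 * (s * L * Q)) := by ring
        rw [e4, abs_neg] at e3
        linarith
      have e5 : |(2 : ℤ) * (s * L * Q)| = 2 * (L * Q) := by
        have e6 : |s| = 1 := by rcases hs with rfl | rfl <;> simp
        rw [abs_mul, abs_mul, abs_mul, e6, Nat.abs_cast, Nat.abs_cast]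
        norm_num
      have e7 : (L : ℤ) ≤ L * Q := le_mul_of_one_le_right (by positivity) (by exact_mod_cast hQ)
      have e8 : (M : ℤ) + B + 2 ≤ L := by exact_mod_cast hL
      have e9 : (0 : ℤ) ≤ M := by positivity
      linarith
  subst hσ1'
  refine ⟨-s, g, r, hsneg, hgG, hrun, ?_, ?_, ?_, ?_⟩
  · intro j hj0 hjM
    rw [hrj, hrj]
    refine hmin _ ?_
    have : (M : ℤ) + B + 2 ≤ L := by exact_mod_cast hL
    rcases hs with rfl | rfl <;> omega
  · intro hE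
    apply hnE
    obtain ⟨u, hu, he⟩ := L24_step hh hs (s * L)
    have e : s * ((L + 1 : ℕ) : ℤ) = s * L + s := by push_cast; ring
    rw [e, he]
    exact E_map hE hu
  · rw [abs_le] at hgx hgx' ⊢
    push_cast
    constructor <;> linarith [hgx.1, hgx.2, hgx'.1, hgx'.2]
  · intro j hj0 hjM
    lift j to ℕ using hj0
    have e1 := hσb' j (by omega)
    simp only [Nat.cast_zero, hr0, disp_one] at e1
    have e2 := hrun.near j (by positivity)
    rw [abs_le] at e1 e2 ⊢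
    push_cast
    constructor <;> linarith [e1.1, e1.2, e2.1, e2.2]

private theorem L24_const {ι α : Type*} (U : Ultrafilter ι) {s : Set α} (hs : s.Finite)
    (f : ι → α) (hf : ∀ i, f i ∈ s) : ∃ a, ∀ᶠ i in (U : Filter ι), f i = a := by
  have h1 : (⋃ a ∈ s, f ⁻¹' {a}) ∈ U := by
    have : (⋃ a ∈ s, f ⁻¹' {a}) = Set.univ := by
      ext i
      simp [hf i]
    rw [this]
    exact Filter.univ_mem
  obtain ⟨a, -, ha⟩ := (Ultrafilter.finite_biUnion_mem_iff hs).1 h1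
  exact ⟨a, ha⟩

theorem agree_rel [Finite F] {A : Sys b F} (hA : A.Reduced) {R w : ℕ} (hR : A.BCon R)
    (hw : A.SYN w) {N2 : ℕ} (H : ∀ (h : Bool) (n : ℤ) (φ : F), (N2 : ℤ) ≤ |n| →
      tw b h n φ ∈ A.D → tw b (!h) n φ ∈ A.D ∧ A.Rel (tw b h n φ) (tw b (!h) n φ)) :
    ∃ N3 : ℕ, ∀ x ∈ A.D, ∀ x' ∈ A.D, Agree N3 x x' → A.Rel x x' := by
  obtain ⟨Cs, K, C0, κ, hC, hK, hLC⟩ := consts hR hw
  obtain ⟨m1, hm1⟩ := Dir_unique hR hw C0
  obtain ⟨Q, N', B, hq, hQ, hDR⟩ := exists_DR hA hR hw hC hK hLC w m1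
  obtain ⟨n1, h1⟩ := half_line hA hR hw hC hK Q w hQ
  obtain ⟨nr, hr⟩ := rel_of_run hR hw hK Q w hQ
  obtain ⟨k, hk⟩ : ∃ k : ℕ, K * (Q + w + 1) = k := ⟨_, rfl⟩
  obtain ⟨n, hn⟩ : ∃ n : ℕ, n = max N' (max n1 nr) := ⟨_, rfl⟩
  have hnN' : N' ≤ n := hn ▸ le_max_left _ _
  have hn1 : n1 ≤ n := hn ▸ (le_max_left _ _).trans (le_max_right _ _)
  have hnr : nr ≤ n := hn ▸ (le_max_right _ _).trans (le_max_right _ _)
  by_contra hcon
  push Not at hcon
  -- the sequences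
  have key : ∀ M : ℕ, ∃ (x x' : Pt b F) (τ : ℤ) (g : Equiv.Perm (Pt b F))
      (r : ℤ → Equiv.Perm (Pt b F)), x ∈ A.D ∧ x' ∈ A.D ∧ Agree M x x' ∧
        (τ = 1 ∨ τ = -1) ∧ g ∈ A.G ∧ A.HRun K Q w τ (g x) r ∧
        (∀ j : ℤ, 0 ≤ j → j ≤ M → A.E n (r j (g x)) (r j (g x'))) ∧
        ¬ A.E (n + 2 * (K * (Q + w + 1))) (g x) (g x') ∧
        |disp g x' - disp g x| ≤ ((B + w : ℕ) : ℤ) ∧
        ∀ j : ℤ, 0 ≤ j → j ≤ M →
          |disp (r j) (g x') - disp (r j) (g x)| ≤ ((B + w : ℕ) : ℤ) := by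
    intro M
    obtain ⟨N0, hN0⟩ := L24_key hR hw hK hQ hq hm1 hDR hnN'
      (fun x hx y hy h hh hE => hr x hx y hy h hh (fun m => E_mono hnr (hE m))) M
    obtain ⟨x, hx, x', hx', hag, hne⟩ := hcon (max N0 M)
    obtain ⟨τ, g, r, p1, p2, p3, p4, p5, p6, p7⟩ :=
      hN0 x hx x' hx' (hag.mono (le_max_left _ _)) hne
    exact ⟨x, x', τ, g, r, hx, hx', hag.mono (le_max_right _ _), p1, p2, p3, p4, p5, p6, p7⟩
  choose x x' τ g r hx hx' hag hτ hgG hrun hE hnE hd hdr using key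
  set U : Ultrafilter ℕ := Filter.hyperfilter ℕ with hUdef
  have hUtop : ∀ M : ℕ, ∀ᶠ i in (U : Filter ℕ), M ≤ i := fun M =>
    Filter.Tendsto.eventually (f := id) (l₂ := Filter.atTop)
      (by rw [hUdef]; exact Nat.hyperfilter_le_atTop) (Filter.eventually_ge_atTop M)
  -- limits
  obtain ⟨a, ha⟩ := exists_ulim U (fun i => g i (x i))
  obtain ⟨a', ha'⟩ := exists_ulim U (fun i => g i (x' i))
  have haD : a ∈ A.D :=
    A.mem_D_of_ulim ha (Filter.Eventually.of_forall fun i => A.map_mem (hgG i) (hx i))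
  have haD' : a' ∈ A.D :=
    A.mem_D_of_ulim ha' (Filter.Eventually.of_forall fun i => A.map_mem (hgG i) (hx' i))
  obtain ⟨t, ht⟩ := L24_const U (s := ({1, -1} : Set ℤ)) (by simp) τ (by
    intro i
    simpa using hτ i)
  have htt : t = 1 ∨ t = -1 := by
    obtain ⟨i, hi⟩ := ht.exists
    rw [← hi]
    exact hτ i
  obtain ⟨d, hdd⟩ := L24_const U (s := Set.Icc (-((B + w : ℕ) : ℤ)) ((B + w : ℕ) : ℤ))
    (Set.finite_Icc _ _) (fun i => disp (g i) (x' i) - disp (g i) (x i))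
    (fun i => abs_le.1 (hd i))
  have hex : ∀ j : ℤ, ∃ q : Equiv.Perm (Pt b F), 0 ≤ j → ∀ᶠ i in (U : Filter ℕ), r i j = q := by
    intro j
    by_cases hj : 0 ≤ j
    · lift j to ℕ using hj
      obtain ⟨q, hq⟩ := L24_const U (A.W_finite (j * (K * (Q + w + 1)))) (fun i => r i j)
        (fun i => (hrun i).mem_W j)
      exact ⟨q, fun _ => hq⟩
    · exact ⟨1, fun h => absurd h hj⟩
  choose q hqr using hex
  have hqG : ∀ j : ℤ, 0 ≤ j → q j ∈ A.G := by
    intro j hj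
    obtain ⟨i, hi⟩ := (hqr j hj).exists
    rw [← hi]
    exact (hrun i).mem j hj
  -- displacements in the limit
  have hdisp : ∀ f ∈ A.G, ∀ᶠ i in (U : Filter ℕ),
      disp f (g i (x i)) = disp f a ∧ disp f (g i (x' i)) = disp f a' := by
    intro f hf
    obtain ⟨m, hm⟩ := A.exists_W hf
    filter_upwards [ha (A.ρ * m), ha' (A.ρ * m)] with i e1 e2
    exact ⟨disp_eq_of_agree (A.W_isPW hm) e1, disp_eq_of_agree (A.W_isPW hm) e2⟩
  have hrunL : A.HRun K Q w t a q := by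
    refine ⟨?_, hqG, ?_, ?_⟩
    · obtain ⟨i, hi⟩ := (hqr 0 le_rfl).exists
      rw [← hi]
      exact (hrun i).zero
    · intro m hm
      obtain ⟨i, hi1, hi2, hi3⟩ := ((hqr m hm).and (ht.and (hdisp _ (hqG m hm)))).exists
      have := (hrun i).near m hm
      rw [hi1, hi2, hi3.1] at this
      exact this
    · intro m hm
      obtain ⟨i, hi1, hi2⟩ := ((hqr m hm).and (hqr (m + 1) (by omega))).exists
      obtain ⟨u, hu, he⟩ := (hrun i).step m hm
      rw [hi1, hi2] at he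
      exact ⟨u, hu, he⟩
  have hEL : ∀ j : ℤ, 0 ≤ j → A.E n (q j a) (q j a') := by
    intro j hj
    have e1 := ulim_map (A.G_le_PW (hqG j hj)) ha (A.ρ * n)
    have e2 := ulim_map (A.G_le_PW (hqG j hj)) ha' (A.ρ * n)
    obtain ⟨i, hi1, hi2, hi3, hi4⟩ :=
      ((hqr j hj).and (e1.and (e2.and (hUtop j.toNat)))).exists
    have e3 := hE i j hj (by omega)
    rw [hi1] at e3
    exact E_trans (E_symm (E_of_agree le_rfl hi2)) (E_trans e3 (E_of_agree le_rfl hi3))
  have hnEL : ¬ A.E (n + 2 * (K * (Q + w + 1))) a a' := by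
    intro hc
    obtain ⟨i, hi1, hi2⟩ := ((ha (A.ρ * (n + 2 * (K * (Q + w + 1))))).and
      (ha' (A.ρ * (n + 2 * (K * (Q + w + 1)))))).exists
    exact hnE i (E_trans (E_of_agree le_rfl hi1) (E_trans hc (E_symm (E_of_agree le_rfl hi2))))
  have hdL : ∀ j : ℤ, 0 ≤ j → |disp (q j) a' - disp (q j) a| ≤ ((B + w : ℕ) : ℤ) := by
    intro j hj
    obtain ⟨i, hi1, hi2, hi3⟩ :=
      ((hqr j hj).and ((hdisp _ (hqG j hj)).and (hUtop j.toNat))).exists
    have e3 := hdr i j hj (by omega)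
    rw [hi1, hi2.1, hi2.2] at e3
    exact e3
  -- alignment
  have hal : Al (-d) a.1 a'.1 := by
    refine al_ulim_level ha ha' ?_
    intro J hJ
    obtain ⟨N, hN⟩ := al_window (b := b) hJ
    filter_upwards [hUtop N, hdd] with i e1 e2 s s' hs hs'
    have e3 := pos_spec (sameLine_of_mem_PW (A.G_le_PW (hgG i)) (x i))
    have e4 := pos_spec (sameLine_of_mem_PW (A.G_le_PW (hgG i)) (x' i))
    rw [e3] at hs
    rw [e4] at hs'
    have f1 : Addr (x i).1 J (s + disp (g i) (x i)) := by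
      rw [← addr_sh (n := disp (g i) (x i)), add_sub_cancel_right]
      exact hs
    have f2 : Addr (x' i).1 J (s' + disp (g i) (x' i)) := by
      rw [← addr_sh (n := disp (g i) (x' i)), add_sub_cancel_right]
      exact hs'
    have f3 := hN (x i).1 (x' i).1 ((hag i).mono e1).2 _ _ f1 f2
    have f4 : s' - s - -d = s' + disp (g i) (x' i) - (s + disp (g i) (x i)) := by
      rw [← e2]
      ring
    rw [f4]
    exact f3
  have hnrel : ¬ A.Rel a a' := fun hc => hnEL (rel_iff.1 hc _)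
  -- the half line
  have hhl := h1 t htt a haD a' haD' q hrunL (fun m hm => E_mono hn1 (hEL m hm)) (B + w) hdL
    (-d) hal
  -- a point on the run where the two are equal or twins
  have hfin : ∀ f ∈ A.G, Al 0 (f a).1 (f a').1 → (f a).2 = (f a').2 →
      ∃ (m : ℤ) (h : Bool) (φ : F), f a = tw b h m φ ∧ f a' = tw b (!h) m φ := by
    intro f hf hal0 hfl
    rcases al_zero hal0 with he | ⟨m, h, e1, e2⟩
    · exfalso
      have : f a = f a' := Prod.ext he hfl
      have h3 : a = a' := f.injective this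
      apply hnEL
      rw [h3]
      exact A.E_refl _ _
    · exact ⟨m, h, (f a).2, Prod.ext e1 rfl, Prod.ext e2 hfl.symm⟩
  obtain ⟨f0, hf0, hf01, hf02⟩ := hhl 0
  have hf0G := hrunL.along_mem hf0
  obtain ⟨m0, h0, φ0, e0, -⟩ := hfin f0 hf0G hf01 hf02
  -- the position of `a`
  obtain ⟨n0, ψ0, hpos⟩ : ∃ (n0 : ℤ) (ψ0 : F), a = tw b h0 n0 ψ0 := by
    have := map_tw (A.G_le_PW (A.G.inv_mem hf0G)) h0 m0 φ0
    rw [← e0, L24_inv_apply] at this
    exact ⟨_, _, this⟩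
  obtain ⟨f, hf, hf1, hf2⟩ := hhl (N2 + n0.natAbs + w + A.ρ * (K * (Q + w + 1)))
  have hfG := hrunL.along_mem hf
  obtain ⟨m, h, φ, e1, e2⟩ := hfin f hfG hf1 hf2
  have hfar := hrunL.along_far htt hf
  have hm : m = n0 + disp f a := by
    have h3 := map_tw (A.G_le_PW hfG) h0 n0 ψ0
    rw [← hpos, e1] at h3
    have h4 := (tw_inj h3).2.1
    rw [h4]
  have hmN : (N2 : ℤ) ≤ |m| := by
    have g1 : |t * disp f a| = |disp f a| := by
      rcases htt with rfl | rfl <;> simp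
    have g2 := le_abs_self (t * disp f a)
    have g3 : |disp f a| - |n0| ≤ |m| := by
      rw [hm]
      have := abs_sub_abs_le_abs_sub (n0 + disp f a) n0
      have g4 := abs_sub_abs_le_abs_sub (disp f a) (-n0)
      rw [abs_neg] at g4
      have g5 : disp f a - -n0 = n0 + disp f a := by ring
      rw [g5] at g4
      exact g4
    have g6 : ((N2 + n0.natAbs + w + A.ρ * (K * (Q + w + 1)) : ℕ) : ℤ) ≤
        ((N2 + n0.natAbs + w + A.ρ * (K * (Q + w + 1)) : ℕ) : ℤ) * Q :=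
      le_mul_of_one_le_right (by positivity) (by exact_mod_cast hQ)
    have g7 : ((n0.natAbs : ℕ) : ℤ) = |n0| := Int.natCast_natAbs n0
    push_cast at g6 hfar
    rw [g7] at *
    linarith
  have hD1 : tw b h m φ ∈ A.D := e1 ▸ A.map_mem hfG haD
  have hrel := (H h m φ hmN hD1).2
  rw [← e1, ← e2] at hrel
  have := hrel.map (A.G.inv_mem hfG)
  rw [L24_inv_apply, L24_inv_apply] at this
  exact hnrel this

/-- M3: there are visible twins on both sides, arbitrarily far from the hole -/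
theorem exists_visible [Finite F] {A : Sys b F} (hA : A.Reduced) {R w : ℕ} (hR : A.BCon R)
    (hw : A.SYN w) {δ : ℤ} (hδ : δ = 1 ∨ δ = -1) (N : ℕ) : ∃ (n : ℤ) (φ : F), (N : ℤ) ≤ δ * n ∧
      tw b false n φ ∈ A.D ∧ tw b true n φ ∈ A.D ∧
      ¬ A.Rel (tw b false n φ) (tw b true n φ) := by
  by_contra hcon
  push Not at hcon
  obtain ⟨N2, hN2⟩ := twins_both hA hR hw hδ (N1 := N) hcon
  exact not_agree_rel hA hR hw (agree_rel hA hR hw hN2)

end Sys

end Pool.Agent.helper98.NIG
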