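import Pool.Agent.helper2.NIG.L16

/-!
# NIG-L25: one-sided inclusion of stabilisers implies equality

PROOFS.
* `int_seq`: suppose `L < |p m|` for all `m`. The sign of `p m` is constant (one step changes `p` by at most `L`); replacing `p` by
  `-p` we may assume `L < p m` for all `m`. Let `q = m1 + 1`. Suppose `p q ≤ p (-q)` (the other case: replace `p` by
  `m ↦ p (-m)`). As `{m | |p m| ≤ p (-q)}` is finite there is `m > q` with `p (-q) < p m`; take the least one (`Nat.find` on
  `m = q + t`). Then `p (m-1) ≤ p (-q) < p m ≤ p (-q) + L`. So `|p m - p (-q)| ≤ L` and `|m + q| > m1`: contradiction.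
* `fibre_bound`: `K` from `conn_W`; `Q = w + 1`, `k = K (Q + w + 1)`, `L = ρ k`, `L' = ρ K (L + 1)`, `m1 = L' + w`,
  `T = L + m1 L`. Let `h` be a run of `y` (`exists_run`, `Q`), `z = a x`, `u m = h m z`, `p m = pos x (u m) = disp (h m * a) x`.
  (F1) `|p (m+1) - p m| ≤ L` (`Run.step`, `abs_disp_W`).
  (F2) if `u m = v (u m')` with `v ∈ G` then `h m y = v (h m' y)`: the element `(h m * a)⁻¹ * v * h m' * a` fixes `x`, so it
    fixes `y`, and `a y = y`. In the same way `u m = v x` implies `h m y = v y`.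
  (F3) if `|p m - p m'| ≤ L` then `CONN` at `u m'` gives `v ∈ W (K (L + 1))` with `u m = v (u m')`, so
    `|disp (h m) y - disp (h m') y| ≤ L'` and `|m - m'| ≤ |m - m'| Q ≤ L' + w = m1`.
  (F4) `{m | |p m| ≤ P}` is finite: `m ↦ u m` is injective (`u m = u m'` implies `h m y = h m' y`, so
    `|m - m'| Q < w`), and `u m` is one of the finitely many points `(sh q x.1, φ)`, `|q| ≤ P`.
  `int_seq`: there is `m` with `|p m| ≤ L`. `CONN` at `x`: `u m = v x`, `v ∈ W (K (L + 1))`, so `h m y = v y`,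
  `|disp (h m) y| ≤ L'`, `|m| ≤ m1`. Then `|p 0| ≤ |p m| + |m| L ≤ T` by (F1), and `p 0 = disp a x`.
* `rel_of_le`: let `a ∈ G`, `a y = y`. For `l ∈ G` the pair `(l x, l y)` satisfies the same hypothesis, and `l a l⁻¹` fixes
  `l y`; `pos (l x) (l (a x)) = disp (l a l⁻¹) (l x)` is at most `T` in absolute value. `A.Reduced` gives `x = a x`.
-/

namespace Pool.Agent.helper98.NIG

variable {b : Base} {F : Type}

private theorem int_core (p : ℤ → ℤ) (L m1 : ℕ) (h1 : ∀ m, |p (m + 1) - p m| ≤ L)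
    (h2 : ∀ P : ℤ, {m : ℤ | |p m| ≤ P}.Finite)
    (h3 : ∀ m m', |p m - p m'| ≤ L → |m - m'| ≤ m1) (hp : ∀ m, 0 < p m)
    (hq : p ((m1 : ℤ) + 1) ≤ p (-((m1 : ℤ) + 1))) : False := by
  classical
  have hex : ∃ t : ℕ, p (-((m1 : ℤ) + 1)) < p ((m1 : ℤ) + 1 + t) := by
    by_contra hcon
    push Not at hcon
    have h4 := h2 (p (-((m1 : ℤ) + 1)))
    refine Set.infinite_of_injective_forall_mem (f := fun t : ℕ => ((m1 : ℤ) + 1 + t)) ?_ ?_ h4
    · intro a b hab
      simpa using hab
    · intro t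
      change |p _| ≤ _
      rw [abs_of_pos (hp _)]
      exact hcon t
  have ht := Nat.find_spec hex
  have hmin := fun (k : ℕ) (hk : k < Nat.find hex) => Nat.find_min hex hk
  generalize Nat.find hex = t at ht hmin
  have ht0 : t ≠ 0 := by
    intro h0
    rw [h0, Nat.cast_zero, add_zero] at ht
    linarith
  obtain ⟨k, rfl⟩ := Nat.exists_eq_succ_of_ne_zero ht0
  have h5 := hmin k (by omega)
  have h6 := abs_le.1 (h1 ((m1 : ℤ) + 1 + k))
  have e : (m1 : ℤ) + 1 + k + 1 = (m1 : ℤ) + 1 + ((k.succ : ℕ) : ℤ) := by push_cast; ring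
  rw [e] at h6
  have h7 : |p ((m1 : ℤ) + 1 + ((k.succ : ℕ) : ℤ)) - p (-((m1 : ℤ) + 1))| ≤ L := by
    rw [abs_le]
    constructor <;> linarith [h6.2]
  have h8 := (abs_le.1 (h3 _ _ h7)).2
  push_cast at h8
  linarith [Int.natCast_nonneg m1, Int.natCast_nonneg k]

private theorem int_pos (p : ℤ → ℤ) (L m1 : ℕ) (h1 : ∀ m, |p (m + 1) - p m| ≤ L)
    (h2 : ∀ P : ℤ, {m : ℤ | |p m| ≤ P}.Finite)
    (h3 : ∀ m m', |p m - p m'| ≤ L → |m - m'| ≤ m1) (hp : ∀ m, 0 < p m) : False := by
  rcases le_total (p ((m1 : ℤ) + 1)) (p (-((m1 : ℤ) + 1))) with hq | hq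
  · exact int_core p L m1 h1 h2 h3 hp hq
  · refine int_core (fun m => p (-m)) L m1 ?_ ?_ ?_ (fun m => hp _) ?_
    · intro m
      have := h1 (-(m + 1))
      rw [abs_sub_comm] at this
      have e : -(m + 1) + 1 = -m := by ring
      rw [e] at this
      exact this
    · intro P
      exact (h2 P).preimage (f := fun m : ℤ => -m) neg_injective.injOn
    · intro m m' h
      have := h3 _ _ h
      rw [abs_sub_comm] at this
      have e : -m' - -m = m - m' := by ring
      rw [e] at this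
      exact this
    · rw [neg_neg]
      exact hq

theorem int_seq (p : ℤ → ℤ) (L m1 : ℕ) (h1 : ∀ m, |p (m + 1) - p m| ≤ L)
    (h2 : ∀ P : ℤ, {m : ℤ | |p m| ≤ P}.Finite)
    (h3 : ∀ m m', |p m - p m'| ≤ L → |m - m'| ≤ m1) : ∃ m, |p m| ≤ L := by
  by_contra hcon
  push Not at hcon
  have key : ∀ p : ℤ → ℤ, (∀ m, |p (m + 1) - p m| ≤ L) → (∀ m, (L : ℤ) < |p m|) → 0 < p 0 →
      ∀ m, 0 < p m := by
    intro p h1 hL h0 m
    induction m using Int.induction_on with
    | zero => exact h0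
    | succ m ih =>
      have h4 := abs_le.1 (h1 m)
      have h5 := hL m
      have h6 := hL (m + 1)
      rw [abs_of_pos ih] at h5
      by_contra hc
      rw [abs_of_nonpos (not_lt.1 hc)] at h6
      linarith [h4.1, Int.natCast_nonneg L]
    | pred m ih =>
      have h4 := h1 (-(m : ℤ) - 1)
      rw [sub_add_cancel] at h4
      have h4 := abs_le.1 h4
      have h5 := hL (-(m : ℤ))
      have h6 := hL (-(m : ℤ) - 1)
      rw [abs_of_pos ih] at h5
      by_contra hc
      rw [abs_of_nonpos (not_lt.1 hc)] at h6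
      linarith [h4.2, Int.natCast_nonneg L]
  have h0 : p 0 ≠ 0 := by
    intro h
    have := hcon 0
    rw [h, abs_zero] at this
    linarith [Int.natCast_nonneg L]
  rcases lt_or_gt_of_ne h0 with h | h
  · refine int_pos (fun m => - p m) L m1 ?_ ?_ ?_ (key (fun m => - p m) ?_ ?_ (neg_pos.2 h))
    · intro m
      have := h1 m
      rw [abs_sub_comm] at this
      have e : p m - p (m + 1) = - p (m + 1) - - p m := by ring
      rw [e] at this
      exact this
    · intro P
      simp only [abs_neg]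
      exact h2 P
    · intro m m' h
      refine h3 m m' ?_
      rw [abs_sub_comm]
      have e : p m' - p m = - p m - - p m' := by ring
      rw [e]
      exact h
    · intro m
      have := h1 m
      rw [abs_sub_comm] at this
      have e : p m - p (m + 1) = - p (m + 1) - - p m := by ring
      rw [e] at this
      exact this
    · intro m
      rw [abs_neg]
      exact hcon m
  · exact int_pos p L m1 h1 h2 h3 (key p h1 hcon h)

private theorem int_drift (p : ℤ → ℤ) (L : ℕ) (h1 : ∀ m, |p (m + 1) - p m| ≤ L) (m : ℤ) :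
    |p m - p 0| ≤ |m| * L := by
  induction m using Int.induction_on with
  | zero => simp
  | succ m ih =>
    have h2 := h1 m
    have h3 := abs_add_le (p (m + 1) - p m) (p m - p 0)
    have e : p ((m : ℤ) + 1) - p m + (p m - p 0) = p (m + 1) - p 0 := by ring
    rw [e] at h3
    have e2 : |(m : ℤ)| = m := abs_of_nonneg (by positivity)
    have e3 : |(m : ℤ) + 1| = m + 1 := abs_of_nonneg (by positivity)
    rw [e2] at ih
    rw [e3]
    linarith
  | pred m ih =>
    have h2 := h1 (-(m : ℤ) - 1)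
    rw [sub_add_cancel, abs_sub_comm] at h2
    have h3 := abs_add_le (p (-(m : ℤ) - 1) - p (-(m : ℤ))) (p (-(m : ℤ)) - p 0)
    have e : p (-(m : ℤ) - 1) - p (-(m : ℤ)) + (p (-(m : ℤ)) - p 0) = p (-(m : ℤ) - 1) - p 0 := by
      ring
    rw [e] at h3
    have e2 : |-(m : ℤ)| = m := by rw [abs_neg, abs_of_nonneg (by positivity)]
    have e3 : |-(m : ℤ) - 1| = m + 1 := by
      have : -(m : ℤ) - 1 = -((m : ℤ) + 1) := by ring
      rw [this, abs_neg, abs_of_nonneg (by positivity)]
    rw [e2] at ih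
    rw [e3]
    linarith

private theorem perm_inv_self' {α : Type*} (g : Equiv.Perm α) (x : α) : g⁻¹ (g x) = x :=
  g.symm_apply_apply x

namespace Sys

theorem fibre_bound [Finite F] {A : Sys b F} {R w : ℕ} (hR : A.BCon R) (hw : A.SYN w) :
    ∃ T : ℕ, ∀ x ∈ A.D, ∀ y ∈ A.D, (∀ g ∈ A.G, g x = x → g y = y) → ∀ a ∈ A.G, a y = y →
      |disp a x| ≤ T := by
  obtain ⟨K, -, hK⟩ := conn_W hR
  obtain ⟨L, hL⟩ : ∃ L : ℕ, L = A.ρ * (K * ((w + 1) + w + 1)) := ⟨_, rfl⟩
  obtain ⟨L', hL'⟩ : ∃ L' : ℕ, L' = A.ρ * (K * (L + 1)) := ⟨_, rfl⟩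
  refine ⟨L + (L' + w) * L, fun x hx y hy hxy a ha hay => ?_⟩
  obtain ⟨h, hr⟩ := exists_run hw hK (w + 1) hy
  obtain ⟨p, hp⟩ : ∃ p : ℤ → ℤ, ∀ m, p m = disp (h m * a) x := ⟨_, fun _ => rfl⟩
  have hQ0 : (0 : ℤ) ≤ w := by positivity
  -- (F1)
  have F1 : ∀ m, |p (m + 1) - p m| ≤ L := by
    intro m
    obtain ⟨u, hu, hu'⟩ := hr.step m
    have e := disp_mul (A.G_le_PW (A.W_le_G hu)) (A.G_le_PW (mul_mem (hr.mem m) ha)) x
    rw [← mul_assoc, ← hu', ← hp, ← hp] at e
    rw [e, add_sub_cancel_right]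
    have h1 := A.abs_disp_W hu ((h m * a) x)
    rw [hL]
    push_cast
    push_cast at h1
    exact h1
  -- (F2)
  have F2 : ∀ m m', ∀ v ∈ A.G, h m (a x) = v (h m' (a x)) → h m y = v (h m' y) := by
    intro m m' v hv e
    have h1 : ((h m * a)⁻¹ * (v * (h m' * a))) x = x := by
      have e2 : (v * (h m' * a)) x = (h m * a) x := e.symm
      rw [Equiv.Perm.mul_apply, e2, perm_inv_self']
    have h2 := hxy _ (mul_mem (A.G.inv_mem (mul_mem (hr.mem m) ha))
      (mul_mem hv (mul_mem (hr.mem m') ha))) h1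
    rw [Equiv.Perm.mul_apply, Equiv.Perm.inv_eq_iff_eq] at h2
    have h3 : v (h m' (a y)) = h m (a y) := h2
    rw [hay] at h3
    exact h3.symm
  have F2' : ∀ m, ∀ v ∈ A.G, h m (a x) = v x → h m y = v y := by
    intro m v hv e
    have h1 : ((h m * a)⁻¹ * v) x = x := by
      have e2 : v x = (h m * a) x := e.symm
      rw [Equiv.Perm.mul_apply, e2, perm_inv_self']
    have h2 := hxy _ (mul_mem (A.G.inv_mem (mul_mem (hr.mem m) ha)) hv) h1
    rw [Equiv.Perm.mul_apply, Equiv.Perm.inv_eq_iff_eq] at h2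
    have h3 : v y = h m (a y) := h2
    rw [hay] at h3
    exact h3.symm
  have low : ∀ m : ℤ, m * ((w : ℤ) + 1) ≤ disp (h m) y := by
    intro m
    have := hr.low m
    push_cast at this
    exact this
  have up : ∀ m : ℤ, disp (h m) y < m * ((w : ℤ) + 1) + w := by
    intro m
    have := hr.up m
    push_cast at this
    exact this
  have hmul : ∀ m : ℤ, |m| ≤ |m * ((w : ℤ) + 1)| := by
    intro m
    rw [abs_mul]
    have h1 : (1 : ℤ) ≤ |(w : ℤ) + 1| := by
      rw [abs_of_nonneg (by linarith)]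
      linarith
    calc |m| = |m| * 1 := (mul_one _).symm
      _ ≤ |m| * |(w : ℤ) + 1| := mul_le_mul_of_nonneg_left h1 (abs_nonneg m)
  -- (F3)
  have F3 : ∀ m m', |p m - p m'| ≤ L → |m - m'| ≤ (L' + w : ℕ) := by
    intro m m' hmm
    have hg : h m * (h m')⁻¹ ∈ A.G := mul_mem (hr.mem m) (A.G.inv_mem (hr.mem m'))
    obtain ⟨v, hv, hv'⟩ := hK ((h m' * a) x) (A.map_mem (mul_mem (hr.mem m') ha) hx) _ hg
    have e1 : (h m * (h m')⁻¹) ((h m' * a) x) = (h m * a) x := by
      rw [Equiv.Perm.mul_apply, Equiv.Perm.mul_apply, perm_inv_self', Equiv.Perm.mul_apply]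
    have e2 := disp_mul (A.G_le_PW hg) (A.G_le_PW (mul_mem (hr.mem m') ha)) x
    have e3 : h m * (h m')⁻¹ * (h m' * a) = h m * a := by
      rw [mul_assoc, inv_mul_cancel_left]
    rw [e3, ← hp, ← hp] at e2
    have hv1 : v ∈ A.W (K * (L + 1)) := by
      refine A.W_mono (Nat.mul_le_mul_left K (Nat.succ_le_succ ?_)) hv
      have e4 : disp (h m * (h m')⁻¹) ((h m' * a) x) = p m - p m' := by linarith
      rw [e4]
      have h0 := abs_le.1 hmm
      omega
    have hvG := A.W_le_G hv1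
    have e5 : h m (a x) = v (h m' (a x)) := by
      have := hv'
      rw [e1] at this
      exact this.symm
    have e6 := F2 m m' v hvG e5
    have e7 : disp (h m) y = disp v (h m' y) + disp (h m') y := by
      rw [← disp_mul (A.G_le_PW hvG) (A.G_le_PW (hr.mem m'))]
      unfold disp
      rw [Equiv.Perm.mul_apply, e6]
    have h1 := A.abs_disp_W hv1 (h m' y)
    have h2 : (A.ρ : ℤ) * ((K * (L + 1) : ℕ) : ℤ) = L' := by
      rw [hL']
      push_cast
      ring
    rw [h2] at h1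
    have h1 := abs_le.1 h1
    have h3 := low m
    have h4 := low m'
    have h5 := up m
    have h6 := up m'
    refine (hmul _).trans ?_
    rw [abs_le]
    push_cast
    constructor <;> nlinarith
  -- (F4)
  have F4 : ∀ P : ℤ, {m : ℤ | |p m| ≤ P}.Finite := by
    intro P
    have hfin : ((fun q : ℤ × F => ((sh q.1 x.1, q.2) : Pt b F)) ''
        (Set.Icc (-P) P ×ˢ (Set.univ : Set F))).Finite :=
      ((Set.finite_Icc _ _).prod Set.finite_univ).image _
    have hinj : Function.Injective fun m : ℤ => (h m * a) x := by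
      intro m m' e
      have e1 := F2 m m' 1 A.G.one_mem e
      have e2 : disp (h m) y = disp (h m') y := by
        unfold disp
        rw [e1, Equiv.Perm.one_apply]
      have h3 := low m
      have h4 := low m'
      have h5 := up m
      have h6 := up m'
      rw [e2] at h3 h5
      have h7 : m < m' + 1 := by
        by_contra hc
        push Not at hc
        nlinarith
      have h8 : m' < m + 1 := by
        by_contra hc
        push Not at hc
        nlinarith
      omega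
    refine (hfin.preimage hinj.injOn).subset ?_
    intro m hm
    have hm' : |p m| ≤ P := hm
    refine ⟨(p m, ((h m * a) x).2), ⟨abs_le.1 hm', trivial⟩, ?_⟩
    rw [hp]
    exact (eq_of_pos (sameLine_of_mem_PW (A.G_le_PW (mul_mem (hr.mem m) ha)) x)).symm
  obtain ⟨m, hm⟩ := int_seq p L (L' + w) F1 F4 F3
  obtain ⟨v, hv, hv'⟩ := hK x hx _ (mul_mem (hr.mem m) ha)
  have hv1 : v ∈ A.W (K * (L + 1)) := by
    refine A.W_mono (Nat.mul_le_mul_left K (Nat.succ_le_succ ?_)) hv
    rw [← hp]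
    have h0 := abs_le.1 hm
    omega
  have e6 := F2' m v (A.W_le_G hv1) hv'.symm
  have e7 : disp (h m) y = disp v y := by
    unfold disp
    rw [e6]
  have h1 := A.abs_disp_W hv1 y
  have h2 : (A.ρ : ℤ) * ((K * (L + 1) : ℕ) : ℤ) = L' := by
    rw [hL']
    push_cast
    ring
  rw [h2, ← e7] at h1
  have h1 := abs_le.1 h1
  have h3 := low m
  have h5 := up m
  have hm1 : |m| ≤ (L' : ℤ) + w := by
    refine (hmul _).trans ?_
    rw [abs_le]
    constructor <;> linarith
  have h7 := int_drift p L F1 m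
  have h8 : |m| * L ≤ ((L' : ℤ) + w) * L := mul_le_mul_of_nonneg_right hm1 (by positivity)
  have e8 : p 0 = disp a x := by rw [hp, hr.zero, one_mul]
  rw [← e8]
  have h9 := abs_sub_abs_le_abs_sub (p 0) (p m)
  rw [abs_sub_comm] at h9
  push_cast
  linarith

theorem rel_of_le [Finite F] {A : Sys b F} (hA : A.Reduced) {R w : ℕ} (hR : A.BCon R)
    (hw : A.SYN w) {x y : Pt b F} (hx : x ∈ A.D) (hy : y ∈ A.D)
    (h : ∀ g ∈ A.G, g x = x → g y = y) : A.Rel x y := by
  obtain ⟨T, hT⟩ := fibre_bound hR hw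
  intro a ha
  refine ⟨h a ha, fun hay => ?_⟩
  refine (hA x hx (a x) (A.map_mem ha hx) (sameLine_of_mem_PW (A.G_le_PW ha) x)
    ⟨T, fun l hl => ?_⟩).symm
  have key : ∀ (k : Equiv.Perm (Pt b F)) (z : Pt b F), k (l z) = l z ↔ (l⁻¹ * k * l) z = z := by
    intro k z
    rw [Equiv.Perm.mul_apply, Equiv.Perm.mul_apply, Equiv.Perm.inv_eq_iff_eq]
  have h1 := hT (l x) (A.map_mem hl hx) (l y) (A.map_mem hl hy) (fun g hg => by
    rw [key, key]
    exact h _ (mul_mem (mul_mem (A.G.inv_mem hl) hg) hl)) (l * a * l⁻¹)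
    (mul_mem (mul_mem hl ha) (A.G.inv_mem hl)) (by
      rw [Equiv.Perm.mul_apply, perm_inv_self', Equiv.Perm.mul_apply, hay])
  have e : (l * a * l⁻¹) (l x) = l (a x) := by
    rw [Equiv.Perm.mul_apply, perm_inv_self', Equiv.Perm.mul_apply]
  unfold disp at h1
  rw [e] at h1
  exact h1

end Sys

end Pool.Agent.helper98.NIG
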