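import Pool.Agent.helper2.NIG.L24

/-!
# NIG-L26: locked lines are aligned

PROOFS.
* `same_line_rel`: write `p0 = tw b false n0 φ0`, `p1 = tw b true n0 φ0`. `move_twins` (`M = i`) gives `g i ∈ G`,
  `g i p0 = tw b false (n i) (φ i)`, `g i p1 = tw b true (n i) (φ i)`, `i ≤ δ (n i)`; `disp (g i) p0 = n i - n0 = disp (g i) p1`
  (`map_tw`, `tw_inj`). So `|disp (g i) q1 - disp (g i) q0| ≤ 2 B` and `pos (g i q0) (g i q1)` is bounded, `= t` for almost all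
  `i` (`U = Filter.hyperfilter ℕ`). Limits `u`, `v` of `g i q0`, `g i q1` (`exists_ulim`): `v.1 = sh t u.1`, so they are on the
  same line. For `l ∈ G`: for large `i` `disp l (g i p0) = disp l (g i p1)` (`agree_tw`, `disp_eq_of_agree`), so
  `|disp l (g i q1) - disp l (g i q0)| ≤ 4 B` (`disp_mul`). `eq_of_ulim_bounded`: `u = v`; so `t = 0` and the floors of `g i q0`
  and `g i q1` are equal for almost all `i`: `g i q0 = g i q1` for some `i`, `q0 = q1`, and `Rel p0 q0`, `Rel p1 q0`.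
* `aligned`: `n0` from `hlimit`. `exists_visible` (`δ = 1`, `N = R + ρ + 1`): `n1`, `φ1`, `p0 = tw b false n1 φ1`,
  `p1 = tw b true n1 φ1` not `Rel`. `hlimit` for `p0` and for `p1`: `qj`, `Uj`, `gj`. `disp (gj i) y - σ disp (gj i) x` is
  bounded, `= ej` for almost all `i`. `|disp l qj - σ disp l pj| ≤ B2` for `l ∈ G` (by windows). Let `J ≥ 3`, `r`, `r'` addresses
  of `x`, `y` at level `J`, `c = disp (gj i) x`, `c' = disp (gj i) y`: then `r - c`, `r' - c'` are addresses of `gj i x`,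
  `gj i y` (`addr_sh`); `-n1` is an address of `pj` (`addr_sg`); `al_window`: `P ^ J ∣ r - c + n1` and
  `P ^ J ∣ r' - c' - s` for every address `s` of `qj`.
  `σ = 1`: `c' - c = ej`, so `s ≡ r' - r - ej - n1`. `σ = -1`: `c' + c = ej`, so `s ≡ r' + r - ej + n1`.
  In both cases `Al (e0 - e1) q0.1 q1.1`. If `q0.1` is not singular, then `q1.1 = sh _ q0.1` (`al_regular`), `SameLine q0 q1`, and
  `same_line_rel` contradicts the choice of `n1`. So `q0.1 = sh m (sg b h')` with the address `-m` (`addr_sg`):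
  `σ = 1`: `P ^ J ∣ r' - r - (e0 + n1 - m)` for all `J`: `Al (e0 + n1 - m) x.1 y.1`.
  `σ = -1`: `P ^ J ∣ r' + r - (e0 - n1 - m)`; `-r` is an address of `rv x.1` (`rv_addr`, `addr_unique`): `Al (e0 - n1 - m) (rv x.1) y.1`.
* `half_line_twins`: `n0` = maximum of the numbers of `aligned` and `half_line`. `Al e x.1 y.1` by `aligned` with `σ = 1`. If `x.1` is
  singular, `x = tw b h0 n' φ'`; let `M'` with `M' Q ≥ M + |n'| + w1 + ρ K (Q + w1 + 1)` and `M' ≥ M`; `half_line` with `M'`: `g`.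
  `al_zero`: `(g x).1 = (g y).1` (then `g x = g y`), or `(g x).1 = sh n (sg b h')`, `(g y).1 = sh n (sg b (!h'))`; in the second
  case `x.1` is singular, `n = n' + disp g x`, and `τ n ≥ M` by `HRun.along_far`.
-/

namespace Pool.Agent.helper98.NIG

variable {b : Base} {F : Type}

private theorem L26_sameLine_map {A : Sys b F} {g : Equiv.Perm (Pt b F)} (hg : g ∈ A.G)
    {x y : Pt b F} (h : SameLine x y) : SameLine (g x) (g y) :=
  sameLine_trans (sameLine_symm (sameLine_of_mem_PW (A.G_le_PW hg) x))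
    (sameLine_trans h (sameLine_of_mem_PW (A.G_le_PW hg) y))

private theorem L26_pos_map {A : Sys b F} {g : Equiv.Perm (Pt b F)} (hg : g ∈ A.G)
    {x y : Pt b F} (h : SameLine x y) : pos (g x) (g y) = pos x y + disp g y - disp g x := by
  have h1 := pos_add (sameLine_of_mem_PW (A.G_le_PW hg) x) (L26_sameLine_map hg h)
  have h2 := pos_add h (sameLine_of_mem_PW (A.G_le_PW hg) y)
  unfold disp
  linarith

private theorem L26_agree_eq {x y : Pt b F} {h : ∀ N : ℕ, Agree N x y} : x = y := by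
  refine Prod.ext (Subtype.ext ?_) (h 0).1
  funext k
  exact (h k.natAbs).2 k (by rw [Int.abs_eq_natAbs])

/-- an integer sequence which is bounded along an ultrafilter is eventually constant -/
private theorem L26_const {ι : Type*} (U : Ultrafilter ι) (f : ι → ℤ) (B : ℤ)
    (h : ∀ i, |f i| ≤ B) : ∃ k : ℤ, ∀ᶠ i in (U : Filter ι), f i = k := by
  have h1 : ∀ᶠ i in (U : Filter ι), ∃ k ∈ Set.Icc (-B) B, f i = k := by
    filter_upwards with i
    exact ⟨f i, abs_le.1 (h i), rfl⟩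
  rw [Ultrafilter.eventually_exists_mem_iff (Set.finite_Icc _ _)] at h1
  obtain ⟨k, hk, hk'⟩ := h1
  exact ⟨k, hk'⟩

private theorem L26_lim {ι : Type*} {U : Ultrafilter ι} {u v : ι → Pt b F} {p q : Pt b F}
    (hu : ∀ N : ℕ, ∀ᶠ i in (U : Filter ι), Agree N (u i) p)
    (hv : ∀ N : ℕ, ∀ᶠ i in (U : Filter ι), Agree N (v i) q) (k : ℤ)
    (h : ∀ᶠ i in (U : Filter ι), (v i).1 = sh k (u i).1) :
    q.1 = sh k p.1 := by
  have h0 : q = (sh k p.1, q.2) := by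
    apply L26_agree_eq
    intro N
    obtain ⟨i, ⟨h1, h2⟩, h3⟩ := (((hu (k.natAbs + N)).and (hv N)).and h).exists
    have h4 : Agree N ((sh k (u i).1, q.2) : Pt b F) (sh k p.1, q.2) := by
      apply agree_sh h1
      rw [Int.abs_eq_natAbs]
      push_cast
      exact le_rfl
    refine ⟨rfl, fun j hj => ?_⟩
    rw [← h4.2 j hj, ← h2.2 j hj, h3]
  exact congrArg Prod.fst h0

private theorem L26_disp_lim {l : Equiv.Perm (Pt b F)} (hl : l ∈ PW b F) {ι : Type*}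
    {U : Ultrafilter ι} {u : ι → Pt b F} {q : Pt b F}
    (hu : ∀ N : ℕ, ∀ᶠ i in (U : Filter ι), Agree N (u i) q) :
    ∀ᶠ i in (U : Filter ι), disp l (u i) = disp l q := by
  obtain ⟨ρ, hρ, -⟩ := hl
  exact (hu ρ).mono fun i hi => disp_eq_of_agree hρ hi

private theorem L26_disp_tw {g : Equiv.Perm (Pt b F)} (hg : g ∈ PW b F) {h : Bool} {n n' : ℤ}
    {φ φ' : F} (he : g (tw b h n φ) = tw b h n' φ') : disp g (tw b h n φ) = n' - n := by
  have h1 := map_tw hg h n φ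
  have h2 := (tw_inj (he.symm.trans h1)).2.1
  linarith

private theorem L26_sigma {σ : ℤ} (hσ : σ = 1 ∨ σ = -1) (a : ℤ) : |σ * a| = |a| := by
  rcases hσ with rfl | rfl
  · rw [one_mul]
  · rw [neg_one_mul, abs_neg]

/-- the level computation of `aligned` -/
private theorem L26_level {A : Sys b F} {U : Ultrafilter ℕ} {g : ℕ → Equiv.Perm (Pt b F)}
    (hg : ∀ i, g i ∈ A.G) {x y q : Pt b F} {h : Bool} {n : ℤ} {φ : F}
    (hu : ∀ N : ℕ, ∀ᶠ i in (U : Filter ℕ), Agree N (g i x) (tw b h n φ))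
    (hv : ∀ N : ℕ, ∀ᶠ i in (U : Filter ℕ), Agree N (g i y) q) {σ e : ℤ}
    (he : ∀ᶠ i in (U : Filter ℕ), disp (g i) y - σ * disp (g i) x = e) {J : ℕ} (hJ : 3 ≤ J)
    {r r' s : ℤ} (hr : Addr x.1 J r) (hr' : Addr y.1 J r') (hs : Addr q.1 J s) :
    (b.p : ℤ) ^ J ∣ r' - σ * r - σ * n - e - s := by
  obtain ⟨N, hN⟩ := al_window (b := b) hJ
  obtain ⟨i, ⟨h1, h2⟩, h3⟩ := (((hu N).and (hv N)).and he).exists
  have e1 : (g i x).1 = sh (disp (g i) x) x.1 :=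
    pos_spec (sameLine_of_mem_PW (A.G_le_PW (hg i)) x)
  have e2 : (g i y).1 = sh (disp (g i) y) y.1 :=
    pos_spec (sameLine_of_mem_PW (A.G_le_PW (hg i)) y)
  have a1 : Addr (g i x).1 J (r - disp (g i) x) := by
    rw [e1]
    exact addr_sh.2 hr
  have a2 : Addr (g i y).1 J (r' - disp (g i) y) := by
    rw [e2]
    exact addr_sh.2 hr'
  have a3 : Addr (tw b h n φ).1 J (-n) := addr_sg n h J
  have d1 := hN _ _ h1.2 _ _ a1 a3
  have d2 := hN _ _ h2.2 _ _ a2 hs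
  have e3 : r' - σ * r - σ * n - e - s =
      σ * (-n - (r - disp (g i) x)) - (s - (r' - disp (g i) y)) := by
    rw [← h3]
    ring
  rw [e3]
  exact dvd_sub (Dvd.dvd.mul_left d1 σ) d2

namespace Sys

theorem same_line_rel [Finite F] {A : Sys b F} (hA : A.Reduced) {R w : ℕ} (hR : A.BCon R)
    (hw : A.SYN w) {δ : ℤ} (hδ : δ = 1 ∨ δ = -1) {n0 : ℤ} {φ0 : F}
    (hn : (R : ℤ) + A.ρ + 1 ≤ δ * n0) (hp0 : tw b false n0 φ0 ∈ A.D)
    (hp1 : tw b true n0 φ0 ∈ A.D) {q0 q1 : Pt b F} (hq0 : q0 ∈ A.D) (hq1 : q1 ∈ A.D)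
    (h0 : A.Rel (tw b false n0 φ0) q0) (h1 : A.Rel (tw b true n0 φ0) q1) {σ : ℤ}
    (hσ : σ = 1 ∨ σ = -1) {B : ℕ} (hB0 : ∀ g ∈ A.G, |disp g q0 - σ * disp g (tw b false n0 φ0)| ≤ B)
    (hB1 : ∀ g ∈ A.G, |disp g q1 - σ * disp g (tw b true n0 φ0)| ≤ B) (hl : SameLine q0 q1) :
    A.Rel (tw b false n0 φ0) (tw b true n0 φ0) := by
  have hex : ∀ i : ℕ, ∃ g ∈ A.G, ∃ (n' : ℤ) (φ' : F), (i : ℤ) ≤ δ * n' ∧
      g (tw b false n0 φ0) = tw b false n' φ' ∧ g (tw b true n0 φ0) = tw b true n' φ' :=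
    fun i => move_twins hR hw hδ hn hp0 i
  choose g hg n φ hni hg0 hg1 using hex
  have hG : ∀ {k : Equiv.Perm (Pt b F)}, k ∈ A.G → k ∈ PW b F := fun hk => A.G_le_PW hk
  let U : Ultrafilter ℕ := Filter.hyperfilter ℕ
  have hU : ∀ M : ℕ, ∀ᶠ i in (U : Filter ℕ), M ≤ i :=
    fun m => Nat.hyperfilter_le_atTop (Filter.eventually_ge_atTop m)
  obtain ⟨u, hu⟩ := exists_ulim U (fun i => g i q0)
  obtain ⟨v, hv⟩ := exists_ulim U (fun i => g i q1)
  have hdiff : ∀ i, |disp (g i) q1 - disp (g i) q0| ≤ 2 * (B : ℤ) := by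
    intro i
    have h1 := abs_le.1 (hB0 _ (hg i))
    have h2 := abs_le.1 (hB1 _ (hg i))
    rw [L26_disp_tw (hG (hg i)) (hg0 i)] at h1
    rw [L26_disp_tw (hG (hg i)) (hg1 i)] at h2
    rw [abs_le]
    constructor <;> linarith [h1.1, h1.2, h2.1, h2.2]
  have hpos : ∀ i, |pos (g i q0) (g i q1)| ≤ |pos q0 q1| + 2 * (B : ℤ) := by
    intro i
    have h1 := abs_le.1 (hdiff i)
    have h2 := abs_le.1 (le_refl |pos q0 q1|)
    rw [L26_pos_map (hg i) hl, abs_le]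
    constructor <;> linarith [h1.1, h1.2, h2.1, h2.2]
  obtain ⟨t, ht⟩ := L26_const U (fun i => pos (g i q0) (g i q1)) _ hpos
  have hline : ∀ᶠ i in (U : Filter ℕ), (g i q1).1 = sh t (g i q0).1 := by
    filter_upwards [ht] with i hi
    have h1 := pos_spec (L26_sameLine_map (hg i) hl)
    rw [h1, hi]
  have huv : v.1 = sh t u.1 := L26_lim hu hv t hline
  have hB : ∀ l ∈ A.G, ∀ᶠ i in (U : Filter ℕ),
      |disp l (g i q1) - disp l (g i q0)| ≤ ((4 * B : ℕ) : ℤ) := by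
    intro l hlG
    obtain ⟨ρ, hρ, -⟩ := hG hlG
    filter_upwards [hU (ρ + 1)] with i hi
    have h0 : disp l (g i (tw b false n0 φ0)) = disp l (g i (tw b true n0 φ0)) := by
      rw [hg0 i, hg1 i]
      refine disp_eq_of_agree hρ (agree_tw _ _ _ _ ?_)
      have h1 := hni i
      have h2 : |δ * n i| = |n i| := L26_sigma hδ _
      have h3 := le_abs_self (δ * n i)
      have h4 : ((ρ + 1 : ℕ) : ℤ) ≤ (i : ℤ) := by exact_mod_cast hi
      push_cast at h4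
      linarith
    have h1 := abs_le.1 (hB0 _ (A.G.mul_mem hlG (hg i)))
    have h2 := abs_le.1 (hB1 _ (A.G.mul_mem hlG (hg i)))
    have h3 := abs_le.1 (hB0 _ (hg i))
    have h4 := abs_le.1 (hB1 _ (hg i))
    rw [disp_mul (hG hlG) (hG (hg i)), disp_mul (hG hlG) (hG (hg i))] at h1 h2
    rw [h0] at h1
    rw [abs_le]
    push_cast
    constructor <;> linarith [h1.1, h1.2, h2.1, h2.2, h3.1, h3.2, h4.1, h4.2,
      L26_disp_tw (hG (hg i)) (hg0 i), L26_disp_tw (hG (hg i)) (hg1 i)]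
  have huD : u ∈ A.D := A.mem_D_of_ulim hu (Filter.Eventually.of_forall fun i =>
    A.map_mem (hg i) hq0)
  have hvD : v ∈ A.D := A.mem_D_of_ulim hv (Filter.Eventually.of_forall fun i =>
    A.map_mem (hg i) hq1)
  have huv' : u = v := eq_of_ulim_bounded hA huD hvD hu hv ⟨t, huv⟩ (4 * B) hB
  have ht0 : t = 0 := by
    have h1 : sh t u.1 = sh 0 u.1 := by
      rw [← huv, sh_zero, huv']
    exact sh_inj h1
  obtain ⟨i, ⟨k1, k2⟩, k3⟩ := (((hu 0).and (hv 0)).and hline).exists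
  have k4 : g i q0 = g i q1 := by
    refine Prod.ext ?_ ?_
    · rw [k3, ht0, sh_zero]
    · rw [k1.1, k2.1, huv']
  have k5 : q0 = q1 := (g i).injective k4
  rw [← k5] at h1
  exact h0.trans h1.symm

theorem aligned [Finite F] {A : Sys b F} (hA : A.Reduced) {R w Cs K : ℕ} (hR : A.BCon R)
    (hw : A.SYN w) (hC : A.SLR Cs) (hK : A.CONN K) (Q w1 : ℕ) (hQ : 0 < Q) :
    ∃ n0 : ℕ, ∀ τ : ℤ, (τ = 1 ∨ τ = -1) → ∀ x ∈ A.D, ∀ y ∈ A.D,
      ∀ h : ℤ → Equiv.Perm (Pt b F), A.HRun K Q w1 τ x h →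
      (∀ m : ℤ, 0 ≤ m → A.E n0 (h m x) (h m y)) → ∀ (σ : ℤ) (B1 : ℕ),
      (σ = 1 ∨ σ = -1) → (∀ m : ℤ, 0 ≤ m → |disp (h m) y - σ * disp (h m) x| ≤ B1) →
      ∃ e : ℤ, (σ = 1 → Al e x.1 y.1) ∧ (σ = -1 → Al e (rv x.1) y.1) := by
  obtain ⟨n0, hn0⟩ := hlimit hR hw hC hK Q w1 hQ
  refine ⟨n0, fun τ hτ x hx y hy h H hE σ B1 hσ hB1 => ?_⟩
  obtain ⟨B2, hlim⟩ := hn0 τ hτ x hx y hy h H hE σ B1 hσ hB1
  obtain ⟨n1, φ1, hn1, hp0, hp1, hvis⟩ :=
    exists_visible hA hR hw (δ := 1) (Or.inl rfl) (R + A.ρ + 1)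
  obtain ⟨q0, hq0, U0, g0, hal0, -, hu0, hv0, hrel0, hd0, hl0⟩ := hlim _ hp0
  obtain ⟨q1, hq1, U1, g1, hal1, -, hu1, hv1, hrel1, hd1, hl1⟩ := hlim _ hp1
  have hg0 : ∀ i, g0 i ∈ A.G := fun i => H.along_mem (hal0 i)
  have hg1 : ∀ i, g1 i ∈ A.G := fun i => H.along_mem (hal1 i)
  obtain ⟨e0, he0⟩ := L26_const U0 (fun i => disp (g0 i) y - σ * disp (g0 i) x) _ hd0
  obtain ⟨e1, he1⟩ := L26_const U1 (fun i => disp (g1 i) y - σ * disp (g1 i) x) _ hd1
  have hb0 : ∀ l ∈ A.G, |disp l q0 - σ * disp l (tw b false n1 φ1)| ≤ B2 := by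
    intro l hl
    obtain ⟨i, ⟨h1, h2⟩, h3⟩ := ((L26_disp_lim (A.G_le_PW hl) hu0).and
      (L26_disp_lim (A.G_le_PW hl) hv0)).and (hl0 l hl) |>.exists
    rwa [h1, h2] at h3
  have hb1 : ∀ l ∈ A.G, |disp l q1 - σ * disp l (tw b true n1 φ1)| ≤ B2 := by
    intro l hl
    obtain ⟨i, ⟨h1, h2⟩, h3⟩ := ((L26_disp_lim (A.G_le_PW hl) hu1).and
      (L26_disp_lim (A.G_le_PW hl) hv1)).and (hl1 l hl) |>.exists
    rwa [h1, h2] at h3
  have hsing : Sing q0.1 := by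
    by_contra hns
    have hal : Al (e0 - e1) q0.1 q1.1 := by
      intro J hJ s s' hs hs'
      obtain ⟨r, hr⟩ := exists_addr x.1 J
      obtain ⟨r', hr'⟩ := exists_addr y.1 J
      have d0 := L26_level hg0 hu0 hv0 he0 hJ hr hr' hs
      have d1 := L26_level hg1 hu1 hv1 he1 hJ hr hr' hs'
      have e : s' - s - (e0 - e1) = (r' - σ * r - σ * n1 - e0 - s) -
          (r' - σ * r - σ * n1 - e1 - s') := by ring
      rw [e]
      exact dvd_sub d0 d1
    exact hvis (same_line_rel hA hR hw (Or.inl rfl) (by exact_mod_cast hn1) hp0 hp1 hq0 hq1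
      hrel0 hrel1 hσ hb0 hb1 ⟨_, al_regular hal hns⟩)
  obtain ⟨m, h', hm⟩ := hsing
  have key : ∀ J : ℕ, 3 ≤ J → ∀ r r' : ℤ, Addr x.1 J r → Addr y.1 J r' →
      (b.p : ℤ) ^ J ∣ r' - σ * r - σ * n1 - e0 + m := by
    intro J hJ r r' hr hr'
    have hs : Addr q0.1 J (-m) := by
      rw [hm]
      exact addr_sg m h' J
    have d0 := L26_level hg0 hu0 hv0 he0 hJ hr hr' hs
    rwa [sub_neg_eq_add] at d0
  refine ⟨e0 + σ * n1 - m, fun h1 => ?_, fun h1 => ?_⟩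
  · intro J hJ r r' hr hr'
    have d := key J hJ r r' hr hr'
    rw [h1] at d ⊢
    have e : r' - r - (e0 + 1 * n1 - m) = r' - 1 * r - 1 * n1 - e0 + m := by ring
    rw [e]
    exact d
  · intro J hJ a r' ha hr'
    obtain ⟨r, hr⟩ := exists_addr x.1 J
    have d := key J hJ r r' hr hr'
    have d2 := addr_unique hJ ha (rv_addr hr)
    rw [h1] at d ⊢
    have e : r' - a - (e0 + -1 * n1 - m) = (r' - -1 * r - -1 * n1 - e0 + m) - (a - -r) := by ring
    rw [e]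
    exact dvd_sub d d2

/-- a direct half line lock: equal points or twins -/
theorem half_line_twins [Finite F] {A : Sys b F} (hA : A.Reduced) {R w Cs K : ℕ}
    (hR : A.BCon R) (hw : A.SYN w) (hC : A.SLR Cs) (hK : A.CONN K) (Q w1 : ℕ) (hQ : 0 < Q) :
    ∃ n0 : ℕ, ∀ τ : ℤ, (τ = 1 ∨ τ = -1) → ∀ x ∈ A.D, ∀ y ∈ A.D,
      ∀ h : ℤ → Equiv.Perm (Pt b F), A.HRun K Q w1 τ x h →
      (∀ m : ℤ, 0 ≤ m → A.E n0 (h m x) (h m y)) → ∀ B1 : ℕ,
      (∀ m : ℤ, 0 ≤ m → |disp (h m) y - disp (h m) x| ≤ B1) → ∀ M : ℕ,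
      ∃ g, A.Along K Q w1 h M g ∧ (g x = g y ∨ ∃ (h' : Bool) (n : ℤ) (φ : F),
        (M : ℤ) ≤ τ * n ∧ g x = tw b h' n φ ∧ g y = tw b (!h') n φ) := by
  obtain ⟨na, hna⟩ := aligned hA hR hw hC hK Q w1 hQ
  obtain ⟨nb, hnb⟩ := half_line hA hR hw hC hK Q w1 hQ
  refine ⟨max na nb, fun τ hτ x hx y hy h H hE B1 hB1 M => ?_⟩
  have hEa : ∀ m : ℤ, 0 ≤ m → A.E na (h m x) (h m y) := fun m hm =>
    E_mono (le_max_left _ _) (hE m hm)
  have hEb : ∀ m : ℤ, 0 ≤ m → A.E nb (h m x) (h m y) := fun m hm =>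
    E_mono (le_max_right _ _) (hE m hm)
  obtain ⟨e, he, -⟩ := hna τ hτ x hx y hy h H hEa 1 B1 (Or.inl rfl)
    (fun m hm => by rw [one_mul]; exact hB1 m hm)
  have hal := he rfl
  by_cases hs : Sing x.1
  · obtain ⟨n', h0, hxe⟩ := hs
    have hxt : x = tw b h0 n' x.2 := Prod.ext hxe rfl
    obtain ⟨g, hg, hg0, hgf⟩ := hnb τ hτ x hx y hy h H hEb B1 hB1 e hal
      (M + n'.natAbs + w1 + A.ρ * (K * (Q + w1 + 1)))
    have hgM : A.Along K Q w1 h M g := hg.mono (by omega)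
    refine ⟨g, hgM, ?_⟩
    rcases al_zero hg0 with h1 | ⟨n, h', h1, h2⟩
    · exact Or.inl (Prod.ext h1 hgf)
    · right
      refine ⟨h', n, (g x).2, ?_, Prod.ext h1 rfl, Prod.ext h2 hgf.symm⟩
      have hgG := H.along_mem hg
      have hfar := H.along_far hτ hg
      have h3 := map_tw (A.G_le_PW hgG) h0 n' x.2
      rw [← hxt] at h3
      have h4 : g x = tw b h' n (g x).2 := Prod.ext h1 rfl
      have h5 := (tw_inj (h4.symm.trans h3)).2.1
      have hQ1 : (1 : ℤ) ≤ Q := by exact_mod_cast hQ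
      have h6 : ((M + n'.natAbs + w1 + A.ρ * (K * (Q + w1 + 1)) : ℕ) : ℤ) ≤
          ((M + n'.natAbs + w1 + A.ρ * (K * (Q + w1 + 1)) : ℕ) : ℤ) * Q :=
        le_mul_of_one_le_right (by positivity) hQ1
      have h7 : |τ * n'| = |n'| := L26_sigma hτ _
      have h8 := neg_abs_le (τ * n')
      have h9 : τ * n = τ * n' + τ * disp g x := by rw [h5]; ring
      have h10 : (n'.natAbs : ℤ) = |n'| := (Int.abs_eq_natAbs n').symm
      push_cast at h6 hfar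
      rw [h9]
      linarith
  · obtain ⟨g, hg, hg0, hgf⟩ := hnb τ hτ x hx y hy h H hEb B1 hB1 e hal M
    refine ⟨g, hg, Or.inl ?_⟩
    rcases al_zero hg0 with h1 | ⟨n, h', h1, -⟩
    · exact Prod.ext h1 hgf
    · exfalso
      apply hs
      have h2 : (g x).1 = sh (disp g x) x.1 :=
        pos_spec (sameLine_of_mem_PW (A.G_le_PW (H.along_mem hg)) x)
      refine ⟨n - disp g x, h', ?_⟩
      have h3 : sh (-disp g x) (g x).1 = x.1 := by
        rw [h2, sh_sh, neg_add_cancel, sh_zero]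
      rw [← h3, h1, sh_sh]
      congr 1
      ring

end Sys

end Pool.Agent.helper98.NIG
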