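import Pool.Agent.helper2.NIG.L26

/-!
# NIG-L27: classification of the pairs with equal stabilisers (M2, M4)

PROOFS.
* `rel_align`: `consts`, `aligned` with `Q = 1`, `w1 = w`, the run of `x` (`exists_run`, `Run.hrun` with `τ = 1`), `Rel.map` and
  `rel_iff` for the locks.
* `rel_direct`: `D0` from `twin_far`. `rel_align` with `σ = 1`: `Al e x.1 y.1`. If `x.1` is not singular then `y.1 = sh (-e) x.1`
  (`al_regular`), same line, `direct_eq`. Otherwise `x = tw b h n φ`, and `y.1` is singular (`al_sing`), `y = tw b h' n' φ'`. If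
  `h' = h` the two points are on the same line: `direct_eq`. Otherwise `h' = !h`, and `twin_far` gives the last statement.
* `mirror_all`: `approach` gives `g i ∈ G` with `g i p → y`; `y'` = limit of `g i q` along `Filter.hyperfilter ℕ`. `rel_of_ulim`
  with `Rel.map`. For `l ∈ G`: `disp l y' + disp l y = disp l (g i q) + disp l (g i p)` for large `i`, at most `2 B`.
* `mirror_exact`: first let `x` be regular: `mirror_all` gives `x'`; `rel_align` with `σ = -1`: `Al e (rv x.1) x'.1`; `rv x.1` is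
  regular (`rv_rv`, `rv_sh`, `rv_sg`), so `x'.1 = sh (-e) (rv x.1)`. In general let `x0 ∈ D` be regular (`exists_regular_D`),
  `x0'` its exact partner, `x0'.1 = sh k (rv x0.1)`. `approach`: `g i x0 → x`, `x'` = limit of `g i x0'`. `Rel x x'`,
  `Mirror x x'` as in `mirror_all`. With `c = disp (g i) x0`, `c' = disp (g i) x0'`:
  `(g i x0').1 = sh c' x0'.1 = sh (c' + k) (rv x0.1) = sh (c' + k + c) (rv (g i x0).1)` (`rv_sh`), and `c' + c` is bounded, so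
  `c' + k + c = k'` for almost all `i`; so `x'.1 = sh k' (rv x.1)` (compare the values at every position).
* `rel_same_line` (M4): `D0` from `twin_far`. `v'` the exact partner of `v = tw b h n' φ'`:
  `v'.1 = sh k (rv (sh n' (sg b h))) = sh (k - n') (sg b (!h))`, so `v' = tw b (!h) (k - n') φ''`. `Rel u v'`,
  `Direct u v'` (`Mirror.trans`). `twin_far` (`D0 ≤ |n|`): `v' = tw b (!h) n φ`.
* `rel_twin_right`: `Direct` by `twins_direct`; for `g ∈ G` apply `twin_far` to `g x`, `g x1` (`map_tw`).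
-/

namespace Pool.Agent.helper98.NIG

variable {b : Base} {F : Type}

namespace Sys

theorem rel_align [Finite F] {A : Sys b F} (hA : A.Reduced) {R w : ℕ} (hR : A.BCon R)
    (hw : A.SYN w) {x y : Pt b F} (hx : x ∈ A.D) (hy : y ∈ A.D) (h : A.Rel x y) {σ : ℤ}
    (hσ : σ = 1 ∨ σ = -1) {B : ℕ} (hB : ∀ g ∈ A.G, |disp g y - σ * disp g x| ≤ B) :
    ∃ e : ℤ, (σ = 1 → Al e x.1 y.1) ∧ (σ = -1 → Al e (rv x.1) y.1) := by
  obtain ⟨Cs, K, C0, κ, hCs, hK, -⟩ := consts hR hw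
  obtain ⟨n0, hn0⟩ := aligned hA hR hw hCs hK 1 w one_pos
  obtain ⟨h', hrun⟩ := exists_run hw hK 1 hx
  have HR := hrun.hrun (τ := 1) (Or.inl rfl)
  exact hn0 1 (Or.inl rfl) x hx y hy _ HR
    (fun m hm => (rel_iff.1 (h.map (HR.mem m hm))) n0) σ B hσ (fun m hm => hB _ (HR.mem m hm))

private theorem L27_toNat {B : ℤ} {a : ℤ} (h : |a| ≤ B) : |a| ≤ (B.toNat : ℤ) := by
  rw [Int.toNat_of_nonneg ((abs_nonneg _).trans h)]
  exact h

private theorem L27_const {ι : Type*} (U : Ultrafilter ι) (f : ι → ℤ) (B : ℤ)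
    (h : ∀ i, |f i| ≤ B) : ∃ k : ℤ, ∀ᶠ i in (U : Filter ι), f i = k := by
  by_contra hcon
  push Not at hcon
  have h2 : ∀ᶠ i in (U : Filter ι), ∀ c ∈ Finset.Icc (-B) B, f i ≠ c :=
    (Filter.eventually_all_finset _).2 fun c _ => hcon c
  obtain ⟨i, hi⟩ := h2.exists
  exact hi (f i) (Finset.mem_Icc.2 (abs_le.1 (h i))) rfl

private theorem L27_ge (N : ℕ) : ∀ᶠ i in (Filter.hyperfilter ℕ : Filter ℕ), N ≤ i := by
  have h1 : (Filter.hyperfilter ℕ : Filter ℕ) ≤ Filter.atTop := by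
    rw [← Nat.cofinite_eq_atTop]
    exact Filter.hyperfilter_le_cofinite
  exact h1 (Filter.eventually_ge_atTop N)

/-- M2: equal stabilisers, direct case: equal points, or the two points are on the two singular
lines, and they are exact twins if one of them is far from the hole -/
theorem rel_direct [Finite F] {A : Sys b F} (hA : A.Reduced) {R w : ℕ} (hR : A.BCon R)
    (hw : A.SYN w) : ∃ D0 : ℕ, ∀ x ∈ A.D, ∀ y ∈ A.D, A.Rel x y → A.Direct x y →
      x = y ∨ ∃ (h : Bool) (n n' : ℤ) (φ φ' : F), x = tw b h n φ ∧ y = tw b (!h) n' φ' ∧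
        (((D0 : ℤ) ≤ |n| ∨ (D0 : ℤ) ≤ |n'|) → n = n' ∧ φ = φ') := by
  obtain ⟨D0, hD0⟩ := twin_far hA hR hw
  refine ⟨D0, fun x hx y hy hrel hdir => ?_⟩
  obtain ⟨B, hB⟩ := hdir
  obtain ⟨e, he, -⟩ := rel_align hA hR hw hx hy hrel (σ := 1) (Or.inl rfl) (B := B.toNat)
    (fun g hg => by rw [one_mul]; exact L27_toNat (hB g hg))
  have hal := he rfl
  have hdir : A.Direct x y := ⟨B, hB⟩
  by_cases hs : Sing x.1
  · obtain ⟨n', h', hn'⟩ := al_sing hal hs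
    obtain ⟨n, h, hn⟩ := hs
    have ex : x = tw b h n x.2 := Prod.ext hn rfl
    have ey : y = tw b h' n' y.2 := Prod.ext hn' rfl
    by_cases hh : h' = h
    · left
      refine direct_eq hA hx hy ⟨n' - n, ?_⟩ hdir
      rw [hn, hn', hh, sh_sh, sub_add_cancel]
    · right
      have hh' : h' = !h := Bool.eq_not.2 hh
      rw [hh'] at ey
      refine ⟨h, n, n', x.2, y.2, ex, ey, fun hc => ?_⟩
      exact hD0 h n n' x.2 y.2 (ex ▸ hx) (ey ▸ hy) (ey ▸ (ex ▸ hrel)) (ey ▸ (ex ▸ hdir)) hc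
  · left
    exact direct_eq hA hx hy ⟨-e, al_regular hal hs⟩ hdir

/-- limits of mirror pairs -/
private theorem L27_limit [Finite F] {A : Sys b F} {p q : Pt b F} (hq : q ∈ A.D)
    (h : A.Rel p q) (h' : A.Mirror p q) {y : Pt b F} {g : ℕ → Equiv.Perm (Pt b F)}
    (hg : ∀ i, g i ∈ A.G) (hag : ∀ N i : ℕ, N ≤ i → Agree N (g i p) y) :
    ∃ y' ∈ A.D, (∀ N : ℕ, ∀ᶠ i in (Filter.hyperfilter ℕ : Filter ℕ), Agree N (g i q) y') ∧
      A.Rel y y' ∧ A.Mirror y y' := by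
  obtain ⟨y', hy'⟩ := exists_ulim (Filter.hyperfilter ℕ) (fun i => g i q)
  have hy : ∀ N : ℕ, ∀ᶠ i in (Filter.hyperfilter ℕ : Filter ℕ), Agree N (g i p) y :=
    fun N => (L27_ge N).mono fun i hi => hag N i hi
  refine ⟨y', mem_D_of_ulim A hy' (Filter.Eventually.of_forall fun i => A.map_mem (hg i) hq),
    hy', ?_, ?_⟩
  · exact rel_of_ulim A hy hy' fun l hl =>
      Filter.Eventually.of_forall fun i => (h.map (hg i)) l hl
  · obtain ⟨B, hB⟩ := h'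
    refine ⟨B + B, fun l hl => ?_⟩
    obtain ⟨ρ', hρ', -⟩ := A.G_le_PW hl
    obtain ⟨i, hi, hi'⟩ := ((hy ρ').and (hy' ρ')).exists
    rw [← disp_eq_of_agree hρ' hi, ← disp_eq_of_agree hρ' hi']
    have e1 := disp_mul (A.G_le_PW hl) (A.G_le_PW (hg i)) q
    have e2 := disp_mul (A.G_le_PW hl) (A.G_le_PW (hg i)) p
    have e3 := abs_le.1 (hB _ (hg i))
    have e4 := abs_le.1 (hB _ (A.G.mul_mem hl (hg i)))
    rw [abs_le]
    constructor <;> linarith [e3.1, e3.2, e4.1, e4.2]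

theorem mirror_all [Finite F] {A : Sys b F} {p q : Pt b F} (hp : p ∈ A.D) (hq : q ∈ A.D)
    (h : A.Rel p q) (h' : A.Mirror p q) {y : Pt b F} (hy : y ∈ A.D) :
    ∃ y' ∈ A.D, A.Rel y y' ∧ A.Mirror y y' := by
  obtain ⟨g, hg, hag⟩ := approach hp hy
  obtain ⟨y', h1, -, h2, h3⟩ := L27_limit hq h h' hg hag
  exact ⟨y', h1, h2, h3⟩

private theorem L27_regular [Finite F] {A : Sys b F} (hA : A.Reduced) {R w : ℕ} (hR : A.BCon R)
    (hw : A.SYN w) {p q : Pt b F} (hp : p ∈ A.D) (hq : q ∈ A.D) (h : A.Rel p q)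
    (h' : A.Mirror p q) {x : Pt b F} (hx : x ∈ A.D) (hreg : ¬ Sing x.1) :
    ∃ x' ∈ A.D, A.Rel x x' ∧ A.Mirror x x' ∧ ∃ k : ℤ, x'.1 = sh k (rv x.1) := by
  obtain ⟨x', hx', h1, h2⟩ := mirror_all hp hq h h' hx
  obtain ⟨B, hB⟩ := h2
  obtain ⟨e, -, he⟩ := rel_align hA hR hw hx hx' h1 (σ := -1) (Or.inr rfl) (B := B.toNat)
    (fun g hg => by rw [neg_one_mul, sub_neg_eq_add]; exact L27_toNat (hB g hg))
  refine ⟨x', hx', h1, ⟨B, hB⟩, -e, al_regular (he rfl) ?_⟩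
  rintro ⟨n, k, hn⟩
  apply hreg
  refine ⟨-n, !k, ?_⟩
  rw [← rv_rv x.1, hn, rv_sh, rv_sg]

theorem mirror_exact [Finite F] {A : Sys b F} (hA : A.Reduced) {R w : ℕ} (hR : A.BCon R)
    (hw : A.SYN w) {p q : Pt b F} (hp : p ∈ A.D) (hq : q ∈ A.D) (h : A.Rel p q)
    (h' : A.Mirror p q) {x : Pt b F} (hx : x ∈ A.D) :
    ∃ x' ∈ A.D, A.Rel x x' ∧ A.Mirror x x' ∧ ∃ k : ℤ, x'.1 = sh k (rv x.1) := by
  obtain ⟨x0, hx0, hreg⟩ := A.exists_regular_D
  obtain ⟨x0', hx0', r0, m0, k, hk⟩ := L27_regular hA hR hw hp hq h h' hx0 hreg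
  obtain ⟨g, hg, hag⟩ := approach hx0 hx
  obtain ⟨x', hx', hlim, h1, h2⟩ := L27_limit hx0' r0 m0 hg hag
  refine ⟨x', hx', h1, h2, ?_⟩
  obtain ⟨B, hB⟩ := m0
  obtain ⟨k0, hk0⟩ := L27_const (Filter.hyperfilter ℕ) (fun i => disp (g i) x0' + disp (g i) x0) B
    (fun i => hB _ (hg i))
  refine ⟨k0 + k, Subtype.ext (funext fun n => ?_)⟩
  obtain ⟨N, hN⟩ : ∃ N : ℕ, N = max n.natAbs (n + (k0 + k)).natAbs := ⟨_, rfl⟩
  obtain ⟨i, ⟨hi1, hi2⟩, hi3⟩ := (((hlim N).and (L27_ge N)).and hk0).exists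
  have e1 : x'.1.1 n = (g i x0').1.1 n := by
    refine (hi1.2 n ?_).symm
    rw [Int.abs_eq_natAbs]
    exact_mod_cast (by rw [hN]; exact le_max_left _ _)
  have e2 : (g i x0).1.1 (-(n + (k0 + k))) = x.1.1 (-(n + (k0 + k))) := by
    refine (hag N i hi2).2 _ ?_
    rw [abs_neg, Int.abs_eq_natAbs]
    exact_mod_cast (by rw [hN]; exact le_max_right _ _)
  have e3 : (g i x0').1 = sh (disp (g i) x0') x0'.1 :=
    pos_spec (sameLine_of_mem_PW (A.G_le_PW (hg i)) x0')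
  have e4 : (g i x0).1 = sh (disp (g i) x0) x0.1 :=
    pos_spec (sameLine_of_mem_PW (A.G_le_PW (hg i)) x0)
  have e5 : (g i x0').1 = sh (k0 + k) (rv (g i x0).1) := by
    rw [e3, hk, e4, rv_sh, sh_sh, sh_sh]
    congr 1
    linarith
  rw [e1, e5]
  change (!((g i x0).1.1 (-(n + (k0 + k))))) = (!(x.1.1 (-(n + (k0 + k)))))
  rw [e2]

/-- mirror pairs are aligned with the reversed line -/
theorem rel_mirror [Finite F] {A : Sys b F} (hA : A.Reduced) {R w : ℕ} (hR : A.BCon R)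
    (hw : A.SYN w) {x y : Pt b F} (hx : x ∈ A.D) (hy : y ∈ A.D) (h : A.Rel x y)
    (h' : A.Mirror x y) : ∃ e : ℤ, Al e (rv x.1) y.1 := by
  obtain ⟨B, hB⟩ := h'
  obtain ⟨e, -, he⟩ := rel_align hA hR hw hx hy h (σ := -1) (Or.inr rfl) (B := B.toNat)
    (fun g hg => by rw [neg_one_mul, sub_neg_eq_add]; exact L27_toNat (hB g hg))
  exact ⟨e, he rfl⟩

/-- M4: a mirror pair on one singular line: its points (far from the hole) are related to their
twins -/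
theorem rel_same_line [Finite F] {A : Sys b F} (hA : A.Reduced) {R w : ℕ} (hR : A.BCon R)
    (hw : A.SYN w) : ∃ D0 : ℕ, ∀ (h : Bool) (n n' : ℤ) (φ φ' : F), tw b h n φ ∈ A.D →
      tw b h n' φ' ∈ A.D → A.Rel (tw b h n φ) (tw b h n' φ') →
      A.Mirror (tw b h n φ) (tw b h n' φ') → (D0 : ℤ) ≤ |n| →
      tw b (!h) n φ ∈ A.D ∧ A.Rel (tw b h n φ) (tw b (!h) n φ) := by
  obtain ⟨D0, hD0⟩ := twin_far hA hR hw
  refine ⟨D0, fun h n n' φ φ' hu hv hrel hmir hn => ?_⟩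
  obtain ⟨v', hv', r1, m1, k, hk⟩ := mirror_exact hA hR hw hu hv hrel hmir hv
  have e1 : v' = tw b (!h) (k - n') v'.2 := by
    refine Prod.ext ?_ rfl
    change v'.1 = sh (k - n') (sg b (!h))
    rw [hk]
    change sh k (rv (sh n' (sg b h))) = _
    rw [rv_sh, rv_sg, sh_sh, sub_eq_add_neg]
  have r2 : A.Rel (tw b h n φ) v' := hrel.trans r1
  have d2 : A.Direct (tw b h n φ) v' := hmir.trans m1
  rw [e1] at r2 d2 hv'
  obtain ⟨f1, f2⟩ := hD0 h n (k - n') φ v'.2 hu hv' r2 d2 (Or.inl hn)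
  rw [← f1, ← f2] at hv' r2
  exact ⟨hv', r2⟩

/-- related twins (far from the hole) remain twins on both sides: same position and floor -/
theorem rel_twin_far [Finite F] {A : Sys b F} (hA : A.Reduced) {R w : ℕ} (hR : A.BCon R)
    (hw : A.SYN w) : ∃ D0 : ℕ, ∀ (h : Bool) (n : ℤ) (φ : F), (D0 : ℤ) ≤ |n| →
      tw b h n φ ∈ A.D → tw b (!h) n φ ∈ A.D → A.Rel (tw b h n φ) (tw b (!h) n φ) →
      ∀ g ∈ A.G, ∀ (m : ℤ) (ψ : F), (D0 : ℤ) ≤ |m| → g (tw b h n φ) = tw b h m ψ →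
        g (tw b (!h) n φ) = tw b (!h) m ψ := by
  obtain ⟨D0, hD0⟩ := twin_far hA hR hw
  obtain ⟨N, hN⟩ := twins_direct hA hR hw
  refine ⟨max D0 N, fun h n φ hn hx hx1 hrel g hg m ψ hm hgx => ?_⟩
  have hD0' : (D0 : ℤ) ≤ |m| := le_trans (by exact_mod_cast le_max_left D0 N) hm
  have hN' : (N : ℤ) ≤ |n| := le_trans (by exact_mod_cast le_max_right D0 N) hn
  have d1 := hN h (!h) n φ hN' hx hx1 hrel
  have r2 := hrel.map hg
  have d2 := d1.map hg
  have e1 := map_tw (A.G_le_PW hg) (!h) n φ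
  have hgD := A.map_mem hg hx
  have hgD1 := A.map_mem hg hx1
  rw [hgx] at r2 d2 hgD
  rw [e1] at r2 d2 hgD1 ⊢
  obtain ⟨f1, f2⟩ := hD0 h m _ ψ _ hgD hgD1 r2 d2 (Or.inl hD0')
  rw [← f1, ← f2]

end Sys

end Pool.Agent.helper98.NIG
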