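import Pool.Agent.helper2.NIG.L25
import Pool.Agent.helper2.NIG.L27

/-!
# NIG-L28: locks on half lines (M5)

`AsTwin A R δ x x1`: the points `x`, `x1` are twins far away on the side `δ`, seen along paths in the half line.

PROOFS.
* `lock_move`: let `l` be a loop of `g x` reached in `{k | k + disp g x ∈ I}`. `Reach.trans` and `Reach.inv`: `g⁻¹ * l * g` is
  reached from `x` in `I` (the path back from `l (g x) = g x`), it fixes `x`, so it fixes `y`: `l (g y) = g y`.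
* `lock_E`: suppose not: for every `c : ℕ` there are `x c, y c ∈ D`, `Lock (Icc (-c) c) (x c) (y c)`, not `E n`. Limits `p`, `q` along
  `Filter.hyperfilter ℕ`. Let `g ∈ G`, `g p = p`. For almost all `c`: `g (x c) = x c` (`fix_iff_of_agree`) and
  `Reach (x c) (Icc (-c) c) g` (`exists_reach_bounded`), so `g (y c) = y c`, and `g q = q`. `rel_of_le`: `Rel p q`, so
  `E n p q` and `E n (x c) (y c)` for almost all `c` (`E_of_agree`, `E_trans`): contradiction.
* `as_twin_far`: the path of `x` in the half line does not see the hole, `reach_congr_Icc`.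
* `lock_half`: `consts`, `m1` from `Dir_unique` for `C0`, `Q, N', B` from `exists_DR` (`w1 = w`, `q0 = m1`), `k = K (Q + w + 1)`,
  `n0` = maximum of `N'` and the numbers of `half_line_twins` and `hlimit` (for `Q`, `w1 = w`), `c` from `lock_E` for `n0`.
  (A) `SYN` at `x` gives `g0` with `c + ρ k + w ≤ δ * disp g0 x`, and `BCon` gives `g*` with `g* x = g0 x`, reached in
    `{p | -R ≤ δ p}`. `x* = g* x`, `y* = g* y`: `lock_move` gives `Lock {p | -(c + ρ k + w) ≤ δ * p} x* y*`.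
  (B) `h` = half run of `x*` (`exists_run`, `Run.hrun` with `τ = δ`). For `m ≥ 0`: `h m` is reached from `x*` in
    `{p | -(ρ k + w) ≤ δ p}` (induction, `W_reach`), `lock_move`, `lock_E`: `E n0 (h m x*) (h m y*)`.
  (C) `exists_DR` for all lengths: the sign `σ` does not depend on the length (`Dir_unique`), and
    `|disp (h m) y* - σ * disp (h m) x*| ≤ B + w` for `m ≥ 0`.
  (D) `σ = 1`: `half_line_twins` for `x*`, `y*`. If `g x* = g y*` for some `g` then `x = y`. Otherwise for every `M` there is `g` with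
    `g x*`, `g y*` twins at distance `≥ M`: `AsTwin R δ x y` (with `g * g*`). Take `x1 = y`.
  (E) `σ = -1`: `hlimit` gives `p, q ∈ D` with `Rel p q`, `Mirror p q`. `mirror_all`: `y' ∈ D`, `Rel y y'`, `Mirror y y'`. With
    `y'* = g* y'`: `E n0 (h m x*) (h m y'*)` (`E_trans`, `Rel.map`), `|disp (h m) y'* - disp (h m) x*|` is bounded. As in (D)
    for `x*`, `y'*`: `x = y'`, so `Rel x y`, or `AsTwin R δ x y'` and `Rel y' y`.
-/

namespace Pool.Agent.helper98.NIG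

variable {b : Base} {F : Type}

namespace Sys

theorem lock_move {A : Sys b F} {I : Set ℤ} (h0 : (0 : ℤ) ∈ I) {x y : Pt b F}
    (h : A.Lock I x y) {g : Equiv.Perm (Pt b F)} (hg : A.Reach x I g) :
    A.Lock {k | k + disp g x ∈ I} (g x) (g y) := by
  intro l hl hlx
  have h1 : A.Reach x I (l * g) := hg.trans hl
  have h2 : A.Reach (g x) {k | k + disp g x ∈ I} g⁻¹ := hg.inv h0
  have e : (l * g) x = g x := hlx
  have h3 : A.Reach ((l * g) x) {k | k + disp (l * g) x ∈ I} g⁻¹ := by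
    rw [e, L02_disp_congr e]
    exact h2
  have h4 := h _ (h1.trans h3) (by
    change g⁻¹ (l (g x)) = x
    rw [hlx]
    exact g.symm_apply_apply x)
  have h5 : g⁻¹ (l (g y)) = y := h4
  rw [Equiv.Perm.inv_eq_iff_eq] at h5
  exact h5

theorem Lock.mono {A : Sys b F} {I J : Set ℤ} (hIJ : I ⊆ J) {x y : Pt b F}
    (h : A.Lock J x y) : A.Lock I x y := fun g hg hx => h g (hg.mono hIJ) hx

theorem lock_E [Finite F] {A : Sys b F} (hA : A.Reduced) {R w : ℕ} (hR : A.BCon R)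
    (hw : A.SYN w) (n : ℕ) : ∃ c : ℕ, ∀ x ∈ A.D, ∀ y ∈ A.D,
      A.Lock (Set.Icc (-(c : ℤ)) c) x y → A.E n x y := by
  by_contra hcon
  push Not at hcon
  choose x hx y hy hl hE using hcon
  let U : Ultrafilter ℕ := Filter.hyperfilter ℕ
  have hUtop : (U : Filter ℕ) ≤ Filter.atTop := by
    rw [← Nat.cofinite_eq_atTop]
    exact Filter.hyperfilter_le_cofinite
  obtain ⟨p, hp⟩ := exists_ulim U x
  obtain ⟨q, hq⟩ := exists_ulim U y
  have hpD : p ∈ A.D := A.mem_D_of_ulim hp (Filter.Eventually.of_forall hx)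
  have hqD : q ∈ A.D := A.mem_D_of_ulim hq (Filter.Eventually.of_forall hy)
  have hrel : A.Rel p q := by
    refine rel_of_le hA hR hw hpD hqD fun g hg hgp => ?_
    obtain ⟨C, hC⟩ := A.exists_reach_bounded hg
    obtain ⟨ρ', hρ', -⟩ := A.G_le_PW hg
    have hlarge : ∀ᶠ i in (U : Filter ℕ), C.toNat ≤ i :=
      hUtop (Filter.eventually_ge_atTop C.toNat)
    obtain ⟨i, ⟨h1, h2⟩, h3⟩ := (((hp ρ').and (hq ρ')).and hlarge).exists
    have h4 : g (x i) = x i := (fix_iff_of_agree hρ' h1).2 hgp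
    have h5 : g (y i) = y i := by
      refine hl i g ((hC (x i)).mono (Set.Icc_subset_Icc ?_ ?_)) h4 <;> omega
    exact (fix_iff_of_agree hρ' h2).1 h5
  obtain ⟨i, h1, h2⟩ := ((hp (A.ρ * n)).and (hq (A.ρ * n))).exists
  exact hE i (E_trans (E_of_agree le_rfl h1)
    (E_trans (rel_iff.1 hrel n) (E_symm (E_of_agree le_rfl h2))))

/-- asymptotic twins on the side `δ`: the twins are seen along paths of `x` in the half line
`{p | -R ≤ δ p}` -/
def AsTwin (A : Sys b F) (R : ℕ) (δ : ℤ) (x x1 : Pt b F) : Prop :=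
  ∀ M : ℕ, ∃ g, A.Reach x {p | -(R : ℤ) ≤ δ * p} g ∧ ∃ (h : Bool) (n : ℤ) (φ : F),
    (M : ℤ) ≤ δ * n ∧ g x = tw b h n φ ∧ g x1 = tw b (!h) n φ

/-- the asymptotic twin of a point far from the hole is its twin -/
theorem as_twin_far {A : Sys b F} {R : ℕ} {δ : ℤ} (hδ : δ = 1 ∨ δ = -1) {h : Bool} {n : ℤ}
    {φ : F} (hn : (R : ℤ) + A.ρ + 1 ≤ δ * n) {x1 : Pt b F}
    (H : A.AsTwin R δ (tw b h n φ) x1) : x1 = tw b (!h) n φ := by
  obtain ⟨g, hg, h1, n1, φ1, -, e1, e2⟩ := H 0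
  have h0 : (0 : ℤ) ∈ {p : ℤ | -(R : ℤ) ≤ δ * p} := by
    change -(R : ℤ) ≤ δ * 0
    rw [mul_zero]
    linarith [Int.natCast_nonneg R]
  obtain ⟨-, h3, h4⟩ := reach_congr_Icc (x := tw b h n φ) (x' := tw b (!h) n φ) h0 rfl
    (fun i hi j hj => by
      have hi' : -(R : ℤ) ≤ δ * i := hi
      have h5 : i + j + n ≠ 0 := by
        rw [abs_le] at hj
        intro h6
        rcases hδ with rfl | rfl
        · linarith [hj.1, hj.2]
        · linarith [hj.1, hj.2]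
      change skel b h (i + j + n) = skel b (!h) (i + j + n)
      simp only [skel, if_neg h5]) hg
  have hgP := A.G_le_PW hg.mem_G
  obtain ⟨t1, t2, t3⟩ := tw_inj ((map_tw hgP h n φ).symm.trans e1)
  have e3 : g (tw b (!h) n φ) = tw b (!h1) n1 φ1 := by
    rw [map_tw hgP (!h) n φ, h3, h4, t2, t3, t1]
  exact g.injective (e2.trans e3.symm)

/-- M5: a lock on a half line -/
theorem lock_half [Finite F] {A : Sys b F} (hA : A.Reduced) {R w : ℕ} (hR : A.BCon R)
    (hw : A.SYN w) {δ : ℤ} (hδ : δ = 1 ∨ δ = -1) {x y : Pt b F} (hx : x ∈ A.D) (hy : y ∈ A.D)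
    (hl : A.Lock {p | -(R : ℤ) ≤ δ * p} x y) :
    A.Rel x y ∨ ∃ x1 ∈ A.D, A.AsTwin R δ x x1 ∧ A.Rel x1 y := by
  obtain ⟨Cs, K, C0, κ, hCs, hK, hLC⟩ := consts hR hw
  obtain ⟨m1, hm1⟩ := Dir_unique hR hw C0
  obtain ⟨Q, N', B, hQ1, hQ0, hDR⟩ := exists_DR hA hR hw hCs hK hLC w m1
  obtain ⟨n1, hn1⟩ := half_line_twins hA hR hw hCs hK Q w hQ0
  obtain ⟨n2, hn2⟩ := hlimit hR hw hCs hK Q w hQ0
  obtain ⟨n0, hn0⟩ : ∃ n0 : ℕ, n0 = max N' (max n1 n2) := ⟨_, rfl⟩
  have hn0a : N' ≤ n0 := hn0 ▸ le_max_left _ _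
  have hn0b : n1 ≤ n0 := hn0 ▸ (le_max_left _ _).trans (le_max_right _ _)
  have hn0c : n2 ≤ n0 := hn0 ▸ (le_max_right _ _).trans (le_max_right _ _)
  obtain ⟨c, hc⟩ := lock_E hA hR hw n0
  obtain ⟨k, hk⟩ : ∃ k : ℕ, k = K * (Q + w + 1) := ⟨_, rfl⟩
  have hδδ : δ * δ = 1 := by rcases hδ with rfl | rfl <;> norm_num
  -- (A)
  obtain ⟨g0, hg0, hd0⟩ : ∃ g ∈ A.G, ((c + A.ρ * k + w : ℕ) : ℤ) ≤ δ * disp g x := by
    rcases hδ with rfl | rfl
    · obtain ⟨g, hg, h1, -⟩ := hw x hx ((c + A.ρ * k + w : ℕ) : ℤ)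
      exact ⟨g, hg, by linarith⟩
    · obtain ⟨g, hg, -, h2⟩ := hw x hx (-((c + A.ρ * k + w : ℕ) : ℤ) - w)
      exact ⟨g, hg, by linarith⟩
  obtain ⟨gs, hgs, egs⟩ := hR x hx g0 hg0
  have eds := L02_disp_congr egs
  rw [← eds] at hd0
  have hgsG : gs ∈ A.G := hgs.mem_G
  have hgs' : A.Reach x {p | -(R : ℤ) ≤ δ * p} gs := by
    refine hgs.mono ?_
    rw [← eds]
    rintro p ⟨hp1, hp2⟩
    change -(R : ℤ) ≤ δ * p
    have h00 : (0 : ℤ) ≤ ((c + A.ρ * k + w : ℕ) : ℤ) := Int.natCast_nonneg _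
    rcases hδ with rfl | rfl
    · rw [min_eq_left (by linarith)] at hp1
      linarith
    · rw [max_eq_left (by linarith)] at hp2
      linarith
  have h0R : (0 : ℤ) ∈ {p : ℤ | -(R : ℤ) ≤ δ * p} := by
    change -(R : ℤ) ≤ δ * 0
    rw [mul_zero]
    linarith [Int.natCast_nonneg R]
  have hl1 : A.Lock {p | -((c + A.ρ * k + w : ℕ) : ℤ) ≤ δ * p} (gs x) (gs y) := by
    refine (lock_move h0R hl hgs').mono ?_
    intro p hp
    have hp' : -((c + A.ρ * k + w : ℕ) : ℤ) ≤ δ * p := hp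
    change -(R : ℤ) ≤ δ * (p + disp gs x)
    rw [mul_add]
    linarith [Int.natCast_nonneg R]
  have hxs : gs x ∈ A.D := A.map_mem hgsG hx
  have hys : gs y ∈ A.D := A.map_mem hgsG hy
  -- (B)
  obtain ⟨h0, hr0⟩ := exists_run hw hK Q hxs
  have hH := hr0.hrun hδ
  obtain ⟨h, hhd⟩ : ∃ h : ℤ → Equiv.Perm (Pt b F), h = fun m => h0 (δ * m) := ⟨_, rfl⟩
  rw [← hhd] at hH
  have hlow : ∀ m : ℤ, 0 ≤ m → -(w : ℤ) ≤ δ * disp (h m) (gs x) := by
    intro m hm
    have h1 := abs_le.1 (hH.near m hm)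
    have h2 : (0 : ℤ) ≤ m * Q := mul_nonneg hm (Int.natCast_nonneg _)
    rcases hδ with rfl | rfl
    · linarith [h1.1]
    · linarith [h1.2]
  have hreach : ∀ m : ℕ, A.Reach (gs x) {p | -((A.ρ * k + w : ℕ) : ℤ) ≤ δ * p} (h m) := by
    intro m
    induction m with
    | zero =>
      have e : h ((0 : ℕ) : ℤ) = 1 := hH.zero
      rw [e]
      exact Reach.one
    | succ m ih =>
      obtain ⟨u, hu, hu'⟩ := hH.step m (Int.natCast_nonneg _)
      have e : h ((m + 1 : ℕ) : ℤ) = u * h m := by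
        push_cast
        exact hu'
      rw [e]
      refine ih.trans ((W_reach hu (h m (gs x))).mono ?_)
      rintro p ⟨hp1, hp2⟩
      change -((A.ρ * k + w : ℕ) : ℤ) ≤ δ * (p + disp (h m) (gs x))
      have h1 := hlow m (Int.natCast_nonneg _)
      rw [← hk] at hp1 hp2
      rw [mul_add]
      push_cast at hp1 hp2 ⊢
      rcases hδ with rfl | rfl
      · linarith
      · linarith
  have hEs : ∀ m : ℤ, 0 ≤ m → A.E n0 (h m (gs x)) (h m (gs y)) := by
    intro m hm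
    obtain ⟨m, rfl⟩ := Int.eq_ofNat_of_zero_le hm
    have h0I : (0 : ℤ) ∈ {p : ℤ | -((c + A.ρ * k + w : ℕ) : ℤ) ≤ δ * p} := by
      change -((c + A.ρ * k + w : ℕ) : ℤ) ≤ δ * 0
      rw [mul_zero]
      linarith [Int.natCast_nonneg (c + A.ρ * k + w)]
    have hre : A.Reach (gs x) {p | -((c + A.ρ * k + w : ℕ) : ℤ) ≤ δ * p} (h m) := by
      refine (hreach m).mono ?_
      intro p hp
      have hp' : -((A.ρ * k + w : ℕ) : ℤ) ≤ δ * p := hp
      change -((c + A.ρ * k + w : ℕ) : ℤ) ≤ δ * p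
      push_cast at hp' ⊢
      linarith [Int.natCast_nonneg c]
    have hmG : h m ∈ A.G := hH.mem m (Int.natCast_nonneg _)
    refine hc _ (A.map_mem hmG hxs) _ (A.map_mem hmG hys) ((lock_move h0I hl1 hre).mono ?_)
    rintro p ⟨hp1, hp2⟩
    change -((c + A.ρ * k + w : ℕ) : ℤ) ≤ δ * (p + disp (h m) (gs x))
    have h1 := hlow m (Int.natCast_nonneg _)
    have h2 : (0 : ℤ) ≤ A.ρ * k := by positivity
    rw [mul_add]
    push_cast
    rcases hδ with rfl | rfl
    · linarith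
    · linarith
  -- (C)
  have hDRM : ∀ M : ℕ, ∃ σ : ℤ, (σ = 1 ∨ σ = -1) ∧ A.Dir C0 Q σ (gs x) (gs y) ∧
      ∀ m ≤ M, |disp (h (m : ℤ)) (gs y) - σ * δ * m * Q| ≤ B := by
    intro M
    obtain ⟨σ, hσ, h1, h2⟩ := hDR δ hδ (gs x) hxs (gs y) hys M (fun m => h (m : ℤ))
      (fun m _ => hH.mem _ (Int.natCast_nonneg _))
      (fun m _ => hH.near _ (Int.natCast_nonneg _))
      (fun m _ => by
        obtain ⟨u, hu, hu'⟩ := hH.step m (Int.natCast_nonneg _)
        refine ⟨u, hu, ?_⟩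
        push_cast
        exact hu')
      (fun m _ => E_mono hn0a (hEs _ (Int.natCast_nonneg _)))
    have e0 : h ((0 : ℕ) : ℤ) = 1 := hH.zero
    simp only [e0, disp_one, sub_zero] at h1 h2
    exact ⟨σ, hσ, h1, h2⟩
  obtain ⟨σ, hσ, hDir, -⟩ := hDRM 0
  have hdrift : ∀ m : ℤ, 0 ≤ m →
      |disp (h m) (gs y) - σ * disp (h m) (gs x)| ≤ ((B + w : ℕ) : ℤ) := by
    intro m hm
    obtain ⟨m, rfl⟩ := Int.eq_ofNat_of_zero_le hm
    obtain ⟨σ', hσ', hDir', h2⟩ := hDRM m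
    have e : σ' = σ := hm1 (gs x) hxs (gs y) Q hQ1 σ' σ hσ' hσ hDir' hDir
    rw [e] at h2
    have h3 := abs_le.1 (h2 m le_rfl)
    have h4 := abs_le.1 (hH.near m (Int.natCast_nonneg _))
    rw [abs_le]
    push_cast
    rcases hσ with rfl | rfl
    · constructor <;> linarith [h3.1, h3.2, h4.1, h4.2]
    · constructor <;> linarith [h3.1, h3.2, h4.1, h4.2]
  -- (D)
  have hfin : ∀ y' : Pt b F, y' ∈ A.D →
      (∀ m : ℤ, 0 ≤ m → A.E n0 (h m (gs x)) (h m (gs y'))) → ∀ B1 : ℕ,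
      (∀ m : ℤ, 0 ≤ m → |disp (h m) (gs y') - disp (h m) (gs x)| ≤ B1) →
      x = y' ∨ A.AsTwin R δ x y' := by
    intro y' hy' hE' B1 hB1
    by_cases hxy : x = y'
    · exact Or.inl hxy
    right
    intro M
    obtain ⟨g, hg, h1⟩ := hn1 δ hδ (gs x) hxs (gs y') (A.map_mem hgsG hy') h hH
      (fun m hm => E_mono hn0b (hE' m hm)) B1 hB1 M
    rcases h1 with h1 | ⟨hb, n, φ, hn, e1, e2⟩
    · exact absurd (gs.injective (g.injective h1)) hxy
    · refine ⟨g * gs, hgs'.trans ?_, hb, n, φ, hn, e1, e2⟩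
      obtain ⟨m, hm, v, hv, rfl⟩ := hg
      obtain ⟨m, rfl⟩ := Int.eq_ofNat_of_zero_le ((Int.natCast_nonneg _).trans hm)
      have hre : A.Reach (gs x) {p | -((A.ρ * k + w : ℕ) : ℤ) ≤ δ * p} (v * h m) := by
        refine (hreach m).trans ((W_reach hv (h m (gs x))).mono ?_)
        rintro p ⟨hp1, hp2⟩
        change -((A.ρ * k + w : ℕ) : ℤ) ≤ δ * (p + disp (h m) (gs x))
        have h1 := hlow m (Int.natCast_nonneg _)
        rw [← hk] at hp1 hp2
        rw [mul_add]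
        push_cast at hp1 hp2 ⊢
        rcases hδ with rfl | rfl
        · linarith
        · linarith
      refine hre.mono ?_
      intro p hp
      have hp' : -((A.ρ * k + w : ℕ) : ℤ) ≤ δ * p := hp
      change -(R : ℤ) ≤ δ * (p + disp gs x)
      rw [mul_add]
      push_cast at hp' hd0
      linarith [Int.natCast_nonneg R, Int.natCast_nonneg c]
  rcases hσ with rfl | rfl
  · rcases hfin y hy hEs (B + w) (fun m hm => by
      have h1 := hdrift m hm
      rw [one_mul] at h1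
      exact h1) with h1 | h1
    · left
      rw [h1]
      exact Rel.refl A y
    · exact Or.inr ⟨y, hy, h1, Rel.refl A y⟩
  -- (E)
  · obtain ⟨B2, hB2⟩ := hn2 δ hδ (gs x) hxs (gs y) hys h hH
      (fun m hm => E_mono hn0c (hEs m hm)) (-1) (B + w) (Or.inr rfl) hdrift
    obtain ⟨q, hq, U, g, hal, hUM, hgx, hgy, hrel, -, hbd⟩ := hB2 (gs x) hxs
    have hmir : A.Mirror (gs x) q := by
      refine ⟨B2, fun l hlG => ?_⟩
      obtain ⟨ρ', hρ', -⟩ := A.G_le_PW hlG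
      obtain ⟨i, ⟨h1, h2⟩, h3⟩ := (((hgx ρ').and (hgy ρ')).and (hbd l hlG)).exists
      rw [disp_eq_of_agree hρ' h1, disp_eq_of_agree hρ' h2] at h3
      have e : disp l q + disp l (gs x) = disp l q - -1 * disp l (gs x) := by ring
      rw [e]
      exact h3
    obtain ⟨y', hy', hry, hmy⟩ := mirror_all hxs hq hrel hmir hy
    obtain ⟨B3, hB3⟩ := hmy.map hgsG
    have hB30 : 0 ≤ B3 := (abs_nonneg _).trans (hB3 1 A.G.one_mem)
    obtain ⟨B3, rfl⟩ := Int.eq_ofNat_of_zero_le hB30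
    rcases hfin y' hy' (fun m hm => E_trans (hEs m hm)
      (rel_iff.1 ((hry.map hgsG).map (hH.mem m hm)) n0)) (B3 + (B + w)) (fun m hm => by
        have h1 := abs_le.1 (hdrift m hm)
        have h2 := abs_le.1 (hB3 (h m) (hH.mem m hm))
        push_cast at h1 ⊢
        rw [abs_le]
        constructor <;> linarith [h1.1, h1.2, h2.1, h2.2]) with h1 | h1
    · left
      rw [h1]
      exact hry.symm
    · exact Or.inr ⟨y', hy', h1, hry.symm⟩

end Sys

end Pool.Agent.helper98.NIG
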