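import Pool.Agent.helper98.NIG.B05

/-!
# NIG-LDefs: definitions for the part on locks (P4)

* `W n`: products of at most `n` generators.  `E n x y`: `x` and `y` are locked up to word length `n`.
* `cn x n`: signed number of the points of the orbit of `x` at positions in `[0, n)`.
* `Dir C m σ x y`: along all words of length at most `m` the counts of `x` and of `y` agree up to the
  sign `σ` and up to the error `C`.
* `BCon R`: bounded connectivity. `SYN w`: every orbit meets every window of length `w`.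
* `RW x I n g`: as `Reach`, with at most `n` steps.
* `SLR C`: strand linear recurrence.
-/

namespace Pool.Agent.helper98.NIG

variable {b : Base} {F : Type}

namespace Sys

/-- products of at most `n` generators (`1` is a generator) -/
def W (A : Sys b F) : ℕ → Set (Equiv.Perm (Pt b F))
  | 0 => {1}
  | n + 1 => {g | ∃ s ∈ A.S, ∃ h ∈ W A n, g = s * h}

/-- `x` and `y` are locked up to word length `n` -/
def E (A : Sys b F) (n : ℕ) (x y : Pt b F) : Prop := ∀ g ∈ A.W n, (g x = x ↔ g y = y)

/-- the signed number of the points of the orbit of `x` at positions in `[0, n)` -/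
noncomputable def cn (A : Sys b F) (x : Pt b F) (n : ℤ) : ℤ :=
  ({q : ℤ × F | 0 ≤ q.1 ∧ q.1 < n ∧ (sh q.1 x.1, q.2) ∈ A.orb x}.ncard : ℤ) -
    ({q : ℤ × F | n ≤ q.1 ∧ q.1 < 0 ∧ (sh q.1 x.1, q.2) ∈ A.orb x}.ncard : ℤ)

/-- the counts of `x` and `y` agree along words of length at most `m` -/
def Dir (A : Sys b F) (C m : ℕ) (σ : ℤ) (x y : Pt b F) : Prop :=
  ∀ h ∈ A.W m, |A.cn y (disp h y) - σ * A.cn x (disp h x)| ≤ C

/-- bounded connectivity: two points of an orbit are joined by a path which stays between them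
up to `R` -/
def BCon (A : Sys b F) (R : ℕ) : Prop := ∀ x ∈ A.D, ∀ g ∈ A.G, ∃ g',
  A.Reach x (Set.Icc (min 0 (disp g x) - R) (max 0 (disp g x) + R)) g' ∧ g' x = g x

/-- points of an orbit are joined by short words -/
def CONN (A : Sys b F) (K : ℕ) : Prop := ∀ x ∈ A.D, ∀ g ∈ A.G,
  ∃ g' ∈ A.W (K * ((disp g x).natAbs + 1)), g' x = g x

/-- every orbit meets every window of length `w` -/
def SYN (A : Sys b F) (w : ℕ) : Prop :=
  ∀ x ∈ A.D, ∀ n : ℤ, ∃ g ∈ A.G, n ≤ disp g x ∧ disp g x < n + w

/-- `Reach` with at most `n` steps -/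
inductive RW (A : Sys b F) (x : Pt b F) (I : Set ℤ) : ℕ → Equiv.Perm (Pt b F) → Prop
  | one (n : ℕ) : RW A x I n 1
  | step {n : ℕ} {g s : Equiv.Perm (Pt b F)} : RW A x I n g → s ∈ A.S → pos x (s (g x)) ∈ I →
      RW A x I (n + 1) (s * g)

/-- strand linear recurrence: every window of `D` of radius `N` is seen by the orbit of every point
in a window of length `C (N + 1)` -/
def SLR (A : Sys b F) (C : ℕ) : Prop :=
  ∀ x ∈ A.D, ∀ z ∈ A.D, ∀ N : ℕ, ∃ g ∈ A.G, |disp g x| ≤ C * (N + 1) ∧ Agree N (g x) z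

/-- the constants of the locking lemma: long locks have a sign -/
def LC (A : Sys b F) (C κ : ℕ) : Prop :=
  ∀ (m : ℕ), ∀ x ∈ A.D, ∀ y ∈ A.D, A.E (κ * (m + 1)) x y →
    ∃ σ : ℤ, (σ = 1 ∨ σ = -1) ∧ A.Dir C m σ x y

end Sys

end Pool.Agent.helper98.NIG
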